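import Pool.Agent.Lib.MP_e029a2_pr.HC.GDep

/-!
# Assigned seeds are active (job GAct)

Induction on `m` in `AsN`: start: `Init`.  Step: all the frogs `(ht x j, p)` are active, `Lad c (ht x j1, p) v` with `j1 = nu x y * Na + a < sl` (`slot_lt`); by `hS.act` all the frogs
`(ht x j1 + Δ, v)`, `|Δ| ≤ M`, are active; `|ht y j - ht x j1| ≤ 2 T0 ≤ M` (`ht_adj`).
`as_self`: if `As ∅ c x p`, then there is `p'` with `As {x} c x p'`: claim by induction on `m`: `AsN ∅ c m y p → As {x} c y p ∨ ∃ p', As {x} c x p'` (in the step from `y`: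
if `y = x`, both alternatives give the second one; if `y ≠ x`, then `y ∉ {x}`).
`conn_as`: claim by induction on `Conn`: `∃ p, As ∅ c x p ∧ GG c x p`: `refl`: `Gd (0, 0)` and the start seed; step: `GG c y p` gives a link to the neighbour `z`, so a seed of `z`
(`AsN` with `m + 1`), and `Gd c z` gives a seed for which `z` is good.
-/

set_option autoImplicit false

namespace FDr.HC

open MeasureTheory ProbabilityTheory
open scoped ENNReal

variable {D : ℕ} [NeZero D] {w α : Set.Ioo (0 : ℝ) 1} {S : Sht D} {M : ℕ} {κ : ℝ}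

theorem as_act (hS : LadS w α D S.n M κ S.L) (hM : 2 * T0 S.Na D ≤ M) {c : Conf D} (hi : S.Init c) {A : Set (ℕ × ℕ)}
    {x : ℕ × ℕ} {p : Fin D → ℤ} (h : S.As A c x p) : ∀ j < sl S.Na, ActC c (S.ht x j, p) := by
  obtain ⟨m, hm⟩ := h
  revert x p
  induction m with
  | zero =>
    intro x p hm j hj
    obtain ⟨h1, h2⟩ := hm
    subst h1
    subst h2
    exact hi j hj
  | succ m ih =>
    intro x p hm j hj
    obtain ⟨x', p', h1, h2, h3, h4, a, ha, h5, h6⟩ := hm
    have hj1 : nu x' x * S.Na + a < sl S.Na := slot_lt x' x ha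
    have hact := ih h1 _ hj1
    have hd := ht_adj S h4 hj1 hj
    have hd2 : |S.ht x j - S.ht x' (nu x' x * S.Na + a)| ≤ (M : ℤ) := by
      refine le_trans hd ?_
      exact_mod_cast hM
    have hfin := hS.act c (S.ht x' (nu x' x * S.Na + a), p') p hact h6 _ hd2
    have he : S.ht x' (nu x' x * S.Na + a) + (S.ht x j - S.ht x' (nu x' x * S.Na + a)) = S.ht x j := by ring
    have he2 : ((S.ht x' (nu x' x * S.Na + a), p') : Site D).1 + (S.ht x j - S.ht x' (nu x' x * S.Na + a)) = S.ht x j := he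
    rw [he2] at hfin
    exact hfin

omit [NeZero D] in
theorem as_self {c : Conf D} {x : ℕ × ℕ} {p : Fin D → ℤ} (h : S.As ∅ c x p) : ∃ p', S.As {x} c x p' := by
  obtain ⟨m, hm⟩ := h
  have key : ∀ (m : ℕ) (y : ℕ × ℕ) (p : Fin D → ℤ), S.AsN ∅ c m y p → S.As {x} c y p ∨ ∃ p', S.As {x} c x p' := by
    intro m
    induction m with
    | zero =>
      intro y p hm
      exact Or.inl ⟨0, hm⟩
    | succ m ih =>
      intro y p hm
      obtain ⟨x', p', h1, h2, h3, h4, h5⟩ := hm
      rcases ih x' p' h1 with h6 | h6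
      · by_cases hx : x' = x
        · subst hx
          exact Or.inr ⟨p', h6⟩
        · obtain ⟨m', hm'⟩ := h6
          exact Or.inl ⟨m' + 1, x', p', hm', hx, h3, h4, h5⟩
      · exact Or.inr h6
  rcases key m x p hm with h | h
  · exact ⟨p, h⟩
  · exact h

omit [NeZero D] in
theorem conn_as {c : Conf D} {x : ℕ × ℕ} (h : CO.Conn (S.Gd c) (0, 0) x) : ∃ p, S.As ∅ c x p := by
  have key : ∃ p, S.As ∅ c x p ∧ S.GG c x p := by
    induction h with
    | refl hG => exact hG ⟨S.ctr (0, 0), 0, rfl, rfl⟩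
    | step y z hc hadj hz ih =>
      obtain ⟨p, ⟨m, hm⟩, hg⟩ := ih
      obtain ⟨v, hv⟩ := hg z hadj
      exact hz ⟨v, m + 1, y, p, hm, Set.notMem_empty y, hg, hadj, hv⟩
  obtain ⟨p, h1, h2⟩ := key
  exact ⟨p, h1⟩

end FDr.HC
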