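import Pool.Agent.Lib.MP_e029a2_pr.HC.RKDef
import Pool.Agent.Lib.MP_e029a2_pr.BX.Geo

/-!
# Theorem C, recurrence: the blocks (definitions)

Sheet `S`: the blocks `x = (i, k)`, with the centre `ctr x` in `ℤ^D` and `sl` heights (slots) `ht x j`.  A seed of the block is a
point `p` near the centre such that the frogs `(ht x j, p)` are active for all the slots `j`.  The heights
`z.1 - (k + 1) T0` are never used (return frogs).
-/

set_option autoImplicit false

namespace FDr.HC

open MeasureTheory ProbabilityTheory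
open scoped ENNReal

variable {D : ℕ}

/-- the number of the slots of a class -/
def sl (Na : ℕ) : ℕ := 4 * Na

/-- the period of the rows -/
def T0 (Na D : ℕ) : ℕ := (4 * D + 1) * sl Na + 1

/-- a sheet of blocks: `n` is the radius of the boxes of the stages, `Na` the number of the attempts, `L` the ladder
relation, `z` the corner, `s` the signs of the orthant, `σ` the directions of the path -/
structure Sht (D : ℕ) where
  n : ℕ
  Na : ℕ
  L : Conf D → Site D → (Fin D → ℤ) → Prop
  z : Site D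
  s : Fin D → Bool
  σ : ℕ → Fin D

/-- the signs which push `p` towards `b` -/
def tow (b p : Fin D → ℤ) : Fin D → Bool := fun j => decide (p j ≤ b j)

/-- the number of the neighbour `y` of `x` -/
def nu (x y : ℕ × ℕ) : ℕ :=
  if y.1 = x.1 + 1 then 0 else if x.1 = y.1 + 1 then 1 else if y.2 = x.2 + 1 then 2 else 3

namespace Sht

/-- the height of the slot `j` of the block `x` -/
def ht (S : Sht D) (x : ℕ × ℕ) (j : ℕ) : ℤ :=
  S.z.1 - ((x.2 * T0 S.Na D + 1 + x.1 % (4 * D + 1) * sl S.Na + j : ℕ) : ℤ)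

/-- the centre of the block `x` -/
def ctr (S : Sht D) (x : ℕ × ℕ) : Fin D → ℤ :=
  CO.pt S.z.2 S.s fun i => (S.n + 1) * BX.us S.σ x.1 i + 2 * (S.n + 1)

/-- the cells of a block -/
def cel (S : Sht D) (x : ℕ × ℕ) : Set (Site D × ℕ) :=
  {q | (∃ j < sl S.Na, q.1.1 = S.ht x j) ∧ q.1.2 ∈ Bx (2 * (S.n + 1)) (S.ctr x)}

/-- the attempt `a` of the block `x` with the seed `p` gives the seed `v` to the block `y` -/
def Att (S : Sht D) (c : Conf D) (x y : ℕ × ℕ) (p : Fin D → ℤ) (a : ℕ) (v : Fin D → ℤ) : Prop :=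
  v ∈ Pc S.n p (S.σ (min x.1 y.1)) (tow (S.ctr y) p) ∧ S.L c (S.ht x (nu x y * S.Na + a), p) v

/-- the block `x` with the seed `p` gives the seed `v` to the block `y` -/
def Lk (S : Sht D) (c : Conf D) (x y : ℕ × ℕ) (p v : Fin D → ℤ) : Prop := ∃ a < S.Na, S.Att c x y p a v

/-- the block `x` is good for the seed `p` -/
def GG (S : Sht D) (c : Conf D) (x : ℕ × ℕ) (p : Fin D → ℤ) : Prop := ∀ y, CO.Adj x y → ∃ v, S.Lk c x y p v

/-- the seeds which are assigned after `m` steps; the blocks of the set `A` do not pass the seed on -/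
def AsN (S : Sht D) (A : Set (ℕ × ℕ)) (c : Conf D) : ℕ → ℕ × ℕ → (Fin D → ℤ) → Prop
  | 0, y, v => y = (0, 0) ∧ v = S.ctr (0, 0)
  | m + 1, y, v => ∃ x p, AsN S A c m x p ∧ x ∉ A ∧ S.GG c x p ∧ CO.Adj x y ∧ S.Lk c x y p v

/-- the assigned seeds -/
def As (S : Sht D) (A : Set (ℕ × ℕ)) (c : Conf D) (x : ℕ × ℕ) (p : Fin D → ℤ) : Prop := ∃ m, S.AsN A c m x p

/-- the good blocks: if there is an assigned seed, there is an assigned seed for which the block is good -/
def Gd (S : Sht D) (c : Conf D) (x : ℕ × ℕ) : Prop := (∃ p, S.As ∅ c x p) → ∃ p, S.As ∅ c x p ∧ S.GG c x p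

/-- the block `x` has a seed, and the frog of the seed in the slot 0 visits `y` -/
def Rch (S : Sht D) (c : Conf D) (x : ℕ × ℕ) (y : Site D) : Prop :=
  ∃ p, S.As {x} c x p ∧ (p ∈ Bx (S.n + 1) (S.ctr x) → BX.Ht c (S.ht x 0, p) y)

/-- the first ladder is active -/
def Init (S : Sht D) (c : Conf D) : Prop := ∀ j < sl S.Na, ActC c (S.ht (0, 0) j, S.ctr (0, 0))

end Sht

theorem T0_pos (Na D : ℕ) : 1 ≤ T0 Na D := Nat.le_add_left 1 _

/-- the positions of the return frogs, as blocks of BX -/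
def rp (n Na D : ℕ) : BX.Par := ⟨n + 1, T0 Na D, Nat.le_add_left 1 n, T0_pos Na D⟩

/-- the sheet which leads to `u` -/
noncomputable def Su [NeZero D] (n Na : ℕ) (L : Conf D → Site D → (Fin D → ℤ) → Prop) (z : Site D)
    (s : Fin D → Bool) (u : Fin D → ℕ) : Sht D := ⟨n, Na, L, z, s, BX.sgm u⟩

end FDr.HC
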