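import Pool.Agent.Lib.MP_e029a2_pr.HC.GGeo

/-!
# Measurability and dependence of the events of the blocks (job GDep)

Measurability: `Lk`: countable unions of `hS.meas` (`Att` is a condition without `c` and `L`); `GG`: countable intersection over `y` (`MeasurableSet.iInter` over `y` and over the proof
of `Adj x y`) of countable unions; `AsN`: induction on `m`, countable unions over `x`, `p`; `As`: union over `m`; `Gd`.
`as_box`: by induction on `m` in `AsN`: start: the centre itself; step: `pc_step`.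
`gg_dep`: `p` is in the box, so `Att` depends on cells `q` with `q.1.1 = ht x slot`, `q.1.2 ∈ Bx n p` (`hS.dep`), in `cel x` by `lad_cells`, `slot_lt`.
`as_dep`: induction on `m`: for `c`, `c'` which agree on the cells of all the `x' ∉ A`: `AsN c m x p → AsN c' m x p` (`GG` and `Lk` at `x ∉ A` with `p` in the box by `as_box`).
-/

set_option autoImplicit false

namespace FDr.HC

open MeasureTheory ProbabilityTheory
open scoped ENNReal

variable {D : ℕ} [NeZero D] {w α : Set.Ioo (0 : ℝ) 1} {S : Sht D} {M : ℕ} {κ : ℝ}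

private theorem asN_box {A : Set (ℕ × ℕ)} {c : Conf D} : ∀ (m : ℕ) {x : ℕ × ℕ} {p : Fin D → ℤ}, S.AsN A c m x p →
    p ∈ Bx (S.n + 1) (S.ctr x) := by
  intro m
  induction m with
  | zero =>
    intro x p h
    obtain ⟨rfl, rfl⟩ := h
    intro i
    simp only [sub_self, abs_zero]
    positivity
  | succ m ih =>
    intro y v h
    obtain ⟨x, p, hp, _, _, hadj, a, _, hv, _⟩ := h
    exact pc_step S hadj (ih hp) hv

theorem as_box {A : Set (ℕ × ℕ)} {c : Conf D} {x : ℕ × ℕ} {p : Fin D → ℤ} (h : S.As A c x p) :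
    p ∈ Bx (S.n + 1) (S.ctr x) := by
  obtain ⟨m, hm⟩ := h
  exact asN_box m hm

private theorem att_meas (hS : LadS w α D S.n M κ S.L) (x y : ℕ × ℕ) (p : Fin D → ℤ) (a : ℕ) (v : Fin D → ℤ) :
    MeasurableSet {c | S.Att c x y p a v} := by
  have e : {c | S.Att c x y p a v} = {c : Conf D | v ∈ Pc S.n p (S.σ (min x.1 y.1)) (tow (S.ctr y) p)} ∩
      {c | S.L c (S.ht x (nu x y * S.Na + a), p) v} := rfl
  rw [e]
  exact (MeasurableSet.const _).inter (hS.meas _ _)

private theorem lk_meas (hS : LadS w α D S.n M κ S.L) (x y : ℕ × ℕ) (p v : Fin D → ℤ) :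
    MeasurableSet {c | S.Lk c x y p v} := by
  have e : {c | S.Lk c x y p v} = ⋃ a, ⋃ (_ : a < S.Na), {c | S.Att c x y p a v} := by
    ext c
    simp only [Set.mem_ofPred_eq, Sht.Lk, Set.mem_iUnion, exists_prop]
  rw [e]
  exact MeasurableSet.iUnion fun a => MeasurableSet.iUnion fun _ => att_meas hS x y p a v

theorem gg_meas (hS : LadS w α D S.n M κ S.L) (x : ℕ × ℕ) (p : Fin D → ℤ) : MeasurableSet {c | S.GG c x p} := by
  have e : {c | S.GG c x p} = ⋂ y, ⋂ (_ : CO.Adj x y), ⋃ v, {c | S.Lk c x y p v} := by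
    ext c
    simp only [Set.mem_ofPred_eq, Sht.GG, Set.mem_iInter, Set.mem_iUnion]
  rw [e]
  exact MeasurableSet.iInter fun y => MeasurableSet.iInter fun _ => MeasurableSet.iUnion fun v => lk_meas hS x y p v

private theorem asN_meas (hS : LadS w α D S.n M κ S.L) (A : Set (ℕ × ℕ)) : ∀ (m : ℕ) (x : ℕ × ℕ) (p : Fin D → ℤ),
    MeasurableSet {c | S.AsN A c m x p} := by
  intro m
  induction m with
  | zero =>
    intro x p
    exact MeasurableSet.const _
  | succ m ih =>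
    intro y v
    have e : {c | S.AsN A c (m + 1) y v} = ⋃ x : ℕ × ℕ, ⋃ p : Fin D → ℤ, ({c | S.AsN A c m x p} ∩
        ({c : Conf D | x ∉ A} ∩ ({c | S.GG c x p} ∩ ({c : Conf D | CO.Adj x y} ∩ {c | S.Lk c x y p v})))) := by
      ext c
      simp only [Set.mem_ofPred_eq, Set.mem_iUnion, Set.mem_inter_iff]
      rfl
    rw [e]
    exact MeasurableSet.iUnion fun x => MeasurableSet.iUnion fun p => (ih x p).inter ((MeasurableSet.const _).inter
      ((gg_meas hS x p).inter ((MeasurableSet.const _).inter (lk_meas hS x y p v))))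

theorem as_meas (hS : LadS w α D S.n M κ S.L) (A : Set (ℕ × ℕ)) (x : ℕ × ℕ) (p : Fin D → ℤ) :
    MeasurableSet {c | S.As A c x p} := by
  have e : {c | S.As A c x p} = ⋃ m, {c | S.AsN A c m x p} := by
    ext c
    simp only [Set.mem_ofPred_eq, Set.mem_iUnion]
    rfl
  rw [e]
  exact MeasurableSet.iUnion fun m => asN_meas hS A m x p

private theorem lk_iff (hS : LadS w α D S.n M κ S.L) {x y : ℕ × ℕ} {p v : Fin D → ℤ} (hp : p ∈ Bx (S.n + 1) (S.ctr x))
    {c c' : Conf D} (h : ∀ q ∈ S.cel x, c q = c' q) : S.Lk c x y p v ↔ S.Lk c' x y p v := by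
  have key : ∀ a, a < S.Na → (S.L c (S.ht x (nu x y * S.Na + a), p) v = S.L c' (S.ht x (nu x y * S.Na + a), p) v) := by
    intro a ha
    exact hS.dep _ _ c c' fun q hq => h q (lad_cells S hp (slot_lt x y ha) hq)
  constructor
  · rintro ⟨a, ha, hv, hL⟩
    exact ⟨a, ha, hv, (key a ha) ▸ hL⟩
  · rintro ⟨a, ha, hv, hL⟩
    exact ⟨a, ha, hv, (key a ha).symm ▸ hL⟩

private theorem gg_iff (hS : LadS w α D S.n M κ S.L) {x : ℕ × ℕ} {p : Fin D → ℤ} (hp : p ∈ Bx (S.n + 1) (S.ctr x))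
    {c c' : Conf D} (h : ∀ q ∈ S.cel x, c q = c' q) : S.GG c x p ↔ S.GG c' x p := by
  constructor
  · intro hg y hy
    obtain ⟨v, hv⟩ := hg y hy
    exact ⟨v, (lk_iff hS hp h).1 hv⟩
  · intro hg y hy
    obtain ⟨v, hv⟩ := hg y hy
    exact ⟨v, (lk_iff hS hp h).2 hv⟩

theorem gg_dep (hS : LadS w α D S.n M κ S.L) {x : ℕ × ℕ} {p : Fin D → ℤ} (hp : p ∈ Bx (S.n + 1) (S.ctr x)) :
    Dep (S.cel x) fun c => S.GG c x p := by
  intro c c' h
  exact propext (gg_iff hS hp h)

private theorem asN_imp (hS : LadS w α D S.n M κ S.L) (A : Set (ℕ × ℕ)) {c c' : Conf D}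
    (h : ∀ q ∈ {q | ∃ x', x' ∉ A ∧ q ∈ S.cel x'}, c q = c' q) : ∀ (m : ℕ) (x : ℕ × ℕ) (p : Fin D → ℤ),
    S.AsN A c m x p → S.AsN A c' m x p := by
  intro m
  induction m with
  | zero =>
    intro x p hx
    exact hx
  | succ m ih =>
    intro y v hy
    obtain ⟨x, p, hp, hxA, hg, hadj, hl⟩ := hy
    have hb := asN_box m hp
    have hc : ∀ q ∈ S.cel x, c q = c' q := fun q hq => h q ⟨x, hxA, hq⟩
    exact ⟨x, p, ih x p hp, hxA, (gg_iff hS hb hc).1 hg, hadj, (lk_iff hS hb hc).1 hl⟩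

theorem as_dep (hS : LadS w α D S.n M κ S.L) (A : Set (ℕ × ℕ)) (x : ℕ × ℕ) (p : Fin D → ℤ) :
    Dep {q | ∃ x', x' ∉ A ∧ q ∈ S.cel x'} fun c => S.As A c x p := by
  intro c c' h
  apply propext
  constructor
  · rintro ⟨m, hm⟩
    exact ⟨m, asN_imp hS A h m x p hm⟩
  · rintro ⟨m, hm⟩
    exact ⟨m, asN_imp hS A (fun q hq => (h q hq).symm) m x p hm⟩

end FDr.HC
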