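import Pool.Agent.Lib.MP_e029a2_pr.SInd

/-!
# Two selection lemmas for independent coordinates
-/

set_option autoImplicit false

namespace FDr.HC

open MeasureTheory ProbabilityTheory
open scoped ENNReal

section sel

variable {ι β U : Type*} [MeasurableSpace β] [Nonempty β] [Countable U]

/-- `u` is the first one which satisfies `R` -/
def Fst (e : U → ℕ) (R : U → (ι → β) → Prop) (u : U) (c : ι → β) : Prop := R u c ∧ ∀ u', e u' < e u → ¬ R u' c

omit [MeasurableSpace β] [Nonempty β] [Countable U] in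
theorem fst_ex {e : U → ℕ} {R : U → (ι → β) → Prop} {c : ι → β} (h : ∃ u, R u c) : ∃ u, Fst e R u c := by
  classical
  obtain ⟨u, hu⟩ := h
  have h1 : ∃ n, ∃ u, e u = n ∧ R u c := ⟨e u, u, rfl, hu⟩
  obtain ⟨v, hv1, hv2⟩ := Nat.find_spec h1
  refine ⟨v, hv2, fun u' hu' hR => ?_⟩
  rw [hv1] at hu'
  exact Nat.find_min h1 hu' ⟨u', rfl, hR⟩

omit [MeasurableSpace β] [Nonempty β] [Countable U] in
theorem fst_inj {e : U → ℕ} (he : Function.Injective e) {R : U → (ι → β) → Prop} {c : ι → β} {u u' : U}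
    (h : Fst e R u c) (h' : Fst e R u' c) : u = u' := by
  by_contra hne
  rcases lt_trichotomy (e u) (e u') with h1 | h1 | h1
  · exact h'.2 u h1 h.1
  · exact hne (he h1)
  · exact h.2 u' h1 h'.1

omit [MeasurableSpace β] [Nonempty β] [Countable U] in
theorem fst_dep {e : U → ℕ} {R : U → (ι → β) → Prop} {S : Set ι} (h : ∀ u, Dep S (R u)) (u : U) : Dep S (Fst e R u) := by
  intro c c' hc
  have h1 : ∀ u, R u c = R u c' := fun u => h u c c' hc
  unfold Fst
  simp only [h1]

omit [Nonempty β] in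
theorem fst_meas {e : U → ℕ} {R : U → (ι → β) → Prop} (h : ∀ u, MeasurableSet {c | R u c}) (u : U) :
    MeasurableSet {c | Fst e R u c} := by
  have h1 : {c | Fst e R u c} = {c | R u c} ∩ ⋂ u' ∈ {u' | e u' < e u}, {c | R u' c}ᶜ := by
    ext c
    simp only [Set.mem_inter_iff, Set.mem_iInter]
    rfl
  rw [h1]
  exact (h u).inter (MeasurableSet.biInter (Set.to_countable _) fun u' _ => (h u').compl)

variable (μ : Measure β) [IsProbabilityMeasure μ]

/-- **Selection, lower bound.** -/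
theorem sel_ge {T0 T1 : Set ι} (hT : Disjoint T0 T1) {R B : U → (ι → β) → Prop}
    (hRm : ∀ u, MeasurableSet {c | R u c}) (hRd : ∀ u, Dep T0 (R u)) (hBm : ∀ u, MeasurableSet {c | B u c})
    (hBd : ∀ u, Dep T1 (B u)) {b : ℝ≥0∞} (hb : ∀ u, b ≤ Measure.infinitePi (fun _ : ι => μ) {c | B u c}) :
    b * Measure.infinitePi (fun _ : ι => μ) {c | ∃ u, R u c} ≤
      Measure.infinitePi (fun _ : ι => μ) {c | ∃ u, R u c ∧ B u c} := by
  obtain ⟨e, he⟩ := exists_injective_nat U
  have h1 : {c : ι → β | ∃ u, R u c} ⊆ ⋃ u, {c | Fst e R u c} := by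
    rintro c hc
    obtain ⟨u, hu⟩ := fst_ex (e := e) hc
    exact Set.mem_iUnion.2 ⟨u, hu⟩
  have h2 : (⋃ u, {c | Fst e R u c ∧ B u c}) ⊆ {c : ι → β | ∃ u, R u c ∧ B u c} := by
    intro c hc
    obtain ⟨u, h3, h4⟩ := Set.mem_iUnion.1 hc
    exact ⟨u, h3.1, h4⟩
  calc b * Measure.infinitePi (fun _ : ι => μ) {c | ∃ u, R u c}
      ≤ b * ∑' u, Measure.infinitePi (fun _ : ι => μ) {c | Fst e R u c} :=
        mul_le_mul' le_rfl ((measure_mono h1).trans (measure_iUnion_le _))
    _ = ∑' u, b * Measure.infinitePi (fun _ : ι => μ) {c | Fst e R u c} := ENNReal.tsum_mul_left.symm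
    _ ≤ ∑' u, Measure.infinitePi (fun _ : ι => μ) {c | Fst e R u c ∧ B u c} := by
        refine ENNReal.tsum_le_tsum fun u => ?_
        rw [prob_and_dep μ hT (fst_meas hRm u) (hBm u) (fst_dep hRd u) (hBd u), mul_comm]
        exact mul_le_mul' le_rfl (hb u)
    _ = Measure.infinitePi (fun _ : ι => μ) (⋃ u, {c | Fst e R u c ∧ B u c}) := by
        rw [measure_iUnion]
        · intro u u' hne
          show Disjoint _ _
          rw [Set.disjoint_left]
          exact fun c hc hc' => hne (fst_inj he hc.1 hc'.1)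
        · exact fun u => (fst_meas hRm u).inter (hBm u)
    _ ≤ _ := measure_mono h2

omit [Nonempty β] in
theorem all_meas {κ : Type*} {R B : κ → U → (ι → β) → Prop} (hRm : ∀ k u, MeasurableSet {c | R k u c})
    (hBm : ∀ k u, MeasurableSet {c | B k u c}) (F : Finset κ) :
    MeasurableSet {c | ∀ k ∈ F, (∃ u, R k u c) ∧ ∀ u, R k u c → B k u c} := by
  have h1 : {c : ι → β | ∀ k ∈ F, (∃ u, R k u c) ∧ ∀ u, R k u c → B k u c} =
      ⋂ k ∈ F, ((⋃ u, {c | R k u c}) ∩ ⋂ u, ({c | R k u c}ᶜ ∪ {c | B k u c})) := by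
    ext c
    simp only [Set.mem_iInter, Set.mem_inter_iff, Set.mem_iUnion, Set.mem_union, Set.mem_compl_iff]
    constructor
    · intro h k hk
      exact ⟨(h k hk).1, fun u => by
        by_cases h2 : R k u c
        · exact Or.inr ((h k hk).2 u h2)
        · exact Or.inl h2⟩
    · intro h k hk
      exact ⟨(h k hk).1, fun u h2 => ((h k hk).2 u).resolve_left fun h3 => h3 h2⟩
  rw [h1]
  exact Finset.measurableSet_biInter F fun k _ => (MeasurableSet.iUnion fun u => hRm k u).inter
    (MeasurableSet.iInter fun u => (hRm k u).compl.union (hBm k u))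

/-- **Selection, upper bound for a family.** -/
theorem sel_le {κ : Type*} {T0 : Set ι} {T : κ → Set ι} {R B : κ → U → (ι → β) → Prop}
    (hRm : ∀ k u, MeasurableSet {c | R k u c}) (hRd : ∀ k u, Dep T0 (R k u))
    (hBm : ∀ k u, MeasurableSet {c | B k u c}) (hBd : ∀ k u, Dep (T k) (B k u)) (F : Finset κ)
    (h0 : ∀ k ∈ F, Disjoint T0 (T k)) (hT : ∀ k ∈ F, ∀ l ∈ F, k ≠ l → Disjoint (T k) (T l)) {b : ℝ≥0∞}
    (hb : ∀ k ∈ F, ∀ u, Measure.infinitePi (fun _ : ι => μ) {c | B k u c} ≤ b) :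
    Measure.infinitePi (fun _ : ι => μ) {c | ∀ k ∈ F, (∃ u, R k u c) ∧ ∀ u, R k u c → B k u c} ≤ b ^ F.card := by
  classical
  obtain ⟨e, he⟩ := exists_injective_nat U
  have key : ∀ (F : Finset κ), (∀ k ∈ F, Disjoint T0 (T k)) → (∀ k ∈ F, ∀ l ∈ F, k ≠ l → Disjoint (T k) (T l)) →
      (∀ k ∈ F, ∀ u, Measure.infinitePi (fun _ : ι => μ) {c | B k u c} ≤ b) →
      ∀ G : (ι → β) → Prop, MeasurableSet {c | G c} → Dep T0 G →
      Measure.infinitePi (fun _ : ι => μ) {c | G c ∧ ∀ k ∈ F, (∃ u, R k u c) ∧ ∀ u, R k u c → B k u c} ≤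
        b ^ F.card * Measure.infinitePi (fun _ : ι => μ) {c | G c} := by
    intro F
    induction F using Finset.induction_on with
    | empty =>
      intro _ _ _ G _ _
      rw [Finset.card_empty, pow_zero, one_mul]
      exact measure_mono fun c hc => hc.1
    | insert a F ha ih =>
      intro h0 hT hb G hGm hGd
      have hsub : {c : ι → β | G c ∧ ∀ k ∈ insert a F, (∃ u, R k u c) ∧ ∀ u, R k u c → B k u c} ⊆
          ⋃ u, {c | (( G c ∧ Fst e (R a) u c) ∧ ∀ k ∈ F, (∃ u, R k u c) ∧ ∀ u, R k u c → B k u c) ∧ B a u c} := by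
        rintro c ⟨h1, h2⟩
        obtain ⟨h3, h4⟩ := h2 a (Finset.mem_insert_self a F)
        obtain ⟨u, hu⟩ := fst_ex (e := e) h3
        exact Set.mem_iUnion.2 ⟨u, ⟨⟨⟨h1, hu⟩, fun k hk => h2 k (Finset.mem_insert_of_mem hk)⟩, h4 u hu.1⟩⟩
      have hall := all_meas hRm hBm F
      have hGu : ∀ u, MeasurableSet {c | G c ∧ Fst e (R a) u c} := fun u => hGm.inter (fst_meas (hRm a) u)
      have hGd' : ∀ u, Dep T0 fun c => G c ∧ Fst e (R a) u c := fun u => hGd.comp₂ (fst_dep (hRd a) u) And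
      have hdep : ∀ u, Dep (T0 ∪ ⋃ k ∈ F, T k) fun c : ι → β => (G c ∧ Fst e (R a) u c) ∧
          ∀ k ∈ F, (∃ u, R k u c) ∧ ∀ u, R k u c → B k u c := by
        intro u c c' hc
        have h1 : (G c ∧ Fst e (R a) u c) = (G c' ∧ Fst e (R a) u c') := hGd' u c c' fun i hi => hc i (Or.inl hi)
        have h2 : ∀ k u, R k u c = R k u c' := fun k u => hRd k u c c' fun i hi => hc i (Or.inl hi)
        have h3 : ∀ k ∈ F, ∀ u, B k u c = B k u c' := fun k hk u =>
          hBd k u c c' fun i hi => hc i (Or.inr (Set.mem_biUnion hk hi))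
        show ((G c ∧ Fst e (R a) u c) ∧ ∀ k ∈ F, (∃ u, R k u c) ∧ ∀ u, R k u c → B k u c) =
          ((G c' ∧ Fst e (R a) u c') ∧ ∀ k ∈ F, (∃ u, R k u c') ∧ ∀ u, R k u c' → B k u c')
        rw [h1]
        congr 1
        refine propext (forall₂_congr fun k hk => ?_)
        simp only [h2, h3 k hk]
      have hdisj : Disjoint (T0 ∪ ⋃ k ∈ F, T k) (T a) := by
        rw [Set.disjoint_union_left]
        refine ⟨h0 a (Finset.mem_insert_self a F), ?_⟩
        rw [Set.disjoint_iUnion₂_left]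
        intro k hk
        refine hT k (Finset.mem_insert_of_mem hk) a (Finset.mem_insert_self a F) ?_
        rintro rfl
        exact ha hk
      calc Measure.infinitePi (fun _ : ι => μ) {c : ι → β | G c ∧ ∀ k ∈ insert a F, (∃ u, R k u c) ∧
            ∀ u, R k u c → B k u c}
          ≤ ∑' u, Measure.infinitePi (fun _ : ι => μ) {c | ((G c ∧ Fst e (R a) u c) ∧
              ∀ k ∈ F, (∃ u, R k u c) ∧ ∀ u, R k u c → B k u c) ∧ B a u c} :=
            (measure_mono hsub).trans (measure_iUnion_le _)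
        _ ≤ ∑' u, b ^ (F.card + 1) * Measure.infinitePi (fun _ : ι => μ) {c | G c ∧ Fst e (R a) u c} := by
            refine ENNReal.tsum_le_tsum fun u => ?_
            have hm : MeasurableSet {c : ι → β | (G c ∧ Fst e (R a) u c) ∧
              ∀ k ∈ F, (∃ u, R k u c) ∧ ∀ u, R k u c → B k u c} := (hGu u).inter hall
            rw [prob_and_dep μ hdisj hm (hBm a u) (hdep u) (hBd a u)]
            refine (mul_le_mul' (ih (fun k hk => h0 k (Finset.mem_insert_of_mem hk))
              (fun k hk l hl => hT k (Finset.mem_insert_of_mem hk) l (Finset.mem_insert_of_mem hl))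
              (fun k hk => hb k (Finset.mem_insert_of_mem hk)) _ (hGu u) (hGd' u))
              (hb a (Finset.mem_insert_self a F) u)).trans (le_of_eq ?_)
            ring
        _ = b ^ (F.card + 1) * ∑' u, Measure.infinitePi (fun _ : ι => μ) {c | G c ∧ Fst e (R a) u c} :=
            ENNReal.tsum_mul_left
        _ = b ^ (F.card + 1) * Measure.infinitePi (fun _ : ι => μ) (⋃ u, {c | G c ∧ Fst e (R a) u c}) := by
            rw [measure_iUnion]
            · intro u u' hne
              show Disjoint _ _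
              rw [Set.disjoint_left]
              exact fun c hc hc' => hne (fst_inj he hc.2 hc'.2)
            · exact hGu
        _ ≤ _ := by
            rw [Finset.card_insert_of_notMem ha]
            refine mul_le_mul' le_rfl (measure_mono fun c hc => ?_)
            obtain ⟨u, h1, -⟩ := Set.mem_iUnion.1 hc
            exact h1
  have h1 := key F h0 hT hb (fun _ => True) MeasurableSet.univ (fun _ _ _ => rfl)
  have h2 : {c : ι → β | True} = Set.univ := Set.eq_univ_of_forall fun _ => trivial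
  rw [h2, measure_univ, mul_one] at h1
  refine le_trans (measure_mono fun c hc => ?_) h1
  exact ⟨trivial, hc⟩

end sel

end FDr.HC
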