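import Pool.Agent.Lib.MP_e029a2_pr.HC.GDep
import Pool.Agent.Lib.MP_e029a2_pr.HC.Sel

/-!
# The field of the good blocks (job GFld)

Let `E` be the event `∀ x ∈ A, ¬ Gd c x`, i.e. for all `x ∈ A`: `(∃ p, As ∅ c x p)` and `∀ p, As ∅ c x p → ¬ GG c x p`.  On `E`: `As ∅ c y v ↔ As A c y v` for all `y`, `v` (`←`: monotone; `→`: induction
on `m` in `AsN`: in a step from `x` one has `As ∅ c x p` and `GG c x p`, so `x ∉ A`).  So `E` is contained in
`{∀ x ∈ A, (∃ p, As A c x p) ∧ ∀ p, As A c x p → B x p c}` with `B x p c := p ∈ Bx (n + 1) (ctr x) → ¬ GG c x p` or better (for the bound of the probability)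
`B x p c := p ∈ Bx (n + 1) (ctr x) ∧ ¬ GG c x p` (true because of `as_box`).  `B x p` depends on `cel x` (`gg_dep`; constant if `p` is not in the box) and has probability `≤ ofReal ε`
(`hg`; 0 if not in the box); `As A c x p` depends on the cells of the `x' ∉ A` (`as_dep`).  Conclude with `sel_le` (file HC/Sel) with `κ := ℕ × ℕ`, `F := A`,
`U := Fin D → ℤ`, `R x p := As A · x p`, `T x := cel x`, `cel_disj`; `ENNReal.ofReal_pow`.
-/

set_option autoImplicit false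

namespace FDr.HC

open MeasureTheory ProbabilityTheory
open scoped ENNReal

variable {D : ℕ} [NeZero D] {w α : Set.Ioo (0 : ℝ) 1} {S : Sht D} {M : ℕ} {κ : ℝ}

omit [NeZero D] in
private theorem GFld_mono {A : Set (ℕ × ℕ)} {c : Conf D} (m : ℕ) : ∀ (y : ℕ × ℕ) (v : Fin D → ℤ),
    S.AsN A c m y v → S.AsN ∅ c m y v := by
  induction m with
  | zero => exact fun y v h => h
  | succ m ih =>
    rintro y v ⟨x, p, h1, -, h3, h4, h5⟩
    exact ⟨x, p, ih x p h1, Set.notMem_empty x, h3, h4, h5⟩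

omit [NeZero D] in
private theorem GFld_bad {c : Conf D} {x : ℕ × ℕ} (h : ¬ S.Gd c x) :
    (∃ p, S.As ∅ c x p) ∧ ∀ p, S.As ∅ c x p → ¬ S.GG c x p := by
  unfold Sht.Gd at h
  push Not at h
  exact h

omit [NeZero D] in
private theorem GFld_as {A : Finset (ℕ × ℕ)} {c : Conf D} (hc : ∀ x ∈ A, ¬ S.Gd c x) (m : ℕ) :
    ∀ (y : ℕ × ℕ) (v : Fin D → ℤ), S.AsN ∅ c m y v → S.AsN (↑A : Set (ℕ × ℕ)) c m y v := by
  induction m with
  | zero => exact fun y v h => h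
  | succ m ih =>
    rintro y v ⟨x, p, h1, -, h3, h4, h5⟩
    refine ⟨x, p, ih x p h1, fun hx => ?_, h3, h4, h5⟩
    exact (GFld_bad (hc x (Finset.mem_coe.1 hx))).2 p ⟨m, h1⟩ h3

theorem gd_fld (hS : LadS w α D S.n M κ S.L) {ε : ℝ} (hε : 0 ≤ ε)
    (hg : ∀ x p, Q w α D {c | ¬ S.GG c x p} ≤ ENNReal.ofReal ε) (A : Finset (ℕ × ℕ)) :
    Q w α D {c | ∀ x ∈ A, ¬ S.Gd c x} ≤ ENNReal.ofReal (ε ^ A.card) := by
  have hsub : {c : Conf D | ∀ x ∈ A, ¬ S.Gd c x} ⊆ {c | ∀ x ∈ A, (∃ p, S.As (↑A : Set (ℕ × ℕ)) c x p) ∧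
      ∀ p, S.As (↑A : Set (ℕ × ℕ)) c x p → (p ∈ Bx (S.n + 1) (S.ctr x) ∧ ¬ S.GG c x p)} := by
    intro c hc x hx
    obtain ⟨⟨p, m, hp⟩, h2⟩ := GFld_bad (hc x hx)
    refine ⟨⟨p, m, GFld_as hc m x p hp⟩, fun p' hp' => ⟨as_box hp', ?_⟩⟩
    obtain ⟨m', hm'⟩ := hp'
    exact h2 p' ⟨m', GFld_mono m' x p' hm'⟩
  refine (measure_mono hsub).trans ?_
  have hdis : ∀ k ∈ A, Disjoint {q : Site D × ℕ | ∃ x', x' ∉ (↑A : Set (ℕ × ℕ)) ∧ q ∈ S.cel x'} (S.cel k) := by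
    intro k hk
    rw [Set.disjoint_left]
    rintro q ⟨x', hx', hq⟩ hq'
    have hne : x' ≠ k := by
      rintro rfl
      exact hx' (Finset.mem_coe.2 hk)
    exact Set.disjoint_left.1 (cel_disj S hne) hq hq'
  have h1 := sel_le (cellLaw w α D) (T0 := {q : Site D × ℕ | ∃ x', x' ∉ (↑A : Set (ℕ × ℕ)) ∧ q ∈ S.cel x'})
    (T := fun x => S.cel x) (R := fun x p c => S.As (↑A : Set (ℕ × ℕ)) c x p)
    (B := fun x p c => p ∈ Bx (S.n + 1) (S.ctr x) ∧ ¬ S.GG c x p)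
    (fun x p => as_meas hS (↑A) x p) (fun x p => as_dep hS (↑A) x p) (by
      intro x p
      by_cases hp : p ∈ Bx (S.n + 1) (S.ctr x)
      · have h2 : {c : Conf D | p ∈ Bx (S.n + 1) (S.ctr x) ∧ ¬ S.GG c x p} = {c | S.GG c x p}ᶜ := by
          ext c
          exact ⟨fun h => h.2, fun h => ⟨hp, h⟩⟩
        rw [h2]
        exact (gg_meas hS x p).compl
      · have h2 : {c : Conf D | p ∈ Bx (S.n + 1) (S.ctr x) ∧ ¬ S.GG c x p} = ∅ := by
          ext c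
          exact ⟨fun h => hp h.1, fun h => h.elim⟩
        rw [h2]
        exact MeasurableSet.empty) (by
      intro x p
      by_cases hp : p ∈ Bx (S.n + 1) (S.ctr x)
      · exact (gg_dep hS hp).comp fun q : Prop => p ∈ Bx (S.n + 1) (S.ctr x) ∧ ¬ q
      · intro c c' _
        show (p ∈ Bx (S.n + 1) (S.ctr x) ∧ ¬ S.GG c x p) = (p ∈ Bx (S.n + 1) (S.ctr x) ∧ ¬ S.GG c' x p)
        exact propext ⟨fun h => absurd h.1 hp, fun h => absurd h.1 hp⟩) A hdis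
    (fun k _ l _ hkl => cel_disj S hkl) (b := ENNReal.ofReal ε) (by
      intro k _ u
      exact (measure_mono fun c hc => hc.2).trans (hg k u))
  rw [ENNReal.ofReal_pow hε]
  exact h1

end FDr.HC
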