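import Pool.Agent.Lib.MP_e029a2_pr.HC.GSlot

/-!
# Geometry of the blocks
-/

set_option autoImplicit false

namespace FDr.HC

variable {D : ℕ}

private theorem GGeo_ctr (S : Sht D) (x : ℕ × ℕ) (l : Fin D) :
    S.ctr x l = S.z.2 l + sg (S.s l) * (((S.n : ℤ) + 1) * (BX.us S.σ x.1 l : ℤ) + 2 * ((S.n : ℤ) + 1)) := by
  show S.z.2 l + sg (S.s l) * (((S.n + 1) * BX.us S.σ x.1 l + 2 * (S.n + 1) : ℕ) : ℤ) = _
  push_cast
  ring

private theorem GGeo_sg (b : Bool) : sg b = 1 ∨ sg b = -1 := by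
  cases b
  · right; rfl
  · left; rfl

/-- the difference of the centres of neighbours -/
private theorem GGeo_diff (S : Sht D) {x y : ℕ × ℕ} (h : CO.Adj x y) (l : Fin D) :
    (l ≠ S.σ (min x.1 y.1) → S.ctr x l = S.ctr y l) ∧ |S.ctr x l - S.ctr y l| ≤ (S.n : ℤ) + 1 := by
  have hn : (0 : ℤ) ≤ (S.n : ℤ) + 1 := by positivity
  rw [GGeo_ctr, GGeo_ctr]
  rcases h with ⟨h1, _⟩ | ⟨_, h1 | h1⟩
  · rw [h1]
    simp [hn]
  · have hm : min x.1 y.1 = y.1 := min_eq_right (by omega)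
    rw [hm, h1, BX.us_succ]
    by_cases hl : l = S.σ y.1
    · refine ⟨fun h => absurd hl h, ?_⟩
      rw [hl, Pi.add_apply, Pi.single_eq_same]
      push_cast
      rcases GGeo_sg (S.s (S.σ y.1)) with hs | hs <;> rw [hs, abs_le] <;> constructor <;> nlinarith
    · rw [Pi.add_apply, Pi.single_eq_of_ne hl, add_zero]
      simp [hn]
  · have hm : min x.1 y.1 = x.1 := min_eq_left (by omega)
    rw [hm, h1, BX.us_succ]
    by_cases hl : l = S.σ x.1
    · refine ⟨fun h => absurd hl h, ?_⟩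
      rw [hl, Pi.add_apply, Pi.single_eq_same]
      push_cast
      rcases GGeo_sg (S.s (S.σ x.1)) with hs | hs <;> rw [hs, abs_le] <;> constructor <;> nlinarith
    · rw [Pi.add_apply, Pi.single_eq_of_ne hl, add_zero]
      simp [hn]

theorem ctr_ne (S : Sht D) {x y : ℕ × ℕ} (h : CO.Adj x y) {l : Fin D} (hl : l ≠ S.σ (min x.1 y.1)) : S.ctr x l = S.ctr y l :=
  (GGeo_diff S h l).1 hl

theorem ctr_le (S : Sht D) {x y : ℕ × ℕ} (h : CO.Adj x y) (l : Fin D) : |S.ctr x l - S.ctr y l| ≤ (S.n : ℤ) + 1 :=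
  (GGeo_diff S h l).2

theorem pc_step (S : Sht D) {x y : ℕ × ℕ} (h : CO.Adj x y) {p v : Fin D → ℤ} (hp : p ∈ Bx (S.n + 1) (S.ctr x))
    (hv : v ∈ Pc S.n p (S.σ (min x.1 y.1)) (tow (S.ctr y) p)) : v ∈ Bx (S.n + 1) (S.ctr y) := by
  intro l
  obtain ⟨h1, h2⟩ := hv
  obtain ⟨h3, h4⟩ := h2 l
  have h5 := hp l
  have h6 := ctr_le S h l
  rw [abs_le] at h5 h6
  push_cast at h5 h6 ⊢
  rw [abs_le]
  by_cases hl : l = S.σ (min x.1 y.1)
  · rw [← hl] at h1
    unfold tow at h1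
    by_cases hb : p l ≤ S.ctr y l
    · rw [decide_eq_true hb] at h1
      have : sg true = 1 := rfl
      rw [this] at h1
      constructor <;> linarith
    · rw [decide_eq_false hb] at h1
      have : sg false = -1 := rfl
      rw [this] at h1
      push Not at hb
      constructor <;> linarith
  · have h7 := ctr_ne S h hl
    have h8 := h4 hl
    unfold tow at h3 h8
    by_cases hb : p l ≤ S.ctr y l
    · rw [decide_eq_true hb] at h3 h8
      have : sg true = 1 := rfl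
      rw [this] at h3 h8
      constructor <;> linarith
    · rw [decide_eq_false hb] at h3 h8
      have : sg false = -1 := rfl
      rw [this] at h3 h8
      push Not at hb
      constructor <;> linarith

theorem lad_cells (S : Sht D) {x : ℕ × ℕ} {p : Fin D → ℤ} (hp : p ∈ Bx (S.n + 1) (S.ctr x)) {j : ℕ} (hj : j < sl S.Na)
    {q : Site D × ℕ} (hq : q.1.1 = S.ht x j ∧ q.1.2 ∈ Bx S.n p) : q ∈ S.cel x := by
  refine ⟨⟨j, hj, hq.1⟩, fun i => ?_⟩
  have h1 := hp i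
  have h2 := hq.2 i
  rw [abs_le] at h1 h2 ⊢
  push_cast at h1 h2 ⊢
  constructor <;> linarith

private theorem GGeo_mono (σ : ℕ → Fin D) {i j : ℕ} (h : i ≤ j) (l : Fin D) : BX.us σ i l ≤ BX.us σ j l := by
  induction j, h using Nat.le_induction with
  | base => exact le_rfl
  | succ k _ ih => exact ih.trans (BX.us_step σ k l).1

/-- two blocks of the same class in the same row are far -/
private theorem GGeo_far (S : Sht D) {x y : ℕ × ℕ} (h : x.1 + (4 * D + 1) ≤ y.1) {v : Fin D → ℤ}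
    (h1 : v ∈ Bx (2 * (S.n + 1)) (S.ctr x)) (h2 : v ∈ Bx (2 * (S.n + 1)) (S.ctr y)) : False := by
  obtain ⟨l, hl⟩ : ∃ l : Fin D, BX.us S.σ x.1 l + 5 ≤ BX.us S.σ y.1 l := by
    by_contra hc
    push Not at hc
    have h3 : ∑ l, BX.us S.σ y.1 l ≤ ∑ l, (BX.us S.σ x.1 l + 4) := Finset.sum_le_sum fun l _ => by
      have := hc l
      omega
    rw [Finset.sum_add_distrib, BX.us_sum, BX.us_sum, Finset.sum_const, Finset.card_univ, Fintype.card_fin, smul_eq_mul] at h3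
    omega
  have h3 := h1 l
  have h4 := h2 l
  rw [GGeo_ctr] at h3 h4
  have h5 : (BX.us S.σ x.1 l : ℤ) + 5 ≤ BX.us S.σ y.1 l := by exact_mod_cast hl
  have hn : (0 : ℤ) ≤ S.n := Int.natCast_nonneg _
  rw [abs_le] at h3 h4
  push_cast at h3 h4
  rcases GGeo_sg (S.s l) with hs | hs <;> rw [hs] at h3 h4 <;> nlinarith

theorem cel_disj (S : Sht D) {x y : ℕ × ℕ} (h : x ≠ y) : Disjoint (S.cel x) (S.cel y) := by
  rw [Set.disjoint_left]
  rintro q ⟨⟨j, hj, e⟩, h1⟩ ⟨⟨j', hj', e'⟩, h2⟩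
  obtain ⟨h3, h4⟩ := ht_eq S hj hj' (e.symm.trans e')
  have h5 : x.1 ≠ y.1 := fun h5 => h (Prod.ext h5 h3)
  have h6 : ∀ i k : ℕ, i < k → i % (4 * D + 1) = k % (4 * D + 1) → i + (4 * D + 1) ≤ k := by
    intro i k hik hm
    have h7 : (4 * D + 1) ∣ k - i := (Nat.modEq_iff_dvd' hik.le).1 hm
    have h8 := Nat.le_of_dvd (by omega) h7
    omega
  rcases lt_or_gt_of_ne h5 with h7 | h7
  · exact GGeo_far S (h6 _ _ h7 h4) h1 h2
  · exact GGeo_far S (h6 _ _ h7 h4.symm) h2 h1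

theorem cel_or (S : Sht D) {x : ℕ × ℕ} {q : Site D × ℕ} (hq : q ∈ S.cel x) : q.1.2 ∈ CO.Or S.z.2 S.s := by
  refine CO.pt_range S.z.2 S.s q.1.2 fun i => ?_
  have h1 := hq.2 i
  rw [GGeo_ctr, abs_le] at h1
  push_cast at h1
  have h2 : (0 : ℤ) ≤ ((S.n : ℤ) + 1) * (BX.us S.σ x.1 i : ℤ) := by positivity
  rcases GGeo_sg (S.s i) with hs | hs <;> rw [hs] at h1 ⊢ <;> linarith

theorem init_blk (S : Sht D) {j : ℕ} (hj : j < sl S.Na) (p : BX.Par) (hN : 3 * (S.n + 1) ≤ p.N) (hM : T0 S.Na D ≤ p.M) :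
    (S.ht (0, 0) j, S.ctr (0, 0)) ∈ BX.Blk p S.z S.s 0 0 := by
  refine ⟨?_, fun i => ?_⟩
  · show S.z.1 - (((0 : ℕ) : ℤ) + 1) * p.M ≤ S.ht (0, 0) j ∧ S.ht (0, 0) j < S.z.1 - ((0 : ℕ) : ℤ) * p.M
    have h1 : S.ht (0, 0) j = S.z.1 - (1 + (j : ℤ)) := by
      unfold Sht.ht
      simp
    have h2 : j + 1 ≤ T0 S.Na D := by
      have h3 : 1 * sl S.Na ≤ (4 * D + 1) * sl S.Na := Nat.mul_le_mul_right _ (by omega)
      unfold T0
      omega
    have h4 : ((j + 1 : ℕ) : ℤ) ≤ p.M := by exact_mod_cast h2.trans hM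
    push_cast at h4 ⊢
    rw [h1]
    constructor <;> linarith
  · show (p.N : ℤ) * ((0 : Fin D → ℕ) i : ℕ) ≤ sg (S.s i) * (S.ctr (0, 0) i - S.z.2 i) ∧
      sg (S.s i) * (S.ctr (0, 0) i - S.z.2 i) < (p.N : ℤ) * (((0 : Fin D → ℕ) i : ℕ) + 1)
    have h1 : S.ctr (0, 0) i - S.z.2 i = sg (S.s i) * (2 * ((S.n : ℤ) + 1)) := by
      rw [GGeo_ctr, BX.us_zero]
      simp
    have h2 : ((3 * (S.n + 1) : ℕ) : ℤ) ≤ p.N := by exact_mod_cast hN
    have h3 : (0 : ℤ) ≤ S.n := Int.natCast_nonneg _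
    rw [h1, ← mul_assoc, CO.sg_mul_sg, one_mul]
    simp only [Pi.zero_apply]
    push_cast at h2 ⊢
    constructor <;> linarith

theorem rf_near [NeZero D] (n Na : ℕ) (hNa : 1 ≤ Na) (L : Conf D → Site D → (Fin D → ℤ) → Prop) (z : Site D) (s : Fin D → Bool)
    (u : Fin D → ℕ) (k : ℕ) {p : Fin D → ℤ} (hp : p ∈ Bx (n + 1) ((Su n Na L z s u).ctr (∑ i, u i, k))) :
    |(BX.rf (rp n Na D) z s u k).1 - (Su n Na L z s u).ht (∑ i, u i, k) 0| ≤ T0 Na D ∧
      ∀ i, |(BX.rf (rp n Na D) z s u k).2 i - p i| ≤ 3 * ((n : ℤ) + 1) := by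
  constructor
  · exact ht_row (Su n Na L z s u) (∑ i, u i, k) (j := 0) (by
      show 0 < 4 * Na
      omega)
  · intro i
    have h1 := hp i
    rw [GGeo_ctr] at h1
    have h2 : BX.us (Su n Na L z s u).σ (∑ i, u i) = u := BX.sgm_spec u
    simp only [h2] at h1
    have h3 : (BX.rf (rp n Na D) z s u k).2 i = z.2 i + sg (s i) * (((n : ℤ) + 1) * u i) := by
      show z.2 i + sg (s i) * (((n + 1) * u i : ℕ) : ℤ) = _
      push_cast
      ring
    rw [h3]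
    have h4 : |p i - (z.2 i + sg (s i) * (((n : ℤ) + 1) * u i + 2 * ((n : ℤ) + 1)))| ≤ (n : ℤ) + 1 := by
      have := h1
      push_cast at this
      exact this
    have hn : (0 : ℤ) ≤ n := Int.natCast_nonneg _
    rw [abs_le] at h4 ⊢
    rcases GGeo_sg (s i) with hs | hs <;> rw [hs] at h4 ⊢ <;> constructor <;> linarith

end FDr.HC
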