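import Pool.Agent.Lib.MP_e029a2_pr.CO.Perc

/-!
# Percolation for fields without independence (job GPerc)

Compare `CO.perc` (`CO/Perc.lean`), the same for independent blocks.  By induction on `n`: for every finite set `Q` of boxes of the scale `n`,
`P {all boxes of Q are bad} ≤ (bd n) ^ Q.card` (every bad box of the scale `n + 1` contains two different bad boxes of the scale `n`).
-/

set_option autoImplicit false

namespace FDr.CO

open MeasureTheory ProbabilityTheory
open scoped ENNReal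

private theorem par5_sub5 (q : ℕ × ℕ) (a : Fin 5 × Fin 5) : par5 (sub5 q a) = q := by
  obtain ⟨⟨i, hi⟩, ⟨j, hj⟩⟩ := a
  refine Prod.ext ?_ ?_
  · show (5 * q.1 + i) / 5 = q.1
    omega
  · show (5 * q.2 + j) / 5 = q.2
    omega

private theorem far_ne {p p' : ℕ × ℕ} (h : Far p p') : p ≠ p' := by
  rintro rfl
  unfold Far at h
  omega

private theorem bad_many {Ω : Type*} [MeasurableSpace Ω] (P : Measure Ω) (G : Ω → ℕ × ℕ → Prop)
    (h : ∀ A : Finset (ℕ × ℕ), P {c | ∀ x ∈ A, ¬ G c x} ≤ ENNReal.ofReal ((1 / 100000) ^ A.card)) (n : ℕ) :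
    ∀ Q : Finset (ℕ × ℕ), P {c | ∀ q ∈ Q, BadB (G c) n q} ≤ ENNReal.ofReal (bd n ^ Q.card) := by
  classical
  induction n with
  | zero =>
    intro Q
    have e1 : bd 0 = 1 / 100000 := by
      unfold bd
      norm_num
    rw [e1]
    exact h Q
  | succ n ih =>
    intro Q
    have h1 : {c | ∀ q ∈ Q, BadB (G c) (n + 1) q} ⊆ ⋃ f : (↥Q → (Fin 5 × Fin 5) × (Fin 5 × Fin 5)),
        {c | ∀ q : ↥Q, Far (sub5 q (f q).1) (sub5 q (f q).2) ∧ BadB (G c) n (sub5 q (f q).1) ∧
          BadB (G c) n (sub5 q (f q).2)} := by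
      intro c hc
      have h2 : ∀ q : ↥Q, ∃ a : (Fin 5 × Fin 5) × (Fin 5 × Fin 5), Far (sub5 q a.1) (sub5 q a.2) ∧
          BadB (G c) n (sub5 q a.1) ∧ BadB (G c) n (sub5 q a.2) := by
        intro q
        obtain ⟨p, p', hpq, hpq', hf, hb, hb'⟩ := hc q q.2
        obtain ⟨a, rfl⟩ := exists_sub5 hpq
        obtain ⟨a', rfl⟩ := exists_sub5 hpq'
        exact ⟨(a, a'), hf, hb, hb'⟩
      choose f hf using h2
      exact Set.mem_iUnion.2 ⟨f, hf⟩
    have h2 : ∀ f : (↥Q → (Fin 5 × Fin 5) × (Fin 5 × Fin 5)), P {c | ∀ q : ↥Q, Far (sub5 q (f q).1) (sub5 q (f q).2) ∧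
        BadB (G c) n (sub5 q (f q).1) ∧ BadB (G c) n (sub5 q (f q).2)} ≤ ENNReal.ofReal ((bd n * bd n) ^ Q.card) := by
      intro f
      by_cases hf : ∀ q : ↥Q, Far (sub5 q (f q).1) (sub5 q (f q).2)
      · obtain ⟨Q1, hQ1⟩ : ∃ Q1 : Finset (ℕ × ℕ), Q1 = Finset.image (fun q : ↥Q => sub5 (q : ℕ × ℕ) (f q).1) Finset.univ := ⟨_, rfl⟩
        obtain ⟨Q2, hQ2⟩ : ∃ Q2 : Finset (ℕ × ℕ), Q2 = Finset.image (fun q : ↥Q => sub5 (q : ℕ × ℕ) (f q).2) Finset.univ := ⟨_, rfl⟩
        have c1 : Q1.card = Q.card := by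
          rw [hQ1, Finset.card_image_of_injective, Finset.card_univ, Fintype.card_coe]
          intro q q' hqq
          have h3 := congrArg par5 hqq
          simp only [par5_sub5] at h3
          exact Subtype.ext h3
        have c2 : Q2.card = Q.card := by
          rw [hQ2, Finset.card_image_of_injective, Finset.card_univ, Fintype.card_coe]
          intro q q' hqq
          have h3 := congrArg par5 hqq
          simp only [par5_sub5] at h3
          exact Subtype.ext h3
        have c3 : Disjoint Q1 Q2 := by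
          rw [Finset.disjoint_left]
          intro p hp hp'
          rw [hQ1, Finset.mem_image] at hp
          rw [hQ2, Finset.mem_image] at hp'
          obtain ⟨q, -, hq⟩ := hp
          obtain ⟨q', -, hq'⟩ := hp'
          have h3 : (q : ℕ × ℕ) = q' := by
            rw [← par5_sub5 (q : ℕ × ℕ) (f q).1, ← par5_sub5 (q' : ℕ × ℕ) (f q').2, hq, hq']
          have h4 : q = q' := Subtype.ext h3
          subst h4
          exact far_ne (hf q) (hq.trans hq'.symm)
        have c4 : (Q1 ∪ Q2).card = 2 * Q.card := by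
          rw [Finset.card_union_of_disjoint c3, c1, c2]
          ring
        have h5 := ih (Q1 ∪ Q2)
        rw [c4, pow_mul, pow_two] at h5
        refine le_trans (measure_mono ?_) h5
        intro c hc p hp
        rw [Finset.mem_union] at hp
        rcases hp with hp | hp
        · rw [hQ1, Finset.mem_image] at hp
          obtain ⟨q, -, rfl⟩ := hp
          exact (hc q).2.1
        · rw [hQ2, Finset.mem_image] at hp
          obtain ⟨q, -, rfl⟩ := hp
          exact (hc q).2.2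
      · have e1 : {c | ∀ q : ↥Q, Far (sub5 q (f q).1) (sub5 q (f q).2) ∧ BadB (G c) n (sub5 q (f q).1) ∧
            BadB (G c) n (sub5 q (f q).2)} = ∅ :=
          Set.eq_empty_of_forall_notMem fun c hc => hf fun q => (hc q).1
        rw [e1, measure_empty]
        exact zero_le
    calc P {c | ∀ q ∈ Q, BadB (G c) (n + 1) q}
        ≤ P (⋃ f : (↥Q → (Fin 5 × Fin 5) × (Fin 5 × Fin 5)),
          {c | ∀ q : ↥Q, Far (sub5 q (f q).1) (sub5 q (f q).2) ∧ BadB (G c) n (sub5 q (f q).1) ∧
            BadB (G c) n (sub5 q (f q).2)}) := measure_mono h1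
      _ ≤ ∑ f : (↥Q → (Fin 5 × Fin 5) × (Fin 5 × Fin 5)), P {c | ∀ q : ↥Q, Far (sub5 q (f q).1) (sub5 q (f q).2) ∧
          BadB (G c) n (sub5 q (f q).1) ∧ BadB (G c) n (sub5 q (f q).2)} := measure_iUnion_fintype_le _ _
      _ ≤ ∑ _f : (↥Q → (Fin 5 × Fin 5) × (Fin 5 × Fin 5)), ENNReal.ofReal ((bd n * bd n) ^ Q.card) :=
          Finset.sum_le_sum fun f _ => h2 f
      _ = ENNReal.ofReal ((625 * (bd n * bd n)) ^ Q.card) := by
          have h3 : Fintype.card (↥Q → (Fin 5 × Fin 5) × (Fin 5 × Fin 5)) = 625 ^ Q.card := by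
            rw [Fintype.card_fun]
            simp [Fintype.card_prod]
          rw [Finset.sum_const, Finset.card_univ, nsmul_eq_mul, h3, mul_pow 625 (bd n * bd n),
            ENNReal.ofReal_mul (by positivity : (0 : ℝ) ≤ 625 ^ Q.card), ENNReal.ofReal_pow (by norm_num : (0 : ℝ) ≤ 625)]
          norm_num
      _ ≤ ENNReal.ofReal (bd (n + 1) ^ Q.card) := by
          refine ENNReal.ofReal_le_ofReal ?_
          have h3 := bd_pos n
          exact pow_le_pow_left₀ (by positivity) (bd_succ n) _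

theorem perc_fld {Ω : Type*} [MeasurableSpace Ω] (P : Measure Ω) [IsProbabilityMeasure P] (G : Ω → ℕ × ℕ → Prop)
    (h : ∀ A : Finset (ℕ × ℕ), P {c | ∀ x ∈ A, ¬ G c x} ≤ ENNReal.ofReal ((1 / 100000) ^ A.card)) (x y : ℕ × ℕ) :
    1 / 2 ≤ P {c | Conn (G c) x y} := by
  obtain ⟨M, hM⟩ := exists_bx x y
  have hb : ∀ n q, P {c | BadB (G c) n q} ≤ ENNReal.ofReal (bd n) := by
    intro n q
    have h1 := bad_many P G h n {q}
    simpa using h1
  -- the failure event
  have h1 : {c | Conn (G c) x y}ᶜ ⊆ {c | BadB (G c) M (bx M x)} ∪ ⋃ n ∈ Finset.range M, ⋃ a : (Fin 5 × Fin 5) × Bool,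
      {c | BadB (G c) n (sub5 (bx (n + 1) (if a.2 then x else y)) a.1)} := by
    intro c hc
    by_contra hcon
    rw [Set.mem_union, not_or] at hcon
    obtain ⟨g1, g2⟩ := hcon
    have g3 : ∀ n < M, ∀ a : (Fin 5 × Fin 5) × Bool, ¬BadB (G c) n (sub5 (bx (n + 1) (if a.2 then x else y)) a.1) := by
      intro n hn a h
      refine g2 (Set.mem_iUnion₂.2 ⟨n, Finset.mem_range.2 hn, Set.mem_iUnion.2 ⟨a, h⟩⟩)
    refine hc (conn_of_good x y M hM g1 (fun n hn p hp => ?_) fun n hn p hp => ?_)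
    · obtain ⟨a, rfl⟩ := exists_sub5 hp
      exact g3 n hn (a, true)
    · obtain ⟨a, rfl⟩ := exists_sub5 hp
      exact g3 n hn (a, false)
  have h2 : P {c | Conn (G c) x y}ᶜ ≤ ENNReal.ofReal (1 / 2) := by
    calc P {c | Conn (G c) x y}ᶜ ≤ P ({c | BadB (G c) M (bx M x)} ∪ ⋃ n ∈ Finset.range M,
          ⋃ a : (Fin 5 × Fin 5) × Bool, {c | BadB (G c) n (sub5 (bx (n + 1) (if a.2 then x else y)) a.1)}) :=
          measure_mono h1
      _ ≤ P {c | BadB (G c) M (bx M x)} + P (⋃ n ∈ Finset.range M, ⋃ a : (Fin 5 × Fin 5) × Bool,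
          {c | BadB (G c) n (sub5 (bx (n + 1) (if a.2 then x else y)) a.1)}) := measure_union_le _ _
      _ ≤ ENNReal.ofReal (bd M) + ∑ n ∈ Finset.range M, P (⋃ a : (Fin 5 × Fin 5) × Bool,
          {c | BadB (G c) n (sub5 (bx (n + 1) (if a.2 then x else y)) a.1)}) :=
          add_le_add (hb M _) (measure_biUnion_finset_le _ _)
      _ ≤ ENNReal.ofReal (bd M) + ∑ n ∈ Finset.range M, ENNReal.ofReal (50 * bd n) := by
          refine add_le_add le_rfl (Finset.sum_le_sum fun n _ => ?_)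
          calc P (⋃ a : (Fin 5 × Fin 5) × Bool, {c | BadB (G c) n (sub5 (bx (n + 1) (if a.2 then x else y)) a.1)})
              ≤ ∑ a : (Fin 5 × Fin 5) × Bool, P {c | BadB (G c) n (sub5 (bx (n + 1) (if a.2 then x else y)) a.1)} :=
                measure_iUnion_fintype_le _ _
            _ ≤ ∑ _a : (Fin 5 × Fin 5) × Bool, ENNReal.ofReal (bd n) := Finset.sum_le_sum fun a _ => hb n _
            _ = ENNReal.ofReal (50 * bd n) := by
                rw [Finset.sum_const, Finset.card_univ, nsmul_eq_mul, ENNReal.ofReal_mul (by norm_num : (0 : ℝ) ≤ 50)]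
                have h3 : Fintype.card ((Fin 5 × Fin 5) × Bool) = 50 := by
                  simp [Fintype.card_prod]
                rw [h3]
                norm_num
      _ = ENNReal.ofReal (bd M + ∑ n ∈ Finset.range M, 50 * bd n) := by
          rw [ENNReal.ofReal_add (bd_pos M).le (Finset.sum_nonneg fun n _ => by have := bd_pos n; positivity),
            ENNReal.ofReal_sum_of_nonneg fun n _ => by have := bd_pos n; positivity]
      _ ≤ ENNReal.ofReal (1 / 2) := by
          refine ENNReal.ofReal_le_ofReal ?_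
          rw [← Finset.mul_sum]
          have h3 := bd_sum M
          have h4 : bd M ≤ 1 / 100000 := by
            unfold bd
            have : ((1 : ℝ) / 2) ^ M ≤ 1 := pow_le_one₀ (by norm_num) (by norm_num)
            linarith
          linarith
  have h3 : (1 : ℝ≥0∞) ≤ P {c | Conn (G c) x y} + P {c | Conn (G c) x y}ᶜ := by
    rw [← measure_univ (μ := P), ← Set.union_compl_self {c | Conn (G c) x y}]
    exact measure_union_le _ _
  have h4 : (1 : ℝ≥0∞) / 2 = ENNReal.ofReal (1 / 2) := by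
    rw [ENNReal.ofReal_div_of_pos (by norm_num), ENNReal.ofReal_one, ENNReal.ofReal_ofNat]
  have h5 : (1 : ℝ≥0∞) = 1 / 2 + 1 / 2 := (ENNReal.add_halves 1).symm
  by_contra hcon
  rw [not_le] at hcon
  have h6 : P {c | Conn (G c) x y} + P {c | Conn (G c) x y}ᶜ < 1 / 2 + 1 / 2 := by
    refine ENNReal.add_lt_add_of_lt_of_le (ne_top_of_le_ne_top ENNReal.one_ne_top prob_le_one) hcon ?_
    rw [h4]
    exact h2
  rw [← h5] at h6
  exact absurd h3 (not_le.2 h6)

end FDr.CO
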