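import Pool.Agent.Lib.MP_e029a2_pr.HC.GSlot
import Pool.Agent.Lib.MP_e029a2_pr.CB.Est

/-!
# The probability of a good block (job GProb)

`¬ GG S c x p` implies: for some neighbour `y` (at most 4, `adj_fin`) for all `a < Na`, `v`: `¬ Att c x y p a v`.  For fixed `y` the events
`E a = {c | ¬ ∃ v ∈ Pc .., L c (ht x (nu x y * Na + a), p) v}`, `a < Na`, depend on different hyperplanes (`hS.dep`, `ht_inj`), and `Q (E a) ≤ 1 - κ` (`hS.piece`; complement
of a measurable event, `prob_compl_eq_one_sub`).  So the probability is at most `(1 - κ) ^ Na` (product formula for independent events: `CB.prod_dep'` in `CB/Est.lean`,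
look at its exact form, it is used in `BX/GoodB.lean` in the same way; or induction on `Na` with `prob_and_dep`).  Sum over the neighbours: `4 (1 - κ) ^ Na ≤ ε`.
-/

set_option autoImplicit false

namespace FDr.HC

open MeasureTheory ProbabilityTheory
open scoped ENNReal

variable {D : ℕ} [NeZero D]

private theorem gprob_meas {w α : Set.Ioo (0 : ℝ) 1} {n M : ℕ} {κ : ℝ} {L : Conf D → Site D → (Fin D → ℤ) → Prop}
    (hS : LadS w α D n M κ L) (P : Set (Fin D → ℤ)) (z : Site D) :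
    MeasurableSet {c : Conf D | ∃ u ∈ P, L c z u} := by
  have h1 : {c : Conf D | ∃ u ∈ P, L c z u} = ⋃ u ∈ P, {c | L c z u} := by
    ext c
    simp only [Set.mem_iUnion, exists_prop]
    rfl
  rw [h1]
  exact MeasurableSet.biUnion (Set.to_countable _) fun u _ => hS.meas z u

private theorem gprob_piece {w α : Set.Ioo (0 : ℝ) 1} {n M : ℕ} {κ : ℝ} {L : Conf D → Site D → (Fin D → ℤ) → Prop}
    (hS : LadS w α D n M κ L) (hκ0 : 0 < κ) (hκ1 : κ ≤ 1) (z : Site D) (i : Fin D) (σ : Fin D → Bool) :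
    Q w α D {c | ¬ ∃ u ∈ Pc n z.2 i σ, L c z u} ≤ ENNReal.ofReal (1 - κ) := by
  have h1 : {c : Conf D | ¬ ∃ u ∈ Pc n z.2 i σ, L c z u} = {c : Conf D | ∃ u ∈ Pc n z.2 i σ, L c z u}ᶜ := rfl
  rw [h1, prob_compl_eq_one_sub (gprob_meas hS _ z), ENNReal.ofReal_sub _ hκ0.le, ENNReal.ofReal_one]
  exact tsub_le_tsub_left (hS.piece z i σ) 1

theorem gg_prob {w α : Set.Ioo (0 : ℝ) 1} {S : Sht D} {M : ℕ} {κ : ℝ} (hS : LadS w α D S.n M κ S.L) (hκ0 : 0 < κ) (hκ1 : κ ≤ 1)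
    {ε : ℝ} (hε : 4 * (1 - κ) ^ S.Na ≤ ε) (x : ℕ × ℕ) (p : Fin D → ℤ) :
    Q w α D {c | ¬ S.GG c x p} ≤ ENNReal.ofReal ε := by
  obtain ⟨F, hF, hadj⟩ := adj_fin x
  have h1 : {c | ¬ S.GG c x p} ⊆ ⋃ y ∈ F, {c | ∀ a ∈ Finset.range S.Na,
      ¬ ∃ v ∈ Pc S.n p (S.σ (min x.1 y.1)) (tow (S.ctr y) p), S.L c (S.ht x (nu x y * S.Na + a), p) v} := by
    intro c hc
    have hc' : ¬ ∀ y, CO.Adj x y → ∃ v, S.Lk c x y p v := hc
    push Not at hc'
    obtain ⟨y, hy, hv⟩ := hc'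
    refine Set.mem_biUnion (hadj y hy) ?_
    intro a ha hex
    obtain ⟨v, hv1, hv2⟩ := hex
    exact hv v ⟨a, Finset.mem_range.1 ha, hv1, hv2⟩
  have h2 : ∀ y ∈ F, Q w α D {c | ∀ a ∈ Finset.range S.Na,
      ¬ ∃ v ∈ Pc S.n p (S.σ (min x.1 y.1)) (tow (S.ctr y) p), S.L c (S.ht x (nu x y * S.Na + a), p) v} ≤
      ENNReal.ofReal ((1 - κ) ^ S.Na) := by
    intro y _
    have h3 : Q w α D {c | ∀ a ∈ Finset.range S.Na,
      ¬ ∃ v ∈ Pc S.n p (S.σ (min x.1 y.1)) (tow (S.ctr y) p), S.L c (S.ht x (nu x y * S.Na + a), p) v} =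
      ∏ a ∈ Finset.range S.Na, Q w α D {c | ¬ ∃ v ∈ Pc S.n p (S.σ (min x.1 y.1)) (tow (S.ctr y) p),
        S.L c (S.ht x (nu x y * S.Na + a), p) v} := by
      refine CB.prod_dep' (cellLaw w α D) (Finset.range S.Na)
        (fun a => {q : Site D × ℕ | q.1.1 = S.ht x (nu x y * S.Na + a) ∧ q.1.2 ∈ Bx S.n p}) ?_
        (fun a c => ¬ ∃ v ∈ Pc S.n p (S.σ (min x.1 y.1)) (tow (S.ctr y) p),
          S.L c (S.ht x (nu x y * S.Na + a), p) v) ?_ ?_
      · intro a _ a' _ hne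
        rw [Set.disjoint_left]
        rintro q ⟨hq, _⟩ ⟨hq', _⟩
        rw [hq] at hq'
        have h4 := ht_inj S hq'
        exact hne (Nat.add_left_cancel h4)
      · intro a _
        exact (gprob_meas hS _ _).compl
      · intro a _ c c' hc
        refine propext (not_congr (exists_congr fun v => and_congr_right fun _ => ?_))
        have h4 : S.L c (S.ht x (nu x y * S.Na + a), p) v = S.L c' (S.ht x (nu x y * S.Na + a), p) v :=
          hS.dep (S.ht x (nu x y * S.Na + a), p) v c c' hc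
        rw [h4]
    rw [h3, ENNReal.ofReal_pow (by linarith), ← Finset.card_range S.Na, ← Finset.prod_const,
      Finset.card_range S.Na]
    refine Finset.prod_le_prod' fun a _ => ?_
    exact gprob_piece hS hκ0 hκ1 (S.ht x (nu x y * S.Na + a), p) _ _
  calc Q w α D {c | ¬ S.GG c x p} ≤ Q w α D (⋃ y ∈ F, {c | ∀ a ∈ Finset.range S.Na,
      ¬ ∃ v ∈ Pc S.n p (S.σ (min x.1 y.1)) (tow (S.ctr y) p), S.L c (S.ht x (nu x y * S.Na + a), p) v}) :=
        measure_mono h1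
    _ ≤ ∑ y ∈ F, Q w α D {c | ∀ a ∈ Finset.range S.Na,
      ¬ ∃ v ∈ Pc S.n p (S.σ (min x.1 y.1)) (tow (S.ctr y) p), S.L c (S.ht x (nu x y * S.Na + a), p) v} :=
        measure_biUnion_finset_le _ _
    _ ≤ ∑ _y ∈ F, ENNReal.ofReal ((1 - κ) ^ S.Na) := Finset.sum_le_sum h2
    _ = F.card * ENNReal.ofReal ((1 - κ) ^ S.Na) := by rw [Finset.sum_const, nsmul_eq_mul]
    _ ≤ 4 * ENNReal.ofReal ((1 - κ) ^ S.Na) := by
        refine mul_le_mul' ?_ le_rfl
        exact_mod_cast hF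
    _ = ENNReal.ofReal (4 * (1 - κ) ^ S.Na) := by
        rw [ENNReal.ofReal_mul (by norm_num)]
        norm_num
    _ ≤ ENNReal.ofReal ε := ENNReal.ofReal_le_ofReal hε

end FDr.HC
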