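import Pool.Agent.Lib.MP_e029a2_pr.HC.GDep
import Pool.Agent.Lib.MP_e029a2_pr.HC.Sel
import Pool.Agent.Lib.MP_e029a2_pr.BX.Hit
import Pool.Agent.Lib.MP_e029a2_pr.BX.Start

/-!
# The return frogs are reached (job GRch)

`ht_pos`: there is a word `W` of cells such that every `x` of the finite set `{x : Site D | |x.1| ≤ E, |x.2 i| ≤ E}` is the sum of the first `i` vectors of `W` for some `i`
(private lemma `Start_path` in `BX/Start.lean`: copy what you need; also the positivity of the probability of a word, `Start_cell` and the rest of the proof of `BX.st_prob`, for the frog `x` instead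
of `0` and `j = 0`).  If `c (x, t) = W t` for all `t < n` then `Ht c x y` (`ent c x i = x + ∑_{t < i} cvec (c (x, t))`, look at the definition of `ent`); the probability of this event does not
depend on `x`.
`rch_prob`: `sel_ge` (file HC/Sel) with `U := Fin D → ℤ`, `R p := As {x} · x p` (depends on the cells of the blocks `≠ x`, `as_dep`), `B p c := p ∈ Bx (n + 1) (ctr x) → Ht c (ht x 0, p) y` (depends on
`cel x`: `BX.ht_dep`, `lad_cells` with `j = 0`), disjoint by `cel_disj`; `Q (B p) ≥ ofReal a` (1 if `p` is not in the box; `a ≤ 1`).  `b * (1 / 2)`.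
`rch_dep`, `rch_meas`: as usual.
-/

set_option autoImplicit false

namespace FDr.HC

open MeasureTheory ProbabilityTheory
open scoped ENNReal

variable {D : ℕ} [NeZero D]

/-- the sums of the vectors of cells -/
private def GRch_S (D : ℕ) [NeZero D] : AddSubmonoid (Site D) where
  carrier := {x | ∃ (n : ℕ) (W : ℕ → Cell D), ∑ t ∈ Finset.range n, cvec (W t) = x}
  zero_mem' := ⟨0, fun _ => ([], (0, true)), Finset.sum_range_zero _⟩
  add_mem' := by
    rintro x y ⟨n, W, h1⟩ ⟨m, V, h2⟩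
    refine ⟨n + m, fun t => if t < n then W t else V (t - n), ?_⟩
    rw [Finset.sum_range_add]
    congr 1
    · rw [← h1]
      refine Finset.sum_congr rfl fun t ht => ?_
      show cvec (if t < n then W t else V (t - n)) = cvec (W t)
      rw [if_pos (Finset.mem_range.1 ht)]
    · rw [← h2]
      refine Finset.sum_congr rfl fun t _ => ?_
      show cvec (if n + t < n then W (n + t) else V (n + t - n)) = cvec (V t)
      rw [if_neg (by omega), Nat.add_sub_cancel_left]

private theorem GRch_one {D : ℕ} [NeZero D] (a : Cell D) : cvec a ∈ GRch_S D :=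
  ⟨1, fun _ => a, by rw [Finset.sum_range_one]⟩

private theorem GRch_hom {D : ℕ} [NeZero D] (g : ℤ →+ Site D) (h1 : g 1 ∈ GRch_S D) (h2 : g (-1) ∈ GRch_S D) (a : ℤ) :
    g a ∈ GRch_S D := by
  induction a using Int.induction_on with
  | zero =>
    rw [map_zero]
    exact (GRch_S D).zero_mem
  | succ i ih =>
    rw [map_add]
    exact (GRch_S D).add_mem ih h1
  | pred i ih =>
    rw [sub_eq_add_neg, map_add]
    exact (GRch_S D).add_mem ih h2

private theorem GRch_top {D : ℕ} [NeZero D] (x : Site D) : x ∈ GRch_S D := by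
  classical
  have hv : ∀ (i : Fin D) (b : Bool), ((0 : ℤ), (Pi.single i (sg b) : Fin D → ℤ)) ∈ GRch_S D := by
    intro i b
    have h := GRch_one (([], (i, b)) : Cell D)
    exact h
  have hh : ∀ b : Bool, ((sg b : ℤ), (0 : Fin D → ℤ)) ∈ GRch_S D := by
    intro b
    have h := (GRch_S D).add_mem (GRch_one (([b], (0, true)) : Cell D)) (GRch_one (([], (0, false)) : Cell D))
    have e : cvec (([b], (0, true)) : Cell D) + cvec (([], (0, false)) : Cell D) = ((sg b : ℤ), (0 : Fin D → ℤ)) := by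
      refine Prod.ext ?_ ?_
      · show dsp [b] + dsp [] = sg b
        unfold dsp
        simp
      · show (Pi.single 0 (sg true) : Fin D → ℤ) + Pi.single 0 (sg false) = 0
        rw [← Pi.single_add]
        show Pi.single 0 (0 : ℤ) = (0 : Fin D → ℤ)
        exact Pi.single_zero _
    rw [e] at h
    exact h
  have h1 : (x.1, (0 : Fin D → ℤ)) ∈ GRch_S D :=
    GRch_hom (AddMonoidHom.inl ℤ (Fin D → ℤ)) (hh true) (hh false) x.1
  have h2 : ∀ i : Fin D, ((0 : ℤ), (Pi.single i (x.2 i) : Fin D → ℤ)) ∈ GRch_S D := fun i =>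
    GRch_hom ((AddMonoidHom.inr ℤ (Fin D → ℤ)).comp (AddMonoidHom.single (fun _ : Fin D => ℤ) i)) (hv i true) (hv i false) (x.2 i)
  have h3 : x = (x.1, (0 : Fin D → ℤ)) + ∑ i : Fin D, ((0 : ℤ), (Pi.single i (x.2 i) : Fin D → ℤ)) := by
    refine Prod.ext ?_ ?_
    · rw [Prod.fst_add, Prod.fst_sum]
      simp
    · rw [Prod.snd_add, Prod.snd_sum]
      simp only [zero_add]
      exact (Finset.univ_sum_single x.2).symm
  rw [h3]
  exact (GRch_S D).add_mem h1 ((GRch_S D).sum_mem fun i _ => h2 i)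

/-- a path through all the points of a finite set -/
private theorem GRch_path {D : ℕ} [NeZero D] (F : Finset (Site D)) : ∃ (n : ℕ) (W : ℕ → Cell D),
    ∀ x ∈ F, ∃ i, i ≤ n ∧ ∑ t ∈ Finset.range i, cvec (W t) = x := by
  classical
  induction F using Finset.induction_on with
  | empty => exact ⟨0, fun _ => ([], (0, true)), fun x hx => absurd hx (Finset.notMem_empty x)⟩
  | insert a F _ ih =>
    obtain ⟨n, W, hW⟩ := ih
    obtain ⟨m, V, hV⟩ := GRch_top (a - ∑ t ∈ Finset.range n, cvec (W t))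
    have h1 : ∀ i, i ≤ n → ∑ t ∈ Finset.range i, cvec (if t < n then W t else V (t - n)) =
        ∑ t ∈ Finset.range i, cvec (W t) := fun i hi => Finset.sum_congr rfl fun t ht => by
      rw [if_pos ((Finset.mem_range.1 ht).trans_le hi)]
    refine ⟨n + m, fun t => if t < n then W t else V (t - n), fun x hx => ?_⟩
    rcases Finset.mem_insert.1 hx with rfl | hx
    · refine ⟨n + m, le_rfl, ?_⟩
      rw [Finset.sum_range_add, h1 n le_rfl]
      have h2 : ∑ t ∈ Finset.range m, cvec (if n + t < n then W (n + t) else V (n + t - n)) =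
          ∑ t ∈ Finset.range m, cvec (V t) := Finset.sum_congr rfl fun t _ => by
        rw [if_neg (by omega), Nat.add_sub_cancel_left]
      rw [h2, hV, add_sub_cancel]
    · obtain ⟨i, hi, h2⟩ := hW x hx
      exact ⟨i, by omega, by rw [h1 i hi, h2]⟩

private theorem GRch_cell {D : ℕ} [NeZero D] (w α : Set.Ioo (0 : ℝ) 1) (a : Cell D) : cellLaw w α D {b | b = a} ≠ 0 := by
  have h1 : {b : Cell D | b = a} = ({a.1} : Set Run) ×ˢ ({a.2} : Set (Dir D)) := by
    ext b
    simp only [Set.mem_ofPred_eq, Set.mem_prod, Set.mem_singleton_iff]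
    exact Prod.ext_iff
  unfold cellLaw
  rw [h1, Measure.prod_prod, CO.dir_prob]
  refine mul_ne_zero ?_ ?_
  · unfold runLaw
    rw [Measure.sum_apply _ (Set.to_countable _).measurableSet]
    intro h
    have h2 := ENNReal.tsum_eq_zero.1 h a.1
    rw [Measure.smul_apply, Measure.dirac_apply' _ (Set.to_countable _).measurableSet,
      Set.indicator_of_mem (Set.mem_singleton a.1), smul_eq_mul, Pi.one_apply, mul_one, ENNReal.ofReal_eq_zero] at h2
    have h3 := runW_pos w.2 α.2 a.1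
    linarith
  · exact ENNReal.inv_ne_zero.2 (ENNReal.mul_ne_top (by norm_num) (ENNReal.natCast_ne_top D))

private theorem GRch_box (D : ℕ) (E : ℕ) : ∃ F : Finset (Site D), ∀ v : Site D, |v.1| ≤ E → (∀ i, |v.2 i| ≤ E) → v ∈ F := by
  classical
  refine ⟨(Set.toFinite (Set.Icc ((-(E : ℤ), fun _ => -(E : ℤ)) : Site D) ((E : ℤ), fun _ => (E : ℤ)))).toFinset,
    fun v h1 h2 => ?_⟩
  rw [Set.Finite.mem_toFinset]
  have h3 := abs_le.1 h1
  exact ⟨⟨h3.1, fun i => (abs_le.1 (h2 i)).1⟩, ⟨h3.2, fun i => (abs_le.1 (h2 i)).2⟩⟩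

theorem ht_pos (w α : Set.Ioo (0 : ℝ) 1) (D : ℕ) [NeZero D] (E : ℕ) : ∃ a : ℝ, 0 < a ∧ a ≤ 1 ∧ ∀ x y : Site D,
    |y.1 - x.1| ≤ E → (∀ i, |y.2 i - x.2 i| ≤ E) → ENNReal.ofReal a ≤ Q w α D {c | BX.Ht c x y} := by
  classical
  obtain ⟨F, hF⟩ := GRch_box D E
  obtain ⟨n, W, hW⟩ := GRch_path F
  have hq : ∀ x : Site D, Q w α D {c | ∀ t ∈ Finset.range n, c (x, t) = W t} =
      ∏ t ∈ Finset.range n, cellLaw w α D {b | b = W t} := by
    intro x
    have h1 := CO.prod_dep (cellLaw w α D) (Finset.range n) (fun t => ({(x, t)} : Set (Site D × ℕ)))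
      (fun t _ => Set.finite_singleton _)
      (fun t _ t' _ htt => by
        rw [Set.disjoint_singleton]
        intro h
        exact htt (congrArg Prod.snd h))
      (fun t c => c (x, t) = W t)
      (fun t _ => by
        intro c c' h
        show (c (x, t) = W t) = (c' (x, t) = W t)
        rw [h _ (Set.mem_singleton _)])
    unfold Q
    rw [h1]
    refine Finset.prod_congr rfl fun t _ => ?_
    exact CO.cell_prob w α (x, t) fun a => a = W t
  have hP0 : ∏ t ∈ Finset.range n, cellLaw w α D {b | b = W t} ≠ 0 :=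
    Finset.prod_ne_zero_iff.2 fun t _ => GRch_cell w α (W t)
  have hP1 : ∏ t ∈ Finset.range n, cellLaw w α D {b | b = W t} ≤ 1 := by
    rw [← hq 0]
    exact prob_le_one
  have hPt : ∏ t ∈ Finset.range n, cellLaw w α D {b | b = W t} ≠ ⊤ := ne_top_of_le_ne_top ENNReal.one_ne_top hP1
  refine ⟨(∏ t ∈ Finset.range n, cellLaw w α D {b | b = W t}).toReal, ENNReal.toReal_pos hP0 hPt, ?_, ?_⟩
  · have h1 := ENNReal.toReal_mono ENNReal.one_ne_top hP1
    rwa [ENNReal.toReal_one] at h1
  · intro x y h1 h2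
    rw [ENNReal.ofReal_toReal hPt, ← hq x]
    refine measure_mono fun c hc => ?_
    obtain ⟨i, hi, h3⟩ := hW (y - x) (hF (y - x) h1 h2)
    refine ⟨i, ?_⟩
    have h4 : ent c x i = x + ∑ t ∈ Finset.range i, cvec (W t) := by
      unfold ent
      congr 1
      exact Finset.sum_congr rfl fun t ht => by
        rw [hc t (Finset.mem_range.2 ((Finset.mem_range.1 ht).trans_le hi))]
    rw [h4, h3, add_sub_cancel]

variable {w α : Set.Ioo (0 : ℝ) 1} {S : Sht D} {M : ℕ} {κ : ℝ}

/-- the second part of the event -/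
private def GRch_B (S : Sht D) (x : ℕ × ℕ) (y : Site D) (p : Fin D → ℤ) (c : Conf D) : Prop :=
  p ∈ Bx (S.n + 1) (S.ctr x) → BX.Ht c (S.ht x 0, p) y

private theorem GRch_Bmeas (S : Sht D) (x : ℕ × ℕ) (y : Site D) (p : Fin D → ℤ) : MeasurableSet {c | GRch_B S x y p c} := by
  by_cases hp : p ∈ Bx (S.n + 1) (S.ctr x)
  · have h1 : {c | GRch_B S x y p c} = {c | BX.Ht c (S.ht x 0, p) y} := by
      ext c
      exact ⟨fun h => h hp, fun h _ => h⟩
    rw [h1]
    exact BX.ht_meas _ _
  · have h1 : {c | GRch_B S x y p c} = Set.univ := Set.eq_univ_of_forall fun c h => absurd h hp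
    rw [h1]
    exact MeasurableSet.univ

omit [NeZero D] in
private theorem GRch_Bdep (S : Sht D) (hNa : 1 ≤ S.Na) (x : ℕ × ℕ) (y : Site D) (p : Fin D → ℤ) :
    Dep (S.cel x) fun c => GRch_B S x y p c := by
  intro c c' hc
  by_cases hp : p ∈ Bx (S.n + 1) (S.ctr x)
  · have h1 : BX.Ht c (S.ht x 0, p) y = BX.Ht c' (S.ht x 0, p) y := by
      refine BX.ht_dep (S.ht x 0, p) y c c' fun q hq => hc q ?_
      refine lad_cells S hp (j := 0) (by unfold sl; omega) ⟨congrArg Prod.fst hq, ?_⟩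
      have h2 : q.1.2 = p := congrArg Prod.snd hq
      rw [h2]
      intro i
      rw [sub_self, abs_zero]
      exact Int.natCast_nonneg _
    show GRch_B S x y p c = GRch_B S x y p c'
    unfold GRch_B
    rw [h1]
  · exact propext ⟨fun _ h => absurd h hp, fun _ h => absurd h hp⟩

omit [NeZero D] in
private theorem GRch_iff (S : Sht D) (c : Conf D) (x : ℕ × ℕ) (y : Site D) :
    S.Rch c x y ↔ ∃ p, S.As {x} c x p ∧ GRch_B S x y p c := Iff.rfl

theorem rch_meas (hS : LadS w α D S.n M κ S.L) (x : ℕ × ℕ) (y : Site D) : MeasurableSet {c | S.Rch c x y} := by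
  have h1 : {c | S.Rch c x y} = ⋃ p : Fin D → ℤ, ({c | S.As {x} c x p} ∩ {c | GRch_B S x y p c}) := by
    ext c
    rw [Set.mem_iUnion]
    exact GRch_iff S c x y
  rw [h1]
  exact MeasurableSet.iUnion fun p => (as_meas hS {x} x p).inter (GRch_Bmeas S x y p)

theorem rch_dep (hS : LadS w α D S.n M κ S.L) (hNa : 1 ≤ S.Na) (x : ℕ × ℕ) (y : Site D) :
    Dep {q | ∃ x', q ∈ S.cel x'} fun c => S.Rch c x y := by
  intro c c' hc
  have h1 : ∀ p, S.As {x} c x p = S.As {x} c' x p := fun p =>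
    as_dep hS {x} x p c c' fun q hq => hc q (by
      obtain ⟨x', -, h⟩ := hq
      exact ⟨x', h⟩)
  have h2 : ∀ p, GRch_B S x y p c = GRch_B S x y p c' := fun p =>
    GRch_Bdep S hNa x y p c c' fun q hq => hc q ⟨x, hq⟩
  show (∃ p, S.As {x} c x p ∧ GRch_B S x y p c) = ∃ p, S.As {x} c' x p ∧ GRch_B S x y p c'
  simp only [h1, h2]

theorem rch_prob (hS : LadS w α D S.n M κ S.L) (hNa : 1 ≤ S.Na) {a : ℝ} (ha0 : 0 < a) (ha1 : a ≤ 1) (x : ℕ × ℕ) (y : Site D)
    (h : ∀ p ∈ Bx (S.n + 1) (S.ctr x), ENNReal.ofReal a ≤ Q w α D {c | BX.Ht c (S.ht x 0, p) y})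
    (hc : 1 / 2 ≤ Q w α D {c | ∃ p, S.As {x} c x p}) : ENNReal.ofReal (a / 2) ≤ Q w α D {c | S.Rch c x y} := by
  have hb : ∀ p : Fin D → ℤ, ENNReal.ofReal a ≤ Measure.infinitePi (fun _ : Site D × ℕ => cellLaw w α D)
      {c | GRch_B S x y p c} := by
    intro p
    by_cases hp : p ∈ Bx (S.n + 1) (S.ctr x)
    · exact (h p hp).trans (measure_mono fun c hc _ => hc)
    · have h1 : {c : Conf D | GRch_B S x y p c} = Set.univ := Set.eq_univ_of_forall fun c h => absurd h hp
      rw [h1, measure_univ]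
      exact ENNReal.ofReal_le_one.2 ha1
  have hT : Disjoint {q | ∃ x', x' ∉ ({x} : Set (ℕ × ℕ)) ∧ q ∈ S.cel x'} (S.cel x) := by
    rw [Set.disjoint_left]
    rintro q ⟨x', h1, h2⟩ h3
    exact Set.disjoint_left.1 (cel_disj S (x := x') (y := x) (fun h4 => h1 (by rw [h4]; exact Set.mem_singleton _))) h2 h3
  have h1 := sel_ge (cellLaw w α D) hT (R := fun p c => S.As {x} c x p) (B := fun p c => GRch_B S x y p c)
    (fun p => as_meas hS {x} x p) (fun p => as_dep hS {x} x p) (fun p => GRch_Bmeas S x y p)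
    (fun p => GRch_Bdep S hNa x y p) hb
  have h2 : ENNReal.ofReal (a / 2) = ENNReal.ofReal a * (1 / 2) := by
    rw [ENNReal.ofReal_div_of_pos (by norm_num : (0 : ℝ) < 2), ENNReal.ofReal_ofNat, div_eq_mul_inv, one_div]
  rw [h2]
  exact (mul_le_mul' le_rfl hc).trans h1

end FDr.HC
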