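import Pool.Agent.Lib.MP_e029a2_pr.HC.GPerc
import Pool.Agent.Lib.MP_e029a2_pr.HC.GProb
import Pool.Agent.Lib.MP_e029a2_pr.HC.GAct
import Pool.Agent.Lib.MP_e029a2_pr.HC.GFld
import Pool.Agent.Lib.MP_e029a2_pr.HC.GRch
import Pool.Agent.Lib.MP_e029a2_pr.HC.BCa
import Pool.Agent.Lib.MP_e029a2_pr.BX.Rec

/-!
# The ladder criterion implies recurrence
-/

set_option autoImplicit false

namespace FDr.HC

open MeasureTheory ProbabilityTheory
open scoped ENNReal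

variable {D : ℕ} [NeZero D]

/-- a return from the row `k` -/
def RE (n Na : ℕ) (L : Conf D → Site D → (Fin D → ℤ) → Prop) (z : Site D) (s : Fin D → Bool) (k : ℕ) (c : Conf D) : Prop :=
  ∃ u : Fin D → ℕ, (Su n Na L z s u).Rch c (∑ i, u i, k) (BX.rf (rp n Na D) z s u k) ∧
    CO.Vs c (BX.rf (rp n Na D) z s u k)

section

variable {w α : Set.Ioo (0 : ℝ) 1} {n Na M : ℕ} {κ : ℝ} {L : Conf D → Site D → (Fin D → ℤ) → Prop}

theorem RE_meas (hS : LadS w α D n M κ L) (z : Site D) (s : Fin D → Bool) (k : ℕ) :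
    MeasurableSet {c : Conf D | RE n Na L z s k c} := by
  have h1 : {c : Conf D | RE n Na L z s k c} =
      ⋃ u : Fin D → ℕ, {c : Conf D | (Su n Na L z s u).Rch c (∑ i, u i, k) (BX.rf (rp n Na D) z s u k)} ∩
        {c | CO.Vs c (BX.rf (rp n Na D) z s u k)} := by
    ext c
    rw [Set.mem_iUnion]
    rfl
  rw [h1]
  exact MeasurableSet.iUnion fun u => (rch_meas (S := Su n Na L z s u) hS _ _).inter (CO.vs_meas _)

theorem RE_dep (hS : LadS w α D n M κ L) (hNa : 1 ≤ Na) (z : Site D) (s : Fin D → Bool) (k : ℕ) :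
    Dep {q : Site D × ℕ | q.1.2 ∈ CO.Or z.2 s} fun c : Conf D => RE n Na L z s k c := by
  intro c c' hc
  have h1 : ∀ u, (Su n Na L z s u).Rch c (∑ i, u i, k) (BX.rf (rp n Na D) z s u k) =
      (Su n Na L z s u).Rch c' (∑ i, u i, k) (BX.rf (rp n Na D) z s u k) := fun u =>
    rch_dep (S := Su n Na L z s u) hS hNa _ _ c c' fun q hq => hc q (by
      obtain ⟨x', h2⟩ := hq
      exact cel_or (Su n Na L z s u) h2)
  have h2 : ∀ u, CO.Vs c (BX.rf (rp n Na D) z s u k) = CO.Vs c' (BX.rf (rp n Na D) z s u k) := fun u =>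
    CO.vs_dep (BX.rf (rp n Na D) z s u k) c c' fun q hq => hc q (by
      show q.1.2 ∈ CO.Or z.2 s
      rw [show q.1 = BX.rf (rp n Na D) z s u k from hq]
      exact BX.blk_or (rp n Na D) (BX.rf_mem (rp n Na D) z s u k))
  show (∃ u, _ ∧ CO.Vs c _) = ∃ u, _ ∧ CO.Vs c' _
  simp only [h1, h2]

/-- the block `x` gets a seed with probability at least `1 / 2` -/
theorem as_prob (hS : LadS w α D n M κ L) (hκ0 : 0 < κ) (hκ1 : κ ≤ 1) (hg : 4 * (1 - κ) ^ Na ≤ 1 / 100000)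
    (z : Site D) (s : Fin D → Bool) (u : Fin D → ℕ) (x : ℕ × ℕ) :
    1 / 2 ≤ Q w α D {c | ∃ p, (Su n Na L z s u).As {x} c x p} := by
  have h1 := CO.perc_fld (Q w α D) (fun c y => (Su n Na L z s u).Gd c y) (fun A =>
    gd_fld (S := Su n Na L z s u) hS (by norm_num) (fun y p => gg_prob (S := Su n Na L z s u) hS hκ0 hκ1 hg y p) A) (0, 0) x
  refine h1.trans (measure_mono fun c hc => ?_)
  obtain ⟨p, hp⟩ := conn_as hc
  exact as_self hp

/-- **The core**: returns from every row far enough, with a probability bounded below. -/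
theorem core (hS : LadS w α D n M κ L) (hNa : 1 ≤ Na) (hκ0 : 0 < κ) (hκ1 : κ ≤ 1)
    (hg : 4 * (1 - κ) ^ Na ≤ 1 / 100000) : ∃ c1 : ℝ, 0 < c1 ∧
    ∀ (z : Site D) (s : Fin D → Bool), ∃ k0 : ℕ, ∀ k, k0 ≤ k → ENNReal.ofReal c1 ≤ Q w α D {c | RE n Na L z s k c} := by
  classical
  obtain ⟨p, hp⟩ : ∃ p : BX.Par, p = rp n Na D := ⟨_, rfl⟩
  have hpM : p.M = T0 Na D := by rw [hp]; rfl
  have hpN : p.N = n + 1 := by rw [hp]; rfl
  obtain ⟨a, ha0, ha1, hpos⟩ := ht_pos w α D (max (T0 Na D) (3 * (n + 1)))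
  obtain ⟨cm, hcm, hmass⟩ := BX.mass_sparse w α D p.N p.N1
  obtain ⟨g, hg'⟩ : ∃ g, g = Gam w α D 0 0 := ⟨_, rfl⟩
  have hgt : g ≠ ⊤ := hg' ▸ CO.Gam_ne_top w α 0 0
  have hg1 : 1 ≤ g := hg' ▸ CO.one_le_Gam w α D
  have hgr : 1 ≤ g.toReal := by
    have := (ENNReal.toReal_le_toReal ENNReal.one_ne_top hgt).2 hg1
    simpa using this
  obtain ⟨s1, hs1⟩ : ∃ s1 : ℝ, s1 = cm / (2 * g.toReal) := ⟨_, rfl⟩
  have hs1p : 0 < s1 := by
    rw [hs1]
    positivity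
  obtain ⟨s2, hs2⟩ : ∃ s2 : ℝ, s2 = s1 / 2 := ⟨_, rfl⟩
  have hs2p : 0 < s2 := by
    rw [hs2]
    positivity
  refine ⟨(a / 2) ^ 2 * s2 / (1 + s2), by positivity, fun z s => ?_⟩
  obtain ⟨m0, hm0⟩ := hmass z.2 s
  have hM : (1 : ℤ) ≤ p.M := by exact_mod_cast p.M1
  refine ⟨m0 + z.1.natAbs, fun k hk => ?_⟩
  have hkm : (m0 : ℤ) ≤ ((k : ℤ) + 1) * p.M - z.1 := by
    have h1 := le_abs_self z.1
    have h2 : ((m0 + z.1.natAbs : ℕ) : ℤ) ≤ k := by exact_mod_cast hk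
    push_cast at h2
    have h3 : ((k : ℤ) + 1) * 1 ≤ ((k : ℤ) + 1) * p.M := mul_le_mul_of_nonneg_left hM (by positivity)
    linarith
  obtain ⟨m, hm⟩ : ∃ m : ℕ, (m : ℤ) = ((k : ℤ) + 1) * p.M - z.1 :=
    ⟨(((k : ℤ) + 1) * p.M - z.1).toNat, Int.toNat_of_nonneg (le_trans (Int.natCast_nonneg _) hkm)⟩
  have hm1 : m0 ≤ m := by
    rw [← hm] at hkm
    exact_mod_cast hkm
  -- the sum of the probabilities of the returns
  have e1 : ENNReal.ofReal s1 = ENNReal.ofReal cm / (2 * g) := by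
    rw [hs1, ENNReal.ofReal_div_of_pos (by positivity), ENNReal.ofReal_mul (by norm_num), ENNReal.ofReal_toReal hgt,
      ENNReal.ofReal_ofNat]
  have hgg : ∀ u : Fin D → ℕ, Gam w α D m (-(CO.pt z.2 s fun i => p.N * u i)) / (2 * g) ≤
      Q w α D {c | CO.Vs c (BX.rf p z s u k)} := by
    intro u
    have h1 := CO.vs_prob w α D (BX.rf p z s u k)
    rw [← hg'] at h1
    have h2 : -(BX.rf p z s u k).1 = m := by
      rw [hm]
      show -(z.1 - ((k : ℤ) + 1) * p.M) = ((k : ℤ) + 1) * p.M - z.1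
      ring
    rw [h2] at h1
    exact h1
  have hsum : ENNReal.ofReal s1 ≤ ∑' u : Fin D → ℕ, Q w α D {c | CO.Vs c (BX.rf p z s u k)} := by
    calc ENNReal.ofReal s1 = ENNReal.ofReal cm / (2 * g) := e1
      _ ≤ (∑' u : Fin D → ℕ, Gam w α D m (-(CO.pt z.2 s fun i => p.N * u i))) / (2 * g) :=
        ENNReal.div_le_div_right (hm0 m hm1) _
      _ = ∑' u : Fin D → ℕ, Gam w α D m (-(CO.pt z.2 s fun i => p.N * u i)) / (2 * g) := by
        rw [ENNReal.div_eq_inv_mul, ← ENNReal.tsum_mul_left]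
        exact tsum_congr fun u => by rw [ENNReal.div_eq_inv_mul]
      _ ≤ _ := ENNReal.tsum_le_tsum hgg
  have hlt : ENNReal.ofReal s2 < ∑' u : Fin D → ℕ, Q w α D {c | CO.Vs c (BX.rf p z s u k)} := by
    refine lt_of_lt_of_le ?_ hsum
    rw [ENNReal.ofReal_lt_ofReal_iff hs1p, hs2]
    linarith
  rw [ENNReal.tsum_eq_iSup_sum, lt_iSup_iff] at hlt
  obtain ⟨U, hU⟩ := hlt
  have hbc := CO.bca (cellLaw w α D) U {q : Site D × ℕ | ∀ j : ℕ, q.1.1 ≠ z.1 - ((j : ℤ) + 1) * T0 Na D}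
    (fun u => {q : Site D × ℕ | q.1 = BX.rf p z s u k})
    (fun u c => (Su n Na L z s u).Rch c (∑ i, u i, k) (BX.rf p z s u k)) (fun u c => CO.Vs c (BX.rf p z s u k))
    (fun u _ => rch_meas (S := Su n Na L z s u) hS _ _)
    (fun u _ => (rch_dep (S := Su n Na L z s u) hS hNa _ _).mono fun q hq j => by
      obtain ⟨x', ⟨i, hi, h1⟩, _⟩ := hq
      rw [h1]
      exact ht_ret (Su n Na L z s u) x' hi j)
    (fun u _ => CO.vs_meas _) (fun u _ => CO.vs_dep _) ?_ ?_ (by positivity : (0 : ℝ) < a / 2) ?_ hs2p hU.le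
  · refine hbc.trans (measure_mono ?_)
    rintro c ⟨u, _, h1, h2⟩
    rw [hp] at h1 h2
    exact ⟨u, h1, h2⟩
  · intro u _
    rw [Set.disjoint_left]
    intro q h1 h2
    refine h1 k ?_
    rw [show q.1 = BX.rf p z s u k from h2, ← hpM]
    rfl
  · intro u _ u' _ huu
    rw [Set.disjoint_left]
    intro q h1 h2
    exact huu (BX.rf_inj p ((h1 : q.1 = _).symm.trans h2)).1
  · intro u _
    refine rch_prob (S := Su n Na L z s u) hS hNa ha0 ha1 _ _ (fun v hv => ?_) ?_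
    · obtain ⟨h1, h2⟩ := rf_near n Na hNa L z s u k hv
      rw [← hp] at h1 h2
      refine hpos _ _ (h1.trans ?_) fun i => (h2 i).trans ?_
      · exact_mod_cast le_max_left _ _
      · have h3 : 3 * (n + 1) ≤ max (T0 Na D) (3 * (n + 1)) := le_max_right _ _
        exact_mod_cast h3
    · exact as_prob hS hκ0 hκ1 hg z s u _

theorem rch_act (hS : LadS w α D n M κ L) (hNa : 1 ≤ Na) (hM : 2 * T0 Na D ≤ M) {z : Site D} {s : Fin D → Bool}
    {u : Fin D → ℕ} {c : Conf D} (hi : (Su n Na L z s u).Init c) {x : ℕ × ℕ} {y : Site D}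
    (h : (Su n Na L z s u).Rch c x y) : ActC c y := by
  obtain ⟨p, hp, h1⟩ := h
  obtain ⟨i, h2⟩ := h1 (as_box hp)
  have h3 : 0 < sl Na := by
    unfold sl
    omega
  have h4 := as_act (S := Su n Na L z s u) hS hM hi hp 0 h3
  rw [← h2]
  exact BX.act_ent h4 i

theorem io_inf (hS : LadS w α D n M κ L) (hNa : 1 ≤ Na) (hM : 2 * T0 Na D ≤ M) (p' : BX.Par) (hN' : 3 * (n + 1) ≤ p'.N)
    (hM' : T0 Na D ≤ p'.M) (c : Conf D) (j : ℕ) (z : Site D) (s : Fin D → Bool) (hz : ent c 0 j = z)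
    (hr : BX.St p' s j c) (h : ∀ k : ℕ, ∃ m, k ≤ m ∧ RE n Na L z s m c) : (visC c).Infinite := by
  refine BX.visC_inf (rp n Na D) c z s fun k => ?_
  obtain ⟨m, hm, u, h1, h2⟩ := h k
  refine ⟨m, hm, u, ?_, h2⟩
  refine rch_act hS hNa hM (fun i hi => ?_) h1
  exact BX.ab_start p' hz hr _ (init_blk (Su n Na L z s u) hi p' hN' hM')

end

theorem critL (w α : Set.Ioo (0 : ℝ) 1) (D : ℕ) [NeZero D] (h : CritL w α D) :
    Q w α D {c | (visC c).Infinite}ᶜ = 0 := by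
  obtain ⟨κ, hκ0, hκ1, h⟩ := h
  obtain ⟨m, hm⟩ := exists_pow_lt_of_lt_one (show (0 : ℝ) < 1 / 400000 by norm_num) (show 1 - κ < 1 by linarith)
  have hg : 4 * (1 - κ) ^ (m + 1) ≤ 1 / 100000 := by
    have h1 : (1 - κ) ^ (m + 1) ≤ (1 - κ) ^ m := pow_le_pow_of_le_one (by linarith) (by linarith) (Nat.le_succ m)
    linarith
  obtain ⟨n, L, hS⟩ := h (2 * T0 (m + 1) D)
  have hNa : 1 ≤ m + 1 := Nat.le_add_left 1 m
  obtain ⟨c1, hc1, hcore⟩ := core hS hNa hκ0 hκ1 hg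
  obtain ⟨p', hp'⟩ : ∃ p' : BX.Par, p' = ⟨3 * (n + 1), T0 (m + 1) D, by omega, T0_pos _ _⟩ := ⟨_, rfl⟩
  have hN' : 3 * (n + 1) ≤ p'.N := by rw [hp']
  have hM' : T0 (m + 1) D ≤ p'.M := by rw [hp']
  obtain ⟨cs, hcs0, _, hcs⟩ := BX.st_prob w α D p'
  exact CB.inf_of w α D (fun s j c => BX.St p' s j c) (fun z k c => RE n (m + 1) L z (CO.sgn z.2) k c)
    (fun s j => BX.st_dep p' s j) (fun s j => BX.st_meas p' s j) hcs0 hcs (fun z k => RE_meas hS z _ k)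
    (fun z k => RE_dep hS hNa z _ k) (ENNReal.ofReal_pos.2 hc1) (fun z => hcore z _)
    (fun c j z hz hs hi => io_inf hS hNa le_rfl p' hN' hM' c j z _ hz hs hi)

/-- **The ladder criterion implies recurrence.** -/
theorem critL_recurrent {Ω : Type*} [MeasurableSpace Ω] (w α : Set.Ioo (0 : ℝ) 1) (D : ℕ) [NeZero D]
    (h : CritL w α D) (P : Measure Ω) (ξ : Site D → ℕ → Ω → Stp D) (hF : IsFrog D w α P ξ) : Recurrent P ξ :=
  transfer_inf w α D P ξ hF (critL w α D h)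

end FDr.HC
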