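import Pool.Agent.Lib.MP_e029a2_pr.HC.GDef

/-!
# The heights of the slots (job GSlot)

Pure arithmetic.  `K = 4 D + 1`, `sl = 4 Na`, `T0 = K sl + 1`.  The number `k T0 + 1 + (i % K) sl + j` with `j < sl` lies in `[k T0 + 1, (k + 1) T0 - 1]`, so it determines
`k`, and then `i % K` and `j`; it is never `(k' + 1) T0`, `k' ≥ 0` (no multiple of `T0`).
`adj_fin`: the neighbours of `x` are among `(x.1 + 1, x.2), (x.1 - 1, x.2), (x.1, x.2 + 1), (x.1, x.2 - 1)`.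
-/

set_option autoImplicit false

namespace FDr.HC

variable {D : ℕ}

theorem slot_lt (x y : ℕ × ℕ) {Na a : ℕ} (ha : a < Na) : nu x y * Na + a < sl Na := by
  have h1 : nu x y ≤ 3 := by
    unfold nu
    split_ifs <;> omega
  have h2 : nu x y * Na ≤ 3 * Na := Nat.mul_le_mul_right Na h1
  unfold sl
  omega

/-- the number of the slot in the period -/
private theorem GSlot_off (S : Sht D) (x : ℕ × ℕ) {j : ℕ} (hj : j < sl S.Na) :
    ∃ r : ℕ, r + 1 < T0 S.Na D ∧ r = x.1 % (4 * D + 1) * sl S.Na + j ∧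
      S.ht x j = S.z.1 - ((x.2 * T0 S.Na D + 1 + r : ℕ) : ℤ) := by
  refine ⟨x.1 % (4 * D + 1) * sl S.Na + j, ?_, rfl, ?_⟩
  · have h1 : x.1 % (4 * D + 1) ≤ 4 * D := Nat.le_of_lt_succ (Nat.mod_lt _ (by omega))
    have h2 : x.1 % (4 * D + 1) * sl S.Na ≤ 4 * D * sl S.Na := Nat.mul_le_mul_right _ h1
    have h3 : T0 S.Na D = 4 * D * sl S.Na + sl S.Na + 1 := by
      unfold T0
      ring
    omega
  · unfold Sht.ht
    push_cast
    ring

theorem ht_inj (S : Sht D) {x : ℕ × ℕ} {j j' : ℕ} (h : S.ht x j = S.ht x j') : j = j' := by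
  unfold Sht.ht at h
  omega

theorem ht_eq (S : Sht D) {x y : ℕ × ℕ} {j j' : ℕ} (hj : j < sl S.Na) (hj' : j' < sl S.Na) (h : S.ht x j = S.ht y j') :
    x.2 = y.2 ∧ x.1 % (4 * D + 1) = y.1 % (4 * D + 1) := by
  obtain ⟨r, h1, h2, h3⟩ := GSlot_off S x hj
  obtain ⟨r', h1', h2', h3'⟩ := GSlot_off S y hj'
  have h4 : x.2 * T0 S.Na D + (1 + r) = y.2 * T0 S.Na D + (1 + r') := by
    rw [h3, h3'] at h
    omega
  have hT : 0 < T0 S.Na D := T0_pos _ _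
  have h5 : x.2 = y.2 := by
    have e1 : (x.2 * T0 S.Na D + (1 + r)) / T0 S.Na D = x.2 := by
      rw [mul_comm, Nat.mul_add_div hT, Nat.div_eq_of_lt (by omega), add_zero]
    have e2 : (y.2 * T0 S.Na D + (1 + r')) / T0 S.Na D = y.2 := by
      rw [mul_comm, Nat.mul_add_div hT, Nat.div_eq_of_lt (by omega), add_zero]
    rw [← e1, ← e2, h4]
  refine ⟨h5, ?_⟩
  have h6 : r = r' := by
    rw [h5] at h4
    omega
  have hs : 0 < sl S.Na := by omega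
  have e1 : r / sl S.Na = x.1 % (4 * D + 1) := by
    rw [h2, mul_comm, Nat.mul_add_div hs, Nat.div_eq_of_lt hj, add_zero]
  have e2 : r' / sl S.Na = y.1 % (4 * D + 1) := by
    rw [h2', mul_comm, Nat.mul_add_div hs, Nat.div_eq_of_lt hj', add_zero]
  rw [← e1, ← e2, h6]

theorem ht_ret (S : Sht D) (x : ℕ × ℕ) {j : ℕ} (hj : j < sl S.Na) (k : ℕ) :
    S.ht x j ≠ S.z.1 - ((k : ℤ) + 1) * T0 S.Na D := by
  obtain ⟨r, h1, h2, h3⟩ := GSlot_off S x hj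
  intro h
  have h4 : x.2 * T0 S.Na D + (1 + r) = (k + 1) * T0 S.Na D := by
    rw [h3] at h
    have h5 : ((x.2 * T0 S.Na D + (1 + r) : ℕ) : ℤ) = (((k + 1) * T0 S.Na D : ℕ) : ℤ) := by
      push_cast at h ⊢
      linarith
    exact_mod_cast h5
  have h5 : (x.2 * T0 S.Na D + (1 + r)) % T0 S.Na D = 1 + r := by
    rw [mul_comm, Nat.mul_add_mod, Nat.mod_eq_of_lt (by omega)]
  rw [h4, Nat.mul_mod_left] at h5
  omega

theorem ht_adj (S : Sht D) {x y : ℕ × ℕ} (h : CO.Adj x y) {j j' : ℕ} (hj : j < sl S.Na) (hj' : j' < sl S.Na) :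
    |S.ht y j' - S.ht x j| ≤ 2 * T0 S.Na D := by
  obtain ⟨r, h1, h2, h3⟩ := GSlot_off S x hj
  obtain ⟨r', h1', h2', h3'⟩ := GSlot_off S y hj'
  have h4 : x.2 ≤ y.2 + 1 ∧ y.2 ≤ x.2 + 1 := by
    unfold CO.Adj at h
    omega
  have h5 : x.2 * T0 S.Na D ≤ y.2 * T0 S.Na D + T0 S.Na D := by
    have := Nat.mul_le_mul_right (T0 S.Na D) h4.1
    rwa [Nat.add_mul, one_mul] at this
  have h6 : y.2 * T0 S.Na D ≤ x.2 * T0 S.Na D + T0 S.Na D := by
    have := Nat.mul_le_mul_right (T0 S.Na D) h4.2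
    rwa [Nat.add_mul, one_mul] at this
  rw [h3, h3', abs_le]
  omega

theorem ht_row (S : Sht D) (x : ℕ × ℕ) {j : ℕ} (hj : j < sl S.Na) :
    |S.z.1 - ((x.2 : ℤ) + 1) * T0 S.Na D - S.ht x j| ≤ T0 S.Na D := by
  obtain ⟨r, h1, h2, h3⟩ := GSlot_off S x hj
  have h4 : ((x.2 : ℤ) + 1) * T0 S.Na D = ((x.2 * T0 S.Na D : ℕ) : ℤ) + (T0 S.Na D : ℤ) := by
    push_cast
    ring
  rw [h3, h4, abs_le]
  omega

theorem adj_fin (x : ℕ × ℕ) : ∃ F : Finset (ℕ × ℕ), F.card ≤ 4 ∧ ∀ y, CO.Adj x y → y ∈ F := by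
  refine ⟨{(x.1 + 1, x.2), (x.1 - 1, x.2), (x.1, x.2 + 1), (x.1, x.2 - 1)}, Finset.card_le_four, fun y h => ?_⟩
  simp only [Finset.mem_insert, Finset.mem_singleton, Prod.ext_iff]
  unfold CO.Adj at h
  omega

end FDr.HC
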