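import Pool.Agent.Lib.MP_e029a2_pr.HC.LDef

/-!
# The frog model with death on `ℤ^D`: steps

`k (x, j)` is the step number `j` of the frog `x`; `none` is the death.
-/

set_option autoImplicit false

namespace FDr.HC

open MeasureTheory ProbabilityTheory
open scoped ENNReal

/-- the environments -/
abbrev KC (D : ℕ) : Type := V D × ℕ → Option (Dir D)

instance (D : ℕ) : MeasurableSpace (Option (Dir D)) := ⊤

/-- the vector of a step -/
def kv {D : ℕ} (o : Option (Dir D)) : V D := o.elim 0 dv

/-- the position of the frog `x` after `n` steps -/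
def kpos {D : ℕ} (k : KC D) (x : V D) (n : ℕ) : V D := x + ∑ j ∈ Finset.range n, kv (k (x, j))

/-- the frog `x` is alive after `n` steps -/
def kal {D : ℕ} (k : KC D) (x : V D) (n : ℕ) : Prop := ∀ j < n, k (x, j) ≠ none

/-- the frogs which are activated if the frog of `a` starts -/
inductive KCl {D : ℕ} (k : KC D) (a : V D) : V D → Prop
  | start : KCl k a a
  | visit (x : V D) (n : ℕ) : KCl k a x → kal k x n → KCl k a (kpos k x n)

/-- the weight of a step: the death has the probability `w`, every direction has the probability `(1 - w) / (2 D)` -/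
noncomputable def kwt (w : ℝ) (D : ℕ) : Option (Dir D) → ℝ
  | none => w
  | some _ => (1 - w) / (2 * D)

/-- the law of a step -/
noncomputable def kLaw (w : Set.Ioo (0 : ℝ) 1) (D : ℕ) : Measure (Option (Dir D)) :=
  Measure.sum fun s => ENNReal.ofReal (kwt w D s) • Measure.dirac s

theorem kwt_nonneg (w : Set.Ioo (0 : ℝ) 1) (D : ℕ) (s : Option (Dir D)) : 0 ≤ kwt w D s := by
  have h1 := w.2.1
  have h2 := w.2.2
  cases s with
  | none => exact h1.le
  | some d =>
    show 0 ≤ (1 - (w : ℝ)) / (2 * D)
    have : 0 ≤ 1 - (w : ℝ) := by linarith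
    positivity

theorem kLaw_one (w : Set.Ioo (0 : ℝ) 1) (D : ℕ) (s : Option (Dir D)) : kLaw w D {s} = ENNReal.ofReal (kwt w D s) := by
  rw [kLaw, Measure.sum_apply _ (measurableSet_singleton _), tsum_eq_single s]
  · rw [Measure.smul_apply, Measure.dirac_apply_of_mem (Set.mem_singleton _), smul_eq_mul, mul_one]
  · intro a ha
    rw [Measure.smul_apply, Measure.dirac_apply' _ (measurableSet_singleton _), Set.indicator_of_notMem, smul_zero]
    exact fun h => ha (Set.mem_singleton_iff.1 h)

instance kLaw_prob (w : Set.Ioo (0 : ℝ) 1) (D : ℕ) [NeZero D] : IsProbabilityMeasure (kLaw w D) := by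
  constructor
  unfold kLaw
  rw [Measure.sum_apply _ MeasurableSet.univ]
  have hD : (0 : ℝ) < D := Nat.cast_pos.2 (Nat.pos_of_ne_zero (NeZero.ne D))
  have h1 : ∀ s : Option (Dir D), (ENNReal.ofReal (kwt w D s) • Measure.dirac s : Measure (Option (Dir D))) Set.univ =
      ENNReal.ofReal (kwt w D s) := by
    intro s
    rw [Measure.smul_apply, Measure.dirac_apply_of_mem (Set.mem_univ _), smul_eq_mul, mul_one]
  rw [tsum_congr h1, tsum_fintype, ← ENNReal.ofReal_sum_of_nonneg fun s _ => kwt_nonneg w D s, Fintype.sum_option]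
  have h2 : ∀ d : Dir D, kwt w D (some d) = (1 - (w : ℝ)) / (2 * D) := fun _ => rfl
  rw [Finset.sum_congr rfl fun d _ => h2 d, Finset.sum_const, Finset.card_univ, Fintype.card_prod, Fintype.card_fin,
    Fintype.card_bool, nsmul_eq_mul]
  have h3 : kwt (w : ℝ) D none = w := rfl
  rw [h3]
  have h4 : (w : ℝ) + ((D * 2 : ℕ) : ℝ) * ((1 - (w : ℝ)) / (2 * D)) = 1 := by
    push_cast
    field_simp
    ring
  rw [h4, ENNReal.ofReal_one]

/-- the law of the environments -/
noncomputable def KQ (w : Set.Ioo (0 : ℝ) 1) (D : ℕ) [NeZero D] : Measure (KC D) := Measure.infinitePi fun _ => kLaw w D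

instance KQ_prob (w : Set.Ioo (0 : ℝ) 1) (D : ℕ) [NeZero D] : IsProbabilityMeasure (KQ w D) := by
  unfold KQ
  infer_instance

/-- the probability of survival -/
noncomputable def ksv (w : Set.Ioo (0 : ℝ) 1) (D : ℕ) [NeZero D] : ℝ≥0∞ := KQ w D {k | {x | KCl k 0 x}.Infinite}

end FDr.HC
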