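import Pool.Agent.Lib.MP_e029a2_pr.HC.U2

/-!
# The mean number of the activated frogs of a hyperplane
-/

set_option autoImplicit false

namespace FDr.HC

open MeasureTheory ProbabilityTheory
open scoped ENNReal
open FDr.M FDr.MT
open FDr.TR (ind ind_true ind_false ind_mono ind_and ind_congr measurable_ind lintegral_ind tsum_ind_and tsum_opt
  lintegral_mul_of_disj lintegral_reindex lintegral_coord)

variable {D : ℕ}

/-! ### Measurability, translations -/

/-- the cluster after `k` steps of the construction -/
def LClk (c : LC D) (a : V D) : ℕ → V D → Prop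
  | 0, x => x = a
  | k + 1, x => LClk c a k x ∨ ∃ (y : V D) (i : ℕ), LClk c a k y ∧ y + lsum ((c y).take i) = x

theorem lclk_iff {c : LC D} {a x : V D} : LCl c a x ↔ ∃ k, LClk c a k x := by
  constructor
  · intro h
    induction h with
    | start => exact ⟨0, rfl⟩
    | next y i _ ih =>
      obtain ⟨k, hk⟩ := ih
      exact ⟨k + 1, Or.inr ⟨y, i, hk, rfl⟩⟩
  · rintro ⟨k, hk⟩
    induction k generalizing x with
    | zero =>
      obtain rfl : x = a := hk
      exact LCl.start
    | succ k ih =>
      rcases hk with h | ⟨y, i, h1, rfl⟩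
      · exact ih h
      · exact LCl.next _ _ (ih h1)

theorem measurable_lcl (a x : V D) : Measurable fun c : LC D => LCl c a x := by
  rw [funext fun c : LC D => propext (lclk_iff (c := c) (a := a) (x := x))]
  refine Measurable.exists fun k => ?_
  induction k generalizing x with
  | zero => exact measurable_const
  | succ k ih =>
    refine Measurable.or (ih x) (Measurable.exists fun y => Measurable.exists fun i => (ih y).and ?_)
    exact (measurable_of_countable fun l : LL D => y + lsum (l.take i) = x).comp (measurable_pi_apply y)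

theorem lcl_shift (c : LC D) (y a x : V D) : LCl (fun v => c (y + v)) a x ↔ LCl c (y + a) (y + x) := by
  constructor
  · intro h
    induction h with
    | start => exact LCl.start
    | next z i _ ih =>
      rw [← add_assoc]
      exact LCl.next _ _ ih
  · intro h
    have key : ∀ u, LCl c (y + a) u → LCl (fun v => c (y + v)) a (u - y) := by
      intro u hu
      induction hu with
      | start =>
        rw [add_sub_cancel_left]
        exact LCl.start
      | next z i _ ih =>
        have h2 : LCl (fun v => c (y + v)) a (z - y + lsum ((c (y + (z - y))).take i)) := LCl.next (z - y) i ih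
        rw [add_sub_cancel y z] at h2
        have h4 : z - y + lsum ((c z).take i) = z + lsum ((c z).take i) - y := by abel
        rwa [h4] at h2
    have h1 := key _ h
    rwa [add_sub_cancel_left] at h1

theorem lcl_prob_shift (p : Set.Ioo (0 : ℝ) 1) [NeZero D] (y x : V D) :
    LQ p D {c | LCl c y (y + x)} = LQ p D {c | LCl c 0 x} := by
  have h1 := lintegral_reindex (lwM p D) (ψ := fun v : V D => y + v) (add_right_injective y)
    (g := fun c : LC D => TR.ind (LCl c 0 x)) (measurable_ind (measurable_lcl 0 x))
  have h2 : ∀ c : LC D, TR.ind (LCl (fun v => c (y + v)) 0 x) = TR.ind (LCl c y (y + x)) := by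
    intro c
    have h3 := lcl_shift c y 0 x
    rw [add_zero] at h3
    exact ind_congr h3
  rw [lintegral_congr h2, lintegral_ind _ (measurable_lcl 0 x), lintegral_ind _ (measurable_lcl y (y + x))] at h1
  exact h1

theorem chi_shift (p : Set.Ioo (0 : ℝ) 1) [NeZero D] (y : V D) : ∑' v : V D, LQ p D {c | LCl c y v} = chi p D := by
  rw [← (Equiv.addLeft y).tsum_eq]
  exact tsum_congr fun v => lcl_prob_shift p y v

/-! ### The law of a hyperplane -/

variable (w α : Set.Ioo (0 : ℝ) 1) [NeZero D]

theorem colc_law (x : ℤ) : Measure.map (fun c : OConf D => colc c x) (OQ w α D) = LQ (qw w) D := by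
  have hinj : Function.Injective fun v : V D => ((some (x, v), 0) : Ix D) := by
    intro v v' h
    have h1 := Option.some_injective _ (congrArg Prod.fst h)
    exact congrArg Prod.snd h1
  have h1 := Measure.map_infinitePi_infinitePi_of_inj (P := fun _ : Ix D => mcLaw w α D) hinj
  have h2 : (fun c : OConf D => colc c x) = (fun (a : V D → MC D) (v : V D) => lat (a v)) ∘
      (fun (c : OConf D) (v : V D) => c (some (x, v), 0)) := rfl
  have hl : ∀ v : V D, Measurable (lat : MC D → LL D) := fun _ => measurable_of_countable _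
  have hm1 : Measurable (fun (a : V D → MC D) (v : V D) => lat (a v)) :=
    measurable_pi_lambda _ fun v => (hl v).comp (measurable_pi_apply v)
  have hm2 : Measurable (fun (c : OConf D) (v : V D) => c (some (x, v), 0)) :=
    measurable_pi_lambda _ fun _ => measurable_pi_apply _
  rw [h2, ← Measure.map_map hm1 hm2]
  unfold OQ LQ
  rw [h1]
  have h3 := Measure.infinitePi_map_pi (μ := fun _ : V D => mcLaw w α D) (f := fun _ : V D => (lat : MC D → LL D)) hl
  rw [h3]
  congr 1
  funext v
  exact lat_law w α

omit [NeZero D] in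
theorem meas_colc (x : ℤ) : Measurable fun c : OConf D => colc c x :=
  measurable_pi_lambda _ fun _ => (measurable_of_countable (lat : MC D → LL D)).comp (measurable_pi_apply _)

theorem colc_prob (x : ℤ) (y v : V D) : OQ w α D {c | LCl (colc c x) y v} = LQ (qw w) D {c | LCl c y v} := by
  rw [← colc_law w α x, Measure.map_apply (meas_colc x) (measurableSet_setOfPred.2 (measurable_lcl y v))]
  rfl

omit [NeZero D] in
theorem meas_cell' (i : Ix D) (B : MC D → Prop) : Measurable fun c : OConf D => B (c i) :=
  (measurable_of_countable B).comp (measurable_pi_apply i)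

theorem own_cell' (F : Set (Site D)) (o : Option (Site D)) (B : MC D → Prop) :
    OQ w α D {c | Ent F 0 c 0 (o, 0) ∧ B (c (o, 0))} =
      OQ w α D {c | Ent F 0 c 0 (o, 0)} * mcLaw w α D {a | B a} := by
  have h6 := lintegral_coord (mcLaw w α D) ((o, 0) : Ix D) (g := fun a => TR.ind (B a)) (measurable_of_countable _)
  have hm2 := meas_cell' ((o, 0) : Ix D) B
  rw [lintegral_ind (mcLaw w α D) (measurable_of_countable B)] at h6
  cases o with
  | none =>
    have h1 : {c : OConf D | Ent F 0 c 0 (none, 0)} = Set.univ := Set.eq_univ_of_forall fun c => Ent.src _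
    have h2 : {c : OConf D | Ent F 0 c 0 (none, 0) ∧ B (c (none, 0))} = {c | B (c (none, 0))} := by
      ext c
      exact ⟨fun h => h.2, fun h => ⟨Ent.src _, h⟩⟩
    rw [h1, h2, measure_univ, one_mul, ← h6, lintegral_ind _ hm2]
    rfl
  | some y =>
    have hm1 := measurable_ent F 0 0 ((some y, 0) : Ix D)
    have h1 := lintegral_mul_of_disj (mcLaw w α D) {((some y, 0) : Ix D)} (measurable_ind hm2) (measurable_ind hm1)
      (fun c c' hc => by rw [hc _ rfl]) (fun c c' hc => ind_congr (ent_zero_indep hc))
    rw [h6, lintegral_ind _ hm1] at h1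
    unfold OQ
    rw [mul_comm, ← h1, ← lintegral_ind _ (hm1.and hm2)]
    refine lintegral_congr fun c => ?_
    rw [ind_and, mul_comm]

/-- the probability that the frog `o` belongs to the process on the left of the hyperplane `x` -/
noncomputable def ple (x : ℤ) (o : Option (Site D)) : ℝ≥0∞ := OQ w α D {c | Ent (lef x) 0 c 0 (o, 0)}

/-- **One term.** -/
theorem term_prob (x : ℤ) (o : Option (Site D)) (ho : o = none ∨ (o.getD 0).1 < x) (a : MC D) (y v : V D) :
    OQ w α D {c | (Ent (lef x) 0 c 0 (o, 0) ∧ ∃ b, c (o, 0) = a ++ b ∧ True) ∧ LCl (colc c x) y v} =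
      ple w α x o * M.pw w α a * LQ (qw w) D {c | LCl c y v} := by
  have hm1 : Measurable fun c : OConf D => Ent (lef x) 0 c 0 (o, 0) ∧ ∃ b, c (o, 0) = a ++ b ∧ True :=
    (measurable_ent _ _ _ _).and (meas_cell' (o, 0) fun m => ∃ b, m = a ++ b ∧ True)
  have hm2 : Measurable fun c : OConf D => LCl (colc c x) y v := (measurable_lcl y v).comp (meas_colc x)
  have h0 : ∀ i : Ix D, (i.1 = none ∨ (i.1.getD 0).1 < x) → i ∉ {i : Ix D | ∃ v, i = (some (x, v), 0)} := by
    rintro i hi ⟨v', rfl⟩
    rcases hi with hi | hi
    · exact absurd hi (Option.some_ne_none _)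
    · exact absurd hi (lt_irrefl x)
  have h1 := lintegral_mul_of_disj (mcLaw w α D) {i : Ix D | ∃ v, i = (some (x, v), 0)} (measurable_ind hm2)
    (measurable_ind hm1)
    (fun c c' hc => by
      have h2 : colc c x = colc c' x := by
        funext v'
        show lat (c (some (x, v'), 0)) = lat (c' (some (x, v'), 0))
        rw [hc _ ⟨v', rfl⟩]
      rw [h2])
    (fun c c' hc => by
      have h2 : c (o, 0) = c' (o, 0) := hc _ (h0 _ ho)
      rw [h2]
      refine ind_congr (and_congr_left fun _ => ent_congr_iff (fun e he _ => hc _ (h0 _ ?_)) _)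
      cases h3 : e.1 with
      | none => exact Or.inl rfl
      | some y' => exact Or.inr (he y' h3))
  rw [lintegral_ind _ hm1, lintegral_ind _ hm2] at h1
  have h2 := own_cell' w α (lef x) o fun m => ∃ b, m = a ++ b ∧ True
  have h3 := mc_prefix w α a fun _ => True
  have h4 : {l : MC D | True} = Set.univ := Set.eq_univ_of_forall fun _ => trivial
  rw [h4, measure_univ, mul_one] at h3
  rw [h3] at h2
  have h5 : ∫⁻ c, TR.ind (LCl (colc c x) y v) * TR.ind (Ent (lef x) 0 c 0 (o, 0) ∧ ∃ b, c (o, 0) = a ++ b ∧ True)
      ∂(Measure.infinitePi fun _ : Ix D => mcLaw w α D) =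
      OQ w α D {c | (Ent (lef x) 0 c 0 (o, 0) ∧ ∃ b, c (o, 0) = a ++ b ∧ True) ∧ LCl (colc c x) y v} := by
    unfold OQ
    rw [← lintegral_ind _ (hm1.and hm2)]
    refine lintegral_congr fun c => ?_
    exact (mul_comm _ _).trans (ind_and _ _).symm
  rw [← h5, h1, ← colc_prob w α x y v]
  unfold ple
  unfold OQ at h2 ⊢
  rw [h2, mul_comm]

end FDr.HC
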