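import Pool.Agent.Lib.MP_e029a2_pr.HC.KDef
import Pool.Agent.Lib.MP_e029a2_pr.HC.U3

/-!
# The frog model with death: from the steps to the finite lists
-/

set_option autoImplicit false

namespace FDr.HC

open MeasureTheory ProbabilityTheory
open scoped ENNReal

variable {D : ℕ}

/-- `l` is the list of the steps before the first `none` -/
def Rn (a : ℕ → Option (Dir D)) (l : LL D) : Prop := ∀ i ≤ l.length, a i = l[i]?

theorem rn_unique {a : ℕ → Option (Dir D)} {l l' : LL D} (h : Rn a l) (h' : Rn a l') : l = l' := by
  have key : ∀ l l' : LL D, Rn a l → Rn a l' → l.length ≤ l'.length := by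
    intro l l' h h'
    by_contra hc
    rw [not_le] at hc
    have h1 := h l'.length hc.le
    have h2 := h' l'.length le_rfl
    rw [h1, List.getElem?_eq_getElem hc, List.getElem?_eq_none le_rfl] at h2
    exact absurd h2 (Option.some_ne_none _)
  have h1 : l.length = l'.length := le_antisymm (key _ _ h h') (key _ _ h' h)
  refine List.ext_getElem? fun i => ?_
  by_cases hi : i ≤ l.length
  · rw [← h i hi, h' i (h1 ▸ hi)]
  · rw [List.getElem?_eq_none (by omega), List.getElem?_eq_none (by omega)]

open Classical in
/-- the steps before the death -/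
noncomputable def krn (a : ℕ → Option (Dir D)) : LL D := if h : ∃ l, Rn a l then h.choose else []

theorem krn_eq {a : ℕ → Option (Dir D)} {l : LL D} (h : Rn a l) : krn a = l := by
  have h1 : ∃ l, Rn a l := ⟨l, h⟩
  unfold krn
  rw [dif_pos h1]
  exact rn_unique h1.choose_spec h

theorem measurableSet_rn (l : LL D) : MeasurableSet {a : ℕ → Option (Dir D) | Rn a l} := by
  have h1 : {a : ℕ → Option (Dir D) | Rn a l} = ⋂ i ∈ {i : ℕ | i ≤ l.length}, {a | a i = l[i]?} := by
    ext a
    simp only [Set.mem_iInter]
    rfl
  rw [h1]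
  exact MeasurableSet.biInter (Set.to_countable _) fun i _ => measurable_pi_apply i (measurableSet_singleton _)

theorem measurable_krn : Measurable (krn : (ℕ → Option (Dir D)) → LL D) := by
  refine measurable_to_countable' fun l => ?_
  by_cases hl : l = []
  · have h1 : (krn : (ℕ → Option (Dir D)) → LL D) ⁻¹' {l} = {a | Rn a l} ∪ ⋂ l', {a | Rn a l'}ᶜ := by
      ext a
      constructor
      · intro ha
        have ha' : krn a = l := ha
        by_cases h : ∃ l, Rn a l
        · obtain ⟨l', h'⟩ := h
          rw [krn_eq h'] at ha'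
          left
          rw [← ha']
          exact h'
        · right
          refine Set.mem_iInter.2 fun l' h' => h ⟨l', h'⟩
      · rintro (ha | ha)
        · exact krn_eq ha
        · have h : ¬ ∃ l, Rn a l := fun ⟨l', h'⟩ => (Set.mem_iInter.1 ha l') h'
          show krn a = l
          unfold krn
          rw [dif_neg h, hl]
    rw [h1]
    exact (measurableSet_rn l).union (MeasurableSet.iInter fun l' => (measurableSet_rn l').compl)
  · have h1 : (krn : (ℕ → Option (Dir D)) → LL D) ⁻¹' {l} = {a | Rn a l} := by
      ext a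
      constructor
      · intro ha
        have ha' : krn a = l := ha
        by_cases h : ∃ l, Rn a l
        · obtain ⟨l', h'⟩ := h
          rw [krn_eq h'] at ha'
          rw [← ha']
          exact h'
        · exfalso
          unfold krn at ha'
          rw [dif_neg h] at ha'
          exact hl ha'.symm
      · intro ha
        exact krn_eq ha
    rw [h1]
    exact measurableSet_rn l

variable (w : Set.Ioo (0 : ℝ) 1)

theorem rn_prob [NeZero D] (l : LL D) :
    Measure.infinitePi (fun _ : ℕ => kLaw w D) {a | Rn a l} = ENNReal.ofReal (lwW (qw w) D l) := by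
  have hw := w.2.1
  have hw1 := w.2.2
  have hD : (0 : ℝ) < D := Nat.cast_pos.2 (Nat.pos_of_ne_zero (NeZero.ne D))
  have h1 : {a : ℕ → Option (Dir D) | Rn a l} = Set.pi (↑(Finset.range (l.length + 1))) fun i => {l[i]?} := by
    ext a
    simp only [Set.mem_pi, Finset.coe_range, Set.mem_Iio, Set.mem_singleton_iff]
    exact ⟨fun h i hi => h i (by omega), fun h i hi => h i (by omega)⟩
  rw [h1, Measure.infinitePi_pi _ fun i _ => measurableSet_singleton _, Finset.prod_range_succ,
    List.getElem?_eq_none le_rfl, kLaw_one]
  have h2 : ∀ i ∈ Finset.range l.length, kLaw w D {l[i]?} = ENNReal.ofReal ((1 - w) / (2 * D)) := by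
    intro i hi
    rw [List.getElem?_eq_getElem (Finset.mem_range.1 hi), kLaw_one]
    rfl
  rw [Finset.prod_congr rfl h2, Finset.prod_const, Finset.card_range]
  have h3 : kwt (w : ℝ) D none = w := rfl
  unfold lwW
  rw [h3, qw_coe, ENNReal.ofReal_mul (by linarith), ENNReal.ofReal_pow (by
    have : 0 ≤ 1 - (w : ℝ) := by linarith
    positivity), mul_comm]
  congr 2
  ring

/-- the frog dies almost surely -/
theorem rn_ae [NeZero D] : ∀ᵐ a ∂Measure.infinitePi (fun _ : ℕ => kLaw w D), ∃ l : LL D, Rn a l := by
  have h1 : Measure.infinitePi (fun _ : ℕ => kLaw w D) (⋃ l : LL D, {a | Rn a l}) = 1 := by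
    rw [measure_iUnion (fun l l' hne => by
      show Disjoint _ _
      rw [Set.disjoint_left]
      exact fun a h h' => hne (rn_unique h h')) measurableSet_rn]
    rw [tsum_congr fun l => rn_prob w l]
    have h2 := (lwM_prob (qw w) D).measure_univ
    unfold lwM at h2
    rw [Measure.sum_apply _ MeasurableSet.univ] at h2
    rw [← h2]
    refine tsum_congr fun l => ?_
    rw [Measure.smul_apply, Measure.dirac_apply_of_mem (Set.mem_univ _), smul_eq_mul, mul_one]
  have h2 : MeasurableSet (⋃ l : LL D, {a : ℕ → Option (Dir D) | Rn a l}) := MeasurableSet.iUnion measurableSet_rn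
  have h3 := (prob_compl_eq_zero_iff h2).2 h1
  rw [ae_iff]
  refine le_antisymm ?_ zero_le
  rw [← h3]
  refine measure_mono fun a ha h => ha ?_
  obtain ⟨l, hl⟩ := Set.mem_iUnion.1 h
  exact ⟨l, hl⟩

theorem krn_law [NeZero D] : (Measure.infinitePi fun _ : ℕ => kLaw w D).map krn = lwM (qw w) D := by
  refine Measure.ext_of_singleton fun l => ?_
  rw [Measure.map_apply measurable_krn (measurableSet_singleton _), lw_one, ← rn_prob w l]
  refine measure_congr ?_
  filter_upwards [rn_ae w (D := D)] with a ha
  obtain ⟨l', h'⟩ := ha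
  refine propext ?_
  constructor
  · intro h
    have h1 : krn a = l := h
    rw [krn_eq h'] at h1
    rw [← h1]
    exact h'
  · intro h
    exact krn_eq h

/-- the lists of all the frogs -/
noncomputable def kall (k : KC D) : LC D := fun v => krn fun n => k (v, n)

private theorem KL_eq (D : ℕ) : (kall (D := D)) =
    (fun (F : V D → ℕ → Option (Dir D)) (x : V D) => krn (F x)) ∘ (MeasurableEquiv.curry (V D) ℕ (Option (Dir D))) := rfl

private theorem KL_meas (D : ℕ) : Measurable (fun (F : V D → ℕ → Option (Dir D)) (x : V D) => krn (F x)) :=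
  measurable_pi_lambda _ fun x => measurable_krn.comp (measurable_pi_apply x)

theorem kall_meas (D : ℕ) : Measurable (kall (D := D)) := by
  rw [KL_eq]
  exact (KL_meas D).comp (MeasurableEquiv.measurable _)

private theorem KL_congr {ι X : Type*} [MeasurableSpace X] {μ ν : ι → Measure X}
    (hμ : ∀ i, IsProbabilityMeasure (μ i)) (hν : ∀ i, IsProbabilityMeasure (ν i)) (h : μ = ν) :
    Measure.infinitePi μ = Measure.infinitePi ν := by
  subst h
  rfl

theorem kall_law [NeZero D] : (KQ w D).map kall = LQ (qw w) D := by
  rw [KL_eq, ← Measure.map_map (KL_meas D) (MeasurableEquiv.measurable _)]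
  have h1 : (KQ w D).map (MeasurableEquiv.curry (V D) ℕ (Option (Dir D))) =
      Measure.infinitePi fun _ : V D => Measure.infinitePi fun _ : ℕ => kLaw w D :=
    Measure.infinitePi_map_curry (fun (_ : V D) (_ : ℕ) => kLaw w D)
  rw [h1]
  have hp : ∀ _ : V D, IsProbabilityMeasure ((Measure.infinitePi fun _ : ℕ => kLaw w D).map krn) := fun _ =>
    Measure.isProbabilityMeasure_map (measurable_krn (D := D)).aemeasurable
  have h2 : (Measure.infinitePi fun _ : V D => Measure.infinitePi fun _ : ℕ => kLaw w D).map
      (fun (F : V D → ℕ → Option (Dir D)) (x : V D) => krn (F x)) =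
      Measure.infinitePi fun _ : V D => (Measure.infinitePi fun _ : ℕ => kLaw w D).map krn :=
    Measure.infinitePi_map_pi (fun _ : V D => Measure.infinitePi fun _ : ℕ => kLaw w D)
      (f := fun _ a => krn a) fun _ => measurable_krn
  rw [h2]
  exact KL_congr hp (fun _ => inferInstance) (funext fun _ => krn_law w)

/-! ### The clusters -/

theorem sum_take (l : LL D) (n : ℕ) (hn : n ≤ l.length) : ∑ j ∈ Finset.range n, kv (l[j]?) = lsum (l.take n) := by
  induction n with
  | zero => simp [lsum]
  | succ n ih =>
    rw [Finset.sum_range_succ, ih (by omega), List.take_add_one, lsum_append, List.getElem?_eq_getElem (by omega)]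
    congr 1
    show dv (l[n]) = lsum [l[n]]
    rw [lsum_cons, lsum_nil, add_zero]

theorem kal_iff {k : KC D} {v : V D} {l : LL D} (h : Rn (fun n => k (v, n)) l) (n : ℕ) : kal k v n ↔ n ≤ l.length := by
  constructor
  · intro h1
    by_contra hc
    rw [not_le] at hc
    have h2 := h l.length le_rfl
    rw [List.getElem?_eq_none le_rfl] at h2
    exact h1 l.length hc h2
  · intro h1 j hj h2
    have h3 := h j (by omega)
    have h4 : k (v, j) = l[j]? := h3
    rw [h2, List.getElem?_eq_getElem (by omega)] at h4
    exact absurd h4.symm (Option.some_ne_none _)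

theorem kpos_eq {k : KC D} {v : V D} {l : LL D} (h : Rn (fun n => k (v, n)) l) {n : ℕ} (hn : n ≤ l.length) :
    kpos k v n = v + lsum (l.take n) := by
  unfold kpos
  rw [← sum_take l n hn]
  congr 1
  refine Finset.sum_congr rfl fun j hj => ?_
  have h3 : k (v, j) = l[j]? := h j (by
    have := Finset.mem_range.1 hj
    omega)
  rw [h3]

theorem kcl_iff {k : KC D} (h : ∀ v, ∃ l, Rn (fun n => k (v, n)) l) (a x : V D) : KCl k a x ↔ LCl (kall k) a x := by
  have h0 : ∀ v, Rn (fun n => k (v, n)) (kall k v) := by
    intro v
    obtain ⟨l, hl⟩ := h v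
    have h1 : kall k v = l := krn_eq hl
    rw [h1]
    exact hl
  constructor
  · intro hx
    induction hx with
    | start => exact LCl.start
    | visit x n _ hal ih =>
      have h1 := (kal_iff (h0 x) n).1 hal
      rw [kpos_eq (h0 x) h1]
      exact LCl.next x n ih
  · intro hx
    induction hx with
    | start => exact KCl.start
    | next x i _ ih =>
      by_cases hi : i ≤ (kall k x).length
      · rw [← kpos_eq (h0 x) hi]
        exact KCl.visit x i ih ((kal_iff (h0 x) i).2 hi)
      · have h2 : (kall k x).take i = (kall k x).take (kall k x).length := by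
          rw [List.take_of_length_le (by omega), List.take_of_length_le le_rfl]
        rw [h2, ← kpos_eq (h0 x) le_rfl]
        exact KCl.visit x _ ih ((kal_iff (h0 x) _).2 le_rfl)

theorem rn_all [NeZero D] : ∀ᵐ k ∂KQ w D, ∀ v, ∃ l, Rn (fun n => k (v, n)) l := by
  rw [ae_all_iff]
  intro v
  have hinj : Function.Injective fun n : ℕ => ((v, n) : V D × ℕ) := fun n m h => congrArg Prod.snd h
  have h1 := Measure.map_infinitePi_infinitePi_of_inj (P := fun _ : V D × ℕ => kLaw w D) hinj
  have h2 := rn_ae w (D := D)
  rw [← h1] at h2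
  have hm : Measurable (fun (k : KC D) (n : ℕ) => k (v, n)) := measurable_pi_lambda _ fun n => measurable_pi_apply _
  exact ae_of_ae_map hm.aemeasurable h2

theorem ksv_eq [NeZero D] : ksv w D = Thet (qw w) D := by
  unfold ksv Thet
  have hm : MeasurableSet {c : LC D | {x | LCl c 0 x}.Infinite} := by
    have h1 : {c : LC D | {x | LCl c 0 x}.Infinite} = ⋂ F : Finset (V D), ⋃ x ∈ {x : V D | x ∉ F}, {c | LCl c 0 x} := by
      ext c
      simp only [Set.mem_iInter, Set.mem_iUnion]
      constructor
      · intro h F
        obtain ⟨x, hx, hF⟩ := h.exists_notMem_finset F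
        exact ⟨x, hF, hx⟩
      · intro h hfin
        obtain ⟨x, hx, h1⟩ := h hfin.toFinset
        exact hx (hfin.mem_toFinset.2 h1)
    rw [h1]
    refine MeasurableSet.iInter fun F => MeasurableSet.biUnion (Set.to_countable _) fun x _ => ?_
    exact measurableSet_setOfPred.2 (measurable_lcl 0 x)
  rw [← kall_law w, Measure.map_apply (kall_meas D) hm]
  refine measure_congr ?_
  filter_upwards [rn_all w (D := D)] with k hk
  refine propext ?_
  have h1 : {x : V D | KCl k 0 x} = {x | LCl (kall k) 0 x} := by
    ext x
    exact kcl_iff hk 0 x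
  show {x : V D | KCl k 0 x}.Infinite ↔ {x | LCl (kall k) 0 x}.Infinite
  rw [h1]

end FDr.HC
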