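import Pool.Agent.Lib.MP_e029a2_pr.M.Def

/-!
# The frog model with death on `ℤ^D`: finite lists

Every frog has a finite list of directions: the steps before its death.
-/

set_option autoImplicit false

namespace FDr.HC

open MeasureTheory ProbabilityTheory
open scoped ENNReal

/-- the sites -/
abbrev V (D : ℕ) : Type := Fin D → ℤ

/-- the steps of a frog before its death -/
abbrev LL (D : ℕ) : Type := List (Dir D)

instance (D : ℕ) : MeasurableSpace (LL D) := ⊤

/-- configurations -/
abbrev LC (D : ℕ) : Type := V D → LL D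

/-- the displacement -/
def lsum {D : ℕ} (l : LL D) : V D := (l.map dv).sum

/-- the sites which are activated if the frog of `a` starts -/
inductive LCl {D : ℕ} (c : LC D) (a : V D) : V D → Prop
  | start : LCl c a a
  | next (x : V D) (i : ℕ) : LCl c a x → LCl c a (x + lsum ((c x).take i))

/-- the weight of a list: the probability of a further step is `p` -/
noncomputable def lwW (p : ℝ) (D : ℕ) (l : LL D) : ℝ := (1 - p) * (p / (2 * D)) ^ l.length

/-- the law of a list -/
noncomputable def lwM (p : Set.Ioo (0 : ℝ) 1) (D : ℕ) : Measure (LL D) :=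
  Measure.sum fun l => ENNReal.ofReal (lwW p D l) • Measure.dirac l

theorem lw_one (p : Set.Ioo (0 : ℝ) 1) (D : ℕ) (l : LL D) : lwM p D {l} = ENNReal.ofReal (lwW p D l) := by
  rw [lwM, Measure.sum_apply _ (measurableSet_singleton _), tsum_eq_single l]
  · rw [Measure.smul_apply, Measure.dirac_apply_of_mem (Set.mem_singleton _), smul_eq_mul, mul_one]
  · intro a ha
    rw [Measure.smul_apply, Measure.dirac_apply' _ (measurableSet_singleton _), Set.indicator_of_notMem, smul_zero]
    exact fun h => ha (Set.mem_singleton_iff.1 h)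

instance lwM_prob (p : Set.Ioo (0 : ℝ) 1) (D : ℕ) [NeZero D] : IsProbabilityMeasure (lwM p D) := by
  constructor
  unfold lwM
  rw [Measure.sum_apply _ MeasurableSet.univ]
  have hp := p.2.1
  have hp1 := p.2.2
  have hD : (0 : ℝ) < D := Nat.cast_pos.2 (Nat.pos_of_ne_zero (NeZero.ne D))
  have h1 : ∀ l : LL D, (ENNReal.ofReal (lwW p D l) • Measure.dirac l : Measure (LL D)) Set.univ =
      ENNReal.ofReal (1 - p) * (l.map fun _ => ENNReal.ofReal ((p : ℝ) / (2 * D))).prod := by
    intro l
    rw [Measure.smul_apply, Measure.dirac_apply_of_mem (Set.mem_univ _), smul_eq_mul, mul_one]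
    unfold lwW
    rw [ENNReal.ofReal_mul (by linarith), List.map_const', List.prod_replicate, ENNReal.ofReal_pow (by positivity)]
  have h2 : ∑ _d : Dir D, ENNReal.ofReal ((p : ℝ) / (2 * D)) = ENNReal.ofReal p := by
    rw [Finset.sum_const, Finset.card_univ, Fintype.card_prod, Fintype.card_fin, Fintype.card_bool, nsmul_eq_mul,
      ← ENNReal.ofReal_natCast, ← ENNReal.ofReal_mul (by positivity)]
    congr 1
    push_cast
    field_simp
  rw [tsum_congr h1, ENNReal.tsum_mul_left, M.tsum_list fun _ : Dir D => ENNReal.ofReal ((p : ℝ) / (2 * D)), h2,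
    ENNReal.tsum_geometric, ENNReal.ofReal_sub _ hp.le, ENNReal.ofReal_one]
  refine ENNReal.mul_inv_cancel ?_ ?_
  · rw [← ENNReal.ofReal_one, ← ENNReal.ofReal_sub _ hp.le]
    exact (ENNReal.ofReal_pos.2 (by linarith)).ne'
  · exact ENNReal.sub_ne_top ENNReal.one_ne_top

/-- the law of the configurations -/
noncomputable def LQ (p : Set.Ioo (0 : ℝ) 1) (D : ℕ) [NeZero D] : Measure (LC D) := Measure.infinitePi fun _ => lwM p D

instance LQ_prob (p : Set.Ioo (0 : ℝ) 1) (D : ℕ) [NeZero D] : IsProbabilityMeasure (LQ p D) := by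
  unfold LQ
  infer_instance

/-- the probability of survival -/
noncomputable def Thet (p : Set.Ioo (0 : ℝ) 1) (D : ℕ) [NeZero D] : ℝ≥0∞ := LQ p D {c | {x | LCl c 0 x}.Infinite}

/-- the mean number of the activated sites -/
noncomputable def chi (p : Set.Ioo (0 : ℝ) 1) (D : ℕ) [NeZero D] : ℝ≥0∞ := ∑' x : V D, LQ p D {c | LCl c 0 x}

end FDr.HC
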