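import Pool.Agent.Lib.MP_e029a2_pr.CB.Cyl

/-!
# Recurrence from the supercritical frog model with death in the hyperplanes: the stage relation

`R c h b δ u`: if all the frogs `(h, y)`, `y` in the box with the centre `b` and the radius `r`, are active, then all the
frogs `(h + δ, y)`, `y` in the box with the centre `u` and the radius `r`, are activated; `u` is at distance `n + 1`
from `b`.  The relation depends on the frogs `(h, y)`, `y` in the box with the centre `b` and the radius `n`.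
-/

set_option autoImplicit false

namespace FDr.HC

open MeasureTheory ProbabilityTheory
open scoped ENNReal

variable {D : ℕ}

/-- the boxes -/
def Bx (n : ℕ) (b : Fin D → ℤ) : Set (Fin D → ℤ) := {v | ∀ i, |v i - b i| ≤ n}

/-- the piece of the boundary of a box: the face `i`, the orthant `σ` -/
def Pc (n : ℕ) (b : Fin D → ℤ) (i : Fin D) (σ : Fin D → Bool) : Set (Fin D → ℤ) :=
  {u | sg (σ i) * (u i - b i) = (n : ℤ) + 1 ∧ ∀ j, 0 ≤ sg (σ j) * (u j - b j) ∧ (j ≠ i → sg (σ j) * (u j - b j) ≤ n)}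

/-- all the frogs of a small box in the hyperplane `h` are active -/
def SdA (r : ℕ) (c : Conf D) (h : ℤ) (b : Fin D → ℤ) : Prop := ∀ y ∈ Bx r b, ActC c (h, y)

/-- the stage relation: `T` is the range of the heights -/
structure Stg (w α : Set.Ioo (0 : ℝ) 1) (D : ℕ) [NeZero D] (n r T : ℕ) (ε κ : ℝ)
    (R : Conf D → ℤ → (Fin D → ℤ) → ℤ → (Fin D → ℤ) → Prop) : Prop where
  rn : r ≤ n
  meas : ∀ h b δ u, MeasurableSet {c | R c h b δ u}
  dep : ∀ h b δ u, Dep {q : Site D × ℕ | q.1.1 = h ∧ q.1.2 ∈ Bx n b} fun c => R c h b δ u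
  seed : ∀ c h b δ u, R c h b δ u → SdA r c h b → SdA r c (h + δ) u
  near : ∀ c h b δ u, R c h b δ u → u ∈ Bx (n + 1) b
  all : ∀ h b, Q w α D {c | ¬ ∀ δ : ℤ, δ ≠ 0 → |δ| ≤ T → ∃ u, R c h b δ u} ≤ ENNReal.ofReal ε
  piece : ∀ h b (i : Fin D) (σ : Fin D → Bool) (δ : ℤ), δ ≠ 0 → |δ| ≤ T →
    ENNReal.ofReal κ ≤ Q w α D {c | ∃ u ∈ Pc n b i σ, R c h b δ u}

/-- the criterion: `κ > 0` is fixed, `ε` is arbitrarily small and `T` arbitrarily large -/
def Crit (w α : Set.Ioo (0 : ℝ) 1) (D : ℕ) [NeZero D] : Prop :=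
  ∃ κ : ℝ, 0 < κ ∧ κ ≤ 1 ∧ ∀ (ε : ℝ) (T : ℕ), 0 < ε → ∃ n r R, Stg w α D n r T ε κ R

end FDr.HC
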