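import Pool.Agent.Lib.MP_e029a2_pr.SH.Sharp
import Pool.Agent.Lib.MP_e029a2_pr.HC.LDef

/-!
# Sharpness, in the language of `HC/LDef`
-/

set_option autoImplicit false

namespace FDr.HC

open MeasureTheory ProbabilityTheory
open scoped ENNReal
open FDr.SH (HV HD HRun HConf hvec hdsp hvis hW hLaw HQ Cl cl theta)

theorem lsum_eq {D : ℕ} (l : LL D) : lsum l = hdsp l := rfl

theorem lcl_iff {D : ℕ} (c : LC D) (x : V D) : LCl c 0 x ↔ Cl Set.univ {0} (c : HConf D) x := by
  constructor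
  · intro h
    induction h with
    | start => exact Cl.act 0 trivial rfl
    | next x i _ ih =>
      refine Cl.wake x _ ih trivial ?_
      refine ⟨min i (c x).length, min_le_right _ _, ?_⟩
      rw [add_sub_cancel_left, ← lsum_eq, min_comm]
      congr 1
      rcases le_total (c x).length i with h | h
      · rw [min_eq_left h, List.take_length, List.take_of_length_le h]
      · rw [min_eq_right h]
  · intro h
    induction h with
    | act x _ hx =>
      rw [Set.mem_singleton_iff.1 hx]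
      exact LCl.start
    | wake x y _ _ hy ih =>
      obtain ⟨i, _, hi⟩ := hy
      have h1 : y = x + lsum ((c x).take i) := by
        rw [lsum_eq, hi]
        exact (add_sub_cancel x y).symm
      rw [h1]
      exact LCl.next x i ih

/-- the death probability -/
def cw (p : Set.Ioo (0 : ℝ) 1) : Set.Ioo (0 : ℝ) 1 := ⟨1 - p, by have := p.2.2; linarith, by have := p.2.1; linarith⟩

theorem lwM_eq (p : Set.Ioo (0 : ℝ) 1) (D : ℕ) : lwM p D = hLaw (cw p) D := by
  unfold lwM hLaw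
  congr 1
  funext l
  congr 2
  show (1 - (p : ℝ)) * ((p : ℝ) / (2 * D)) ^ l.length = (1 - (p : ℝ)) * ((1 - (1 - (p : ℝ))) / (2 * D)) ^ l.length
  rw [sub_sub_cancel]

theorem LQ_eq (p : Set.Ioo (0 : ℝ) 1) (D : ℕ) [NeZero D] : LQ p D = HQ (cw p) D := by
  unfold LQ HQ
  congr 1
  funext _
  exact lwM_eq p D

theorem Thet_eq (p : Set.Ioo (0 : ℝ) 1) (D : ℕ) [NeZero D] : Thet p D = theta (cw p) D := by
  unfold Thet theta
  rw [LQ_eq]
  congr 1
  ext c
  have h1 : {x | LCl c 0 x} = cl Set.univ {0} (c : HConf D) := by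
    ext x
    exact lcl_iff c x
  show Set.Infinite {x | LCl c 0 x} ↔ Set.Infinite (cl Set.univ {0} (c : HConf D))
  rw [h1]

theorem chi_eq (p : Set.Ioo (0 : ℝ) 1) (D : ℕ) [NeZero D] :
    chi p D = ∑' y : HV D, HQ (cw p) D {c | Cl Set.univ {0} c y} := by
  unfold chi
  refine tsum_congr fun x => ?_
  rw [LQ_eq]
  congr 1
  ext c
  exact lcl_iff c x

theorem thet_mono (D : ℕ) [NeZero D] {p p' : Set.Ioo (0 : ℝ) 1} (h : (p : ℝ) ≤ p') : Thet p D ≤ Thet p' D := by
  rw [Thet_eq, Thet_eq]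
  refine SH.theta_anti ?_
  show (1 : ℝ) - p' ≤ 1 - p
  linarith

theorem chi_mono (D : ℕ) [NeZero D] {p p' : Set.Ioo (0 : ℝ) 1} (h : (p : ℝ) ≤ p') : chi p D ≤ chi p' D := by
  rw [chi_eq, chi_eq, SH.mean_eq, SH.mean_eq]
  refine ENNReal.tsum_le_tsum fun m => ?_
  refine SH.tail_mono ?_ (m + 1)
  show (1 : ℝ) - p' ≤ 1 - p
  linarith

/-- **Sharpness**: the mean number of activated frogs is bounded, uniformly below every value `q < p₂`, if the model
with the parameter `p₂` does not survive. -/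
theorem sharp (D : ℕ) [NeZero D] {p₂ : Set.Ioo (0 : ℝ) 1} (h : Thet p₂ D = 0) {q : ℝ} (hq : q < p₂) :
    ∃ C : ℝ, 0 ≤ C ∧ ∀ p : Set.Ioo (0 : ℝ) 1, (p : ℝ) ≤ q → chi p D ≤ ENNReal.ofReal C := by
  rcases le_or_gt q 0 with h0 | h0
  · exact ⟨0, le_rfl, fun p hp => absurd (hp.trans h0) (not_le.2 p.2.1)⟩
  have hq1 : q < 1 := hq.trans p₂.2.2
  have hne : chi ⟨q, h0, hq1⟩ D ≠ ⊤ := by
    rw [chi_eq]
    rw [Thet_eq] at h
    refine SH.mean_ne_top h ?_
    show (1 : ℝ) - p₂ < 1 - q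
    linarith
  refine ⟨(chi ⟨q, h0, hq1⟩ D).toReal, ENNReal.toReal_nonneg, fun p hp => ?_⟩
  rw [ENNReal.ofReal_toReal hne]
  exact chi_mono D (p' := ⟨q, h0, hq1⟩) hp

end FDr.HC
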