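import Pool.Agent.Lib.MP_e029a2_pr.HC.U5
import Pool.Agent.Lib.MP_e029a2_pr.HC.KL
import Pool.Agent.Lib.MP_e029a2_pr.HC.SAd
import Pool.Agent.Lib.MP_e029a2_pr.HC.RDef

/-!
# The critical death probability and the frog model with drift
-/

set_option autoImplicit false

namespace FDr.HC

open MeasureTheory ProbabilityTheory
open scoped ENNReal

/-- the critical death probability of the frog model on `ℤ^D` without drift: the supremum of the death probabilities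
with a positive probability of survival -/
noncomputable def wc (D : ℕ) [NeZero D] : ℝ := sSup {x : ℝ | ∃ h : x ∈ Set.Ioo (0 : ℝ) 1, 0 < ksv ⟨x, h⟩ D}

variable (D : ℕ) [NeZero D]

theorem wc_bdd : BddAbove {x : ℝ | ∃ h : x ∈ Set.Ioo (0 : ℝ) 1, 0 < ksv ⟨x, h⟩ D} :=
  ⟨1, fun _ hx => hx.1.2.le⟩

theorem wc_nonneg : 0 ≤ wc D := Real.sSup_nonneg fun _ hx => hx.1.1.le

theorem wc_le_one : wc D ≤ 1 := Real.sSup_le (fun _ hx => hx.1.2.le) zero_le_one

theorem ksv_pos {w : Set.Ioo (0 : ℝ) 1} (h : (w : ℝ) < wc D) : 0 < ksv w D := by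
  have hne : {x : ℝ | ∃ h : x ∈ Set.Ioo (0 : ℝ) 1, 0 < ksv ⟨x, h⟩ D}.Nonempty := by
    by_contra hc
    rw [Set.not_nonempty_iff_eq_empty] at hc
    unfold wc at h
    rw [hc, Real.sSup_empty] at h
    exact absurd w.2.1 (not_lt.2 h.le)
  obtain ⟨x, ⟨hx, hx1⟩, hx2⟩ := exists_lt_of_lt_csSup hne h
  refine lt_of_lt_of_le hx1 ?_
  rw [ksv_eq, ksv_eq]
  refine thet_mono D ?_
  rw [qw_coe, qw_coe]
  show 1 - x ≤ 1 - (w : ℝ)
  linarith

theorem ksv_zero {w : Set.Ioo (0 : ℝ) 1} (h : wc D < (w : ℝ)) : ksv w D = 0 := by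
  by_contra hc
  have h1 : 0 < ksv w D := pos_iff_ne_zero.2 hc
  exact absurd (le_csSup (wc_bdd D) ⟨w.2, h1⟩) (not_le.2 h)

/-- **Transience above the critical death probability.** -/
theorem wc_transient {ε : ℝ} (hε : 0 < ε) : ∃ α₀ : ℝ, 0 < α₀ ∧ α₀ < 1 ∧
    ∀ w α : Set.Ioo (0 : ℝ) 1, α₀ < (α : ℝ) → wc D + ε ≤ (w : ℝ) →
      ∀ {Ω : Type*} [MeasurableSpace Ω] (μ : Measure Ω) (ξ : Site D → ℕ → Ω → Stp D), IsFrog D w α μ ξ →
        ∀ᵐ ω ∂μ, (visits fun x n => ξ x n ω).Finite := by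
  by_cases h1 : wc D + ε < 1
  · have h0 := wc_nonneg D
    have hm : wc D + ε / 2 ∈ Set.Ioo (0 : ℝ) 1 := ⟨by linarith, by linarith⟩
    have h2 : ksv ⟨wc D + ε / 2, hm⟩ D = 0 := ksv_zero D (by
      show wc D < wc D + ε / 2
      linarith)
    rw [ksv_eq] at h2
    obtain ⟨C, hC, h3⟩ := sharp D h2 (q := 1 - (wc D + ε)) (by
      rw [qw_coe]
      show 1 - (wc D + ε) < 1 - (wc D + ε / 2)
      linarith)
    obtain ⟨a, ha0, ha1, h4⟩ := chi_transient D (w₀ := wc D + ε) (C := C) (by linarith) hC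
    exact ⟨a, ha0, ha1, fun w α hα hw => h4 w α hα hw (h3 (qw w) (by
      rw [qw_coe]
      linarith))⟩
  · refine ⟨1 / 2, by norm_num, by norm_num, fun w α _ hw => ?_⟩
    exact absurd w.2.2 (not_lt.2 ((not_lt.1 h1).trans hw))

end FDr.HC
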