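import Pool.Agent.Lib.MP_e029a2_pr.LFDeath
import Pool.Agent.Lib.MP_e029a2_pr.HC.Wc

/-!
# The literal frog model with death
-/

set_option autoImplicit false

namespace FDr.HC

open MeasureTheory ProbabilityTheory
open scoped ENNReal

variable (D : ℕ) [NeZero D]

omit [NeZero D] in
theorem killLaw_eq (w : Set.Ioo (0 : ℝ) 1) : FrogModel.killLaw D (w : ℝ) = kLaw w D := by
  unfold FrogModel.killLaw kLaw
  rw [Measure.sum_fintype, Fintype.sum_option]
  rfl

theorem killFrogLaw_eq (w : Set.Ioo (0 : ℝ) 1) : FrogModel.killFrogLaw D (w : ℝ) = KQ w D := by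
  unfold FrogModel.killFrogLaw KQ
  rw [killLaw_eq D w]

omit [NeZero D] in
theorem killPos_eq (ω : KC D) (x : V D) (k : ℕ) : FrogModel.killPos ω x k = kpos ω x k := rfl

omit [NeZero D] in
theorem reached_iff (ω : KC D) (x : V D) : FrogModel.Awoken ω x ↔ KCl ω 0 x := by
  constructor
  · intro h
    induction h with
    | origin => exact KCl.start
    | hit x k _ hk ih => exact KCl.visit x k ih hk
  · intro h
    induction h with
    | start => exact FrogModel.Awoken.origin
    | visit x k _ hk ih => exact FrogModel.Awoken.hit x k ih hk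

theorem surv_eq (w : Set.Ioo (0 : ℝ) 1) :
    FrogModel.killFrogLaw D (w : ℝ) {ω | {x | FrogModel.Awoken ω x}.Infinite} = ksv w D := by
  unfold ksv
  rw [killFrogLaw_eq D w]
  congr 1
  ext ω
  have h1 : {x : V D | FrogModel.Awoken ω x} = {x | KCl ω 0 x} := by
    ext x
    exact reached_iff D ω x
  show {x : V D | FrogModel.Awoken ω x}.Infinite ↔ {x | KCl ω 0 x}.Infinite
  rw [h1]

theorem wCrit_eq : FrogModel.wCrit D = wc D := by
  unfold FrogModel.wCrit wc
  congr 1
  ext x
  constructor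
  · rintro ⟨h1, h2, h3⟩
    refine ⟨⟨h1, h2⟩, ?_⟩
    rw [← surv_eq D ⟨x, h1, h2⟩]
    exact h3
  · rintro ⟨h, h3⟩
    refine ⟨h.1, h.2, ?_⟩
    rw [← surv_eq D ⟨x, h⟩] at h3
    exact h3

end FDr.HC
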