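import Pool.Agent.Lib.MP_e029a2_pr.HC.NZb

/-!
# The Green function of the projection diverges (job NZc)

* `gq_eq`: put `b n z = ∑' l : LL (D + 2), if l.length = n ∧ pe l = z then qwz p D ^ n else 0`; then `b n z = ofReal (p ^ n) * pa D n z` by induction on `n` (for all `z`): the words of length
  `n + 1` are `d :: l`, `pe (d :: l) = pr (dv d) + pe l`, `qwz p D = ofReal p * (2 (D + 2))⁻¹`; and `Gq D q z = ∑' n, b n z` (`ENNReal.tsum_comm`, exactly one `n` for every `l`).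
* `gq_large`: by `gq_eq` and `pa_ret`: `Gq ≥ ∑ n ∈ Finset.Icc 1 M, p ^ (2 n) / (324 n) ≥ p ^ (2 M) * ∑ n ∈ Finset.Icc 1 M, 1 / (324 n)`.  Choose `M` with
  `∑ n ∈ Finset.Icc 1 M, 1 / (324 n) ≥ 2 K` (`Real.tendsto_sum_range_one_div_nat_succ_atTop`), then `p ≥ 1 / 2` in `(0, 1)` with `p ^ (2 M) ≥ 1 / 2` (continuity at `1`, or Bernoulli with
  `p = 1 - 1 / (4 M + 4)`).
-/

set_option autoImplicit false

namespace FDr.HC

open MeasureTheory ProbabilityTheory
open scoped ENNReal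

private theorem NZc_pe_cons {D : ℕ} (d : Dir (D + 2)) (l : LL (D + 2)) : pe (d :: l) = pr (dv d) + pe l := by
  have h : lsum (d :: l) = dv d + lsum l := by
    unfold lsum
    rw [List.map_cons, List.sum_cons]
  unfold pe
  rw [h]
  rfl

private theorem NZc_pe_nil {D : ℕ} : pe ([] : LL (D + 2)) = 0 := rfl

/-- the words of length `n` -/
private noncomputable def NZc_b (D : ℕ) (q : ℝ≥0∞) (n : ℕ) (z : ℤ × ℤ) : ℝ≥0∞ :=
  ∑' l : LL (D + 2), if l.length = n ∧ pe l = z then q ^ n else 0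

private theorem NZc_b_zero (D : ℕ) (q : ℝ≥0∞) (z : ℤ × ℤ) : NZc_b D q 0 z = if z = 0 then 1 else 0 := by
  unfold NZc_b
  rw [tsum_eq_single ([] : LL (D + 2))]
  · rw [NZc_pe_nil, pow_zero]
    by_cases hz : z = 0
    · rw [if_pos hz, if_pos ⟨rfl, hz.symm⟩]
    · rw [if_neg hz, if_neg fun h => hz h.2.symm]
  · intro l hl
    rw [if_neg]
    rintro ⟨h, _⟩
    exact hl (List.length_eq_zero_iff.1 h)

private theorem NZc_b_succ (D : ℕ) (q : ℝ≥0∞) (n : ℕ) (z : ℤ × ℤ) :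
    NZc_b D q (n + 1) z = ∑ d : Dir (D + 2), q * NZc_b D q n (z - pr (dv d)) := by
  have hinj : Function.Injective fun x : Dir (D + 2) × LL (D + 2) => (x.1 :: x.2 : LL (D + 2)) := by
    rintro ⟨a, l⟩ ⟨b, m⟩ h
    obtain ⟨h1, h2⟩ := List.cons.inj h
    exact Prod.ext h1 h2
  have hsup : Function.support (fun l : LL (D + 2) => if l.length = n + 1 ∧ pe l = z then q ^ (n + 1) else 0) ⊆
      Set.range fun x : Dir (D + 2) × LL (D + 2) => (x.1 :: x.2 : LL (D + 2)) := by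
    intro l hl
    cases l with
    | nil =>
      exfalso
      apply hl
      show (if ([] : LL (D + 2)).length = n + 1 ∧ pe ([] : LL (D + 2)) = z then q ^ (n + 1) else 0) = 0
      rw [if_neg]
      rintro ⟨h, _⟩
      exact absurd h (by simp)
    | cons d l => exact ⟨(d, l), rfl⟩
  have h1 := hinj.tsum_eq hsup
  unfold NZc_b
  rw [← h1, ENNReal.tsum_prod', tsum_fintype]
  refine Finset.sum_congr rfl fun d _ => ?_
  rw [← ENNReal.tsum_mul_left]
  refine tsum_congr fun l => ?_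
  have e1 : ((d :: l : LL (D + 2)).length = n + 1) ↔ l.length = n := by
    rw [List.length_cons]
    omega
  have e2 : (pe (d :: l) = z) ↔ pe l = z - pr (dv d) := by
    rw [NZc_pe_cons, eq_sub_iff_add_eq, add_comm]
  by_cases h : l.length = n ∧ pe l = z - pr (dv d)
  · rw [if_pos h, if_pos ⟨e1.2 h.1, e2.2 h.2⟩, pow_succ, mul_comm]
  · rw [if_neg h, if_neg fun h' => h ⟨e1.1 h'.1, e2.1 h'.2⟩, mul_zero]

private theorem NZc_qw (p : Set.Ioo (0 : ℝ) 1) (D : ℕ) :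
    qwz p D = ENNReal.ofReal (p : ℝ) * (2 * ((D + 2 : ℕ) : ℝ≥0∞))⁻¹ := by
  have h : (0 : ℝ) < 2 * ((D + 2 : ℕ) : ℝ) := by positivity
  unfold qwz
  rw [ENNReal.ofReal_div_of_pos h, ENNReal.ofReal_mul (by norm_num), ENNReal.ofReal_natCast, ENNReal.ofReal_ofNat,
    div_eq_mul_inv]

private theorem NZc_b_eq (D : ℕ) (p : Set.Ioo (0 : ℝ) 1) (n : ℕ) : ∀ z : ℤ × ℤ,
    NZc_b D (qwz p D) n z = ENNReal.ofReal ((p : ℝ) ^ n) * pa D n z := by
  induction n with
  | zero =>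
    intro z
    rw [NZc_b_zero, pow_zero, ENNReal.ofReal_one, one_mul]
    rfl
  | succ n ih =>
    intro z
    have hp := p.2.1
    rw [NZc_b_succ, ← Finset.mul_sum]
    simp only [ih]
    rw [← Finset.mul_sum, NZc_qw]
    show _ = ENNReal.ofReal ((p : ℝ) ^ (n + 1)) *
      ((2 * ((D + 2 : ℕ) : ℝ≥0∞))⁻¹ * ∑ d : Dir (D + 2), pa D n (z - pr (dv d)))
    rw [pow_succ, ENNReal.ofReal_mul (by positivity)]
    ring

theorem gq_eq (D : ℕ) (p : Set.Ioo (0 : ℝ) 1) (z : ℤ × ℤ) :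
    Gq D (qwz p D) z = ∑' n : ℕ, ENNReal.ofReal ((p : ℝ) ^ n) * pa D n z := by
  have h1 : ∀ l : LL (D + 2), (if pe l = z then qwz p D ^ l.length else 0) =
      ∑' n : ℕ, if l.length = n ∧ pe l = z then qwz p D ^ n else 0 := by
    intro l
    rw [tsum_eq_single l.length]
    · by_cases h : pe l = z
      · rw [if_pos h, if_pos ⟨rfl, h⟩]
      · rw [if_neg h, if_neg fun h' => h h'.2]
    · intro n hn
      rw [if_neg]
      rintro ⟨h, _⟩
      exact hn h.symm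
  unfold Gq
  rw [tsum_congr h1, ENNReal.tsum_comm]
  exact tsum_congr fun n => NZc_b_eq D p n z

theorem gq_large (D : ℕ) (K : ℝ) : ∃ p : Set.Ioo (0 : ℝ) 1, 1 / 2 ≤ (p : ℝ) ∧ ENNReal.ofReal K ≤ Gq D (qwz p D) 0 := by
  obtain ⟨M, hM⟩ : ∃ M : ℕ, 324 * (2 * K) ≤ ∑ i ∈ Finset.range M, (1 / ((i : ℝ) + 1) : ℝ) :=
    (Real.tendsto_sum_range_one_div_nat_succ_atTop.eventually_ge_atTop (324 * (2 * K))).exists
  have hM0 : (0 : ℝ) < 4 * (M : ℝ) + 4 := by positivity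
  have h4 : 1 / (4 * (M : ℝ) + 4) ≤ 1 / 4 := by
    apply one_div_le_one_div_of_le (by norm_num)
    have : (0 : ℝ) ≤ M := Nat.cast_nonneg M
    linarith
  have h5 : 0 < 1 / (4 * (M : ℝ) + 4) := by positivity
  refine ⟨⟨1 - 1 / (4 * (M : ℝ) + 4), by linarith, by linarith⟩, ?_, ?_⟩
  · show 1 / 2 ≤ 1 - 1 / (4 * (M : ℝ) + 4)
    linarith
  · set p : Set.Ioo (0 : ℝ) 1 := ⟨1 - 1 / (4 * (M : ℝ) + 4), by linarith, by linarith⟩ with hp
    have hpv : (p : ℝ) = 1 - 1 / (4 * (M : ℝ) + 4) := rfl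
    have hp0 : (0 : ℝ) ≤ p := p.2.1.le
    have hp1 : (p : ℝ) ≤ 1 := p.2.2.le
    have hpow : 1 / 2 ≤ (p : ℝ) ^ (2 * M) := by
      have h6 := one_add_mul_le_pow (a := -(1 / (4 * (M : ℝ) + 4))) (by linarith) (2 * M)
      have h7 : (p : ℝ) = 1 + -(1 / (4 * (M : ℝ) + 4)) := by
        rw [hpv]
        ring
      rw [h7]
      refine le_trans ?_ h6
      push_cast
      have h8 : 2 * (M : ℝ) * (1 / (4 * (M : ℝ) + 4)) ≤ 1 / 2 := by
        rw [mul_one_div, div_le_iff₀ hM0]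
        linarith
      linarith
    rw [gq_eq]
    have hinj : Function.Injective fun i : ℕ => 2 * (i + 1) := by
      intro i j h
      have h' : 2 * (i + 1) = 2 * (j + 1) := h
      omega
    have h9 : ∑ i ∈ Finset.range M, ENNReal.ofReal ((p : ℝ) ^ (2 * (i + 1))) * pa D (2 * (i + 1)) 0 ≤
        ∑' n : ℕ, ENNReal.ofReal ((p : ℝ) ^ n) * pa D n 0 :=
      (ENNReal.sum_le_tsum _).trans (ENNReal.tsum_comp_le_tsum_of_injective hinj _)
    refine le_trans ?_ h9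
    have h10 : ∀ i ∈ Finset.range M, ENNReal.ofReal (1 / 2 * (1 / (324 * ((i : ℝ) + 1)))) ≤
        ENNReal.ofReal ((p : ℝ) ^ (2 * (i + 1))) * pa D (2 * (i + 1)) 0 := by
      intro i hi
      have hiM : i + 1 ≤ M := Finset.mem_range.1 hi
      rw [ENNReal.ofReal_mul (by norm_num)]
      refine mul_le_mul' (ENNReal.ofReal_le_ofReal ?_) ?_
      · refine hpow.trans (pow_le_pow_of_le_one hp0 hp1 ?_)
        omega
      · have h11 := pa_ret D (i + 1) (Nat.le_add_left 1 i)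
        push_cast at h11
        exact h11
    refine le_trans ?_ (Finset.sum_le_sum h10)
    rw [← ENNReal.ofReal_sum_of_nonneg fun i _ => by positivity]
    apply ENNReal.ofReal_le_ofReal
    have h12 : ∑ i ∈ Finset.range M, (1 / 2 * (1 / (324 * ((i : ℝ) + 1))) : ℝ) =
        (1 / 648) * ∑ i ∈ Finset.range M, (1 / ((i : ℝ) + 1) : ℝ) := by
      rw [Finset.mul_sum]
      refine Finset.sum_congr rfl fun i _ => ?_
      have : (0 : ℝ) < (i : ℝ) + 1 := by positivity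
      field_simp
      norm_num
    rw [h12]
    linarith

end FDr.HC
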