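import Pool.Agent.Lib.MP_e029a2_pr.HC.NZa
import Pool.Agent.Lib.MP_e029a2_pr.HC.NZc

/-!
# The projection of a frog with a long life visits the four neighbours of the origin
-/

set_option autoImplicit false

namespace FDr.HC

open MeasureTheory ProbabilityTheory
open scoped ENNReal

theorem pr_dv_neg {D : ℕ} (d : Dir (D + 2)) : pr (dv d) = -pr (dv ((d.1, !d.2) : Dir (D + 2))) := by
  obtain ⟨i, b⟩ := d
  have h1 : dv ((i, !b) : Dir (D + 2)) = -dv ((i, b) : Dir (D + 2)) := by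
    unfold dv
    rw [← Pi.single_neg]
    cases b <;> rfl
  rw [h1]
  unfold pr
  simp

/-- the probability of no visit, summed over the directions -/
theorem nz_sum (D : ℕ) (p : Set.Ioo (0 : ℝ) 1) :
    (∑ d : Dir (D + 2), lwM p (D + 2) {l | ¬ ∃ i, pe (l.take i) = -pr (dv d)}) * (qwz p D * Gq D (qwz p D) 0) ≤ 1 := by
  have hfin := gq_fin D p 0
  have hq : ((2 * (D + 2) : ℕ) : ℝ≥0∞) * qwz p D = ENNReal.ofReal p := by
    unfold qwz
    rw [← ENNReal.ofReal_natCast, ← ENNReal.ofReal_mul (Nat.cast_nonneg _)]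
    congr 1
    push_cast
    field_simp
  have hq1 : qwz p D ≤ 1 := by
    unfold qwz
    rw [← ENNReal.ofReal_one]
    refine ENNReal.ofReal_le_ofReal ?_
    rw [div_le_one (by positivity)]
    push_cast
    have h1 := p.2.2
    have h2 : (0 : ℝ) ≤ D := Nat.cast_nonneg _
    nlinarith
  have hcard : (Finset.univ : Finset (Dir (D + 2))).card = 2 * (D + 2) := by
    rw [Finset.card_univ, Fintype.card_prod, Fintype.card_fin, Fintype.card_bool]
    ring
  obtain ⟨g, hg⟩ : ∃ g, g = Gq D (qwz p D) 0 := ⟨_, rfl⟩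
  obtain ⟨q, hqd⟩ : ∃ q, q = qwz p D := ⟨_, rfl⟩
  have hstep := gq_step D p
  rw [← hg] at hfin
  rw [← hqd] at hq hq1
  rw [← hg, ← hqd] at hstep ⊢
  have hqg : q * g ≠ ⊤ := ENNReal.mul_ne_top (ne_top_of_le_ne_top ENNReal.one_ne_top hq1) hfin
  have e1 : ∑ _d : Dir (D + 2), q * g ≤ g := by
    rw [Finset.sum_const, hcard, nsmul_eq_mul, ← mul_assoc, hq]
    calc ENNReal.ofReal p * g ≤ 1 * g := mul_le_mul' (ENNReal.ofReal_le_one.2 p.2.2.le) le_rfl
      _ = g := one_mul g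
  have e2 : ∀ d : Dir (D + 2), q * Gq D q (-pr (dv d)) ≤
      lwM p (D + 2) {l | ∃ i, pe (l.take i) = -pr (dv d)} * (q * g) := by
    intro d
    have h1 := gq_le_vis D p (-pr (dv d))
    rw [← hg, ← hqd] at h1
    calc q * Gq D q (-pr (dv d)) ≤ q * (lwM p (D + 2) {l | ∃ i, pe (l.take i) = -pr (dv d)} * g) :=
          mul_le_mul' le_rfl h1
      _ = _ := by ring
  have e3 : ∀ d : Dir (D + 2), q * g = lwM p (D + 2) {l | ¬ ∃ i, pe (l.take i) = -pr (dv d)} * (q * g) +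
      lwM p (D + 2) {l | ∃ i, pe (l.take i) = -pr (dv d)} * (q * g) := by
    intro d
    have h1 := prob_add_prob_compl (μ := lwM p (D + 2)) (s := {l | ∃ i, pe (l.take i) = -pr (dv d)}) trivial
    have h2 : {l : LL (D + 2) | ∃ i, pe (l.take i) = -pr (dv d)}ᶜ = {l | ¬ ∃ i, pe (l.take i) = -pr (dv d)} := rfl
    rw [h2] at h1
    rw [← add_mul, add_comm, h1, one_mul]
  rw [Finset.sum_congr rfl fun d _ => e3 d, Finset.sum_add_distrib, ← Finset.sum_mul] at e1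
  have e4 : 1 + ∑ d : Dir (D + 2), q * Gq D q (-pr (dv d)) ≤
      1 + ∑ d : Dir (D + 2), lwM p (D + 2) {l | ∃ i, pe (l.take i) = -pr (dv d)} * (q * g) :=
    add_le_add le_rfl (Finset.sum_le_sum fun d _ => e2 d)
  have hnt : ∑ d : Dir (D + 2), lwM p (D + 2) {l | ∃ i, pe (l.take i) = -pr (dv d)} * (q * g) ≠ ⊤ :=
    ENNReal.sum_ne_top.2 fun d _ => ENNReal.mul_ne_top (measure_ne_top _ _) hqg
  exact (ENNReal.add_le_add_iff_right hnt).1 (e1.trans ((le_of_eq hstep).trans e4))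

theorem gl_prob (D : ℕ) (ε : ℝ) (hε : 0 < ε) : ∃ p : Set.Ioo (0 : ℝ) 1, lwM p (D + 2) {l | ¬ Gl l} ≤ ENNReal.ofReal ε := by
  have hD : (0 : ℝ) ≤ D := Nat.cast_nonneg _
  obtain ⟨p, hp1, hp2⟩ := gq_large D (4 * (D + 2) / ε)
  refine ⟨p, ?_⟩
  have h1 : lwM p (D + 2) {l | ¬ Gl l} ≤ ∑ d : Dir (D + 2), lwM p (D + 2) {l | ¬ ∃ i, pe (l.take i) = -pr (dv d)} := by
    refine le_trans (measure_mono ?_) (measure_biUnion_finset_le Finset.univ _)
    intro l hl
    obtain ⟨d, hd⟩ := not_forall.1 hl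
    obtain ⟨-, h3⟩ := Classical.not_imp.1 hd
    refine Set.mem_biUnion (x := ((d.1, !d.2) : Dir (D + 2))) (Finset.mem_coe.2 (Finset.mem_univ _)) ?_
    rintro ⟨i, hi⟩
    exact h3 ⟨i, by rw [pr_dv_neg d]; exact hi⟩
  have h2 := nz_sum D p
  have h3 : ENNReal.ofReal (1 / ε) ≤ qwz p D * Gq D (qwz p D) 0 := by
    refine le_trans ?_ (mul_le_mul' le_rfl hp2)
    unfold qwz
    rw [← ENNReal.ofReal_mul (by positivity)]
    refine ENNReal.ofReal_le_ofReal ?_
    have h4 : (p : ℝ) / (2 * ((D + 2 : ℕ) : ℝ)) * (4 * (D + 2) / ε) = 2 * p / ε := by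
      push_cast
      field_simp
      ring
    rw [h4]
    exact div_le_div_of_nonneg_right (by linarith) hε.le
  have h4 : lwM p (D + 2) {l | ¬ Gl l} * ENNReal.ofReal (1 / ε) ≤ 1 :=
    (mul_le_mul' h1 h3).trans h2
  have h5 : ENNReal.ofReal (1 / ε) = (ENNReal.ofReal ε)⁻¹ := by
    rw [one_div, ENNReal.ofReal_inv_of_pos hε]
  rw [h5, ← div_eq_mul_inv] at h4
  have h6 := (ENNReal.div_le_iff (ENNReal.ofReal_pos.2 hε).ne' ENNReal.ofReal_ne_top).1 h4
  rwa [one_mul] at h6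

end FDr.HC
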