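import Pool.Agent.Lib.MP_e029a2_pr.HC.SAd

/-!
# Extinction if the probability of a further step is at most one half
-/

set_option autoImplicit false

namespace FDr.SH

open MeasureTheory ProbabilityTheory
open scoped ENNReal

variable {D : ℕ} [NeZero D]

/-- the number of the frogs of `T` which are in `U` -/
private noncomputable def nT (T : Finset (HV D)) (U : Set (HV D)) : ℕ := ((↑T : Set (HV D)) ∩ U).ncard

omit [NeZero D] in
private theorem nT_step {T : Finset (HV D)} {U : Set (HV D)} {x : HV D} (hx : x ∈ T) (hU : x ∈ U) (l : HRun D) :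
    nT (T.erase x) (U ∪ rch x l) + 1 ≤ nT T U + l.length := by
  classical
  have hf : ((↑T : Set (HV D)) ∩ U).Finite := T.finite_toSet.inter_of_left U
  have h1 : (↑(T.erase x) : Set (HV D)) ∩ (U ∪ rch x l) ⊆
      (((↑T : Set (HV D)) ∩ U) \ {x}) ∪ ((Finset.range l.length).image fun i => x + hdsp (l.take (i + 1)) : Finset (HV D)) := by
    rintro y ⟨hy, h4⟩
    rw [Finset.mem_coe, Finset.mem_erase] at hy
    obtain ⟨h2, h3⟩ := hy
    by_cases h5 : y ∈ U
    · exact Or.inl ⟨⟨Finset.mem_coe.2 h3, h5⟩, h2⟩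
    · right
      have h6 : y ∈ rch x l := h4.resolve_left h5
      obtain ⟨i, hi, h7⟩ := h6
      rcases i with _ | i
      · exfalso
        refine h2 ?_
        have h8 : (0 : HV D) = y - x := h7
        exact sub_eq_zero.1 h8.symm
      · refine Finset.mem_coe.2 (Finset.mem_image.2 ⟨i, Finset.mem_range.2 (by omega), ?_⟩)
        rw [h7]
        abel
  have h2 : nT (T.erase x) (U ∪ rch x l) ≤ (((↑T : Set (HV D)) ∩ U) \ {x}).ncard + l.length := by
    unfold nT
    refine (Set.ncard_le_ncard h1 ((hf.subset Set.sdiff_subset).union (Finset.finite_toSet _))).trans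
      ((Set.ncard_union_le _ _).trans (Nat.add_le_add_left ?_ _))
    rw [Set.ncard_coe_finset]
    exact Finset.card_image_le.trans (by rw [Finset.card_range])
  have h4 := Set.ncard_sdiff_singleton_add_one (s := (↑T : Set (HV D)) ∩ U) (a := x) ⟨Finset.mem_coe.2 hx, hU⟩ hf
  have h5 : nT T U = ((↑T : Set (HV D)) ∩ U).ncard := rfl
  rw [h5]
  omega

private theorem X_zero (h : ℝ) : X h 0 = 1 := by
  unfold X
  simp

private theorem X_nonneg (h : ℝ) (n : ℕ) : 0 ≤ X h n := (Real.exp_pos _).le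

private theorem X_le {h : ℝ} (hh : 0 ≤ h) (n : ℕ) : X h n ≤ 1 := by
  unfold X
  rw [Real.exp_le_one_iff]
  have : 0 ≤ h * n := by positivity
  linarith

private theorem X_succ (h : ℝ) (n : ℕ) : X h (n + 1) = Real.exp (-h) * X h n := by
  unfold X
  rw [← Real.exp_add]
  congr 1
  push_cast
  ring

private theorem low (w : Set.Ioo (0 : ℝ) 1) {h r : ℝ} (hh : 0 ≤ h) (hr0 : 0 < r) (hr1 : r ≤ 1)
    (hr : r * (1 - (1 - (w : ℝ)) * r) ≤ Real.exp (-h) * w) (n : ℕ) :
    ∀ (T : Finset (HV D)) (U : Set (HV D)), T.card = n → r ^ nT T U ≤ EE w (X h) T U := by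
  classical
  have hp0 : (0 : ℝ) ≤ 1 - (w : ℝ) := by linarith [w.2.2]
  have hp1 : 1 - (w : ℝ) < 1 := by linarith [w.2.1]
  have hX0 : ∀ n, 0 ≤ X h n := X_nonneg h
  have hX1 : ∀ n, X h n ≤ 1 := X_le hh
  induction n with
  | zero =>
    intro T U hT
    have h1 : T = ∅ := Finset.card_eq_zero.1 hT
    have h2 : EE w (X h) T U = X h 0 :=
      EE_eq_zero_disj w (X h) (by rw [h1]; intro x hx; exact absurd hx (Finset.notMem_empty x))
    rw [h2, X_zero]
    exact pow_le_one₀ hr0.le hr1
  | succ n ih =>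
    intro T U hT
    by_cases hx : ∃ x ∈ T, x ∈ U
    · obtain ⟨x, hx, hU⟩ := hx
      rw [EE_rec w hX0 hX1 hx hU]
      have e1 : ∀ l : HRun D, EE w (fun n => X h (n + 1)) (T.erase x) (U ∪ rch x l) =
          Real.exp (-h) * EE w (X h) (T.erase x) (U ∪ rch x l) := by
        intro l
        rw [← EE_const_mul]
        congr 1
        funext n
        exact X_succ h n
      have hN : 1 ≤ nT T U := by
        have h4 := Set.ncard_pos (s := (↑T : Set (HV D)) ∩ U) (T.finite_toSet.inter_of_left U)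
        exact h4.2 ⟨x, Finset.mem_coe.2 hx, hU⟩
      have e2 : ∀ l : HRun D, r ^ (nT T U - 1) * r ^ l.length ≤ EE w (X h) (T.erase x) (U ∪ rch x l) := by
        intro l
        refine le_trans ?_ (ih (T.erase x) (U ∪ rch x l) (by rw [Finset.card_erase_of_mem hx, hT, Nat.add_sub_cancel]))
        rw [← pow_add]
        refine pow_le_pow_of_le_one hr0.le hr1 ?_
        have := nT_step hx hU l
        omega
      have hpr0 : 0 ≤ (1 - (w : ℝ)) * r := mul_nonneg hp0 hr0.le
      have hpr1 : (1 - (w : ℝ)) * r < 1 := lt_of_le_of_lt (mul_le_of_le_one_right hp0 hr1) hp1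
      have hpr2 : 0 < 1 - (1 - (w : ℝ)) * r := by linarith
      have s1 : HasSum (fun l : HRun D => rW (1 - (w : ℝ)) l * (Real.exp (-h) * (r ^ (nT T U - 1) * r ^ l.length)))
          (Real.exp (-h) * r ^ (nT T U - 1) * (w / (1 - (1 - (w : ℝ)) * r))) := by
        have h1 := (rW_hasSum (A := HD D) hpr0 hpr1).mul_left
          (Real.exp (-h) * r ^ (nT T U - 1) * (w / (1 - (1 - (w : ℝ)) * r)))
        rw [mul_one] at h1
        have h2 : (fun l : HRun D => rW (1 - (w : ℝ)) l * (Real.exp (-h) * (r ^ (nT T U - 1) * r ^ l.length))) =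
            fun l : HRun D => Real.exp (-h) * r ^ (nT T U - 1) * (w / (1 - (1 - (w : ℝ)) * r)) *
              rW ((1 - (w : ℝ)) * r) l := by
          funext l
          unfold rW
          have h3 : ((1 - (w : ℝ)) * r / (Fintype.card (HD D) : ℝ)) ^ l.length =
              ((1 - (w : ℝ)) / (Fintype.card (HD D) : ℝ)) ^ l.length * r ^ l.length := by
            rw [← mul_pow]
            congr 1
            ring
          rw [h3]
          field_simp
          ring
        rw [h2]
        exact h1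
      have e3 : r ^ nT T U ≤ Real.exp (-h) * r ^ (nT T U - 1) * (w / (1 - (1 - (w : ℝ)) * r)) := by
        have h1 : r ≤ Real.exp (-h) * w / (1 - (1 - (w : ℝ)) * r) := by
          rw [le_div_iff₀ hpr2]
          exact hr
        have h2 : r ^ nT T U = r ^ (nT T U - 1) * r := by
          rw [← pow_succ]
          congr 1
          omega
        rw [h2]
        calc r ^ (nT T U - 1) * r ≤ r ^ (nT T U - 1) * (Real.exp (-h) * w / (1 - (1 - (w : ℝ)) * r)) :=
              mul_le_mul_of_nonneg_left h1 (by positivity)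
          _ = _ := by ring
      refine e3.trans ?_
      rw [← s1.tsum_eq]
      refine Summable.tsum_le_tsum (fun l => ?_) s1.summable ?_
      · refine mul_le_mul_of_nonneg_left ?_ (rW_nonneg hp0 hp1 l)
        rw [e1 l]
        exact mul_le_mul_of_nonneg_left (e2 l) (Real.exp_pos _).le
      · refine Summable.of_nonneg_of_le (fun l => mul_nonneg (rW_nonneg hp0 hp1 l) ?_) (fun l => ?_)
          (rW_hasSum (A := HD D) hp0 hp1).summable
        · exact EE_nonneg w (fun n => hX0 (n + 1)) _ _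
        · exact mul_le_of_le_one_right (rW_nonneg hp0 hp1 l) (EE_le_one w (fun n => hX0 (n + 1)) (fun n => hX1 (n + 1)) _ _)
    · push Not at hx
      rw [EE_eq_zero_disj w (X h) hx, X_zero]
      exact pow_le_one₀ hr0.le hr1

private theorem nz_int (w : Set.Ioo (0 : ℝ) 1) {F : ℕ → ℝ} (h0 : ∀ n, 0 ≤ F n) (h1 : ∀ n, F n ≤ 1)
    (T : Finset (HV D)) (U : Set (HV D)) : Integrable (fun c : HConf D => F (cl (↑T) U c).ncard) (HQ w D) := by
  have h2 : Measurable (fun c : HConf D => F (cl (↑T) U c).ncard) :=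
    Dep.measurable T.finite_toSet ((cl_dep (↑T) U).comp fun s : Set (HV D) => F s.ncard)
  refine Integrable.mono' (g := fun _ => (1 : ℝ)) (integrable_const 1) h2.aestronglyMeasurable ?_
  refine Filter.Eventually.of_forall fun c => ?_
  rw [Real.norm_eq_abs, abs_of_nonneg (h0 _)]
  exact h1 _

/-- Markov's inequality -/
private theorem markov (w : Set.Ioo (0 : ℝ) 1) {h : ℝ} (hh : 0 ≤ h) (m : ℕ) (T : Finset (HV D)) (U : Set (HV D)) :
    (1 - X h m) * EE w (Ige m) T U + EE w (X h) T U ≤ 1 := by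
  have hI0 : ∀ n, 0 ≤ Ige m n := fun n => by unfold Ige; split_ifs <;> norm_num
  have hI1 : ∀ n, Ige m n ≤ 1 := fun n => by unfold Ige; split_ifs <;> norm_num
  have i1 := nz_int w hI0 hI1 T U
  have i2 := nz_int w (X_nonneg h) (X_le hh) T U
  have e1 : (1 - X h m) * EE w (Ige m) T U + EE w (X h) T U =
      ∫ c, ((1 - X h m) * Ige m (cl (↑T) U c).ncard + X h (cl (↑T) U c).ncard) ∂HQ w D := by
    unfold EE
    rw [integral_add (i1.const_mul _) i2, integral_const_mul]
  rw [e1]
  have e2 : ∫ c, ((1 - X h m) * Ige m (cl (↑T) U c).ncard + X h (cl (↑T) U c).ncard) ∂HQ w D ≤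
      ∫ _c : HConf D, (1 : ℝ) ∂HQ w D := by
    refine integral_mono ((i1.const_mul _).add i2) (integrable_const 1) fun c => ?_
    show (1 - X h m) * Ige m (cl (↑T) U c).ncard + X h (cl (↑T) U c).ncard ≤ 1
    by_cases hc : m ≤ (cl (↑T) U c).ncard
    · have h3 : Ige m (cl (↑T) U c).ncard = 1 := by unfold Ige; rw [if_pos hc]
      have h4 : X h (cl (↑T) U c).ncard ≤ X h m := by
        unfold X
        refine Real.exp_le_exp.2 ?_
        have : h * m ≤ h * (cl (↑T) U c).ncard := mul_le_mul_of_nonneg_left (by exact_mod_cast hc) hh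
        linarith
      rw [h3]
      linarith
    · have h3 : Ige m (cl (↑T) U c).ncard = 0 := by unfold Ige; rw [if_neg hc]
      rw [h3, mul_zero, zero_add]
      exact X_le hh _
  rw [integral_const, probReal_univ, one_smul] at e2
  exact e2

/-- extinction if the probability of a further step is at most one half -/
theorem theta_zero_of_half (w : Set.Ioo (0 : ℝ) 1) (hw : 1 / 2 ≤ (w : ℝ)) : theta w D = 0 := by
  have key : ∀ δ : ℝ, 0 < δ → δ < 1 → theta w D ≤ ENNReal.ofReal (2 * δ) := by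
    intro δ hδ0 hδ1
    have hw1 := w.2.2
    have hw0 := w.2.1
    obtain ⟨r, hr⟩ : ∃ r : ℝ, r = 1 - δ := ⟨_, rfl⟩
    obtain ⟨ρ, hρ⟩ : ∃ ρ : ℝ, ρ = r * (1 - (1 - (w : ℝ)) * r) / w := ⟨_, rfl⟩
    have hr0 : 0 < r := by rw [hr]; linarith
    have hr1 : r < 1 := by rw [hr]; linarith
    have h1 : 0 < 1 - (1 - (w : ℝ)) * r := by nlinarith
    have hρ0 : 0 < ρ := by rw [hρ]; positivity
    have hρ1 : ρ < 1 := by
      rw [hρ, div_lt_one hw0, hr]
      nlinarith [mul_pos hδ0 hδ0, mul_pos (sub_pos.2 hw1) (mul_pos hδ0 hδ0)]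
    obtain ⟨h, hh⟩ : ∃ h : ℝ, h = -Real.log ρ := ⟨_, rfl⟩
    have hh0 : 0 < h := by rw [hh]; exact neg_pos.2 (Real.log_neg hρ0 hρ1)
    have hhe : Real.exp (-h) = ρ := by rw [hh, neg_neg, Real.exp_log hρ0]
    have hc : r * (1 - (1 - (w : ℝ)) * r) ≤ Real.exp (-h) * w := by
      rw [hhe, hρ, div_mul_cancel₀ _ hw0.ne']
    obtain ⟨m, hm⟩ : ∃ m : ℕ, X h m ≤ 1 / 2 := by
      obtain ⟨m, hm⟩ := exists_pow_lt_of_lt_one (show (0 : ℝ) < 1 / 2 by norm_num) hρ1
      refine ⟨m, ?_⟩
      have h2 : X h m = ρ ^ m := by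
        unfold X
        rw [← hhe, ← Real.exp_nat_mul]
        congr 1
        ring
      rw [h2]
      exact hm.le
    have h2 : ∀ T : Finset (HV D), EE w (Ige m) T {0} ≤ 2 * δ := by
      intro T
      have h3 := low w hh0.le hr0 hr1.le hc T.card T {0} rfl
      have h4 : nT T ({0} : Set (HV D)) ≤ 1 := by
        unfold nT
        refine (Set.ncard_le_ncard Set.inter_subset_right (Set.finite_singleton _)).trans ?_
        rw [Set.ncard_singleton]
      have h5 : r ≤ EE w (X h) T {0} := by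
        refine le_trans ?_ h3
        calc r = r ^ 1 := (pow_one r).symm
          _ ≤ r ^ nT T ({0} : Set (HV D)) := pow_le_pow_of_le_one hr0.le hr1.le h4
      have h6 := markov w hh0.le m T ({0} : Set (HV D))
      have h7 : 0 ≤ EE w (Ige m) T ({0} : Set (HV D)) :=
        EE_nonneg w (fun n => by unfold Ige; split_ifs <;> norm_num) _ _
      rw [hr] at h5
      nlinarith
    have h3 : theta w D ≤ HQ w D {c | (m : ℕ∞) ≤ (cl Set.univ {0} c).encard} := by
      refine measure_mono fun c hc => ?_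
      have h4 : (cl Set.univ {0} c).Infinite := hc
      show (m : ℕ∞) ≤ (cl Set.univ {0} c).encard
      rw [h4.encard_eq]
      exact le_top
    refine h3.trans ?_
    rw [tail_eq]
    exact iSup_le fun T => ENNReal.ofReal_le_ofReal (h2 T)
  refine le_antisymm ?_ zero_le
  refine ENNReal.le_of_forall_pos_le_add fun ε hε _ => ?_
  have hε' : (0 : ℝ) < ε := by exact_mod_cast hε
  have h1 := key (min (ε / 2) (1 / 2)) (lt_min (by linarith) (by norm_num)) (lt_of_le_of_lt (min_le_right _ _) (by norm_num))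
  refine h1.trans ?_
  rw [zero_add]
  have h2 : 2 * min ((ε : ℝ) / 2) (1 / 2) ≤ ε := by
    have := min_le_left ((ε : ℝ) / 2) (1 / 2)
    linarith
  calc ENNReal.ofReal (2 * min ((ε : ℝ) / 2) (1 / 2)) ≤ ENNReal.ofReal (ε : ℝ) := ENNReal.ofReal_le_ofReal h2
    _ = ε := ENNReal.ofReal_coe_nnreal

end FDr.SH

namespace FDr.HC

/-- extinction if the probability of a further step is at most one half -/
theorem thet_zero_of_half (D : ℕ) [NeZero D] (p : Set.Ioo (0 : ℝ) 1) (hp : (p : ℝ) ≤ 1 / 2) : Thet p D = 0 := by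
  rw [Thet_eq]
  refine SH.theta_zero_of_half (cw p) ?_
  show 1 / 2 ≤ 1 - (p : ℝ)
  linarith

end FDr.HC
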