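import Pool.Agent.Lib.MP_e029a2_pr.HC.NZ1
import Pool.Agent.Lib.MP_e029a2_pr.HC.GPerc
import Pool.Agent.Lib.MP_e029a2_pr.HC.Sel
import Pool.Agent.Lib.MP_e029a2_pr.HC.Wc

/-!
# The critical death probability is positive in dimension at least two

One frog for every site of the plane of the first two coordinates.
-/

set_option autoImplicit false

namespace FDr.HC

open MeasureTheory ProbabilityTheory
open scoped ENNReal

variable {D : ℕ}

/-- the points of the quadrant -/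
def qd (x : ℕ × ℕ) : ℤ × ℤ := ((x.1 : ℤ), (x.2 : ℤ))

theorem qd_inj {x y : ℕ × ℕ} (h : qd x = qd y) : x = y := by
  unfold qd at h
  rw [Prod.mk.injEq, Nat.cast_inj, Nat.cast_inj] at h
  exact Prod.ext h.1 h.2

theorem pr_add (v v' : V (D + 2)) : pr (v + v') = pr v + pr v' := rfl

theorem pr_zero : pr (0 : V (D + 2)) = 0 := rfl

/-- the frogs which are assigned to the points of the quadrant in `m` steps, without the use of the points of `A` -/
def An (A : Set (ℕ × ℕ)) (c : LC (D + 2)) : ℕ → ℕ × ℕ → V (D + 2) → Prop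
  | 0, y, v => y = (0, 0) ∧ v = 0
  | m + 1, y, v => ∃ x p, An A c m x p ∧ x ∉ A ∧ CO.Adj x y ∧ pr v = qd y ∧ (Gl (c p) ∧ ∃ i, v = p + lsum ((c p).take i))

theorem an_pr {A : Set (ℕ × ℕ)} {c : LC (D + 2)} {m : ℕ} {y : ℕ × ℕ} {v : V (D + 2)} (h : An A c m y v) : pr v = qd y := by
  cases m with
  | zero =>
    obtain ⟨rfl, rfl⟩ := h
    rfl
  | succ m =>
    obtain ⟨x, p, -, -, -, h, -⟩ := h
    exact h

theorem an_act {A : Set (ℕ × ℕ)} {c : LC (D + 2)} (m : ℕ) : ∀ {y : ℕ × ℕ} {v : V (D + 2)}, An A c m y v → LCl c 0 v := by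
  induction m with
  | zero =>
    rintro y v ⟨-, rfl⟩
    exact LCl.start
  | succ m ih =>
    rintro y v ⟨x, p, h1, -, -, -, -, i, rfl⟩
    exact LCl.next p i (ih h1)

theorem an_mono {A : Set (ℕ × ℕ)} {c : LC (D + 2)} (m : ℕ) : ∀ {y : ℕ × ℕ} {v : V (D + 2)}, An A c m y v → An ∅ c m y v := by
  induction m with
  | zero => exact fun h => h
  | succ m ih =>
    rintro y v ⟨x, p, h1, -, h3, h4, h5⟩
    exact ⟨x, p, ih h1, Set.notMem_empty x, h3, h4, h5⟩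

theorem an_dep (A : Set (ℕ × ℕ)) (m : ℕ) : ∀ (y : ℕ × ℕ) (v : V (D + 2)),
    Dep {q : V (D + 2) | ∃ x, x ∉ A ∧ pr q = qd x} fun c : LC (D + 2) => An A c m y v := by
  induction m with
  | zero =>
    intro y v c c' _
    rfl
  | succ m ih =>
    intro y v c c' hc
    have key : ∀ c c' : LC (D + 2), (∀ i ∈ {q : V (D + 2) | ∃ x, x ∉ A ∧ pr q = qd x}, c i = c' i) →
        An A c (m + 1) y v → An A c' (m + 1) y v := by
      rintro c c' hc ⟨x, p, h1, h2, h3, h4, h5⟩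
      have h6 : c p = c' p := hc p ⟨x, h2, an_pr h1⟩
      rw [h6] at h5
      refine ⟨x, p, ?_, h2, h3, h4, h5⟩
      have h7 : An A c m x p = An A c' m x p := ih x p c c' hc
      rw [← h7]
      exact h1
    exact propext ⟨key c c' hc, key c' c fun i hi => (hc i hi).symm⟩

theorem an_meas (A : Set (ℕ × ℕ)) (m : ℕ) : ∀ (y : ℕ × ℕ) (v : V (D + 2)),
    MeasurableSet {c : LC (D + 2) | An A c m y v} := by
  induction m with
  | zero =>
    intro y v
    exact MeasurableSet.const _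
  | succ m ih =>
    intro y v
    have h1 : {c : LC (D + 2) | An A c (m + 1) y v} = ⋃ x : ℕ × ℕ, ⋃ p : V (D + 2),
        ({c | An A c m x p} ∩ ({_c | x ∉ A ∧ CO.Adj x y ∧ pr v = qd y} ∩
          (fun c : LC (D + 2) => c p) ⁻¹' {l | Gl l ∧ ∃ i, v = p + lsum (l.take i)})) := by
      ext c
      simp only [Set.mem_iUnion]
      constructor
      · rintro ⟨x, p, h1, h2, h3, h4, h5⟩
        exact ⟨x, p, h1, ⟨h2, h3, h4⟩, h5⟩
      · rintro ⟨x, p, h1, ⟨h2, h3, h4⟩, h5⟩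
        exact ⟨x, p, h1, h2, h3, h4, h5⟩
    rw [h1]
    refine MeasurableSet.iUnion fun x => MeasurableSet.iUnion fun p => (ih x p).inter ((MeasurableSet.const _).inter ?_)
    exact (measurable_pi_apply p) (show MeasurableSet {l : LL (D + 2) | Gl l ∧ ∃ i, v = p + lsum (l.take i)} from trivial)

/-- assigned frogs -/
def Aa (A : Set (ℕ × ℕ)) (c : LC (D + 2)) (x : ℕ × ℕ) (p : V (D + 2)) : Prop := ∃ m, An A c m x p

/-- an assigned frog is good, if there is one -/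
def Gd (c : LC (D + 2)) (x : ℕ × ℕ) : Prop := (∃ p, Aa ∅ c x p) → ∃ p, Aa ∅ c x p ∧ Gl (c p)

theorem gd_bad {c : LC (D + 2)} {x : ℕ × ℕ} (h : ¬ Gd c x) : (∃ p, Aa ∅ c x p) ∧ ∀ p, Aa ∅ c x p → ¬ Gl (c p) := by
  unfold Gd at h
  push Not at h
  exact h

theorem an_bad {A : Finset (ℕ × ℕ)} {c : LC (D + 2)} (hc : ∀ x ∈ A, ¬ Gd c x) (m : ℕ) :
    ∀ {y : ℕ × ℕ} {v : V (D + 2)}, An ∅ c m y v → An (↑A : Set (ℕ × ℕ)) c m y v := by
  induction m with
  | zero => exact fun h => h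
  | succ m ih =>
    rintro y v ⟨x, p, h1, -, h3, h4, h5⟩
    refine ⟨x, p, ih h1, fun hx => ?_, h3, h4, h5⟩
    exact (gd_bad (hc x (Finset.mem_coe.1 hx))).2 p ⟨m, h1⟩ h5.1

theorem gd_fld2 (p : Set.Ioo (0 : ℝ) 1) {ε : ℝ} (hε : 0 ≤ ε) (hg : lwM p (D + 2) {l | ¬ Gl l} ≤ ENNReal.ofReal ε)
    (A : Finset (ℕ × ℕ)) : LQ p (D + 2) {c | ∀ x ∈ A, ¬ Gd c x} ≤ ENNReal.ofReal (ε ^ A.card) := by
  have hsub : {c : LC (D + 2) | ∀ x ∈ A, ¬ Gd c x} ⊆ {c | ∀ x ∈ A, (∃ p, Aa (↑A : Set (ℕ × ℕ)) c x p) ∧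
      ∀ p, Aa (↑A : Set (ℕ × ℕ)) c x p → (pr p = qd x ∧ ¬ Gl (c p))} := by
    intro c hc x hx
    obtain ⟨⟨p, m, hp⟩, h2⟩ := gd_bad (hc x hx)
    refine ⟨⟨p, m, an_bad hc m hp⟩, ?_⟩
    rintro p' ⟨m', hm'⟩
    exact ⟨an_pr hm', h2 p' ⟨m', an_mono m' hm'⟩⟩
  refine (measure_mono hsub).trans ?_
  have hdis : ∀ k ∈ A, Disjoint {q : V (D + 2) | ∃ x', x' ∉ (↑A : Set (ℕ × ℕ)) ∧ pr q = qd x'}
      {q : V (D + 2) | pr q = qd k} := by
    intro k hk
    rw [Set.disjoint_left]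
    rintro q ⟨x', hx', hq⟩ hq'
    have hq'' : pr q = qd k := hq'
    rw [hq] at hq''
    rw [qd_inj hq''] at hx'
    exact hx' (Finset.mem_coe.2 hk)
  have h1 := sel_le (lwM p (D + 2)) (T0 := {q : V (D + 2) | ∃ x', x' ∉ (↑A : Set (ℕ × ℕ)) ∧ pr q = qd x'})
    (T := fun x => {q : V (D + 2) | pr q = qd x}) (R := fun x p c => Aa (↑A : Set (ℕ × ℕ)) c x p)
    (B := fun x p c => pr p = qd x ∧ ¬ Gl (c p))
    (by
      intro x p
      have h2 : {c : LC (D + 2) | Aa (↑A : Set (ℕ × ℕ)) c x p} = ⋃ m, {c | An (↑A : Set (ℕ × ℕ)) c m x p} := by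
        ext c
        simp only [Set.mem_iUnion]
        rfl
      rw [h2]
      exact MeasurableSet.iUnion fun m => an_meas _ m x p)
    (by
      intro x p c c' hc
      show (∃ m, An _ c m x p) = (∃ m, An _ c' m x p)
      have h2 : ∀ m, An (↑A : Set (ℕ × ℕ)) c m x p = An (↑A : Set (ℕ × ℕ)) c' m x p := fun m => an_dep _ m x p c c' hc
      simp only [h2])
    (by
      intro x p
      have h2 : {c : LC (D + 2) | pr p = qd x ∧ ¬ Gl (c p)} =
          {_c | pr p = qd x} ∩ (fun c : LC (D + 2) => c p) ⁻¹' {l | ¬ Gl l} := rfl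
      rw [h2]
      exact (MeasurableSet.const _).inter ((measurable_pi_apply p) trivial))
    (by
      intro x p c c' hc
      show (pr p = qd x ∧ ¬ Gl (c p)) = (pr p = qd x ∧ ¬ Gl (c' p))
      by_cases hp : pr p = qd x
      · rw [hc p hp]
      · exact propext ⟨fun h => absurd h.1 hp, fun h => absurd h.1 hp⟩)
    A hdis
    (by
      intro k _ l _ hkl
      rw [Set.disjoint_left]
      intro q hq hq'
      have h2 : pr q = qd k := hq
      have h3 : pr q = qd l := hq'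
      exact hkl (qd_inj (h2.symm.trans h3)))
    (b := ENNReal.ofReal ε) (by
      intro k _ u
      have h2 : Measure.infinitePi (fun _ : V (D + 2) => lwM p (D + 2)) {c | pr u = qd k ∧ ¬ Gl (c u)} ≤
          Measure.infinitePi (fun _ : V (D + 2) => lwM p (D + 2)) ((fun c : LC (D + 2) => c u) ⁻¹' {l | ¬ Gl l}) :=
        measure_mono fun c hc => hc.2
      refine h2.trans ?_
      have h3 : MeasurableSet {l : LL (D + 2) | ¬ Gl l} := trivial
      rw [← Measure.map_apply (measurable_pi_apply u) h3, Measure.infinitePi_map_eval]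
      exact hg)
  rw [ENNReal.ofReal_pow hε]
  exact h1

theorem gl_step {l : LL (D + 2)} (h : Gl l) {x y : ℕ × ℕ} (hxy : CO.Adj x y) : ∃ i, pr (lsum (l.take i)) = qd y - qd x := by
  have h0 : ∀ b : Bool, pr (dv ((0, b) : Dir (D + 2))) = (sg b, 0) := by
    intro b
    unfold pr dv
    rw [Pi.single_eq_same, Pi.single_eq_of_ne (by
      intro h
      exact absurd (congrArg Fin.val h) (by simp))]
  have h1 : ∀ b : Bool, pr (dv ((1, b) : Dir (D + 2))) = (0, sg b) := by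
    intro b
    unfold pr dv
    rw [Pi.single_eq_same, Pi.single_eq_of_ne (by
      intro h
      exact absurd (congrArg Fin.val h) (by simp))]
  have key : ∃ d : Dir (D + 2), (d.1 = 0 ∨ d.1 = 1) ∧ pr (dv d) = qd y - qd x := by
    unfold qd
    rcases hxy with ⟨h2, h3 | h3⟩ | ⟨h2, h3 | h3⟩
    · refine ⟨(1, false), Or.inr rfl, ?_⟩
      rw [h1, h2, h3]
      refine Prod.ext ?_ ?_
      · show (0 : ℤ) = (y.1 : ℤ) - y.1
        ring
      · show sg false = (y.2 : ℤ) - ((y.2 + 1 : ℕ) : ℤ)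
        push_cast
        unfold sg
        simp
    · refine ⟨(1, true), Or.inr rfl, ?_⟩
      rw [h1, h2, h3]
      refine Prod.ext ?_ ?_
      · show (0 : ℤ) = (y.1 : ℤ) - y.1
        ring
      · show sg true = ((x.2 + 1 : ℕ) : ℤ) - (x.2 : ℤ)
        push_cast
        unfold sg
        simp
    · refine ⟨(0, false), Or.inl rfl, ?_⟩
      rw [h0, h2, h3]
      refine Prod.ext ?_ ?_
      · show sg false = (y.1 : ℤ) - ((y.1 + 1 : ℕ) : ℤ)
        push_cast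
        unfold sg
        simp
      · show (0 : ℤ) = (y.2 : ℤ) - y.2
        ring
    · refine ⟨(0, true), Or.inl rfl, ?_⟩
      rw [h0, h2, h3]
      refine Prod.ext ?_ ?_
      · show sg true = ((x.1 + 1 : ℕ) : ℤ) - (x.1 : ℤ)
        push_cast
        unfold sg
        simp
      · show (0 : ℤ) = (y.2 : ℤ) - y.2
        ring
  obtain ⟨d, hd, hd'⟩ := key
  obtain ⟨i, hi⟩ := h d hd
  exact ⟨i, hi.trans hd'⟩

theorem conn_act {c : LC (D + 2)} {y : ℕ × ℕ} (h : CO.Conn (Gd c) (0, 0) y) : ∃ p, Aa ∅ c y p ∧ Gl (c p) := by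
  induction h with
  | refl h => exact h ⟨0, 0, rfl, rfl⟩
  | step x y _ hxy hy ih =>
    obtain ⟨p, ⟨m, hp⟩, h2⟩ := ih
    obtain ⟨i, hi⟩ := gl_step h2 hxy
    refine hy ⟨p + lsum ((c p).take i), m + 1, x, p, hp, Set.notMem_empty x, hxy, ?_, h2, i, rfl⟩
    rw [pr_add, an_pr hp, hi]
    ring

theorem thet_pos (D : ℕ) : ∃ p : Set.Ioo (0 : ℝ) 1, 0 < Thet p (D + 2) := by
  obtain ⟨p, hp⟩ := gl_prob D (1 / 100000) (by norm_num)
  refine ⟨p, ?_⟩
  have h1 : ∀ n : ℕ, 1 / 2 ≤ LQ p (D + 2) {c | ∃ v : V (D + 2), (n : ℤ) ≤ v 0 ∧ LCl c 0 v} := by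
    intro n
    refine (CO.perc_fld (LQ p (D + 2)) (fun c x => Gd c x) (gd_fld2 p (by norm_num) hp) (0, 0) (n, 0)).trans
      (measure_mono ?_)
    intro c hc
    obtain ⟨v, ⟨m, hv⟩, -⟩ := conn_act hc
    refine ⟨v, ?_, an_act m hv⟩
    have h2 := an_pr hv
    unfold pr qd at h2
    rw [Prod.mk.injEq] at h2
    exact h2.1.ge
  have hmeas : ∀ n : ℕ, MeasurableSet {c : LC (D + 2) | ∃ v : V (D + 2), (n : ℤ) ≤ v 0 ∧ LCl c 0 v} := by
    intro n
    have h2 : {c : LC (D + 2) | ∃ v : V (D + 2), (n : ℤ) ≤ v 0 ∧ LCl c 0 v} =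
        ⋃ v : V (D + 2), {_c | (n : ℤ) ≤ v 0} ∩ {c | LCl c 0 v} := by
      ext c
      simp only [Set.mem_iUnion]
      rfl
    rw [h2]
    exact MeasurableSet.iUnion fun v => (MeasurableSet.const _).inter (measurable_lcl 0 v).setOf
  have hanti : Antitone fun n : ℕ => {c : LC (D + 2) | ∃ v : V (D + 2), (n : ℤ) ≤ v 0 ∧ LCl c 0 v} := by
    rintro m n hmn c ⟨v, h2, h3⟩
    exact ⟨v, le_trans (by exact_mod_cast hmn) h2, h3⟩
  have h3 := tendsto_measure_iInter_atTop (μ := LQ p (D + 2)) (fun n => (hmeas n).nullMeasurableSet) hanti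
    ⟨0, measure_ne_top _ _⟩
  have h4 : 1 / 2 ≤ LQ p (D + 2) (⋂ n : ℕ, {c : LC (D + 2) | ∃ v : V (D + 2), (n : ℤ) ≤ v 0 ∧ LCl c 0 v}) :=
    ge_of_tendsto' h3 h1
  have h5 : (⋂ n : ℕ, {c : LC (D + 2) | ∃ v : V (D + 2), (n : ℤ) ≤ v 0 ∧ LCl c 0 v}) ⊆
      {c | {x | LCl c 0 x}.Infinite} := by
    intro c hc hfin
    have h6 : (hfin.toFinset : Set (V (D + 2))) = {x | LCl c 0 x} := hfin.coe_toFinset
    obtain ⟨B, hB⟩ : ∃ B : ℕ, ∀ v ∈ {x | LCl c 0 x}, v 0 < (B : ℤ) := by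
      obtain ⟨b, hb⟩ := (hfin.image fun v : V (D + 2) => v 0).bddAbove
      refine ⟨(b + 1).toNat, fun v hv => ?_⟩
      have h7 : v 0 ≤ b := hb (Set.mem_image_of_mem _ hv)
      have h8 := Int.self_le_toNat (b + 1)
      omega
    obtain ⟨v, h7, h8⟩ := Set.mem_iInter.1 hc B
    exact absurd (hB v h8) (not_lt.2 h7)
  have h6 : (0 : ℝ≥0∞) < 1 / 2 := ENNReal.div_pos one_ne_zero ENNReal.ofNat_ne_top
  exact h6.trans_le (h4.trans (measure_mono h5))

/-- **The critical death probability is positive in dimension at least two.** -/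
theorem wc_pos (D : ℕ) : 0 < wc (D + 2) := by
  obtain ⟨p, hp⟩ := thet_pos D
  have hw : 1 - (p : ℝ) ∈ Set.Ioo (0 : ℝ) 1 := ⟨by linarith [p.2.2], by linarith [p.2.1]⟩
  have h1 : qw ⟨1 - (p : ℝ), hw⟩ = p := by
    apply Subtype.ext
    rw [qw_coe]
    show 1 - (1 - (p : ℝ)) = p
    ring
  refine hw.1.trans_le (le_csSup (wc_bdd (D + 2)) ⟨hw, ?_⟩)
  rw [ksv_eq, h1]
  exact hp

end FDr.HC
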