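import Pool.Agent.Lib.MP_e029a2_pr.HC.NZ2
import Pool.Agent.Lib.MP_e029a2_pr.HC.Wc

/-!
# The critical death probability is at most one half
-/

set_option autoImplicit false

namespace FDr.HC

open MeasureTheory ProbabilityTheory
open scoped ENNReal

theorem wc_le_half (D : ℕ) [NeZero D] : wc D ≤ 1 / 2 := by
  refine Real.sSup_le ?_ (by norm_num)
  rintro x ⟨hx, h⟩
  by_contra hn
  rw [not_le] at hn
  rw [ksv_eq, thet_zero_of_half D (qw ⟨x, hx⟩) (by
    rw [qw_coe]
    show 1 - x ≤ 1 / 2
    linarith)] at h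
  exact lt_irrefl _ h

end FDr.HC
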