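import Pool.Agent.Lib.MP_e029a2_pr.HC.LDef

/-!
# The projection of a frog to two coordinates: definitions
-/

set_option autoImplicit false

namespace FDr.HC

open MeasureTheory ProbabilityTheory
open scoped ENNReal

/-- the projection to the first two coordinates -/
def pr {D : ℕ} (v : V (D + 2)) : ℤ × ℤ := (v 0, v 1)

/-- the projection of the path visits the four neighbours of the origin -/
def Gl {D : ℕ} (l : LL (D + 2)) : Prop :=
  ∀ d : Dir (D + 2), (d.1 = 0 ∨ d.1 = 1) → ∃ i, pr (lsum (l.take i)) = pr (dv d)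

/-- the projection of the end point -/
def pe {D : ℕ} (l : LL (D + 2)) : ℤ × ℤ := pr (lsum l)

/-- the Green function, every step has the weight `q` -/
noncomputable def Gq (D : ℕ) (q : ℝ≥0∞) (z : ℤ × ℤ) : ℝ≥0∞ :=
  ∑' l : LL (D + 2), if pe l = z then q ^ l.length else 0

/-- the law of the projection after `n` steps -/
noncomputable def pa (D : ℕ) : ℕ → ℤ × ℤ → ℝ≥0∞
  | 0 => fun z => if z = 0 then 1 else 0
  | n + 1 => fun z => (2 * ((D + 2 : ℕ) : ℝ≥0∞))⁻¹ * ∑ d : Dir (D + 2), pa D n (z - pr (dv d))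

/-- the weight of a step -/
noncomputable def qwz (p : Set.Ioo (0 : ℝ) 1) (D : ℕ) : ℝ≥0∞ := ENNReal.ofReal ((p : ℝ) / (2 * ((D + 2 : ℕ) : ℝ)))

end FDr.HC
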