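import Pool.Agent.Lib.MP_e029a2_pr.HC.NZDef

/-!
# First visits and first steps of the projection of a frog (job NZa)

Put `q = qwz p D`, `c = Fintype.card (Dir (D + 2)) = 2 (D + 2)`, `c q = ofReal p < 1`; `∑' l : LL (D + 2), q ^ l.length = (1 - c q)⁻¹` (`M.tsum_list`, see the proof of
`lwM_prob` in `LDef.lean`); `lwM p (D + 2) {l} = ofReal (1 - p) * q ^ l.length` (`lw_one`), `lwM p (D + 2) S = ∑' l, if l ∈ S then ofReal (1 - p) * q ^ l.length else 0`.
`pe (l ++ m) = pe l + pe m`, `pe [] = 0`, `pe (d :: l) = pr (dv d) + pe l`.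
* `gq_fin`: `Gq D q z ≤ ∑' l, q ^ l.length`.
* `gq_step`: `∑' l : List A, g l = g [] + ∑ a, ∑' l, g (a :: l)` (the equivalence of `List A` with `Option (A × List A)`, `tsum` over `Option`, or two disjoint ranges); `pe (d :: l) = 0 ↔ pe l = - pr (dv d)`.
* `gq_le_vis`: let `F z` = the set of the words `l1` with `pe l1 = z` and `pe (l1.take i) ≠ z` for all `i < l1.length`.
  (i) `Gq D q z ≤ (∑' l1 : F z, q ^ l1.length) * Gq D q 0`: every `l` with `pe l = z` is `l1 ++ m` with `l1 = l.take τ ∈ F z`, `τ` the least index with `pe (l.take τ) = z`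
  (`Nat.find`), `m = l.drop τ`, `pe m = 0`; the map `l ↦ (l1, m)` is injective, so the sum over `l` is at most the sum over the pairs.
  (ii) `∑' l1 : F z, q ^ l1.length ≤ lwM p (D + 2) {l | ∃ i, pe (l.take i) = z}`: `q ^ l1.length = ∑' m, ofReal (1 - p) * q ^ (l1 ++ m).length`, and `(l1, m) ↦ l1 ++ m` is injective on
  `F z × LL` (if `l1 ++ m = l1' ++ m'` with `l1.length < l1'.length` then `l1 = l1'.take l1.length` contradicts the first visit), with values in the event (`i = l1.length`).
-/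

set_option autoImplicit false

namespace FDr.HC

open MeasureTheory ProbabilityTheory
open scoped ENNReal

private theorem NZa_nil {D : ℕ} : pe (D := D) [] = 0 := rfl

private theorem NZa_pr {D : ℕ} (v w : V (D + 2)) : pr (v + w) = pr v + pr w := rfl

private theorem NZa_cons {D : ℕ} (d : Dir (D + 2)) (l : LL (D + 2)) : pe (d :: l) = pr (dv d) + pe l := by
  unfold pe lsum
  rw [List.map_cons, List.sum_cons, NZa_pr]

private theorem NZa_app {D : ℕ} (l m : LL (D + 2)) : pe (l ++ m) = pe l + pe m := by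
  unfold pe lsum
  rw [List.map_append, List.sum_append, NZa_pr]

private theorem NZa_sum (p : Set.Ioo (0 : ℝ) 1) (D : ℕ) : ∑ _d : Dir (D + 2), qwz p D = ENNReal.ofReal p := by
  have hp := p.2.1
  unfold qwz
  rw [Finset.sum_const, Finset.card_univ, Fintype.card_prod, Fintype.card_fin, Fintype.card_bool, nsmul_eq_mul,
    ← ENNReal.ofReal_natCast, ← ENNReal.ofReal_mul (by positivity)]
  congr 1
  have h : ((D + 2 : ℕ) : ℝ) ≠ 0 := by positivity
  push_cast at h ⊢
  field_simp

private theorem NZa_tot (p : Set.Ioo (0 : ℝ) 1) (D : ℕ) :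
    ∑' l : LL (D + 2), qwz p D ^ l.length = (1 - ENNReal.ofReal p)⁻¹ := by
  have h1 : ∀ l : LL (D + 2), qwz p D ^ l.length = (l.map fun _ => qwz p D).prod := by
    intro l
    rw [List.map_const', List.prod_replicate]
  rw [tsum_congr h1, M.tsum_list fun _ : Dir (D + 2) => qwz p D, NZa_sum, ENNReal.tsum_geometric]

private theorem NZa_one (p : Set.Ioo (0 : ℝ) 1) (D : ℕ) :
    ENNReal.ofReal (1 - p) * ∑' l : LL (D + 2), qwz p D ^ l.length = 1 := by
  have hp := p.2.1
  have hp1 := p.2.2
  rw [NZa_tot, ENNReal.ofReal_sub _ hp.le, ENNReal.ofReal_one]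
  refine ENNReal.mul_inv_cancel ?_ ?_
  · rw [← ENNReal.ofReal_one, ← ENNReal.ofReal_sub _ hp.le]
    exact (ENNReal.ofReal_pos.2 (by linarith)).ne'
  · exact ENNReal.sub_ne_top ENNReal.one_ne_top

theorem gq_fin (D : ℕ) (p : Set.Ioo (0 : ℝ) 1) (z : ℤ × ℤ) : Gq D (qwz p D) z ≠ ⊤ := by
  have hp := p.2.1
  have hp1 := p.2.2
  have h1 : Gq D (qwz p D) z ≤ ∑' l : LL (D + 2), qwz p D ^ l.length := by
    unfold Gq
    refine ENNReal.tsum_le_tsum fun l => ?_
    split_ifs
    · exact le_refl _
    · exact zero_le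
  refine ne_top_of_le_ne_top ?_ h1
  rw [NZa_tot]
  refine ENNReal.inv_ne_top.2 ?_
  rw [← ENNReal.ofReal_one, ← ENNReal.ofReal_sub _ hp.le]
  exact (ENNReal.ofReal_pos.2 (by linarith)).ne'

/-- the words and the pairs of the first letter and the rest -/
private def NZa_eq (A : Type) : Option (A × List A) ≃ List A where
  toFun := fun o => match o with
    | none => []
    | some x => x.1 :: x.2
  invFun := fun l => match l with
    | [] => none
    | a :: l => some (a, l)
  left_inv := by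
    intro o
    cases o <;> rfl
  right_inv := by
    intro l
    cases l <;> rfl

private theorem NZa_opt {B : Type} (f : Option B → ℝ≥0∞) : ∑' o, f o = f none + ∑' b, f (some b) := by
  classical
  rw [ENNReal.tsum_eq_add_tsum_ite none]
  congr 1
  refine Eq.trans (b := ∑' o : Option B, ∑' b : B, if some b = o then f (some b) else 0) (tsum_congr fun o => ?_) ?_
  · cases o with
    | none => simp
    | some b =>
      rw [if_neg (by simp), tsum_eq_single b]
      · rw [if_pos rfl]
      · intro b' hb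
        rw [if_neg]
        intro h
        exact hb (Option.some.inj h)
  rw [ENNReal.tsum_comm]
  refine tsum_congr fun b => ?_
  rw [tsum_eq_single (some b)]
  · rw [if_pos rfl]
  · intro o ho
    rw [if_neg]
    exact fun h => ho h.symm

private theorem NZa_list {A : Type} [Fintype A] (g : List A → ℝ≥0∞) :
    ∑' l : List A, g l = g [] + ∑ a, ∑' l, g (a :: l) := by
  rw [← (NZa_eq A).tsum_eq, NZa_opt]
  congr 1
  rw [ENNReal.tsum_prod', tsum_fintype]
  rfl

/-- the first step -/
theorem gq_step (D : ℕ) (p : Set.Ioo (0 : ℝ) 1) :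
    Gq D (qwz p D) 0 = 1 + ∑ d : Dir (D + 2), qwz p D * Gq D (qwz p D) (-pr (dv d)) := by
  have h0 : (if pe ([] : LL (D + 2)) = 0 then qwz p D ^ ([] : LL (D + 2)).length else 0) = 1 := by
    rw [NZa_nil, if_pos rfl, List.length_nil, pow_zero]
  conv_lhs => unfold Gq
  rw [NZa_list, h0]
  congr 1
  refine Finset.sum_congr rfl fun d _ => ?_
  unfold Gq
  rw [← ENNReal.tsum_mul_left]
  refine tsum_congr fun l => ?_
  rw [NZa_cons, mul_ite, mul_zero, List.length_cons, pow_succ']
  refine if_congr ?_ rfl rfl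
  rw [eq_neg_iff_add_eq_zero, add_comm]

/-- the words whose first visit to `z` is at the end -/
private def NZa_F {D : ℕ} (z : ℤ × ℤ) : Set (LL (D + 2)) := {l | pe l = z ∧ ∀ i < l.length, pe (l.take i) ≠ z}

private theorem NZa_len {D : ℕ} (z : ℤ × ℤ) (a b m n : LL (D + 2)) (ha : a ∈ NZa_F z) (hb : b ∈ NZa_F z)
    (h : a ++ m = b ++ n) : b.length ≤ a.length := by
  by_contra hlt
  push Not at hlt
  refine hb.2 a.length hlt ?_
  have h1 : (a ++ m).take a.length = a := List.take_left
  have h2 : (b ++ n).take a.length = b.take a.length := by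
    rw [List.take_append_of_le_length hlt.le]
  rw [← h2, ← h, h1]
  exact ha.1

private theorem NZa_i (D : ℕ) (p : Set.Ioo (0 : ℝ) 1) (z : ℤ × ℤ) :
    Gq D (qwz p D) z ≤ (∑' l : NZa_F (D := D) z, qwz p D ^ (l : LL (D + 2)).length) * Gq D (qwz p D) 0 := by
  classical
  have h0 : Gq D (qwz p D) z = ∑' l : {l : LL (D + 2) | pe l = z}, qwz p D ^ (l : LL (D + 2)).length := by
    unfold Gq
    rw [tsum_subtype {l : LL (D + 2) | pe l = z} fun l => qwz p D ^ l.length]
    refine tsum_congr fun l => ?_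
    rw [Set.indicator_apply]
    rfl
  have h1 : (∑' l : NZa_F (D := D) z, qwz p D ^ (l : LL (D + 2)).length) * Gq D (qwz p D) 0 =
      ∑' x : NZa_F (D := D) z × LL (D + 2), qwz p D ^ (x.1 : LL (D + 2)).length *
        (if pe x.2 = 0 then qwz p D ^ x.2.length else 0) := by
    rw [ENNReal.tsum_prod' (f := fun x : NZa_F (D := D) z × LL (D + 2) => qwz p D ^ (x.1 : LL (D + 2)).length *
        (if pe x.2 = 0 then qwz p D ^ x.2.length else 0)), ← ENNReal.tsum_mul_right]
    refine tsum_congr fun l => ?_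
    unfold Gq
    rw [← ENNReal.tsum_mul_left]
  have hex : ∀ l : {l : LL (D + 2) | pe l = z}, ∃ i, pe ((l : LL (D + 2)).take i) = z := by
    intro l
    refine ⟨(l : LL (D + 2)).length, ?_⟩
    rw [List.take_length]
    exact l.2
  have hF : ∀ l : {l : LL (D + 2) | pe l = z}, (l : LL (D + 2)).take (Nat.find (hex l)) ∈ NZa_F (D := D) z := by
    intro l
    refine ⟨Nat.find_spec (hex l), fun i hi => ?_⟩
    rw [List.take_take]
    have h2 : i < Nat.find (hex l) := lt_of_lt_of_le hi (List.length_take_le _ _)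
    rw [min_eq_left h2.le]
    exact Nat.find_min (hex l) h2
  let φ : {l : LL (D + 2) | pe l = z} → NZa_F (D := D) z × LL (D + 2) :=
    fun l => (⟨_, hF l⟩, (l : LL (D + 2)).drop (Nat.find (hex l)))
  have hφ : Function.Injective φ := by
    intro l l' h
    have h3 : (l : LL (D + 2)).take (Nat.find (hex l)) = (l' : LL (D + 2)).take (Nat.find (hex l')) := by
      have := congrArg (fun x => ((x.1 : NZa_F (D := D) z) : LL (D + 2))) h
      exact this
    have h4 : (l : LL (D + 2)).drop (Nat.find (hex l)) = (l' : LL (D + 2)).drop (Nat.find (hex l')) :=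
      congrArg Prod.snd h
    apply Subtype.ext
    rw [← List.take_append_drop (Nat.find (hex l)) (l : LL (D + 2)), h3, h4, List.take_append_drop]
  rw [h0, h1]
  refine le_trans (le_of_eq (tsum_congr fun l => ?_)) (ENNReal.tsum_comp_le_tsum_of_injective hφ _)
  have h5 : pe ((l : LL (D + 2)).drop (Nat.find (hex l))) = 0 := by
    have h6 := NZa_app ((l : LL (D + 2)).take (Nat.find (hex l))) ((l : LL (D + 2)).drop (Nat.find (hex l)))
    rw [List.take_append_drop, Nat.find_spec (hex l)] at h6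
    have h7 : pe (l : LL (D + 2)) = z := l.2
    rw [h7] at h6
    exact (left_eq_add.1 h6)
  show qwz p D ^ (l : LL (D + 2)).length = qwz p D ^ ((l : LL (D + 2)).take (Nat.find (hex l))).length *
    (if pe ((l : LL (D + 2)).drop (Nat.find (hex l))) = 0 then
      qwz p D ^ ((l : LL (D + 2)).drop (Nat.find (hex l))).length else 0)
  rw [if_pos h5, ← pow_add, ← List.length_append, List.take_append_drop]

private theorem NZa_lw (D : ℕ) (p : Set.Ioo (0 : ℝ) 1) (S : Set (LL (D + 2))) :
    lwM p (D + 2) S = ∑' l : S, ENNReal.ofReal (1 - p) * qwz p D ^ (l : LL (D + 2)).length := by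
  classical
  have hp1 := p.2.2
  have hS : MeasurableSet S := trivial
  rw [tsum_subtype S fun l => ENNReal.ofReal (1 - p) * qwz p D ^ l.length]
  unfold lwM
  rw [Measure.sum_apply _ hS]
  refine tsum_congr fun l => ?_
  rw [Measure.smul_apply, Measure.dirac_apply' _ hS, smul_eq_mul, Set.indicator_apply, Set.indicator_apply]
  split_ifs
  · rw [Pi.one_apply, mul_one]
    unfold lwW qwz
    have h2 : (0 : ℝ) ≤ (p : ℝ) / (2 * ((D + 2 : ℕ) : ℝ)) := by
      have := p.2.1
      positivity
    rw [ENNReal.ofReal_mul (by linarith), ENNReal.ofReal_pow h2]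
  · rw [mul_zero]

private theorem NZa_ii (D : ℕ) (p : Set.Ioo (0 : ℝ) 1) (z : ℤ × ℤ) :
    ∑' l : NZa_F (D := D) z, qwz p D ^ (l : LL (D + 2)).length ≤ lwM p (D + 2) {l | ∃ i, pe (l.take i) = z} := by
  rw [NZa_lw]
  have h1 : ∀ l : NZa_F (D := D) z, qwz p D ^ (l : LL (D + 2)).length =
      ∑' m : LL (D + 2), ENNReal.ofReal (1 - p) * qwz p D ^ ((l : LL (D + 2)) ++ m).length := by
    intro l
    have h2 : ∀ m : LL (D + 2), ENNReal.ofReal (1 - p) * qwz p D ^ ((l : LL (D + 2)) ++ m).length =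
        qwz p D ^ (l : LL (D + 2)).length * (ENNReal.ofReal (1 - p) * qwz p D ^ m.length) := by
      intro m
      rw [List.length_append, pow_add, mul_left_comm]
    rw [tsum_congr h2, ENNReal.tsum_mul_left, ENNReal.tsum_mul_left, NZa_one, mul_one]
  have h3 : ∀ (l : NZa_F (D := D) z) (m : LL (D + 2)), ((l : LL (D + 2)) ++ m) ∈
      {l : LL (D + 2) | ∃ i, pe (l.take i) = z} := by
    intro l m
    refine ⟨(l : LL (D + 2)).length, ?_⟩
    rw [List.take_left]
    exact l.2.1
  let ψ : NZa_F (D := D) z × LL (D + 2) → {l : LL (D + 2) | ∃ i, pe (l.take i) = z} := fun x => ⟨_, h3 x.1 x.2⟩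
  have hψ : Function.Injective ψ := by
    rintro ⟨l, m⟩ ⟨l', m'⟩ h
    have h4 : (l : LL (D + 2)) ++ m = (l' : LL (D + 2)) ++ m' := congrArg Subtype.val h
    have h5 : (l : LL (D + 2)).length = (l' : LL (D + 2)).length :=
      le_antisymm (NZa_len z _ _ _ _ l'.2 l.2 h4.symm) (NZa_len z _ _ _ _ l.2 l'.2 h4)
    have h6 := List.append_inj h4 h5
    exact Prod.ext (Subtype.ext h6.1) h6.2
  rw [tsum_congr h1, ← ENNReal.tsum_prod' (f := fun x : NZa_F (D := D) z × LL (D + 2) =>
    ENNReal.ofReal (1 - p) * qwz p D ^ ((x.1 : LL (D + 2)) ++ x.2).length)]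
  exact ENNReal.tsum_comp_le_tsum_of_injective hψ
    fun l : {l : LL (D + 2) | ∃ i, pe (l.take i) = z} => ENNReal.ofReal (1 - p) * qwz p D ^ (l : LL (D + 2)).length

/-- the first visit -/
theorem gq_le_vis (D : ℕ) (p : Set.Ioo (0 : ℝ) 1) (z : ℤ × ℤ) :
    Gq D (qwz p D) z ≤ lwM p (D + 2) {l | ∃ i, pe (l.take i) = z} * Gq D (qwz p D) 0 := by
  exact le_trans (NZa_i D p z) (mul_le_mul_left (NZa_ii D p z) _)

end FDr.HC
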