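import Pool.Agent.Lib.MP_e029a2_pr.HC.NZDef

/-!
# The return probabilities of the projection (job NZb)

Everything in `ℝ≥0∞` (or in `ℝ`).  `c = 2 (D + 2)` directions.
* `∑' z, pa D n z = 1` (induction; compare `srw_sum` in `SMeetS.lean`), `pa D n (-z) = pa D n z` (the involution `d ↦ (d.1, !d.2)`, `dv (d.1, !d.2) = -dv d`; compare `srw_neg` in `SPre.lean`),
  `∑' y, pa D a y * pa D b (z - y) = pa D (a + b) z` (compare `srw_add` in `SPre.lean`).  So `pa D (2 n) 0 = ∑' y, pa D n y ^ 2`.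
* Second moments: `∑' z, pa D n z * z.1 ^ 2 ≤ n` and the same with `z.2` (as `ℝ≥0∞`, `ENNReal.ofReal ((z.1 : ℝ) ^ 2)` or the natural number `(z.1.natAbs) ^ 2`): induction: for a fixed `y` the mean over
  `d` of `(y.1 + (pr (dv d)).1) ^ 2` is `y.1 ^ 2 + 2 / c ≤ y.1 ^ 2 + 1` (the first coordinate of `pr (dv d)` is `± 1` for `d.1 = 0` and `0` otherwise).
* Chebyshev: for `R = 2 * (Nat.sqrt n + 1)` we have `4 n ≤ R ^ 2`, so the mass of `|z.1| > R` is at most `1 / 4`, the same for `z.2`; the square `B = {|z.1| ≤ R, |z.2| ≤ R}` has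
  mass at least `1 / 2` and `(2 R + 1) ^ 2 ≤ 81 n` points (`n ≥ 1`, `Nat.sqrt n ≥ 1`, `2 R + 1 = 4 s + 5 ≤ 9 s`, `s ^ 2 ≤ n`).
* Cauchy-Schwarz (`inner_mul_le_norm_mul_norm` or `Finset.sum_mul_sq_le_sq_mul_sq` / `sq_sum_le_card_mul_sum_sq`): `1 / 4 ≤ (∑ z ∈ B, pa D n z) ^ 2 ≤ 81 n ∑ z ∈ B, pa D n z ^ 2 ≤ 81 n * pa D (2 n) 0`.
-/

set_option autoImplicit false

namespace FDr.HC

open MeasureTheory ProbabilityTheory
open scoped ENNReal

private theorem NZb_card (D : ℕ) : Fintype.card (Dir (D + 2)) = 2 * (D + 2) := by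
  rw [Fintype.card_prod, Fintype.card_fin, Fintype.card_bool, mul_comm]

private theorem NZb_c0 (D : ℕ) : (2 * ((D + 2 : ℕ) : ℝ≥0∞)) ≠ 0 := by
  have h : ((D + 2 : ℕ) : ℝ≥0∞) ≠ 0 := Nat.cast_ne_zero.2 (by omega)
  exact mul_ne_zero two_ne_zero h

private theorem NZb_ct (D : ℕ) : (2 * ((D + 2 : ℕ) : ℝ≥0∞)) ≠ ⊤ :=
  ENNReal.mul_ne_top ENNReal.ofNat_ne_top (ENNReal.natCast_ne_top _)

private theorem NZb_const (D : ℕ) (x : ℝ≥0∞) : (2 * ((D + 2 : ℕ) : ℝ≥0∞))⁻¹ * ∑ _d : Dir (D + 2), x = x := by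
  rw [Finset.sum_const, Finset.card_univ, NZb_card, nsmul_eq_mul, ← mul_assoc, Nat.cast_mul, Nat.cast_ofNat,
    ENNReal.inv_mul_cancel (NZb_c0 D) (NZb_ct D), one_mul]

/-- the translation of a sum -/
private theorem NZb_tr (f : ℤ × ℤ → ℝ≥0∞) (v : ℤ × ℤ) : ∑' z, f (z - v) = ∑' z, f z :=
  (Equiv.subRight v).tsum_eq f

private theorem NZb_step (D n : ℕ) (g : ℤ × ℤ → ℝ≥0∞) :
    ∑' z, pa D (n + 1) z * g z =
      ∑' y, pa D n y * ((2 * ((D + 2 : ℕ) : ℝ≥0∞))⁻¹ * ∑ d : Dir (D + 2), g (y + pr (dv d))) := by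
  have h1 : ∀ z, pa D (n + 1) z * g z =
      (2 * ((D + 2 : ℕ) : ℝ≥0∞))⁻¹ * ∑ d : Dir (D + 2), pa D n (z - pr (dv d)) * g z := by
    intro z
    show ((2 * ((D + 2 : ℕ) : ℝ≥0∞))⁻¹ * ∑ d : Dir (D + 2), pa D n (z - pr (dv d))) * g z = _
    rw [mul_assoc, Finset.sum_mul]
  have h2 : ∀ d : Dir (D + 2), ∑' z, pa D n (z - pr (dv d)) * g z = ∑' y, pa D n y * g (y + pr (dv d)) := by
    intro d
    rw [← NZb_tr (fun y => pa D n y * g (y + pr (dv d))) (pr (dv d))]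
    refine tsum_congr fun z => ?_
    rw [sub_add_cancel]
  rw [tsum_congr h1, ENNReal.tsum_mul_left, Summable.tsum_finsetSum fun _ _ => ENNReal.summable,
    Finset.sum_congr rfl fun d _ => h2 d, ← Summable.tsum_finsetSum fun _ _ => ENNReal.summable,
    ← ENNReal.tsum_mul_left]
  refine tsum_congr fun y => ?_
  rw [← Finset.mul_sum, mul_left_comm]

private theorem NZb_one (D n : ℕ) : ∑' z, pa D n z = 1 := by
  induction n with
  | zero =>
    show ∑' z : ℤ × ℤ, (if z = 0 then (1 : ℝ≥0∞) else 0) = 1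
    exact tsum_ite_eq 0 _
  | succ n ih =>
    have h1 := NZb_step D n fun _ => 1
    rw [NZb_const] at h1
    simp only [mul_one] at h1
    rw [h1, ih]

private theorem NZb_dvn {D : ℕ} (d : Dir (D + 2)) : pr (dv (d.1, !d.2)) = -pr (dv d) := by
  obtain ⟨i, b⟩ := d
  have h : dv ((i, !b) : Dir (D + 2)) = -dv (i, b) := by
    have h1 : sg (!b) = -sg b := by
      cases b <;> simp [sg]
    unfold dv
    show (Pi.single i (sg (!b)) : V (D + 2)) = -(Pi.single i (sg b) : V (D + 2))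
    rw [← Pi.single_neg, h1]
  rw [h]
  rfl

/-- the reflection of the directions -/
private def NZb_inv (D : ℕ) : Dir (D + 2) ≃ Dir (D + 2) where
  toFun := fun d => (d.1, !d.2)
  invFun := fun d => (d.1, !d.2)
  left_inv := by
    intro d
    simp
  right_inv := by
    intro d
    simp

private theorem NZb_neg (D n : ℕ) (z : ℤ × ℤ) : pa D n (-z) = pa D n z := by
  induction n generalizing z with
  | zero =>
    show (if -z = 0 then (1 : ℝ≥0∞) else 0) = if z = 0 then 1 else 0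
    refine if_congr ?_ rfl rfl
    exact neg_eq_zero
  | succ n ih =>
    show (2 * ((D + 2 : ℕ) : ℝ≥0∞))⁻¹ * ∑ d : Dir (D + 2), pa D n (-z - pr (dv d)) =
      (2 * ((D + 2 : ℕ) : ℝ≥0∞))⁻¹ * ∑ d : Dir (D + 2), pa D n (z - pr (dv d))
    congr 1
    rw [← (NZb_inv D).sum_comp]
    refine Finset.sum_congr rfl fun d _ => ?_
    have h1 : pr (dv (NZb_inv D d)) = -pr (dv d) := NZb_dvn d
    rw [h1, ← ih (z - pr (dv d))]
    congr 1
    abel

private theorem NZb_conv (D a b : ℕ) (z : ℤ × ℤ) : ∑' y, pa D a y * pa D b (z - y) = pa D (a + b) z := by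
  induction a generalizing z with
  | zero =>
    rw [Nat.zero_add, tsum_eq_single 0]
    · show (if (0 : ℤ × ℤ) = 0 then (1 : ℝ≥0∞) else 0) * pa D b (z - 0) = pa D b z
      rw [if_pos rfl, one_mul, sub_zero]
    · intro y hy
      show (if y = 0 then (1 : ℝ≥0∞) else 0) * pa D b (z - y) = 0
      rw [if_neg hy, zero_mul]
  | succ a ih =>
    rw [NZb_step D a fun y => pa D b (z - y)]
    have h1 : ∀ y, pa D a y * ((2 * ((D + 2 : ℕ) : ℝ≥0∞))⁻¹ * ∑ d : Dir (D + 2), pa D b (z - (y + pr (dv d)))) =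
        (2 * ((D + 2 : ℕ) : ℝ≥0∞))⁻¹ * ∑ d : Dir (D + 2), pa D a y * pa D b (z - pr (dv d) - y) := by
      intro y
      rw [mul_left_comm, Finset.mul_sum]
      congr 1
      refine Finset.sum_congr rfl fun d _ => ?_
      congr 2
      abel
    rw [tsum_congr h1, ENNReal.tsum_mul_left, Summable.tsum_finsetSum fun _ _ => ENNReal.summable,
      Finset.sum_congr rfl fun d _ => ih (z - pr (dv d)), show a + 1 + b = (a + b) + 1 by omega]
    rfl

private theorem NZb_sq (D n : ℕ) : pa D (2 * n) 0 = ∑' y, pa D n y ^ 2 := by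
  rw [two_mul, ← NZb_conv]
  refine tsum_congr fun y => ?_
  rw [zero_sub, NZb_neg, sq]

/-- the second moment of an additive functional -/
private theorem NZb_mom (D n : ℕ) (φ : ℤ × ℤ →+ ℤ) (hφ : ∀ d : Dir (D + 2), (φ (pr (dv d))) ^ 2 ≤ 1) :
    ∑' z, pa D n z * (((φ z).natAbs ^ 2 : ℕ) : ℝ≥0∞) ≤ n := by
  induction n with
  | zero =>
    rw [tsum_eq_single 0]
    · simp
    · intro y hy
      show (if y = 0 then (1 : ℝ≥0∞) else 0) * _ = 0
      rw [if_neg hy, zero_mul]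
  | succ n ih =>
    rw [NZb_step D n fun z => (((φ z).natAbs ^ 2 : ℕ) : ℝ≥0∞)]
    have hs : ∑ d : Dir (D + 2), φ (pr (dv d)) = 0 := by
      have h1 : ∑ d : Dir (D + 2), φ (pr (dv d)) = -∑ d : Dir (D + 2), φ (pr (dv d)) := by
        conv_lhs => rw [← (NZb_inv D).sum_comp]
        rw [← Finset.sum_neg_distrib]
        refine Finset.sum_congr rfl fun d _ => ?_
        have h1 : pr (dv (NZb_inv D d)) = -pr (dv d) := NZb_dvn d
        rw [h1, map_neg]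
      omega
    have h2 : ∀ y : ℤ × ℤ, (2 * ((D + 2 : ℕ) : ℝ≥0∞))⁻¹ *
        ∑ d : Dir (D + 2), (((φ (y + pr (dv d))).natAbs ^ 2 : ℕ) : ℝ≥0∞) ≤ (((φ y).natAbs ^ 2 : ℕ) : ℝ≥0∞) + 1 := by
      intro y
      have h3 : ∑ d : Dir (D + 2), (φ (y + pr (dv d))).natAbs ^ 2 ≤ (2 * (D + 2)) * ((φ y).natAbs ^ 2 + 1) := by
        have h4 : ∀ a : ℤ, ((a.natAbs ^ 2 : ℕ) : ℤ) = a ^ 2 := by
          intro a
          rw [Nat.cast_pow, Int.natCast_natAbs, sq_abs]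
        have h5 : ((∑ d : Dir (D + 2), (φ (y + pr (dv d))).natAbs ^ 2 : ℕ) : ℤ) ≤
            (((2 * (D + 2)) * ((φ y).natAbs ^ 2 + 1) : ℕ) : ℤ) := by
          rw [Nat.cast_sum, Finset.sum_congr rfl fun d _ => h4 _, Nat.cast_mul, Nat.cast_add, h4, Nat.cast_one]
          have h6 : ∀ d : Dir (D + 2), (φ (y + pr (dv d))) ^ 2 ≤ (φ y) ^ 2 + 1 + 2 * φ y * φ (pr (dv d)) := by
            intro d
            have h7 := hφ d
            rw [map_add]
            nlinarith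
          refine le_trans (Finset.sum_le_sum fun d _ => h6 d) (le_of_eq ?_)
          rw [Finset.sum_add_distrib, ← Finset.mul_sum, hs, mul_zero, add_zero, Finset.sum_const, Finset.card_univ,
            NZb_card, nsmul_eq_mul]
        exact_mod_cast h5
      have h8 : ∑ d : Dir (D + 2), (((φ (y + pr (dv d))).natAbs ^ 2 : ℕ) : ℝ≥0∞) ≤
          (2 * ((D + 2 : ℕ) : ℝ≥0∞)) * ((((φ y).natAbs ^ 2 : ℕ) : ℝ≥0∞) + 1) := by
        have h9 := (Nat.cast_le (α := ℝ≥0∞)).2 h3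
        rw [Nat.cast_sum] at h9
        refine le_trans h9 (le_of_eq ?_)
        push_cast
        ring
      refine le_trans (mul_le_mul_right h8 _) (le_of_eq ?_)
      rw [← mul_assoc, ENNReal.inv_mul_cancel (NZb_c0 D) (NZb_ct D), one_mul]
    refine le_trans (ENNReal.tsum_le_tsum fun y => mul_le_mul_right (h2 y) _) ?_
    have h10 : ∀ y, pa D n y * ((((φ y).natAbs ^ 2 : ℕ) : ℝ≥0∞) + 1) =
        pa D n y * (((φ y).natAbs ^ 2 : ℕ) : ℝ≥0∞) + pa D n y := by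
      intro y
      rw [mul_add, mul_one]
    rw [tsum_congr h10, ENNReal.tsum_add, NZb_one, Nat.cast_add, Nat.cast_one]
    exact add_le_add ih (le_refl _)

private theorem NZb_cheb (D n R : ℕ) (hn : 1 ≤ n) (hR : 4 * n ≤ R ^ 2) (φ : ℤ × ℤ →+ ℤ)
    (hφ : ∀ d : Dir (D + 2), (φ (pr (dv d))) ^ 2 ≤ 1) :
    ∑' z, (if R < (φ z).natAbs then pa D n z else 0) ≤ 4⁻¹ := by
  have h1 : (4 * (n : ℝ≥0∞)) * ∑' z, (if R < (φ z).natAbs then pa D n z else 0) ≤ n := by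
    rw [← ENNReal.tsum_mul_left]
    refine le_trans (ENNReal.tsum_le_tsum fun z => ?_) (NZb_mom D n φ hφ)
    split_ifs with h
    · rw [mul_comm]
      refine mul_le_mul_right ?_ _
      have h2 : 4 * n ≤ (φ z).natAbs ^ 2 := le_trans hR (Nat.pow_le_pow_left h.le 2)
      have h3 := (Nat.cast_le (α := ℝ≥0∞)).2 h2
      rw [Nat.cast_mul, Nat.cast_ofNat] at h3
      exact h3
    · rw [mul_zero]
      exact zero_le
  have hn0 : (n : ℝ≥0∞) ≠ 0 := Nat.cast_ne_zero.2 (by omega)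
  have hnt : (n : ℝ≥0∞) ≠ ⊤ := ENNReal.natCast_ne_top n
  rw [mul_comm (4 : ℝ≥0∞), mul_assoc] at h1
  have h4 : 4 * ∑' z, (if R < (φ z).natAbs then pa D n z else 0) ≤ 1 := by
    refine (ENNReal.mul_le_mul_iff_right hn0 hnt).1 ?_
    rw [mul_one]
    exact h1
  rw [ENNReal.le_inv_iff_mul_le, mul_comm]
  exact h4

private theorem NZb_box (D n R : ℕ) (hn : 1 ≤ n) (hR : 4 * n ≤ R ^ 2) :
    2⁻¹ ≤ ∑ z ∈ (Finset.Icc (-(R : ℤ)) R ×ˢ Finset.Icc (-(R : ℤ)) R), pa D n z := by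
  have hd : ∀ (j : Fin (D + 2)) (d : Dir (D + 2)), (dv d j) ^ 2 ≤ 1 := by
    intro j d
    unfold dv
    rw [Pi.single_apply]
    split_ifs
    · cases d.2 <;> simp [sg]
    · norm_num
  have h1 := NZb_cheb D n R hn hR (AddMonoidHom.fst ℤ ℤ) (fun d => hd 0 d)
  have h2 := NZb_cheb D n R hn hR (AddMonoidHom.snd ℤ ℤ) (fun d => hd 1 d)
  have h3 : (1 : ℝ≥0∞) ≤ ∑ z ∈ (Finset.Icc (-(R : ℤ)) R ×ˢ Finset.Icc (-(R : ℤ)) R), pa D n z + (4⁻¹ + 4⁻¹) := by
    have h4 : (1 : ℝ≥0∞) ≤ ∑' z, ((if z ∈ (Finset.Icc (-(R : ℤ)) R ×ˢ Finset.Icc (-(R : ℤ)) R) then pa D n z else 0) +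
        ((if R < (AddMonoidHom.fst ℤ ℤ z).natAbs then pa D n z else 0) +
          (if R < (AddMonoidHom.snd ℤ ℤ z).natAbs then pa D n z else 0))) := by
      rw [← NZb_one D n]
      refine ENNReal.tsum_le_tsum fun z => ?_
      by_cases ha : R < (AddMonoidHom.fst ℤ ℤ z).natAbs
      · rw [if_pos ha]
        exact le_trans le_self_add le_add_self
      · by_cases hb : R < (AddMonoidHom.snd ℤ ℤ z).natAbs
        · rw [if_pos hb]
          exact le_trans le_add_self le_add_self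
        · rw [if_pos]
          · exact le_self_add
          · rw [Finset.mem_product, Finset.mem_Icc, Finset.mem_Icc]
            have ha' : ¬R < z.1.natAbs := ha
            have hb' : ¬R < z.2.natAbs := hb
            omega
    rw [ENNReal.tsum_add, ENNReal.tsum_add, tsum_eq_sum (s := Finset.Icc (-(R : ℤ)) R ×ˢ Finset.Icc (-(R : ℤ)) R)
      (fun z hz => if_neg hz), Finset.sum_congr rfl fun z hz => if_pos hz] at h4
    exact le_trans h4 (add_le_add (le_refl _) (add_le_add h1 h2))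
  have h5 : (4⁻¹ : ℝ≥0∞) + 4⁻¹ = 2⁻¹ := by
    have h6 : (4 : ℝ≥0∞) = 2 * 2 := by norm_num
    rw [h6, ENNReal.mul_inv (Or.inl two_ne_zero) (Or.inl ENNReal.ofNat_ne_top), ← mul_add, ENNReal.inv_two_add_inv_two,
      mul_one]
  rw [h5, ← ENNReal.inv_two_add_inv_two] at h3
  exact ENNReal.le_of_add_le_add_right (ENNReal.inv_ne_top.2 two_ne_zero) h3

theorem pa_ret (D n : ℕ) (hn : 1 ≤ n) : ENNReal.ofReal (1 / (324 * n)) ≤ pa D (2 * n) 0 := by
  have hs1 : 1 ≤ Nat.sqrt n := Nat.sqrt_pos.2 hn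
  have hs2 : n < (Nat.sqrt n + 1) ^ 2 := Nat.lt_succ_sqrt' n
  have hs3 : Nat.sqrt n ^ 2 ≤ n := Nat.sqrt_le' n
  have hR : 4 * n ≤ (2 * (Nat.sqrt n + 1)) ^ 2 := by
    rw [mul_pow]
    omega
  have hbox := NZb_box D n (2 * (Nat.sqrt n + 1)) hn hR
  set B := Finset.Icc (-((2 * (Nat.sqrt n + 1) : ℕ) : ℤ)) ((2 * (Nat.sqrt n + 1) : ℕ) : ℤ) ×ˢ
    Finset.Icc (-((2 * (Nat.sqrt n + 1) : ℕ) : ℤ)) ((2 * (Nat.sqrt n + 1) : ℕ) : ℤ) with hB
  have hcard : B.card ≤ 81 * n := by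
    rw [hB, Finset.card_product, Int.card_Icc]
    have h1 : (((2 * (Nat.sqrt n + 1) : ℕ) : ℤ) + 1 - -((2 * (Nat.sqrt n + 1) : ℕ) : ℤ)).toNat =
        4 * Nat.sqrt n + 5 := by omega
    rw [h1]
    nlinarith
  have hle : ∀ z, pa D n z ≤ 1 := by
    intro z
    rw [← NZb_one D n]
    exact ENNReal.le_tsum z
  have htop : ∀ z, pa D n z ≠ ⊤ := fun z => ne_top_of_le_ne_top ENNReal.one_ne_top (hle z)
  have hr1 : (1 : ℝ) / 2 ≤ ∑ z ∈ B, (pa D n z).toReal := by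
    have h1 : (∑ z ∈ B, pa D n z).toReal = ∑ z ∈ B, (pa D n z).toReal := ENNReal.toReal_sum fun z _ => htop z
    rw [← h1]
    have h2 := ENNReal.toReal_mono (ENNReal.sum_ne_top.2 fun z _ => htop z) hbox
    rw [ENNReal.toReal_inv, ENNReal.toReal_ofNat] at h2
    linarith
  have hr2 : (∑ z ∈ B, (pa D n z).toReal) ^ 2 ≤ (B.card : ℝ) * ∑ z ∈ B, (pa D n z).toReal ^ 2 :=
    sq_sum_le_card_mul_sum_sq
  have hn' : (1 : ℝ) ≤ n := by exact_mod_cast hn
  have hr3 : 1 / (324 * (n : ℝ)) ≤ ∑ z ∈ B, (pa D n z).toReal ^ 2 := by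
    have h1 : (0 : ℝ) ≤ ∑ z ∈ B, (pa D n z).toReal ^ 2 := Finset.sum_nonneg fun z _ => sq_nonneg _
    have h2 : (B.card : ℝ) ≤ 81 * n := by exact_mod_cast hcard
    rw [div_le_iff₀ (by positivity)]
    nlinarith [mul_le_mul_of_nonneg_right h2 h1]
  refine le_trans (ENNReal.ofReal_le_ofReal hr3) ?_
  rw [ENNReal.ofReal_sum_of_nonneg fun z _ => sq_nonneg _, NZb_sq]
  refine le_trans (le_of_eq (Finset.sum_congr rfl fun z _ => ?_)) (ENNReal.sum_le_tsum B)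
  rw [ENNReal.ofReal_pow ENNReal.toReal_nonneg, ENNReal.ofReal_toReal (htop z)]

end FDr.HC
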