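import Pool.Agent.Lib.MP_e029a2_pr.HC.RDef
import Pool.Agent.Lib.MP_e029a2_pr.HC.KDef

/-!
# The exits of a box: definitions

The frog model with death on `ℤ^D` (`KC D`, `kpos`, `kal`, `KCl`), in a box `B`, with the seeds `A`.
-/

set_option autoImplicit false

namespace FDr.HC

open MeasureTheory ProbabilityTheory
open scoped ENNReal

variable {D : ℕ}

/-- the frogs of `B` which are activated by frogs which have not left `B`, if the frogs of `A` are active at the
beginning -/
inductive Cb (k : KC D) (B A : Set (V D)) : V D → Prop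
  | start (x : V D) : x ∈ A → x ∈ B → Cb k B A x
  | visit (x : V D) (n : ℕ) : Cb k B A x → kal k x n → (∀ i ≤ n, kpos k x i ∈ B) → Cb k B A (kpos k x n)

/-- the frog `v` leaves `B` with its step number `n` -/
def Ex (k : KC D) (B : Set (V D)) (v : V D) (n : ℕ) : Prop :=
  kal k v n ∧ (∀ i < n, kpos k v i ∈ B) ∧ kpos k v n ∉ B

/-- the exits: the frog, the number of steps, the exit point -/
def XD (k : KC D) (B A : Set (V D)) : Set (V D × ℕ × V D) :=
  {q | Cb k B A q.1 ∧ Ex k B q.1 q.2.1 ∧ kpos k q.1 q.2.1 = q.2.2}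

/-- the number of the exits in `P` -/
noncomputable def Nx (k : KC D) (B A P : Set (V D)) : ℕ := {q | q ∈ XD k B A ∧ q.2.2 ∈ P}.ncard

/-- the cells of the frogs of the box `B` before the exits `E` -/
def Sc (B : Set (V D)) (E : Set (V D × ℕ × V D)) : Set (V D × ℕ) := {p | p.1 ∈ B ∧ ∀ q ∈ E, q.1 = p.1 → p.2 < q.2.1}

/-- the step of a cell in its hyperplane; the cells with runs which do not return to the hyperplane are deaths -/
def fc (a : Cell D) : Option (Dir D) := if dsp a.1 = 0 then some a.2 else none

/-- the environment in the hyperplane `h` -/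
def kh (c : Conf D) (h : ℤ) : KC D := fun p => fc (c ((h, p.1), p.2))

/-- the frog `x` has the cells `W` from its cell `k` on -/
def Wd (c : Conf D) (x : Site D) (k : ℕ) (W : List (Cell D)) : Prop := ∀ i (hi : i < W.length), c (x, k + i) = W[i]

/-- the run of `|δ|` steps with the sign of `δ` -/
def rep (δ : ℤ) : Run := List.replicate δ.natAbs (decide (0 < δ))

/-- the word: the run over `δ`, then the steps `l` in the hyperplane -/
def wrd (δ : ℤ) : List (Dir D) → List (Cell D)
  | [] => []
  | d :: t => (rep δ, d) :: t.map fun d => ([], d)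

/-- the path `l` from the origin covers the box with the radius `r` -/
def Cov (r : ℕ) (l : List (Dir D)) : Prop :=
  l ≠ [] ∧ ∀ y ∈ Bx r (0 : V D), ∃ i ≤ l.length, ((l.take i).map dv).sum = y

/-- the stage relation -/
def RR (n r : ℕ) (l : List (Dir D)) (c : Conf D) (h : ℤ) (b : V D) (δ : ℤ) (u : V D) : Prop :=
  ∃ q ∈ XD (kh c h) (Bx n b) (Bx r b), q.2.2 = u ∧ Wd c (h, q.1) q.2.1 (wrd δ l)

/-- the symmetries of the lattice, with their action on the directions -/
structure Sy (D : ℕ) where
  g : V D ≃ V D
  g' : Dir D ≃ Dir D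
  h : ∀ x d, g (x + dv d) = g x + dv (g' d)

/-- the action on the environments -/
def Sy.T (s : Sy D) (k : KC D) : KC D := fun p => (k (s.g.symm p.1, p.2)).map s.g'

end FDr.HC
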