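import Pool.Agent.Lib.MP_e029a2_pr.HC.R0

/-!
# The exits of a box: the cells on which they depend, measurability (job RA)

* `ex_unique`: if `n < m` then `kpos k v n ∈ B` by `Ex k B v m`.
* `xd_fin`: `q ↦ q.1` is injective on `XD k B A` (`xd_inj`) and its values are in `B` (`cb_mem`).
* `xd_data`: let `k = k'` on `Sc B E` and `XD k B A = E`.  `Cb k B A x → Cb k' B A x` by induction: if `kal k x n` and `kpos k x i ∈ B` for `i ≤ n`, then the
  cells `(x, j)`, `j < n`, are in `Sc B E` (for `q ∈ E = XD k B A` with `q.1 = x`: `kpos k x q.2.1 ∉ B`, hence `n < q.2.1`), so they agree and `kal k' x n`,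
  `kpos k' x i = kpos k x i` for `i ≤ n`.  Next `E ⊆ XD k' B A`: for `q ∈ E` the cells `(q.1, j)`, `j < q.2.1`, are in `Sc B E` (by `xd_inj`).  Next
  `Cb k' B A x → Cb k B A x` by induction: `kal k' x n`, `kpos k' x i ∈ B` for `i ≤ n`; for `q ∈ E` with `q.1 = x` we have `q ∈ XD k' B A`, hence
  `kpos k' x q.2.1 ∉ B`, `n < q.2.1`; the cells agree.  Finally `q' ∈ XD k' B A`, then `Cb k B A q'.1`; if some `q ∈ E` has `q.1 = q'.1`
  then `q = q'` (`xd_inj` in `XD k' B A`); otherwise all the cells `(q'.1, j)` are in `Sc B E` and agree, `q' ∈ XD k B A = E`.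
  The statement `Dep` is an equality of propositions, use the implication twice.
* `xd_dep`: by `xd_data` with `E = XD k B A` (`Sc B E ⊆ {p | p.1 ∈ B}`).
* measurability: `Cb` is the union over `n` of recursive predicates (see `CO.conn_iff`, `CO.connN_meas` in `CO/Dep.lean`):
  `CbN 0 x := x ∈ A ∧ x ∈ B`, `CbN (n+1) x := CbN n x ∨ ∃ y m, CbN n y ∧ kal k y m ∧ (∀ i ≤ m, kpos k y i ∈ B) ∧ kpos k y m = x`;
  `kal`, `kpos` depend on finitely many cells (`Dep.measurable`, `Dep.measurableSet`; `Option (Dir D)` is finite, `DiscreteMeasurableSpace` as in `SH/Def.lean`).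
-/

set_option autoImplicit false

namespace FDr.HC

open MeasureTheory ProbabilityTheory
open scoped ENNReal

variable {D : ℕ}

instance (D : ℕ) : DiscreteMeasurableSpace (Option (Dir D)) := ⟨fun _ => trivial⟩

private theorem ra_lt {k : KC D} {B : Set (V D)} {v : V D} {n m : ℕ} (h : Ex k B v n) (h' : Ex k B v m) : ¬ n < m :=
  fun hlt => h.2.2 (h'.2.1 n hlt)

theorem ex_unique {k : KC D} {B : Set (V D)} {v : V D} {n m : ℕ} (h : Ex k B v n) (h' : Ex k B v m) : n = m :=
  le_antisymm (not_lt.1 (ra_lt h' h)) (not_lt.1 (ra_lt h h'))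

theorem cb_mem {k : KC D} {B A : Set (V D)} {x : V D} (h : Cb k B A x) : x ∈ B := by
  cases h with
  | start x _ hx => exact hx
  | visit x n _ _ hB => exact hB n le_rfl

theorem xd_inj {k : KC D} {B A : Set (V D)} {q q' : V D × ℕ × V D} (h : q ∈ XD k B A) (h' : q' ∈ XD k B A)
    (he : q.1 = q'.1) : q = q' := by
  obtain ⟨v, n, u⟩ := q
  obtain ⟨v', n', u'⟩ := q'
  obtain ⟨_, h2, h3⟩ := h
  obtain ⟨_, h2', h3'⟩ := h'
  change v = v' at he
  subst he
  have h4 : n = n' := ex_unique h2 h2'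
  subst h4
  have h5 : u = u' := h3.symm.trans h3'
  rw [h5]

theorem xd_fin {k : KC D} {B A : Set (V D)} (hB : B.Finite) : (XD k B A).Finite := by
  refine Set.Finite.of_finite_image (f := Prod.fst) (hB.subset ?_) ?_
  · rintro _ ⟨q, hq, rfl⟩
    exact cb_mem hq.1
  · intro q hq q' hq' he
    exact xd_inj hq hq' he

/-! ### the cells -/

private theorem ra_pos {k k' : KC D} {x : V D} {n : ℕ} (h : ∀ j < n, k (x, j) = k' (x, j)) {i : ℕ} (hi : i ≤ n) :
    kpos k x i = kpos k' x i := by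
  unfold kpos
  refine congrArg (fun z => x + z) (Finset.sum_congr rfl fun j hj => ?_)
  rw [h j (lt_of_lt_of_le (Finset.mem_range.1 hj) hi)]

private theorem ra_al {k k' : KC D} {x : V D} {n : ℕ} (h : ∀ j < n, k (x, j) = k' (x, j)) (h1 : kal k x n) : kal k' x n :=
  fun j hj => by
    rw [← h j hj]
    exact h1 j hj

private theorem ra_cb {k k' : KC D} {B A : Set (V D)}
    (H : ∀ x n, x ∈ B → kal k x n → (∀ i ≤ n, kpos k x i ∈ B) → ∀ j < n, k (x, j) = k' (x, j)) {x : V D} (h : Cb k B A x) :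
    Cb k' B A x := by
  induction h with
  | start x hA hB => exact Cb.start x hA hB
  | visit x n h1 h2 h3 ih =>
    have h4 := H x n (cb_mem h1) h2 h3
    rw [ra_pos h4 le_rfl]
    exact Cb.visit x n ih (ra_al h4 h2) fun i hi => by
      rw [← ra_pos h4 hi]
      exact h3 i hi

private theorem ra_ex {k k' : KC D} {B : Set (V D)} {x : V D} {n : ℕ} (h : ∀ j < n, k (x, j) = k' (x, j)) (h1 : Ex k B x n) :
    Ex k' B x n :=
  ⟨ra_al h h1.1, fun i hi => by
    rw [← ra_pos h hi.le]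
    exact h1.2.1 i hi, by
    rw [← ra_pos h le_rfl]
    exact h1.2.2⟩

private theorem ra_sc {k : KC D} {B A : Set (V D)} {E : Set (V D × ℕ × V D)} (hE : E ⊆ XD k B A) {x : V D} {n : ℕ} (hx : x ∈ B)
    (h : ∀ i ≤ n, kpos k x i ∈ B) {j : ℕ} (hj : j < n) : (x, j) ∈ Sc B E := by
  refine ⟨hx, fun q hq he => ?_⟩
  change q.1 = x at he
  show j < q.2.1
  by_contra hlt
  have h1 : kpos k q.1 q.2.1 ∉ B := (hE hq).2.1.2.2
  rw [he] at h1
  exact h1 (h q.2.1 (by omega))

private theorem ra_data {k k' : KC D} {B A : Set (V D)} {E : Set (V D × ℕ × V D)} (hk : ∀ p ∈ Sc B E, k p = k' p)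
    (hE : XD k B A = E) : XD k' B A = E := by
  have h2 : E ⊆ XD k' B A := by
    intro q hq
    have hq' : q ∈ XD k B A := by rw [hE]; exact hq
    have h3 : ∀ j < q.2.1, k (q.1, j) = k' (q.1, j) := fun j hj => hk (q.1, j) ⟨cb_mem hq'.1, fun q2 hq2 he => by
      have h4 : q2 = q := xd_inj (by rw [hE]; exact hq2) hq' he
      rw [h4]
      exact hj⟩
    refine ⟨ra_cb (fun x n hx _ h j hj => hk (x, j) (ra_sc (A := A) (by rw [hE]) hx h hj)) hq'.1, ra_ex h3 hq'.2.1, ?_⟩
    rw [← ra_pos h3 le_rfl]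
    exact hq'.2.2
  refine Set.Subset.antisymm ?_ h2
  intro q' hq'
  have h3 : Cb k B A q'.1 := ra_cb (fun x n hx _ h j hj => (hk (x, j) (ra_sc h2 hx h hj)).symm) hq'.1
  by_cases h4 : ∃ q ∈ E, q.1 = q'.1
  · obtain ⟨q, hq, he⟩ := h4
    rw [← xd_inj (h2 hq) hq' he]
    exact hq
  · have h5 : ∀ j < q'.2.1, k' (q'.1, j) = k (q'.1, j) := fun j _ => (hk (q'.1, j) ⟨cb_mem h3, fun q hq he =>
      absurd ⟨q, hq, he⟩ h4⟩).symm
    rw [← hE]
    refine ⟨h3, ra_ex h5 hq'.2.1, ?_⟩
    rw [← ra_pos h5 le_rfl]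
    exact hq'.2.2

theorem xd_data (B A : Set (V D)) (E : Set (V D × ℕ × V D)) : Dep (Sc B E) fun k : KC D => XD k B A = E :=
  fun _ _ hk => propext ⟨ra_data hk, ra_data fun p hp => (hk p hp).symm⟩

theorem xd_dep (B A : Set (V D)) : Dep {p : V D × ℕ | p.1 ∈ B} fun k : KC D => XD k B A :=
  fun _ _ hk => (ra_data (fun p hp => hk p hp.1) rfl).symm

/-! ### measurability -/

private theorem ra_fin (x : V D) (n : ℕ) : {p : V D × ℕ | p.1 = x ∧ p.2 < n}.Finite := by
  refine ((Set.finite_lt_nat n).image fun j => (x, j)).subset ?_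
  rintro ⟨y, j⟩ ⟨h1, h2⟩
  change y = x at h1
  subst h1
  exact ⟨j, h2, rfl⟩

/-- at most `n` rounds -/
private def ra_N (k : KC D) (B A : Set (V D)) : ℕ → V D → Prop
  | 0 => fun x => x ∈ A ∧ x ∈ B
  | n + 1 => fun x => ra_N k B A n x ∨ ∃ y m, ra_N k B A n y ∧ (kal k y m ∧ (∀ i ≤ m, kpos k y i ∈ B) ∧ kpos k y m = x)

private theorem ra_iff {k : KC D} {B A : Set (V D)} {x : V D} : Cb k B A x ↔ ∃ n, ra_N k B A n x := by
  constructor
  · intro h
    induction h with
    | start x hA hB => exact ⟨0, hA, hB⟩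
    | visit x n _ h2 h3 ih =>
      obtain ⟨m, hm⟩ := ih
      exact ⟨m + 1, Or.inr ⟨x, n, hm, h2, h3, rfl⟩⟩
  · rintro ⟨n, hn⟩
    induction n generalizing x with
    | zero => exact Cb.start x hn.1 hn.2
    | succ n ih =>
      rcases hn with h | ⟨y, m, h1, h2, h3, rfl⟩
      · exact ih h
      · exact Cb.visit y m (ih h1) h2 h3

private theorem ra_step (B : Set (V D)) (x y : V D) (m : ℕ) :
    MeasurableSet {k : KC D | kal k y m ∧ (∀ i ≤ m, kpos k y i ∈ B) ∧ kpos k y m = x} := by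
  refine Dep.measurableSet (ra_fin y m) ?_
  intro k k' hk
  have h1 : ∀ j < m, k (y, j) = k' (y, j) := fun j hj => hk (y, j) ⟨rfl, hj⟩
  have h2 : ∀ j < m, k' (y, j) = k (y, j) := fun j hj => (h1 j hj).symm
  refine propext ⟨fun h => ⟨ra_al h1 h.1, fun i hi => ?_, ?_⟩, fun h => ⟨ra_al h2 h.1, fun i hi => ?_, ?_⟩⟩
  · rw [← ra_pos h1 hi]
    exact h.2.1 i hi
  · rw [← ra_pos h1 le_rfl]
    exact h.2.2
  · rw [← ra_pos h2 hi]
    exact h.2.1 i hi
  · rw [← ra_pos h2 le_rfl]
    exact h.2.2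

private theorem ra_meas (B A : Set (V D)) (n : ℕ) (x : V D) : MeasurableSet {k : KC D | ra_N k B A n x} := by
  induction n generalizing x with
  | zero => exact MeasurableSet.const _
  | succ n ih =>
    have h1 : {k : KC D | ra_N k B A (n + 1) x} = {k | ra_N k B A n x} ∪ ⋃ y : V D, ⋃ m : ℕ, {k | ra_N k B A n y} ∩
        {k | kal k y m ∧ (∀ i ≤ m, kpos k y i ∈ B) ∧ kpos k y m = x} := by
      ext c
      simp only [Set.mem_union, Set.mem_iUnion]
      rfl
    rw [h1]
    exact (ih x).union (MeasurableSet.iUnion fun y => MeasurableSet.iUnion fun m => (ih y).inter (ra_step B x y m))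

theorem cb_meas (B A : Set (V D)) (x : V D) : MeasurableSet {k : KC D | Cb k B A x} := by
  have h1 : {k : KC D | Cb k B A x} = ⋃ n, {k | ra_N k B A n x} := by
    ext k
    rw [Set.mem_iUnion]
    exact ra_iff
  rw [h1]
  exact MeasurableSet.iUnion fun n => ra_meas B A n x

theorem xd_mem_meas (B A : Set (V D)) (q : V D × ℕ × V D) : MeasurableSet {k : KC D | q ∈ XD k B A} := by
  have h1 : {k : KC D | q ∈ XD k B A} = {k | Cb k B A q.1} ∩ {k | Ex k B q.1 q.2.1 ∧ kpos k q.1 q.2.1 = q.2.2} := rfl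
  rw [h1]
  refine (cb_meas B A q.1).inter (Dep.measurableSet (ra_fin q.1 q.2.1) ?_)
  intro k k' hk
  have h1 : ∀ j < q.2.1, k (q.1, j) = k' (q.1, j) := fun j hj => hk (q.1, j) ⟨rfl, hj⟩
  have h2 : ∀ j < q.2.1, k' (q.1, j) = k (q.1, j) := fun j hj => (h1 j hj).symm
  refine propext ⟨fun h => ⟨ra_ex h1 h.1, ?_⟩, fun h => ⟨ra_ex h2 h.1, ?_⟩⟩
  · rw [← ra_pos h1 le_rfl]
    exact h.2
  · rw [← ra_pos h2 le_rfl]
    exact h.2

theorem xd_eq_meas (B A : Set (V D)) (E : Set (V D × ℕ × V D)) : MeasurableSet {k : KC D | XD k B A = E} := by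
  have h1 : {k : KC D | XD k B A = E} = ⋂ q : V D × ℕ × V D, {k | q ∈ XD k B A ↔ q ∈ E} := by
    ext k
    rw [Set.mem_iInter]
    exact Set.ext_iff
  rw [h1]
  refine MeasurableSet.iInter fun q => ?_
  by_cases h : q ∈ E
  · have h2 : {k : KC D | q ∈ XD k B A ↔ q ∈ E} = {k | q ∈ XD k B A} := by
      ext k
      exact iff_true_right h
    rw [h2]
    exact xd_mem_meas B A q
  · have h2 : {k : KC D | q ∈ XD k B A ↔ q ∈ E} = {k | q ∈ XD k B A}ᶜ := by
      ext k
      exact iff_false_right h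
    rw [h2]
    exact (xd_mem_meas B A q).compl

/-- every property of the exits is measurable -/
theorem xd_prop_meas (B A : Set (V D)) (hB : B.Finite) (p : Set (V D × ℕ × V D) → Prop) :
    MeasurableSet {k : KC D | p (XD k B A)} := by
  have h1 : {k : KC D | p (XD k B A)} = ⋃ E : Finset (V D × ℕ × V D), {k | XD k B A = (E : Set (V D × ℕ × V D))} ∩
      {_k | p (E : Set (V D × ℕ × V D))} := by
    ext k
    rw [Set.mem_iUnion]
    constructor
    · intro h
      have hf : (XD k B A).Finite := xd_fin hB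
      refine ⟨hf.toFinset, ?_, ?_⟩
      · exact hf.coe_toFinset.symm
      · show p (hf.toFinset : Set (V D × ℕ × V D))
        rw [hf.coe_toFinset]
        exact h
    · rintro ⟨E, h2, h3⟩
      change XD k B A = _ at h2
      show p (XD k B A)
      rw [h2]
      exact h3
  rw [h1]
  exact MeasurableSet.iUnion fun E => (xd_eq_meas B A _).inter (MeasurableSet.const _)

private theorem ra_kcl {k : KC D} {a x : V D} : KCl k a x ↔ Cb k Set.univ {a} x := by
  constructor
  · intro h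
    induction h with
    | start => exact Cb.start a rfl trivial
    | visit x n _ h2 ih => exact Cb.visit x n ih h2 fun _ _ => trivial
  · intro h
    induction h with
    | start x hA _ =>
      rw [Set.mem_singleton_iff.1 hA]
      exact KCl.start
    | visit x n _ h2 _ ih => exact KCl.visit x n ih h2

theorem kcl_inf_meas (a : V D) : MeasurableSet {k : KC D | {x | KCl k a x}.Infinite} := by
  have h1 : {k : KC D | {x | KCl k a x}.Infinite} = ⋂ F : Finset (V D), ⋃ x : V D, {k | Cb k Set.univ {a} x} ∩ {_k | x ∉ F} := by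
    ext k
    simp only [Set.mem_iInter, Set.mem_iUnion]
    constructor
    · intro h F
      obtain ⟨x, hx, hxF⟩ := Set.Infinite.exists_notMem_finset h F
      exact ⟨x, ra_kcl.1 hx, hxF⟩
    · intro h
      show ¬ _
      intro hf
      obtain ⟨x, hx, hxF⟩ := h (Set.Finite.toFinset hf)
      exact hxF ((Set.Finite.mem_toFinset hf).2 (ra_kcl.2 hx))
  rw [h1]
  exact MeasurableSet.iInter fun F => MeasurableSet.iUnion fun x => (cb_meas _ _ x).inter (MeasurableSet.const _)

end FDr.HC
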