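import Pool.Agent.Lib.MP_e029a2_pr.HC.R0

/-!
# The exits of a box: deterministic facts on boxes (job RB)

* `xd_near`, `xd_pc`: `q.2.1 ≠ 0` (`kpos k v 0 = v ∈ B` by `Cb`), the last step is `k (v, m) = some d` (`kal`), `kpos k v (m + 1) = kpos k v m + dv d`,
  only the coordinate `d.1` changes, by `± 1`.  In `xd_pc` take `i = d.1`, `σ j = decide (0 ≤ u j - b j)`.
* `xd_empty_mono`: if `XD k B A = ∅` and `Cb k B A x`, `kal k x n`, then `kpos k x i ∈ B` for all `i ≤ n` (otherwise the least `i` with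
  `kpos k x i ∉ B` gives an exit).  So `Cb k B' A x → Cb k B A x` by induction, and there is no exit of `B'`.
* `inf_exit`: if `XD k B A = ∅` then `KCl k a x → Cb k B A x` by induction, so the cluster is a subset of `B`.
* `exits_inf`: if the cluster is finite it is a subset of some `Bx m a` (`exists_bx`); for an exit `q ∈ XD k (Bx m a) {a}` we have `KCl k a q.1`
  (`Cb k B {a} x → KCl k a x`), `kal k q.1 q.2.1`, so `KCl k a q.2.2` and `q.2.2 ∈ Bx m a`, contradiction.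
* `die`: put `B = Bx n b`, `B' = Bx (n + 1) b`.  `Cb k B' A x → Cb k B A x ∨ ∃ q ∈ XD k B A, q.2.2 = x` by induction: if `Cb k B A x`, `kal k x n'`
  and not all `kpos k x i ∈ B`, `i ≤ n'`, then the least such `i` gives `q = (x, i, kpos k x i) ∈ XD k B A`, `k (x, i) = none`, so
  `n' ≤ i`, `n' = i`.  If `x = q.2.2` then `k (x, 0) = none`, so `n' = 0` and `kpos k x 0 = x`.  No exits from `B'`: the same case distinction, the exit point is
  `q.2.2 ∈ B'` (`xd_near`) in the first case, `x ∈ B'` itself in the second.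
-/

set_option autoImplicit false

namespace FDr.HC

open MeasureTheory ProbabilityTheory
open scoped ENNReal

variable {D : ℕ}

theorem kpos_zero (k : KC D) (x : V D) : kpos k x 0 = x := by
  simp [kpos]

theorem kpos_succ (k : KC D) (x : V D) (n : ℕ) : kpos k x (n + 1) = kpos k x n + kv (k (x, n)) := by
  unfold kpos
  rw [Finset.sum_range_succ, ← add_assoc]

theorem bx_fin (n : ℕ) (b : V D) : (Bx n b).Finite := by
  refine (Set.finite_Icc (fun i => b i - (n : ℤ)) (fun i => b i + (n : ℤ))).subset fun v hv => ?_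
  refine ⟨fun i => ?_, fun i => ?_⟩
  · have h1 := (abs_le.1 (hv i)).1
    show b i - (n : ℤ) ≤ v i
    linarith
  · have h1 := (abs_le.1 (hv i)).2
    show v i ≤ b i + (n : ℤ)
    linarith

theorem bx_mono {n m : ℕ} (h : n ≤ m) (b : V D) : Bx n b ⊆ Bx m b := by
  intro v hv i
  exact (hv i).trans (by exact_mod_cast h)

theorem bx_self (n : ℕ) (b : V D) : b ∈ Bx n b := by
  intro i
  rw [sub_self, abs_zero]
  exact Int.natCast_nonneg n

/-- a finite set is a subset of a box -/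
theorem exists_bx (F : Set (V D)) (hF : F.Finite) (b : V D) : ∃ n, F ⊆ Bx n b := by
  obtain ⟨n, hn⟩ := (hF.image fun x : V D => ∑ i, (x i - b i).natAbs).bddAbove
  refine ⟨n, fun x hx i => ?_⟩
  have h1 : ∑ j, (x j - b j).natAbs ≤ n := hn ⟨x, hx, rfl⟩
  have h2 : (x i - b i).natAbs ≤ ∑ j, (x j - b j).natAbs :=
    Finset.single_le_sum (f := fun j => (x j - b j).natAbs) (fun j _ => Nat.zero_le _) (Finset.mem_univ i)
  have h3 : (x i - b i).natAbs ≤ n := h2.trans h1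
  rw [Int.abs_eq_natAbs]
  exact_mod_cast h3

private theorem RB_mem {k : KC D} {B A : Set (V D)} {x : V D} (h : Cb k B A x) : x ∈ B := by
  cases h with
  | start _ _ h2 => exact h2
  | visit x n _ _ h3 => exact h3 n le_rfl

private theorem RB_last {k : KC D} {n : ℕ} {b : V D} {A : Set (V D)} {q : V D × ℕ × V D}
    (h : q ∈ XD k (Bx n b) A) : ∃ (w : V D) (d : Dir D), w ∈ Bx n b ∧ q.2.2 = w + dv d ∧ q.2.2 ∉ Bx n b := by
  obtain ⟨h1, ⟨h2, h3, h4⟩, h5⟩ := h
  obtain ⟨v, m, u⟩ := q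
  simp only at h1 h2 h3 h4 h5 ⊢
  rcases m with _ | m
  · rw [kpos_zero] at h4
    exact absurd (RB_mem h1) h4
  · rw [← h5]
    have h6 := h2 m (Nat.lt_succ_self m)
    obtain ⟨d, hd⟩ := Option.ne_none_iff_exists'.1 h6
    refine ⟨kpos k v m, d, h3 m (Nat.lt_succ_self m), ?_, h4⟩
    rw [kpos_succ, hd]
    rfl

private theorem RB_dv (d : Dir D) (i : Fin D) : |dv d i| ≤ 1 := by
  unfold dv
  by_cases h : i = d.1
  · subst h
    rw [Pi.single_eq_same]
    unfold sg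
    split_ifs <;> simp
  · rw [Pi.single_eq_of_ne h]
    simp

private theorem RB_dv0 (d : Dir D) (i : Fin D) (h : i ≠ d.1) : dv d i = 0 := by
  unfold dv
  rw [Pi.single_eq_of_ne h]

theorem xd_near {k : KC D} {n : ℕ} {b : V D} {A : Set (V D)} {q : V D × ℕ × V D} (h : q ∈ XD k (Bx n b) A) :
    q.2.2 ∈ Bx (n + 1) b := by
  obtain ⟨w, d, h1, h2, -⟩ := RB_last h
  intro i
  rw [h2, Pi.add_apply]
  have h3 := h1 i
  have h4 := RB_dv d i
  have h5 : w i + dv d i - b i = (w i - b i) + dv d i := by ring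
  rw [h5]
  have h6 := abs_add_le (w i - b i) (dv d i)
  push_cast
  linarith

private theorem RB_sg (z : ℤ) : sg (decide (0 ≤ z)) * z = |z| := by
  unfold sg
  by_cases h : 0 ≤ z
  · rw [decide_eq_true h, if_pos rfl, one_mul, abs_of_nonneg h]
  · rw [decide_eq_false h, abs_of_neg (not_le.1 h)]
    simp

theorem xd_pc {k : KC D} {n : ℕ} {b : V D} {A : Set (V D)} {q : V D × ℕ × V D} (h : q ∈ XD k (Bx n b) A) :
    ∃ i σ, q.2.2 ∈ Pc n b i σ := by
  have h0 := xd_near h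
  obtain ⟨w, d, h1, h2, h3⟩ := RB_last h
  have h4 : ∀ j, j ≠ d.1 → |q.2.2 j - b j| ≤ n := by
    intro j hj
    rw [h2, Pi.add_apply, RB_dv0 d j hj, add_zero]
    exact h1 j
  have h5 : |q.2.2 d.1 - b d.1| = (n : ℤ) + 1 := by
    have h6 : ¬ ∀ i, |q.2.2 i - b i| ≤ n := h3
    push Not at h6
    obtain ⟨i, hi⟩ := h6
    by_cases hid : i = d.1
    · subst hid
      have h7 := h0 d.1
      push_cast at h7
      omega
    · exact absurd (h4 i hid) (not_le.2 hi)
  refine ⟨d.1, fun j => decide (0 ≤ q.2.2 j - b j), ?_, fun j => ⟨?_, fun hj => ?_⟩⟩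
  · rw [RB_sg, h5]
  · rw [RB_sg]
    exact abs_nonneg _
  · rw [RB_sg]
    exact h4 j hj

private theorem RB_first {k : KC D} {B : Set (V D)} {x : V D} {n : ℕ} (h : ¬ ∀ i ≤ n, kpos k x i ∈ B) :
    ∃ i ≤ n, kpos k x i ∉ B ∧ ∀ j < i, kpos k x j ∈ B := by
  classical
  push Not at h
  obtain ⟨i, hi, hx⟩ := h
  have hex : ∃ i, kpos k x i ∉ B := ⟨i, hx⟩
  refine ⟨Nat.find hex, (Nat.find_min' hex hx).trans hi, Nat.find_spec hex, fun j hj => ?_⟩
  exact not_not.1 (Nat.find_min hex hj)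

private theorem RB_stay {k : KC D} {B A : Set (V D)} (h : XD k B A = ∅) {x : V D} {n : ℕ} (h1 : Cb k B A x)
    (h2 : kal k x n) : ∀ i ≤ n, kpos k x i ∈ B := by
  by_contra h3
  obtain ⟨i, hi, h4, h5⟩ := RB_first h3
  have h6 : (x, i, kpos k x i) ∈ XD k B A := ⟨h1, ⟨fun j hj => h2 j (lt_of_lt_of_le hj hi), h5, h4⟩, rfl⟩
  rw [h] at h6
  exact h6

theorem xd_empty_mono {k : KC D} {B B' A : Set (V D)} (hB : B ⊆ B') (hA : A ⊆ B) (h : XD k B A = ∅) :
    XD k B' A = ∅ := by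
  have h1 : ∀ x, Cb k B' A x → Cb k B A x := by
    intro x hx
    induction hx with
    | start x h2 _ => exact Cb.start x h2 (hA h2)
    | visit x n _ h3 _ ih => exact Cb.visit x n ih h3 (RB_stay h ih h3)
  refine Set.eq_empty_iff_forall_notMem.2 fun q hq => ?_
  obtain ⟨h2, ⟨h3, -, h4⟩, -⟩ := hq
  exact h4 (hB (RB_stay h (h1 _ h2) h3 _ le_rfl))

theorem inf_exit {k : KC D} {B A : Set (V D)} {a : V D} (hB : B.Finite) (hA : A ⊆ B) (ha : a ∈ A)
    (h : {x | KCl k a x}.Infinite) : XD k B A ≠ ∅ := by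
  intro h0
  have h1 : ∀ x, KCl k a x → Cb k B A x := by
    intro x hx
    induction hx with
    | start => exact Cb.start a ha (hA ha)
    | visit x n _ h3 ih => exact Cb.visit x n ih h3 (RB_stay h0 ih h3)
  exact h (hB.subset fun x hx => RB_mem (h1 x hx))

theorem exits_inf {k : KC D} {a : V D} (h : ∀ m, XD k (Bx m a) {a} ≠ ∅) : {x | KCl k a x}.Infinite := by
  intro hf
  obtain ⟨m, hm⟩ := exists_bx _ hf a
  have h1 : ∀ x, Cb k (Bx m a) {a} x → KCl k a x := by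
    intro x hx
    induction hx with
    | start x h2 _ =>
      rw [Set.mem_singleton_iff.1 h2]
      exact KCl.start
    | visit x n _ h3 _ ih => exact KCl.visit x n ih h3
  obtain ⟨q, h2, ⟨h3, -, h4⟩, -⟩ := Set.nonempty_iff_ne_empty.2 (h m)
  exact h4 (hm (KCl.visit q.1 q.2.1 (h1 _ h2) h3))

theorem die {k : KC D} {n : ℕ} {b : V D} {A : Set (V D)} (hA : A ⊆ Bx n b)
    (h : ∀ q ∈ XD k (Bx n b) A, k (q.1, q.2.1) = none ∧ k (q.2.2, 0) = none) : XD k (Bx (n + 1) b) A = ∅ := by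
  have hx : ∀ (x : V D) (m : ℕ), Cb k (Bx n b) A x → kal k x m → ¬ (∀ i ≤ m, kpos k x i ∈ Bx n b) →
      ∃ q ∈ XD k (Bx n b) A, q.2.2 = kpos k x m := by
    intro x m h1 h2 h3
    obtain ⟨i, hi, h4, h5⟩ := RB_first h3
    have h6 : (x, i, kpos k x i) ∈ XD k (Bx n b) A :=
      ⟨h1, ⟨fun j hj => h2 j (lt_of_lt_of_le hj hi), h5, h4⟩, rfl⟩
    have h7 : i = m := by
      by_contra h8
      exact h2 i (lt_of_le_of_ne hi h8) (h _ h6).1
    exact ⟨_, h6, by rw [h7]⟩
  have h0 : ∀ (x : V D) (m : ℕ), (∃ q ∈ XD k (Bx n b) A, q.2.2 = x) → kal k x m → m = 0 := by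
    rintro x m ⟨q, hq, rfl⟩ h2
    by_contra h3
    exact h2 0 (Nat.pos_of_ne_zero h3) (h q hq).2
  have h1 : ∀ x, Cb k (Bx (n + 1) b) A x → Cb k (Bx n b) A x ∨ ∃ q ∈ XD k (Bx n b) A, q.2.2 = x := by
    intro x hx1
    induction hx1 with
    | start x h2 _ => exact Or.inl (Cb.start x h2 (hA h2))
    | visit x m _ h3 _ ih =>
      rcases ih with ih | ih
      · by_cases h4 : ∀ i ≤ m, kpos k x i ∈ Bx n b
        · exact Or.inl (Cb.visit x m ih h3 h4)
        · exact Or.inr (hx x m ih h3 h4)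
      · have h4 := h0 x m ih h3
        rw [h4, kpos_zero]
        exact Or.inr ih
  refine Set.eq_empty_iff_forall_notMem.2 fun q hq => ?_
  obtain ⟨h2, ⟨h3, -, h4⟩, -⟩ := hq
  rcases h1 _ h2 with h5 | h5
  · have h6 : ¬ ∀ i ≤ q.2.1, kpos k q.1 i ∈ Bx n b := fun h7 =>
      h4 (bx_mono (Nat.le_succ n) b (h7 _ le_rfl))
    obtain ⟨q', hq', h8⟩ := hx _ _ h5 h3 h6
    rw [← h8] at h4
    exact h4 (xd_near hq')
  · have h6 := h0 _ _ h5 h3
    rw [h6, kpos_zero] at h4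
    obtain ⟨q', hq', h8⟩ := h5
    rw [← h8] at h4
    exact h4 (xd_near hq')

end FDr.HC
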