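import Pool.Agent.Lib.MP_e029a2_pr.HC.RA
import Pool.Agent.Lib.MP_e029a2_pr.HC.RB

/-!
# Symmetries (job RC)

* `sy_pres`: `s.T` is the composition of the reindexing by the injection `p ↦ (s.g.symm p.1, p.2)` (`FDr.map_inj` in `SInd.lean`) and of the map
  `Option.map s.g'` in every coordinate, which preserves `kLaw w D` (`kLaw_one`; the weight `kwt` is the same for all `some d`); look in Mathlib
  `Mathlib/Probability/ProductMeasure.lean` for the image of `Measure.infinitePi` under coordinatewise maps.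
* `sy_kpos`: induction on `n` with `kpos_succ`, `s.h`; `kv none = 0`.
* `sy_xd`: one implication suffices if it is proved for all `s`: the inverse symmetry `⟨s.g.symm, s.g'.symm, _⟩` undoes `s`.
* `sy_nx`: `Set.ncard_image_of_injective` for `q ↦ (s.g q.1, q.2.1, s.g q.2.2)`.
* `tr_sy`: the translation by `b`, `g' = id`.
* `pc_sy`: `(g x) j = t j * x (π j)` with `π = Equiv.swap i i'`, `t j = ± 1` such that `t j * sg (σ (π j)) = sg (σ' j)`; `g' (j, e) = (π j, _)`
  (`π = π⁻¹`; the bit is `e` if `t (π j) = 1`, `!e` if `t (π j) = -1`).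
* the consequences: `s.T` is measure preserving (`MeasurePreserving.measure_preimage` with the measurability from `xd_prop_meas`, `kcl_inf_meas`).
-/

set_option autoImplicit false

namespace FDr.HC

open MeasureTheory ProbabilityTheory
open scoped ENNReal

variable {D : ℕ}

private theorem RC_law [NeZero D] (f : Dir D ≃ Dir D) (w : Set.Ioo (0 : ℝ) 1) :
    (kLaw w D).map (Option.map f) = kLaw w D := by
  refine Measure.ext_of_singleton fun o => ?_
  rw [Measure.map_apply measurable_from_top (measurableSet_singleton o)]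
  cases o with
  | none =>
    have h1 : Option.map f ⁻¹' {none} = {none} := by
      ext o
      simp only [Set.mem_preimage, Set.mem_singleton_iff, Option.map_eq_none_iff]
    rw [h1]
  | some d =>
    have h1 : Option.map f ⁻¹' {some d} = {some (f.symm d)} := by
      ext o
      simp only [Set.mem_preimage, Set.mem_singleton_iff]
      cases o with
      | none => simp
      | some e =>
        simp only [Option.map_some, Option.some.injEq]
        exact ⟨fun h => by rw [← h, Equiv.symm_apply_apply], fun h => by rw [h, Equiv.apply_symm_apply]⟩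
    rw [h1, kLaw_one, kLaw_one]
    rfl

theorem sy_pres [NeZero D] (s : Sy D) (w : Set.Ioo (0 : ℝ) 1) : MeasurePreserving s.T (KQ w D) (KQ w D) := by
  have he : Function.Injective fun p : V D × ℕ => (s.g.symm p.1, p.2) := by
    intro p q h
    obtain ⟨h1, h2⟩ := Prod.mk.inj h
    exact Prod.ext (s.g.symm.injective h1) h2
  have hm1 : Measurable fun (c : KC D) (p : V D × ℕ) => c (s.g.symm p.1, p.2) :=
    measurable_pi_lambda _ fun p => measurable_pi_apply _
  have hf : Measurable (Option.map s.g' : Option (Dir D) → Option (Dir D)) := measurable_from_top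
  have hm2 : Measurable fun (c : KC D) (p : V D × ℕ) => Option.map s.g' (c p) :=
    measurable_pi_lambda _ fun p => hf.comp (measurable_pi_apply p)
  have hT : s.T = (fun (c : KC D) (p : V D × ℕ) => Option.map s.g' (c p)) ∘
      (fun (c : KC D) (p : V D × ℕ) => c (s.g.symm p.1, p.2)) := rfl
  refine ⟨hT ▸ hm2.comp hm1, ?_⟩
  rw [hT, ← Measure.map_map hm2 hm1]
  have h1 : (KQ w D).map (fun (c : KC D) (p : V D × ℕ) => c (s.g.symm p.1, p.2)) = KQ w D :=
    map_inj (kLaw w D) _ he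
  rw [h1]
  have h2 : (KQ w D).map (fun (c : KC D) (p : V D × ℕ) => Option.map s.g' (c p)) =
      Measure.infinitePi fun _ : V D × ℕ => (kLaw w D).map (Option.map s.g') :=
    Measure.infinitePi_map_pi (μ := fun _ : V D × ℕ => kLaw w D) fun _ => hf
  rw [h2, RC_law]
  rfl

private theorem RC_T (s : Sy D) (k : KC D) (x : V D) (n : ℕ) : s.T k (s.g x, n) = (k (x, n)).map s.g' := by
  show (k (s.g.symm (s.g x), n)).map s.g' = _
  rw [Equiv.symm_apply_apply]

theorem sy_kpos (s : Sy D) (k : KC D) (x : V D) (n : ℕ) : kpos (s.T k) (s.g x) n = s.g (kpos k x n) := by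
  induction n with
  | zero => rw [kpos_zero, kpos_zero]
  | succ n ih =>
    rw [kpos_succ, kpos_succ, ih, RC_T]
    cases k (x, n) with
    | none =>
      show s.g (kpos k x n) + 0 = s.g (kpos k x n + 0)
      rw [add_zero, add_zero]
    | some d => exact (s.h _ d).symm

private theorem RC_kal {s : Sy D} {k : KC D} {x : V D} {n : ℕ} (h : kal k x n) : kal (s.T k) (s.g x) n := by
  intro j hj h1
  rw [RC_T, Option.map_eq_none_iff] at h1
  exact h j hj h1

/-- the inverse symmetry -/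
private def RC_inv (s : Sy D) : Sy D where
  g := s.g.symm
  g' := s.g'.symm
  h := fun x d => by
    rw [Equiv.symm_apply_eq, s.h, Equiv.apply_symm_apply, Equiv.apply_symm_apply]

private theorem RC_inv_T (s : Sy D) (k : KC D) : (RC_inv s).T (s.T k) = k := by
  funext p
  show ((k (s.g.symm (s.g.symm.symm p.1), p.2)).map s.g').map s.g'.symm = k p
  rw [Equiv.symm_symm, Equiv.symm_apply_apply, Option.map_map, Equiv.symm_comp_self, Option.map_id, id]

private theorem RC_cb {s : Sy D} {k : KC D} {B A : Set (V D)} {x : V D} (h : Cb k B A x) :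
    Cb (s.T k) (s.g '' B) (s.g '' A) (s.g x) := by
  induction h with
  | start x h1 h2 => exact Cb.start _ (Set.mem_image_of_mem _ h1) (Set.mem_image_of_mem _ h2)
  | visit x n _ h1 h2 ih =>
    rw [← sy_kpos]
    refine Cb.visit _ n ih (RC_kal h1) fun i hi => ?_
    rw [sy_kpos]
    exact Set.mem_image_of_mem _ (h2 i hi)

private theorem RC_xd (s : Sy D) {k : KC D} {B A : Set (V D)} {q : V D × ℕ × V D} (h : q ∈ XD k B A) :
    (s.g q.1, q.2.1, s.g q.2.2) ∈ XD (s.T k) (s.g '' B) (s.g '' A) := by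
  obtain ⟨h1, ⟨h2, h3, h4⟩, h5⟩ := h
  refine ⟨RC_cb h1, ⟨RC_kal h2, fun i hi => ?_, ?_⟩, ?_⟩
  · show kpos (s.T k) (s.g q.1) i ∈ s.g '' B
    rw [sy_kpos]
    exact Set.mem_image_of_mem _ (h3 i hi)
  · show kpos (s.T k) (s.g q.1) q.2.1 ∉ s.g '' B
    rw [sy_kpos]
    rintro ⟨y, hy, he⟩
    rw [s.g.injective he] at hy
    exact h4 hy
  · show kpos (s.T k) (s.g q.1) q.2.1 = s.g q.2.2
    rw [sy_kpos, h5]

theorem sy_xd (s : Sy D) (k : KC D) (B A : Set (V D)) (q : V D × ℕ × V D) :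
    (s.g q.1, q.2.1, s.g q.2.2) ∈ XD (s.T k) (s.g '' B) (s.g '' A) ↔ q ∈ XD k B A := by
  refine ⟨fun h => ?_, RC_xd s⟩
  have h1 := RC_xd (RC_inv s) h
  have h2 : (s.g.symm (s.g q.1), q.2.1, s.g.symm (s.g q.2.2)) ∈
      XD ((RC_inv s).T (s.T k)) (s.g.symm '' (s.g '' B)) (s.g.symm '' (s.g '' A)) := h1
  rw [RC_inv_T, Equiv.symm_image_image, Equiv.symm_image_image, Equiv.symm_apply_apply,
    Equiv.symm_apply_apply] at h2
  exact h2

theorem sy_nx (s : Sy D) (k : KC D) (B A P : Set (V D)) : Nx (s.T k) (s.g '' B) (s.g '' A) (s.g '' P) = Nx k B A P := by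
  have hinj : Function.Injective fun q : V D × ℕ × V D => (s.g q.1, q.2.1, s.g q.2.2) := by
    rintro ⟨a, n, b⟩ ⟨a', n', b'⟩ h
    obtain ⟨h1, h2⟩ := Prod.mk.inj h
    obtain ⟨h3, h4⟩ := Prod.mk.inj h2
    exact Prod.ext (s.g.injective h1) (Prod.ext h3 (s.g.injective h4))
  unfold Nx
  rw [← Set.ncard_image_of_injective {q | q ∈ XD k B A ∧ q.2.2 ∈ P} hinj]
  refine congrArg Set.ncard ?_
  ext q
  constructor
  · rintro ⟨h1, y, hy, h2⟩
    obtain ⟨a, n, b⟩ := q
    have h3 : s.g y = b := h2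
    subst h3
    have h4 : a = s.g (s.g.symm a) := (Equiv.apply_symm_apply _ _).symm
    rw [h4] at h1 ⊢
    exact ⟨(s.g.symm a, n, y), ⟨(sy_xd s k B A (s.g.symm a, n, y)).1 h1, hy⟩, rfl⟩
  · rintro ⟨q', ⟨h1, h2⟩, rfl⟩
    exact ⟨(sy_xd s k B A q').2 h1, Set.mem_image_of_mem _ h2⟩

private theorem RC_kcl {s : Sy D} {k : KC D} {a x : V D} (h : KCl k a x) : KCl (s.T k) (s.g a) (s.g x) := by
  induction h with
  | start => exact KCl.start
  | visit x n _ h1 ih =>
    rw [← sy_kpos]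
    exact KCl.visit _ n ih (RC_kal h1)

theorem sy_inf (s : Sy D) (k : KC D) (a : V D) :
    {x | KCl (s.T k) (s.g a) x}.Infinite ↔ {x | KCl k a x}.Infinite := by
  have h1 : {x | KCl (s.T k) (s.g a) x} = s.g '' {x | KCl k a x} := by
    ext x
    constructor
    · intro h
      have h2 : KCl ((RC_inv s).T (s.T k)) (s.g.symm (s.g a)) (s.g.symm x) := RC_kcl (s := RC_inv s) h
      rw [RC_inv_T, Equiv.symm_apply_apply] at h2
      exact ⟨s.g.symm x, h2, Equiv.apply_symm_apply _ _⟩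
    · rintro ⟨y, hy, rfl⟩
      exact RC_kcl hy
  rw [h1, Set.infinite_image_iff s.g.injective.injOn]

theorem tr_sy (b : V D) : ∃ s : Sy D, ∀ x, s.g x = x + b :=
  ⟨⟨Equiv.addRight b, Equiv.refl _, fun x d => by
    show x + dv d + b = x + b + dv d
    rw [add_right_comm]⟩, fun _ => rfl⟩

private theorem RC_image {g : V D ≃ V D} {B B' : Set (V D)} (h : ∀ x, g x ∈ B' ↔ x ∈ B) : g '' B = B' := by
  ext y
  constructor
  · rintro ⟨x, hx, rfl⟩
    exact (h x).2 hx
  · intro hy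
    refine ⟨g.symm y, ?_, g.apply_symm_apply y⟩
    rw [← h, g.apply_symm_apply]
    exact hy

private theorem RC_sg (a b : Bool) : sg (a == b) = sg a * sg b := by
  cases a <;> cases b <;> rfl

private theorem RC_sg2 (a : Bool) : sg a * sg a = 1 := by
  cases a <;> rfl

private theorem RC_bb (a b : Bool) : (a == (a == b)) = b := by
  cases a <;> cases b <;> rfl

private theorem RC_abs (a : Bool) (z : ℤ) : |sg a * z| = |z| := by
  cases a
  · show |(-1) * z| = |z|
    rw [neg_one_mul, abs_neg]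
  · show |1 * z| = |z|
    rw [one_mul]

/-- signed permutation of the coordinates -/
private def RC_sp (π : Equiv.Perm (Fin D)) (hπ : ∀ j, π (π j) = j) (t : Fin D → Bool) : Sy D where
  g := {
    toFun := fun x j => sg (t j) * x (π j)
    invFun := fun y j => sg (t (π j)) * y (π j)
    left_inv := fun x => by
      funext j
      show sg (t (π j)) * (sg (t (π j)) * x (π (π j))) = x j
      rw [← mul_assoc, RC_sg2, one_mul, hπ]
    right_inv := fun y => by
      funext j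
      show sg (t j) * (sg (t (π (π j))) * y (π (π j))) = y j
      rw [hπ, ← mul_assoc, RC_sg2, one_mul] }
  g' := {
    toFun := fun d => (π d.1, t (π d.1) == d.2)
    invFun := fun d => (π d.1, t d.1 == d.2)
    left_inv := fun d => by
      obtain ⟨j, e⟩ := d
      show (π (π j), t (π j) == (t (π j) == e)) = (j, e)
      rw [hπ, RC_bb]
    right_inv := fun d => by
      obtain ⟨j, e⟩ := d
      show (π (π j), t (π (π j)) == (t j == e)) = (j, e)
      rw [hπ, RC_bb] }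
  h := fun x d => by
    obtain ⟨j, e⟩ := d
    funext l
    show sg (t l) * (x (π l) + (Pi.single j (sg e) : Fin D → ℤ) (π l)) =
      sg (t l) * x (π l) + (Pi.single (π j) (sg (t (π j) == e)) : Fin D → ℤ) l
    rw [mul_add, RC_sg]
    by_cases hl : l = π j
    · subst hl
      rw [hπ, Pi.single_eq_same, Pi.single_eq_same]
    · have h1 : π l ≠ j := fun h => hl (by rw [← h, hπ])
      rw [Pi.single_eq_of_ne h1, Pi.single_eq_of_ne hl, mul_zero]

theorem pc_sy (i i' : Fin D) (σ σ' : Fin D → Bool) :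
    ∃ s : Sy D, (∀ n, s.g '' Bx n 0 = Bx n 0) ∧ ∀ n, s.g '' Pc n 0 i σ = Pc n 0 i' σ' := by
  have hπ : ∀ j, Equiv.swap i i' (Equiv.swap i i' j) = j := fun j => Equiv.swap_apply_self i i' j
  refine ⟨RC_sp (Equiv.swap i i') hπ (fun j => σ' j == σ (Equiv.swap i i' j)), fun n => ?_, fun n => ?_⟩
  · refine RC_image fun x => ?_
    show (∀ j, |sg (σ' j == σ (Equiv.swap i i' j)) * x (Equiv.swap i i' j) - 0| ≤ (n : ℤ)) ↔ ∀ j, |x j - 0| ≤ (n : ℤ)
    constructor
    · intro h j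
      have h1 := h (Equiv.swap i i' j)
      rw [hπ, sub_zero, RC_abs] at h1
      rw [sub_zero]
      exact h1
    · intro h j
      rw [sub_zero, RC_abs]
      have h1 := h (Equiv.swap i i' j)
      rw [sub_zero] at h1
      exact h1
  · refine RC_image fun x => ?_
    have key : ∀ j, sg (σ' j) * (sg (σ' j == σ (Equiv.swap i i' j)) * x (Equiv.swap i i' j) - 0) =
        sg (σ (Equiv.swap i i' j)) * (x (Equiv.swap i i' j) - 0) := by
      intro j
      rw [RC_sg, sub_zero, sub_zero, ← mul_assoc, ← mul_assoc, RC_sg2, one_mul]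
    show (sg (σ' i') * (sg (σ' i' == σ (Equiv.swap i i' i')) * x (Equiv.swap i i' i') - 0) = (n : ℤ) + 1 ∧
      ∀ j, 0 ≤ sg (σ' j) * (sg (σ' j == σ (Equiv.swap i i' j)) * x (Equiv.swap i i' j) - 0) ∧
        (j ≠ i' → sg (σ' j) * (sg (σ' j == σ (Equiv.swap i i' j)) * x (Equiv.swap i i' j) - 0) ≤ (n : ℤ))) ↔
      (sg (σ i) * (x i - 0) = (n : ℤ) + 1 ∧
      ∀ j, 0 ≤ sg (σ j) * (x j - 0) ∧ (j ≠ i → sg (σ j) * (x j - 0) ≤ (n : ℤ)))
    have k1 := key i'
    rw [Equiv.swap_apply_right] at k1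
    rw [Equiv.swap_apply_right, k1]
    simp only [key]
    refine and_congr Iff.rfl ⟨fun h j => ?_, fun h j => ?_⟩
    · obtain ⟨h1, h2⟩ := h (Equiv.swap i i' j)
      rw [hπ] at h1 h2
      refine ⟨h1, fun hj => h2 fun hj' => hj ?_⟩
      rw [← hπ j, hj', Equiv.swap_apply_right]
    · obtain ⟨h1, h2⟩ := h (Equiv.swap i i' j)
      refine ⟨h1, fun hj => h2 fun hj' => hj ?_⟩
      rw [← hπ j, hj', Equiv.swap_apply_left]

private theorem RC_tr_bx {s : Sy D} {b : V D} (hs : ∀ x, s.g x = x + b) (n : ℕ) : s.g '' Bx n 0 = Bx n b := by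
  refine RC_image fun x => ?_
  rw [hs]
  show (∀ i, |x i + b i - b i| ≤ (n : ℤ)) ↔ ∀ i, |x i - 0| ≤ (n : ℤ)
  simp only [add_sub_cancel_right, sub_zero]

private theorem RC_tr_pc {s : Sy D} {b : V D} (hs : ∀ x, s.g x = x + b) (n : ℕ) (i : Fin D) (σ : Fin D → Bool) :
    s.g '' Pc n 0 i σ = Pc n b i σ := by
  refine RC_image fun x => ?_
  rw [hs]
  show (sg (σ i) * (x i + b i - b i) = (n : ℤ) + 1 ∧
      ∀ j, 0 ≤ sg (σ j) * (x j + b j - b j) ∧ (j ≠ i → sg (σ j) * (x j + b j - b j) ≤ (n : ℤ))) ↔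
      (sg (σ i) * (x i - 0) = (n : ℤ) + 1 ∧
      ∀ j, 0 ≤ sg (σ j) * (x j - 0) ∧ (j ≠ i → sg (σ j) * (x j - 0) ≤ (n : ℤ)))
  simp only [add_sub_cancel_right, sub_zero]

private theorem RC_nx_meas (n r : ℕ) (b : V D) (P : Set (V D)) (p : ℕ → Prop) :
    MeasurableSet {k : KC D | p (Nx k (Bx n b) (Bx r b) P)} :=
  xd_prop_meas (Bx n b) (Bx r b) (bx_fin n b) fun E => p {q | q ∈ E ∧ q.2.2 ∈ P}.ncard

variable [NeZero D]

theorem nx_tr (w : Set.Ioo (0 : ℝ) 1) (n r : ℕ) (b : V D) (p : ℕ → Prop) :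
    KQ w D {k | p (Nx k (Bx n b) (Bx r b) Set.univ)} = KQ w D {k | p (Nx k (Bx n 0) (Bx r 0) Set.univ)} := by
  obtain ⟨s, hs⟩ := tr_sy b
  rw [← (sy_pres s w).measure_preimage (RC_nx_meas n r b Set.univ p).nullMeasurableSet]
  refine congrArg _ (Set.ext fun k => ?_)
  show p (Nx (s.T k) (Bx n b) (Bx r b) Set.univ) ↔ p (Nx k (Bx n 0) (Bx r 0) Set.univ)
  have h1 := sy_nx s k (Bx n 0) (Bx r 0) Set.univ
  rw [RC_tr_bx hs, RC_tr_bx hs, Set.image_univ_of_surjective s.g.surjective] at h1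
  rw [h1]

theorem nx_pc (w : Set.Ioo (0 : ℝ) 1) (n r : ℕ) (b : V D) (i i' : Fin D) (σ σ' : Fin D → Bool) (p : ℕ → Prop) :
    KQ w D {k | p (Nx k (Bx n b) (Bx r b) (Pc n b i σ))} =
      KQ w D {k | p (Nx k (Bx n 0) (Bx r 0) (Pc n 0 i' σ'))} := by
  obtain ⟨s, hs⟩ := tr_sy b
  obtain ⟨s', h2, h3⟩ := pc_sy i i' σ σ'
  rw [← (sy_pres s w).measure_preimage (RC_nx_meas n r b (Pc n b i σ) p).nullMeasurableSet,
    ← (sy_pres s' w).measure_preimage (RC_nx_meas n r 0 (Pc n 0 i' σ') p).nullMeasurableSet]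
  refine congrArg _ (Set.ext fun k => ?_)
  show p (Nx (s.T k) (Bx n b) (Bx r b) (Pc n b i σ)) ↔ p (Nx (s'.T k) (Bx n 0) (Bx r 0) (Pc n 0 i' σ'))
  have h1 := sy_nx s k (Bx n 0) (Bx r 0) (Pc n 0 i σ)
  rw [RC_tr_bx hs, RC_tr_bx hs, RC_tr_pc hs] at h1
  have h4 := sy_nx s' k (Bx n 0) (Bx r 0) (Pc n 0 i σ)
  rw [h2, h2, h3] at h4
  rw [h1, h4]

theorem surv_tr (w : Set.Ioo (0 : ℝ) 1) (a : V D) : KQ w D {k | {x | KCl k a x}.Infinite} = ksv w D := by
  obtain ⟨s, hs⟩ := tr_sy a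
  rw [← (sy_pres s w).measure_preimage (kcl_inf_meas a).nullMeasurableSet]
  unfold ksv
  refine congrArg _ (Set.ext fun k => ?_)
  show {x | KCl (s.T k) a x}.Infinite ↔ {x | KCl k 0 x}.Infinite
  have h1 := sy_inf s k 0
  rw [hs, zero_add] at h1
  exact h1

theorem xdne_tr (w : Set.Ioo (0 : ℝ) 1) (n : ℕ) (a : V D) :
    KQ w D {k | XD k (Bx n a) {a} ≠ ∅} = KQ w D {k | XD k (Bx n 0) {0} ≠ ∅} := by
  obtain ⟨s, hs⟩ := tr_sy a
  rw [← (sy_pres s w).measure_preimage
    (xd_prop_meas (Bx n a) {a} (bx_fin n a) fun E => E ≠ ∅).nullMeasurableSet]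
  refine congrArg _ (Set.ext fun k => ?_)
  show XD (s.T k) (Bx n a) {a} ≠ ∅ ↔ XD k (Bx n 0) {0} ≠ ∅
  have h1 := sy_xd s k (Bx n 0) {0}
  rw [RC_tr_bx hs, Set.image_singleton, hs, zero_add] at h1
  rw [← Set.nonempty_iff_ne_empty, ← Set.nonempty_iff_ne_empty]
  constructor
  · rintro ⟨q, hq⟩
    refine ⟨(s.g.symm q.1, q.2.1, s.g.symm q.2.2), (h1 _).1 ?_⟩
    show (s.g (s.g.symm q.1), q.2.1, s.g (s.g.symm q.2.2)) ∈ _
    rw [Equiv.apply_symm_apply, Equiv.apply_symm_apply]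
    exact hq
  · rintro ⟨q, hq⟩
    exact ⟨_, (h1 q).2 hq⟩

end FDr.HC
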