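import Pool.Agent.Lib.MP_e029a2_pr.HC.RA
import Pool.Agent.Lib.MP_e029a2_pr.HC.RB
import Pool.Agent.Lib.MP_e029a2_pr.CO.Prod

/-!
# There are no exits or many exits (job RE)

* `part`: the countable partition by the value of the exits (they are finite sets: `xd_fin`; `f k = (xd_fin ..).toFinset` is a measurable function into the countable
  type `Finset (V D × ℕ × V D)` by `xd_prop_meas`; or `measure_iUnion` directly).
* `die_one`: let `E` be finite with `KQ {XD = E} ≠ 0` (otherwise trivial; so `E` is the set of the exits of some `k0`).  The cells `C = {(q.1, q.2.1)} ∪ {(q.2.2, 0)}`,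
  `q ∈ E`, are not in `Sc (Bx n b) E` (`q.2.2 ∉ Bx n b`), there are at most `2 M` of them, and if `k p = none` for all `p ∈ C` then `XD k (Bx (n + 1) b) A = ∅` (`die`).
  Independence: `prod_and_dep` with `xd_data`, `xd_eq_meas`; `KQ {∀ p ∈ C, k p = none} = w ^ C.card` by `CO.prod_dep` with `T p = {p}` and `map_eval`
  (`kLaw_one`).
* `few_exits`: `a n = KQ {XD k (Bx n 0) (Bx r 0) = ∅}` for `n ≥ r` is monotone (`xd_empty_mono`) with values in `[0, 1]`, and
  `a n + w ^ (2 M) * KQ {XD ≠ ∅, ncard < M} ≤ a (n + 1)` (sum `die_one` over `E` with `part`).  So the probability tends to zero.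
-/

set_option autoImplicit false

namespace FDr.HC

open MeasureTheory ProbabilityTheory
open scoped ENNReal

variable {D : ℕ} [NeZero D]

theorem part (w : Set.Ioo (0 : ℝ) 1) (B A : Set (V D)) (hB : B.Finite) (p : KC D → Prop) (hp : MeasurableSet {k | p k}) :
    KQ w D {k | p k} = ∑' E : Finset (V D × ℕ × V D), KQ w D {k | p k ∧ XD k B A = (E : Set (V D × ℕ × V D))} := by
  have h1 : {k : KC D | p k} = ⋃ E : Finset (V D × ℕ × V D),
      {k | p k ∧ XD k B A = (E : Set (V D × ℕ × V D))} := by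
    ext k
    simp only [Set.mem_ofPred_eq, Set.mem_iUnion]
    constructor
    · intro hk
      exact ⟨(xd_fin (A := A) hB).toFinset, hk, by rw [Set.Finite.coe_toFinset]⟩
    · rintro ⟨E, hk, -⟩
      exact hk
  rw [h1, measure_iUnion]
  · intro E E' hE
    refine Set.disjoint_left.2 fun k hk hk' => hE ?_
    have h2 : (E : Set (V D × ℕ × V D)) = E' := by
      rw [← hk.2, ← hk'.2]
    exact Finset.coe_injective h2
  · intro E
    exact hp.inter (xd_eq_meas B A _)

private theorem re_one (w : Set.Ioo (0 : ℝ) 1) (p : V D × ℕ) :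
    KQ w D {k : KC D | k p = none} = ENNReal.ofReal w := by
  have h1 : KQ w D {k : KC D | k p = none} = ((KQ w D).map fun k : KC D => k p) {none} := by
    rw [Measure.map_apply (measurable_pi_apply p) (measurableSet_singleton _)]
    rfl
  have h2 : (KQ w D).map (fun k : KC D => k p) = kLaw w D :=
    map_eval (ι := V D × ℕ) (kLaw w D) p
  rw [h1, h2, kLaw_one]
  rfl

private theorem re_all (w : Set.Ioo (0 : ℝ) 1) (C : Finset (V D × ℕ)) :
    KQ w D {k : KC D | ∀ p ∈ C, k p = none} = ENNReal.ofReal w ^ C.card := by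
  have h1 := CO.prod_dep (ι := V D × ℕ) (κ := V D × ℕ) (kLaw w D) C (fun p => {p})
    (fun p _ => Set.finite_singleton p)
    (fun p _ p' _ h => Set.disjoint_singleton.2 h) (fun p k => k p = none)
    (fun p _ c c' h => by
      have h2 : c p = c' p := h p rfl
      show (c p = none) = (c' p = none)
      rw [h2])
  have h3 : KQ w D {k : KC D | ∀ p ∈ C, k p = none} =
      ∏ p ∈ C, KQ w D {k : KC D | k p = none} := h1
  rw [h3, Finset.prod_congr rfl fun p _ => re_one w p, Finset.prod_const]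

theorem die_one (w : Set.Ioo (0 : ℝ) 1) (n : ℕ) (b : V D) (A : Set (V D)) (hA : A ⊆ Bx n b)
    (E : Finset (V D × ℕ × V D)) (M : ℕ) (hE : E.card ≤ M) :
    ENNReal.ofReal ((w : ℝ) ^ (2 * M)) * KQ w D {k | XD k (Bx n b) A = (E : Set (V D × ℕ × V D))} ≤
      KQ w D {k | XD k (Bx n b) A = (E : Set (V D × ℕ × V D)) ∧ XD k (Bx (n + 1) b) A = ∅} := by
  classical
  by_cases h0 : ∃ k0 : KC D, XD k0 (Bx n b) A = (E : Set (V D × ℕ × V D))
  · obtain ⟨k0, hk0⟩ := h0
    set C : Finset (V D × ℕ) := E.image (fun q => (q.1, q.2.1)) ∪ E.image (fun q => (q.2.2, 0))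
      with hC
    have hcard : C.card ≤ 2 * M := by
      have h1 := Finset.card_union_le (E.image fun q => (q.1, q.2.1)) (E.image fun q => (q.2.2, 0))
      have h2 := Finset.card_image_le (s := E) (f := fun q : V D × ℕ × V D => (q.1, q.2.1))
      have h3 := Finset.card_image_le (s := E) (f := fun q : V D × ℕ × V D => (q.2.2, (0 : ℕ)))
      rw [← hC] at h1
      omega
    have hdis : Disjoint (Sc (Bx n b) (E : Set (V D × ℕ × V D))) (C : Set (V D × ℕ)) := by
      refine Set.disjoint_left.2 fun p hp hpC => ?_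
      have hpC' : p ∈ C := hpC
      rw [hC, Finset.mem_union, Finset.mem_image, Finset.mem_image] at hpC'
      rcases hpC' with ⟨q, hq, rfl⟩ | ⟨q, hq, rfl⟩
      · exact lt_irrefl _ (hp.2 q hq rfl)
      · have h1 : q ∈ XD k0 (Bx n b) A := by
          rw [hk0]
          exact hq
        have h2 := h1.2.1.2.2
        rw [h1.2.2] at h2
        exact h2 hp.1
    have hdep' : Dep (C : Set (V D × ℕ)) (fun k : KC D => ∀ p ∈ C, k p = none) := by
      intro c c' hc
      refine propext (forall₂_congr fun p hp => ?_)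
      rw [hc p hp]
    have h1 := prob_and_dep (kLaw w D) hdis (xd_eq_meas (Bx n b) A (E : Set (V D × ℕ × V D)))
      (Dep.measurableSet C.finite_toSet hdep') (xd_data (Bx n b) A (E : Set (V D × ℕ × V D))) hdep'
    have h2 : KQ w D {k : KC D | XD k (Bx n b) A = (E : Set (V D × ℕ × V D)) ∧
        ∀ p ∈ C, k p = none} = KQ w D {k : KC D | XD k (Bx n b) A = (E : Set (V D × ℕ × V D))} *
        KQ w D {k : KC D | ∀ p ∈ C, k p = none} := h1
    rw [re_all] at h2
    have h3 : ENNReal.ofReal ((w : ℝ) ^ (2 * M)) ≤ ENNReal.ofReal w ^ C.card := by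
      rw [ENNReal.ofReal_pow w.2.1.le]
      exact pow_le_pow_right_of_le_one' (ENNReal.ofReal_le_one.2 w.2.2.le) hcard
    calc ENNReal.ofReal ((w : ℝ) ^ (2 * M)) *
          KQ w D {k | XD k (Bx n b) A = (E : Set (V D × ℕ × V D))}
        ≤ ENNReal.ofReal w ^ C.card * KQ w D {k | XD k (Bx n b) A = (E : Set (V D × ℕ × V D))} :=
          mul_le_mul_left h3 _
      _ = KQ w D {k : KC D | XD k (Bx n b) A = (E : Set (V D × ℕ × V D)) ∧
          ∀ p ∈ C, k p = none} := by rw [h2, mul_comm]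
      _ ≤ _ := by
        refine measure_mono ?_
        rintro k ⟨hk, hk'⟩
        refine ⟨hk, die hA fun q hq => ?_⟩
        rw [hk] at hq
        have hq' : q ∈ E := hq
        constructor
        · apply hk'
          rw [hC]
          exact Finset.mem_union_left _ (Finset.mem_image_of_mem _ hq')
        · apply hk'
          rw [hC]
          exact Finset.mem_union_right _ (Finset.mem_image.2 ⟨q, hq', rfl⟩)
  · have h1 : {k : KC D | XD k (Bx n b) A = (E : Set (V D × ℕ × V D))} = ∅ := by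
      refine Set.eq_empty_of_forall_notMem fun k hk => h0 ⟨k, hk⟩
    rw [h1, measure_empty, mul_zero]
    exact zero_le

private theorem re_step (w : Set.Ioo (0 : ℝ) 1) (r M n : ℕ) (hn : r ≤ n) :
    KQ w D {k : KC D | XD k (Bx n 0) (Bx r 0) = ∅} + ENNReal.ofReal ((w : ℝ) ^ (2 * M)) *
      KQ w D {k : KC D | XD k (Bx n 0) (Bx r 0) ≠ ∅ ∧ (XD k (Bx n 0) (Bx r 0)).ncard < M} ≤
      KQ w D {k : KC D | XD k (Bx (n + 1) 0) (Bx r 0) = ∅} := by
  have hB : (Bx n (0 : V D)).Finite := bx_fin n 0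
  have hB' : (Bx (n + 1) (0 : V D)).Finite := bx_fin (n + 1) 0
  have hA : Bx r (0 : V D) ⊆ Bx n 0 := bx_mono hn 0
  have hm1 : MeasurableSet {k : KC D | XD k (Bx n 0) (Bx r 0) ≠ ∅ ∧
      (XD k (Bx n 0) (Bx r 0)).ncard < M} :=
    xd_prop_meas (Bx n 0) (Bx r 0) hB fun X => X ≠ ∅ ∧ X.ncard < M
  have hm2 : MeasurableSet {k : KC D | XD k (Bx (n + 1) 0) (Bx r 0) = ∅} :=
    xd_eq_meas (Bx (n + 1) 0) (Bx r 0) ∅
  have hm3 : MeasurableSet {k : KC D | (XD k (Bx n 0) (Bx r 0) ≠ ∅ ∧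
      (XD k (Bx n 0) (Bx r 0)).ncard < M) ∧ XD k (Bx (n + 1) 0) (Bx r 0) = ∅} := hm1.inter hm2
  have key : ENNReal.ofReal ((w : ℝ) ^ (2 * M)) *
      KQ w D {k : KC D | XD k (Bx n 0) (Bx r 0) ≠ ∅ ∧ (XD k (Bx n 0) (Bx r 0)).ncard < M} ≤
      KQ w D {k : KC D | (XD k (Bx n 0) (Bx r 0) ≠ ∅ ∧
        (XD k (Bx n 0) (Bx r 0)).ncard < M) ∧ XD k (Bx (n + 1) 0) (Bx r 0) = ∅} := by
    rw [part w (Bx n 0) (Bx r 0) hB _ hm1, part w (Bx n 0) (Bx r 0) hB _ hm3,
      ← ENNReal.tsum_mul_left]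
    refine ENNReal.tsum_le_tsum fun E => ?_
    by_cases hE : (E : Set (V D × ℕ × V D)) ≠ ∅ ∧ (E : Set (V D × ℕ × V D)).ncard < M
    · have hcard : E.card ≤ M := by
        have h1 := hE.2
        rw [Set.ncard_coe_finset] at h1
        exact h1.le
      refine le_trans (mul_le_mul_right (measure_mono ?_) _)
        (le_trans (die_one w n 0 (Bx r 0) hA E M hcard) (measure_mono ?_))
      · rintro k ⟨-, hk⟩
        exact hk
      · rintro k ⟨hk, hk'⟩
        refine ⟨⟨?_, hk'⟩, hk⟩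
        rw [hk]
        exact hE
    · have h1 : {k : KC D | (XD k (Bx n 0) (Bx r 0) ≠ ∅ ∧ (XD k (Bx n 0) (Bx r 0)).ncard < M) ∧
          XD k (Bx n 0) (Bx r 0) = (E : Set (V D × ℕ × V D))} = ∅ := by
        refine Set.eq_empty_of_forall_notMem ?_
        rintro k ⟨hk, hk'⟩
        rw [hk'] at hk
        exact hE hk
      rw [h1, measure_empty, mul_zero]
      exact zero_le
  have hdis : Disjoint {k : KC D | XD k (Bx n 0) (Bx r 0) = ∅} {k : KC D |
      (XD k (Bx n 0) (Bx r 0) ≠ ∅ ∧ (XD k (Bx n 0) (Bx r 0)).ncard < M) ∧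
        XD k (Bx (n + 1) 0) (Bx r 0) = ∅} :=
    Set.disjoint_left.2 fun k hk hk' => hk'.1.1 hk
  calc _ ≤ KQ w D {k : KC D | XD k (Bx n 0) (Bx r 0) = ∅} +
        KQ w D {k : KC D | (XD k (Bx n 0) (Bx r 0) ≠ ∅ ∧
        (XD k (Bx n 0) (Bx r 0)).ncard < M) ∧ XD k (Bx (n + 1) 0) (Bx r 0) = ∅} :=
        add_le_add_right key _
    _ = KQ w D ({k : KC D | XD k (Bx n 0) (Bx r 0) = ∅} ∪ {k : KC D |
        (XD k (Bx n 0) (Bx r 0) ≠ ∅ ∧ (XD k (Bx n 0) (Bx r 0)).ncard < M) ∧
          XD k (Bx (n + 1) 0) (Bx r 0) = ∅}) := (measure_union hdis hm3).symm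
    _ ≤ _ := by
        refine measure_mono ?_
        rintro k (hk | hk)
        · exact xd_empty_mono (bx_mono (Nat.le_succ n) 0) hA hk
        · exact hk.2

theorem few_exits (w : Set.Ioo (0 : ℝ) 1) (r M : ℕ) (ε : ℝ) (hε : 0 < ε) :
    ∃ n0 : ℕ, ∀ n, n0 ≤ n → KQ w D {k : KC D | XD k (Bx n 0) (Bx r 0) ≠ ∅ ∧ (XD k (Bx n 0) (Bx r 0)).ncard < M} ≤
      ENNReal.ofReal ε := by
  set q : ℝ := (w : ℝ) ^ (2 * M) with hq
  have hq0 : 0 < q := pow_pos w.2.1 _
  set a : ℕ → ℝ := fun m => (KQ w D {k : KC D | XD k (Bx (r + m) 0) (Bx r 0) = ∅}).toReal with ha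
  have hstep : ∀ m, a m + q * (KQ w D {k : KC D | XD k (Bx (r + m) 0) (Bx r 0) ≠ ∅ ∧
      (XD k (Bx (r + m) 0) (Bx r 0)).ncard < M}).toReal ≤ a (m + 1) := by
    intro m
    have h1 := re_step (D := D) w r M (r + m) (Nat.le_add_right r m)
    have h2 := ENNReal.toReal_mono (measure_ne_top _ _) h1
    rw [ENNReal.toReal_add (measure_ne_top _ _)
      (ENNReal.mul_ne_top ENNReal.ofReal_ne_top (measure_ne_top _ _)), ENNReal.toReal_mul,
      ENNReal.toReal_ofReal hq0.le] at h2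
    exact h2
  have hmono : Monotone a := by
    refine monotone_nat_of_le_succ fun m => ?_
    have h1 := hstep m
    have h2 : 0 ≤ q * (KQ w D {k : KC D | XD k (Bx (r + m) 0) (Bx r 0) ≠ ∅ ∧
      (XD k (Bx (r + m) 0) (Bx r 0)).ncard < M}).toReal := mul_nonneg hq0.le ENNReal.toReal_nonneg
    linarith only [h1, h2]
  have hbdd : BddAbove (Set.range a) := by
    refine ⟨1, ?_⟩
    rintro _ ⟨m, rfl⟩
    have h1 := ENNReal.toReal_mono ENNReal.one_ne_top
      (prob_le_one (μ := KQ w D) (s := {k : KC D | XD k (Bx (r + m) 0) (Bx r 0) = ∅}))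
    rw [ENNReal.toReal_one] at h1
    exact h1
  have hlim := tendsto_atTop_ciSup hmono hbdd
  have hev : ∀ᶠ m in Filter.atTop, (⨆ i, a i) - q * ε < a m :=
    hlim.eventually_const_lt (by linarith only [mul_pos hq0 hε])
  obtain ⟨m0, hm0⟩ := Filter.eventually_atTop.1 hev
  refine ⟨r + m0, fun n hn => ?_⟩
  obtain ⟨m, rfl⟩ : ∃ m, n = r + m := ⟨n - r, by omega⟩
  have h1 := hm0 m (by omega)
  have h2 := hstep m
  have h3 : a (m + 1) ≤ ⨆ i, a i := le_ciSup hbdd (m + 1)
  have h4 : q * (KQ w D {k : KC D | XD k (Bx (r + m) 0) (Bx r 0) ≠ ∅ ∧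
      (XD k (Bx (r + m) 0) (Bx r 0)).ncard < M}).toReal ≤ q * ε := by
    linarith only [h1, h2, h3]
  have h5 := le_of_mul_le_mul_left h4 hq0
  rw [← ENNReal.ofReal_toReal (measure_ne_top (KQ w D) {k : KC D |
    XD k (Bx (r + m) 0) (Bx r 0) ≠ ∅ ∧ (XD k (Bx (r + m) 0) (Bx r 0)).ncard < M})]
  exact ENNReal.ofReal_le_ofReal h5

end FDr.HC
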