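import Pool.Agent.Lib.MP_e029a2_pr.TH1

/-!
# The probability that a run comes back to its starting point
-/

set_option autoImplicit false

namespace FDr.HC

open MeasureTheory ProbabilityTheory Filter
open scoped ENNReal Topology

/-- the runs: the empty one and the others -/
def runEq : Option (Bool × Run) ≃ Run where
  toFun o := match o with
    | none => []
    | some p => p.1 :: p.2
  invFun l := match l with
    | [] => none
    | b :: l => some (b, l)
  left_inv o := by cases o <;> rfl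
  right_inv l := by cases l <;> rfl

theorem tsum_cons (f : Run → ℝ≥0∞) : ∑' l : Run, f l = f [] + (∑' l : Run, f (true :: l) + ∑' l : Run, f (false :: l)) := by
  rw [← runEq.tsum_eq, TR.tsum_opt, ENNReal.tsum_prod', tsum_fintype, Fintype.sum_bool]
  rfl

theorem dsp_cons' (b : Bool) (l : Run) : dsp (b :: l) = sg b + dsp l := by
  unfold dsp
  rw [List.map_cons, List.sum_cons]

variable (w α : Set.Ioo (0 : ℝ) 1)

/-- the probability of the displacement `k` -/
noncomputable def dk (k : ℤ) : ℝ≥0∞ := runLaw w α {l | dsp l = k}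

theorem dk_eq (k : ℤ) : dk w α k = ∑' l : Run, ENNReal.ofReal (runW w α l) * TR.ind (dsp l = k) := by
  unfold dk
  rw [← TR.lintegral_ind _ (measurable_of_countable fun l : Run => dsp l = k), TH.lintegral_runLaw]

/-- the first step -/
theorem dk_rec (k : ℤ) : dk w α k = ENNReal.ofReal (1 - w) * TR.ind (k = 0) +
    (ENNReal.ofReal (bw w α true) * dk w α (k - 1) + ENNReal.ofReal (bw w α false) * dk w α (k + 1)) := by
  have hb : ∀ (b : Bool) (l : Run), ENNReal.ofReal (runW w α (b :: l)) =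
      ENNReal.ofReal (bw w α b) * ENNReal.ofReal (runW w α l) := by
    intro b l
    rw [runW_eq, runW_eq, ← ENNReal.ofReal_mul (bw_pos w.2 α.2 b).le, List.map_cons, List.prod_cons]
    congr 1
    ring
  rw [dk_eq, tsum_cons]
  congr 1
  · rw [runW_eq, List.map_nil, List.prod_nil, mul_one]
    congr 1
    exact TR.ind_congr ⟨fun h => h.symm, fun h => h.symm⟩
  congr 1
  · rw [dk_eq, ← ENNReal.tsum_mul_left]
    refine tsum_congr fun l => ?_
    rw [hb, mul_assoc]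
    congr 2
    refine TR.ind_congr ?_
    rw [dsp_cons']
    show 1 + dsp l = k ↔ dsp l = k - 1
    omega
  · rw [dk_eq, ← ENNReal.tsum_mul_left]
    refine tsum_congr fun l => ?_
    rw [hb, mul_assoc]
    congr 2
    refine TR.ind_congr ?_
    rw [dsp_cons']
    show -1 + dsp l = k ↔ dsp l = k + 1
    omega

theorem dk_le_one (k : ℤ) : dk w α k ≤ 1 := prob_le_one

theorem dk_ne_top (k : ℤ) : dk w α k ≠ ⊤ := ne_top_of_le_ne_top ENNReal.one_ne_top (dk_le_one w α k)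

/-- the probability as a real number -/
noncomputable def dr (k : ℤ) : ℝ := (dk w α k).toReal

theorem dr_nonneg (k : ℤ) : 0 ≤ dr w α k := ENNReal.toReal_nonneg

theorem dr_rec (k : ℤ) : dr w α k = (if k = 0 then 1 - (w : ℝ) else 0) +
    (bw w α true * dr w α (k - 1) + bw w α false * dr w α (k + 1)) := by
  have h := dk_rec w α k
  have hw : 0 ≤ 1 - (w : ℝ) := by linarith [w.2.2]
  have hx := (bw_pos w.2 α.2 true).le
  have hy := (bw_pos w.2 α.2 false).le
  have e : ∀ j, dk w α j = ENNReal.ofReal (dr w α j) := fun j => (ENNReal.ofReal_toReal (dk_ne_top w α j)).symm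
  have e1 : TR.ind (k = 0) = ENNReal.ofReal (if k = 0 then 1 else 0) := by
    by_cases hk : k = 0
    · rw [TR.ind_true hk, if_pos hk, ENNReal.ofReal_one]
    · rw [TR.ind_false hk, if_neg hk, ENNReal.ofReal_zero]
  have hi : (0 : ℝ) ≤ if k = 0 then 1 else 0 := by
    by_cases hk : k = 0
    · rw [if_pos hk]
      norm_num
    · rw [if_neg hk]
  rw [e k, e (k - 1), e (k + 1), e1, ← ENNReal.ofReal_mul hw, ← ENNReal.ofReal_mul hx, ← ENNReal.ofReal_mul hy,
    ← ENNReal.ofReal_add (mul_nonneg hx (dr_nonneg w α _)) (mul_nonneg hy (dr_nonneg w α _)),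
    ← ENNReal.ofReal_add (mul_nonneg hw hi) (add_nonneg (mul_nonneg hx (dr_nonneg w α _))
      (mul_nonneg hy (dr_nonneg w α _)))] at h
  have h2 := (ENNReal.ofReal_eq_ofReal_iff (dr_nonneg w α k) (add_nonneg (mul_nonneg hw hi)
    (add_nonneg (mul_nonneg hx (dr_nonneg w α _)) (mul_nonneg hy (dr_nonneg w α _))))).1 h
  rw [h2]
  congr 1
  by_cases hk : k = 0
  · rw [if_pos hk, if_pos hk, mul_one]
  · rw [if_neg hk, if_neg hk, mul_zero]

theorem dr_summable : Summable (dr w α) := by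
  refine ENNReal.summable_toReal ?_
  have h1 : ∑' k : ℤ, dk w α k = runLaw w α (⋃ k : ℤ, {l | dsp l = k}) := by
    rw [measure_iUnion]
    · rfl
    · intro a b hab
      show Disjoint _ _
      rw [Set.disjoint_left]
      intro l h h'
      exact hab (Eq.trans (Eq.symm h) h')
    · exact fun k => trivial
  rw [h1]
  exact ne_top_of_le_ne_top ENNReal.one_ne_top prob_le_one

/-- a decreasing solution of the recursion -/
theorem sol_one {x y : ℝ} (hx : 0 < x) (hy : 0 < y) (hxy : x + y < 1) {b : ℕ → ℝ}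
    (hb : ∀ n, b (n + 1) = x * b n + y * b (n + 2)) (h0 : Tendsto b atTop (𝓝 0)) :
    2 * y * b 1 = (1 - √(1 - 4 * x * y)) * b 0 := by
  obtain ⟨s, hs⟩ : ∃ s, s = √(1 - 4 * x * y) := ⟨_, rfl⟩
  rw [← hs]
  have h1 : (2 * y - 1) ^ 2 < 1 - 4 * x * y := by nlinarith
  have hs0 : 0 ≤ s := by
    rw [hs]
    exact Real.sqrt_nonneg _
  have hs2 : s ^ 2 = 1 - 4 * x * y := by
    rw [hs]
    exact Real.sq_sqrt (le_trans (sq_nonneg _) h1.le)
  have hs3 : 2 * y < 1 + s := by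
    have h2 : |2 * y - 1| < |s| := sq_lt_sq.1 (by rw [hs2]; exact h1)
    rw [abs_of_nonneg hs0] at h2
    linarith [le_abs_self (2 * y - 1)]
  -- `e n = 2 y b (n + 1) - (1 - s) b n`
  have he : ∀ n, 2 * y * (2 * y * b (n + 2) - (1 - s) * b (n + 1)) = (1 + s) * (2 * y * b (n + 1) - (1 - s) * b n) := by
    intro n
    have h2 := hb n
    have h3 : y * b (n + 2) = b (n + 1) - x * b n := by linarith
    have h4 : 2 * y * (2 * y * b (n + 2) - (1 - s) * b (n + 1)) =
        4 * y * (y * b (n + 2)) - 2 * y * (1 - s) * b (n + 1) := by ring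
    rw [h4, h3]
    have h5 : (1 + s) * (2 * y * b (n + 1) - (1 - s) * b n) = 2 * y * (1 + s) * b (n + 1) - (1 - s ^ 2) * b n := by ring
    rw [h5, hs2]
    ring
  have hstep : ∀ n, |2 * y * b 1 - (1 - s) * b 0| ≤ |2 * y * b (n + 1) - (1 - s) * b n| := by
    intro n
    induction n with
    | zero => exact le_rfl
    | succ n ih =>
      refine ih.trans ?_
      have h2 := congrArg abs (he n)
      rw [abs_mul (2 * y), abs_mul (1 + s), abs_of_pos (by linarith : 0 < 2 * y),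
        abs_of_nonneg (by linarith : 0 ≤ 1 + s)] at h2
      have h3 : 2 * y * |2 * y * b (n + 1) - (1 - s) * b n| ≤ (1 + s) * |2 * y * b (n + 1) - (1 - s) * b n| :=
        mul_le_mul_of_nonneg_right hs3.le (abs_nonneg _)
      rw [← h2] at h3
      exact le_of_mul_le_mul_left h3 (by linarith)
  have hlim : Tendsto (fun n => |2 * y * b (n + 1) - (1 - s) * b n|) atTop (𝓝 0) := by
    have h2 : Tendsto (fun n => b (n + 1)) atTop (𝓝 0) := h0.comp (tendsto_add_atTop_nat 1)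
    have h3 := ((h2.const_mul (2 * y)).sub (h0.const_mul (1 - s))).abs
    rw [mul_zero, mul_zero, sub_zero, abs_zero] at h3
    exact h3
  have h2 : |2 * y * b 1 - (1 - s) * b 0| ≤ 0 := ge_of_tendsto hlim (Eventually.of_forall hstep)
  have h3 := abs_nonpos_iff.1 h2
  linarith

theorem dr_zero : dr w α 0 * √(1 - (w : ℝ) ^ 2 * (1 - (α : ℝ) ^ 2)) = 1 - w := by
  obtain ⟨x, hx⟩ : ∃ x, x = bw (w : ℝ) α true := ⟨_, rfl⟩
  obtain ⟨y, hy⟩ : ∃ y, y = bw (w : ℝ) α false := ⟨_, rfl⟩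
  have hx0 : 0 < x := hx ▸ bw_pos w.2 α.2 true
  have hy0 : 0 < y := hy ▸ bw_pos w.2 α.2 false
  have hxy : x + y < 1 := by
    rw [hx, hy, bw_sum]
    exact w.2.2
  have hsum := (dr_summable w α).tendsto_cofinite_zero
  have hpos : Tendsto (fun n : ℕ => dr w α n) atTop (𝓝 0) := by
    rw [← Nat.cofinite_eq_atTop]
    exact hsum.comp (Function.Injective.tendsto_cofinite fun a b h => by exact_mod_cast h)
  have hneg : Tendsto (fun n : ℕ => dr w α (-(n : ℤ))) atTop (𝓝 0) := by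
    rw [← Nat.cofinite_eq_atTop]
    exact hsum.comp (Function.Injective.tendsto_cofinite fun a b h => by
      have h' : -(a : ℤ) = -(b : ℤ) := h
      omega)
  have h1 := sol_one hx0 hy0 hxy (b := fun n : ℕ => dr w α n) (fun n => by
    have h := dr_rec w α ((n : ℤ) + 1)
    rw [if_neg (by omega), zero_add, ← hx, ← hy] at h
    show dr w α (((n + 1 : ℕ)) : ℤ) = x * dr w α n + y * dr w α (((n + 2 : ℕ)) : ℤ)
    have e1 : (n : ℤ) + 1 - 1 = n := by ring
    have e2 : (n : ℤ) + 1 + 1 = ((n + 2 : ℕ) : ℤ) := by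
      push_cast
      ring
    rw [e1, e2] at h
    push_cast at h ⊢
    exact h) hpos
  have h2 := sol_one hy0 hx0 (by linarith) (b := fun n : ℕ => dr w α (-(n : ℤ))) (fun n => by
    have h := dr_rec w α (-((n : ℤ) + 1))
    rw [if_neg (by omega), zero_add, ← hx, ← hy] at h
    show dr w α (-(((n + 1 : ℕ)) : ℤ)) = y * dr w α (-(n : ℤ)) + x * dr w α (-(((n + 2 : ℕ)) : ℤ))
    have e1 : -((n : ℤ) + 1) + 1 = -(n : ℤ) := by ring
    have e2 : -((n : ℤ) + 1) - 1 = -(((n + 2 : ℕ)) : ℤ) := by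
      push_cast
      ring
    rw [e1, e2] at h
    push_cast at h ⊢
    linarith) hneg
  have h3 := dr_rec w α 0
  rw [if_pos rfl, ← hx, ← hy] at h3
  have e4 : 4 * y * x = 4 * x * y := by ring
  have h2' : 2 * x * dr w α (-1) = (1 - √(1 - 4 * x * y)) * dr w α 0 := by
    have h4 : 2 * x * dr w α (-(((1 : ℕ)) : ℤ)) = (1 - √(1 - 4 * y * x)) * dr w α (-(((0 : ℕ)) : ℤ)) := h2
    rw [e4] at h4
    simpa using h4
  have h1' : 2 * y * dr w α 1 = (1 - √(1 - 4 * x * y)) * dr w α 0 := by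
    have h4 : 2 * y * dr w α (((1 : ℕ)) : ℤ) = (1 - √(1 - 4 * x * y)) * dr w α (((0 : ℕ)) : ℤ) := h1
    simpa using h4
  have e5 : 1 - 4 * x * y = 1 - (w : ℝ) ^ 2 * (1 - (α : ℝ) ^ 2) := by
    rw [hx, hy]
    unfold bw
    simp only [if_true, Bool.false_eq_true, if_false]
    ring
  rw [e5] at h1' h2'
  have h6 : (0 : ℤ) - 1 = -1 := by norm_num
  have h7 : (0 : ℤ) + 1 = 1 := by norm_num
  rw [h6, h7] at h3
  linarith

/-- the probability to leave the hyperplane before the next step in it -/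
noncomputable def weR (w α : ℝ) : ℝ := 1 - (1 - w) / √(1 - w ^ 2 * (1 - α ^ 2))

theorem sq_bd : 0 < 1 - (w : ℝ) ^ 2 * (1 - (α : ℝ) ^ 2) ∧ 1 - (w : ℝ) ^ 2 * (1 - (α : ℝ) ^ 2) < 1 ∧
    (1 - (w : ℝ)) ^ 2 < 1 - (w : ℝ) ^ 2 * (1 - (α : ℝ) ^ 2) := by
  have h1 := w.2.1
  have h2 := w.2.2
  have h3 := α.2.1
  have h4 := α.2.2
  have h5 : 0 < 1 - (α : ℝ) ^ 2 := by nlinarith
  have h6 : (w : ℝ) ^ 2 < w := by nlinarith
  have h7 : (w : ℝ) ^ 2 * (1 - (α : ℝ) ^ 2) ≤ (w : ℝ) ^ 2 := by nlinarith [sq_nonneg (w : ℝ), sq_nonneg (α : ℝ)]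
  have h8 : 0 < (w : ℝ) ^ 2 * (1 - (α : ℝ) ^ 2) := by positivity
  exact ⟨by linarith, by linarith, by nlinarith⟩

theorem weR_mem : weR w α ∈ Set.Ioo (0 : ℝ) 1 := by
  obtain ⟨h1, h2, h3⟩ := sq_bd w α
  have h4 : 0 < √(1 - (w : ℝ) ^ 2 * (1 - (α : ℝ) ^ 2)) := Real.sqrt_pos.2 h1
  have h5 : 0 < 1 - (w : ℝ) := by linarith [w.2.2]
  unfold weR
  constructor
  · have h6 : (1 - (w : ℝ)) / √(1 - (w : ℝ) ^ 2 * (1 - (α : ℝ) ^ 2)) < 1 := by
      rw [div_lt_one h4]
      exact Real.lt_sqrt_of_sq_lt h3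
    linarith
  · have h6 : 0 < (1 - (w : ℝ)) / √(1 - (w : ℝ) ^ 2 * (1 - (α : ℝ) ^ 2)) := div_pos h5 h4
    linarith

theorem weR_lt : weR w α < w := by
  obtain ⟨h1, h2, -⟩ := sq_bd w α
  have h4 : 0 < √(1 - (w : ℝ) ^ 2 * (1 - (α : ℝ) ^ 2)) := Real.sqrt_pos.2 h1
  have h5 : 0 < 1 - (w : ℝ) := by linarith [w.2.2]
  have h6 : √(1 - (w : ℝ) ^ 2 * (1 - (α : ℝ) ^ 2)) < 1 := by
    have h7 := Real.sqrt_lt_sqrt h1.le h2
    rwa [Real.sqrt_one] at h7
  have h7 : 1 - (w : ℝ) < (1 - (w : ℝ)) / √(1 - (w : ℝ) ^ 2 * (1 - (α : ℝ) ^ 2)) := by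
    rw [lt_div_iff₀ h4]
    nlinarith
  unfold weR
  linarith

/-- the death probability in a hyperplane -/
noncomputable def we : Set.Ioo (0 : ℝ) 1 := ⟨weR w α, weR_mem w α⟩

theorem we_coe : ((we w α : Set.Ioo (0 : ℝ) 1) : ℝ) = weR w α := rfl

/-- **The runs which come back.** -/
theorem we_run : runLaw w α {l | dsp l = 0} = ENNReal.ofReal (1 - (we w α : ℝ)) := by
  obtain ⟨h1, -, -⟩ := sq_bd w α
  have h4 : 0 < √(1 - (w : ℝ) ^ 2 * (1 - (α : ℝ) ^ 2)) := Real.sqrt_pos.2 h1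
  have h5 : runLaw w α {l | dsp l = 0} = ENNReal.ofReal (dr w α 0) := (ENNReal.ofReal_toReal (dk_ne_top w α 0)).symm
  rw [h5, we_coe]
  congr 1
  have h6 := dr_zero w α
  unfold weR
  rw [sub_sub_cancel, eq_div_iff h4.ne']
  exact h6

end FDr.HC
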