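import Pool.Agent.Lib.MP_e029a2_pr.HC.RK
import Pool.Agent.Lib.MP_e029a2_pr.HC.GRec
import Pool.Agent.Lib.MP_e029a2_pr.HC.We

/-!
# Recurrence from the survival of the frog model with death of the hyperplanes
-/

set_option autoImplicit false

namespace FDr.HC

open MeasureTheory ProbabilityTheory
open scoped ENNReal

/-- If the frog model with death on `ℤ^D` survives at the death probability `we w α`, the frog model on `ℤ^(D+1)` with drift is recurrent. -/
theorem recur_of_surv {Ω : Type*} [MeasurableSpace Ω] (w α : Set.Ioo (0 : ℝ) 1) (D : ℕ) [NeZero D]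
    (h : 0 < ksv (we w α) D)
    (P : Measure Ω) (ξ : Site D → ℕ → Ω → Stp D) (hF : IsFrog D w α P ξ) : Recurrent P ξ :=
  critL_recurrent w α D (critL_of_surv w α (we w α) (we_run w α) D h) P ξ hF

end FDr.HC
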