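import Pool.Agent.Lib.MP_e029a2_pr.HC.RB

/-!
# Words
-/

set_option autoImplicit false

namespace FDr.HC

open MeasureTheory ProbabilityTheory
open scoped ENNReal

variable {D : ℕ}

/-- the sums of the vectors of lists of directions -/
private def RG_S (D : ℕ) : AddSubmonoid (V D) where
  carrier := {x | ∃ l : List (Dir D), (l.map dv).sum = x}
  zero_mem' := ⟨[], rfl⟩
  add_mem' := by
    rintro x y ⟨l, h1⟩ ⟨l', h2⟩
    refine ⟨l ++ l', ?_⟩
    rw [List.map_append, List.sum_append, h1, h2]

private theorem RG_top (x : V D) : x ∈ RG_S D := by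
  classical
  have h1 : ∀ i : Fin D, (Pi.single i (x i) : V D) ∈ RG_S D := by
    intro i
    have h2 : ∀ a : ℤ, (Pi.single i a : V D) ∈ RG_S D := by
      intro a
      induction a using Int.induction_on with
      | zero =>
        rw [Pi.single_zero]
        exact (RG_S D).zero_mem
      | succ n ih =>
        rw [Pi.single_add]
        exact (RG_S D).add_mem ih ⟨[(i, true)], by simp [dv, sg]⟩
      | pred n ih =>
        rw [sub_eq_add_neg, Pi.single_add]
        exact (RG_S D).add_mem ih ⟨[(i, false)], by simp [dv, sg]⟩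
    exact h2 _
  rw [← Finset.univ_sum_single x]
  exact (RG_S D).sum_mem fun i _ => h1 i

private theorem RG_cov (F : Finset (V D)) : ∃ l : List (Dir D), ∀ y ∈ F, ∃ i ≤ l.length, ((l.take i).map dv).sum = y := by
  classical
  induction F using Finset.induction_on with
  | empty => exact ⟨[], fun y hy => absurd hy (Finset.notMem_empty y)⟩
  | insert a F _ ih =>
    obtain ⟨l, hl⟩ := ih
    obtain ⟨l', hl'⟩ := RG_top (a - (l.map dv).sum)
    refine ⟨l ++ l', fun y hy => ?_⟩
    rcases Finset.mem_insert.1 hy with rfl | hy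
    · refine ⟨(l ++ l').length, le_rfl, ?_⟩
      rw [List.take_length, List.map_append, List.sum_append, hl', add_sub_cancel]
    · obtain ⟨i, h1, h2⟩ := hl y hy
      refine ⟨i, by rw [List.length_append]; omega, ?_⟩
      rw [List.take_append_of_le_length h1]
      exact h2

theorem exists_cov [NeZero D] (r : ℕ) : ∃ l : List (Dir D), Cov r l := by
  obtain ⟨l, hl⟩ := RG_cov (bx_fin r (0 : V D)).toFinset
  refine ⟨l ++ [(0, true)], by simp, fun y hy => ?_⟩
  obtain ⟨i, h1, h2⟩ := hl y ((Set.Finite.mem_toFinset _).2 hy)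
  refine ⟨i, by rw [List.length_append]; omega, ?_⟩
  rw [List.take_append_of_le_length h1]
  exact h2

theorem dsp_rep (δ : ℤ) : dsp (rep δ) = δ := by
  unfold rep dsp
  rw [List.map_replicate, List.sum_replicate, nsmul_eq_mul]
  by_cases h : 0 < δ
  · rw [decide_eq_true h]
    show ((δ.natAbs : ℕ) : ℤ) * 1 = δ
    omega
  · rw [decide_eq_false h]
    show ((δ.natAbs : ℕ) : ℤ) * -1 = δ
    omega

theorem RG_cv {a : Cell D} (h : fc a ≠ none) : cvec a = ((0 : ℤ), kv (fc a)) := by
  unfold fc at h ⊢
  by_cases h1 : dsp a.1 = 0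
  · rw [if_pos h1]
    unfold cvec
    rw [h1]
    rfl
  · rw [if_neg h1] at h
    exact absurd rfl h

theorem ent_kh (c : Conf D) (h : ℤ) (v : V D) (n : ℕ) (hn : kal (kh c h) v n) :
    ent c (h, v) n = (h, kpos (kh c h) v n) := by
  induction n with
  | zero =>
    unfold ent kpos
    rw [Finset.sum_range_zero, Finset.sum_range_zero, add_zero, add_zero]
  | succ n ih =>
    have h1 := ih fun j hj => hn j (by omega)
    have h2 : ent c (h, v) (n + 1) = ent c (h, v) n + cvec (c ((h, v), n)) := by
      unfold ent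
      rw [Finset.sum_range_succ, add_assoc]
    have h3 : kpos (kh c h) v (n + 1) = kpos (kh c h) v n + kv (kh c h (v, n)) := by
      unfold kpos
      rw [Finset.sum_range_succ, add_assoc]
    have h4 : fc (c ((h, v), n)) ≠ none := hn n (by omega)
    rw [h2, h1, h3, RG_cv h4]
    show (h, kpos (kh c h) v n) + ((0 : ℤ), kv (fc (c ((h, v), n)))) = (h, kpos (kh c h) v n + kv (kh c h (v, n)))
    rw [Prod.mk_add_mk, add_zero]
    rfl

theorem RG_ent {c : Conf D} {x : Site D} (hx : ActC c x) (i : ℕ) : ActC c (ent c x i) := by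
  have h3 := ActC.visit x i 0 hx ⟨0, Nat.zero_le _, by simp [dsp]⟩
  have h4 : ((0 : ℤ), (0 : Fin D → ℤ)) = 0 := rfl
  rwa [h4, add_zero] at h3

theorem cb_act (c : Conf D) (h : ℤ) (B A : Set (V D)) (hA : ∀ y ∈ A, ActC c (h, y)) {x : V D}
    (hx : Cb (kh c h) B A x) : ActC c (h, x) := by
  induction hx with
  | start x hx _ => exact hA x hx
  | visit x n _ hal _ ih =>
    have h1 := RG_ent ih n
    rwa [ent_kh c h x n hal] at h1

theorem rr_seed {n r : ℕ} {l : List (Dir D)} (hl : Cov r l) {c : Conf D} {h : ℤ} {b : V D} {δ : ℤ} {u : V D}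
    (H : RR n r l c h b δ u) (hs : SdA r c h b) : SdA r c (h + δ) u := by
  obtain ⟨q, hq, hu, hw⟩ := H
  have h3 := cb_act c h (Bx n b) (Bx r b) hs hq.1
  have h4 := ent_kh c h q.1 q.2.1 hq.2.1.1
  rw [hq.2.2, hu] at h4
  obtain ⟨hne, hcov⟩ := hl
  obtain ⟨d, t, rfl⟩ := List.exists_cons_of_ne_nil hne
  have hlen : (wrd δ (d :: t)).length = t.length + 1 := by
    show ((rep δ, d) :: t.map fun d => (([] : Run), d)).length = _
    rw [List.length_cons, List.length_map]
  have h5 : c ((h, q.1), q.2.1) = (rep δ, d) := hw 0 (by rw [hlen]; omega)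
  have h6 : ∀ i (hi : i < t.length), c ((h, q.1), q.2.1 + (i + 1)) = (([] : Run), t[i]) := by
    intro i hi
    have h7 := hw (i + 1) (by rw [hlen]; omega)
    rw [h7]
    show ((rep δ, d) :: t.map fun d => (([] : Run), d))[i + 1]'(by rw [List.length_cons, List.length_map]; omega) = _
    rw [List.getElem_cons_succ, List.getElem_map]
  -- the positions
  have h8 : ∀ i, i ≤ t.length → ent c (h, q.1) (q.2.1 + (i + 1)) = (h + δ, u + (((d :: t).take (i + 1)).map dv).sum) := by
    intro i hi
    induction i with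
    | zero =>
      have h9 : ent c (h, q.1) (q.2.1 + 1) = ent c (h, q.1) q.2.1 + cvec (c ((h, q.1), q.2.1)) := by
        unfold ent
        rw [Finset.sum_range_succ, add_assoc]
      rw [zero_add, h9, h4, h5]
      unfold cvec
      rw [dsp_rep]
      show (h, u) + (δ, dv d) = (h + δ, u + (([d]).map dv).sum)
      rw [Prod.mk_add_mk, List.map_singleton, List.sum_singleton]
    | succ i ih =>
      have h9 : ent c (h, q.1) (q.2.1 + (i + 1 + 1)) = ent c (h, q.1) (q.2.1 + (i + 1)) +
          cvec (c ((h, q.1), q.2.1 + (i + 1))) := by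
        unfold ent
        rw [← add_assoc q.2.1 (i + 1) 1, Finset.sum_range_succ, add_assoc]
      rw [h9, ih (by omega), h6 i (by omega)]
      have h10 : (d :: t).take (i + 1 + 1) = (d :: t).take (i + 1) ++ [t[i]] := by
        rw [List.take_succ_cons, List.take_succ_cons, List.take_add_one, List.getElem?_eq_getElem (by omega),
          Option.toList_some]
        rfl
      rw [h10, List.map_append, List.sum_append]
      show (h + δ, u + (((d :: t).take (i + 1)).map dv).sum) + (dsp ([] : Run), dv t[i]) = _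
      have h11 : dsp ([] : Run) = 0 := rfl
      rw [h11, Prod.mk_add_mk, add_zero, List.map_singleton, List.sum_singleton, add_assoc]
  intro y hy
  have hy' : y - u ∈ Bx r (0 : V D) := by
    intro i
    have h9 : |y i - u i| ≤ (r : ℤ) := hy i
    show |(y i - u i) - 0| ≤ (r : ℤ)
    rwa [sub_zero]
  obtain ⟨i, hi, h9⟩ := hcov _ hy'
  rcases Nat.eq_zero_or_pos i with rfl | hpos
  · -- the point `u`
    have h10 : y = u := by
      have h11 : (0 : V D) = y - u := h9
      exact (sub_eq_zero.1 h11.symm)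
    have h11 : δ ∈ vis (c ((h, q.1), q.2.1)).1 := by
      rw [h5]
      exact ⟨(rep δ).length, le_rfl, by rw [List.take_length, dsp_rep]⟩
    have h12 := ActC.visit (h, q.1) q.2.1 δ h3 h11
    rw [h4] at h12
    have h13 : ((h, u) : Site D) + (δ, 0) = (h + δ, y) := by
      rw [Prod.mk_add_mk, add_zero, h10]
    rwa [h13] at h12
  · obtain ⟨j, rfl⟩ : ∃ j, i = j + 1 := ⟨i - 1, by omega⟩
    have h10 := RG_ent h3 (q.2.1 + (j + 1))
    rw [h8 j (by
      rw [List.length_cons] at hi
      omega), h9, add_sub_cancel] at h10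
    exact h10

end FDr.HC
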