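import Pool.Agent.Lib.MP_e029a2_pr.HC.RA
import Pool.Agent.Lib.MP_e029a2_pr.CO.Prod

/-!
# Continuations of the exits (job RH)

* `kh_law`: `kh · h` is the composition of the reindexing by `p ↦ ((h, p.1), p.2)` (`FDr.map_inj`) and of `fc` in every coordinate; `(cellLaw w α D).map fc = kLaw w' D`
  (`hw`, `CO.dir_prob`); image of `Measure.infinitePi` under coordinatewise maps: `Mathlib/Probability/ProductMeasure.lean`.
* `wd_prob`: `CO.prod_dep` with `F = Finset.univ : Finset (Fin W.length)`, `T i = {(x, k + i)}`, and `CO.cell_prob`.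
* `cell_pos`: `cellLaw` is a product; `runLaw {l} = ENNReal.ofReal (runW w α l)`, `runW_pos`, `CO.dir_prob`.
* `cont_bound`: the partition by the value `E` of the exits (as in `part`, for `Q`: `xd_prop_meas` composed with the measurable map `kh · h`).  For `E` with
  `M ≤ {q ∈ E | q.2.2 ∈ P}.card`, which is the set of the exits of some `k0` (so different elements have different `q.1`), the event `XD (kh c h) B A = E` depends on the cells
  `{((h, v), j) | (v, j) ∈ Sc B E}` (`xd_data`), the events `¬ Wd c (h, q.1) q.2.1 W`, `q ∈ E`, `q.2.2 ∈ P`, depend on the disjoint finite sets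
  `{((h, q.1), j) | q.2.1 ≤ j < q.2.1 + W.length}`, each has the probability `1 - Q {Wd}` (`wd_prob`), so (`CO.prod_dep`, `prod_and_dep`)
  `Q {XD = E, no continuation} ≤ Q {XD = E} * (1 - p) ^ M`.  Sum over `E`.
-/

set_option autoImplicit false

namespace FDr.HC

open MeasureTheory ProbabilityTheory
open scoped ENNReal

variable {D : ℕ} [NeZero D]

theorem rh_run_one (w α : Set.Ioo (0 : ℝ) 1) (l : Run) : runLaw w α {l} = ENNReal.ofReal (runW w α l) := by
  rw [runLaw, Measure.sum_apply _ (measurableSet_singleton _), tsum_eq_single l]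
  · rw [Measure.smul_apply, Measure.dirac_apply_of_mem (Set.mem_singleton _), smul_eq_mul, mul_one]
  · intro a ha
    rw [Measure.smul_apply, Measure.dirac_apply' _ (measurableSet_singleton _), Set.indicator_of_notMem, smul_zero]
    exact fun h => ha (Set.mem_singleton_iff.1 h)

theorem rh_cell_one (w α : Set.Ioo (0 : ℝ) 1) (a : Cell D) :
    cellLaw w α D {a} = ENNReal.ofReal (runW w α a.1) * (2 * (D : ℝ≥0∞))⁻¹ := by
  have h1 : ({a} : Set (Cell D)) = {a.1} ×ˢ {a.2} := by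
    rw [Set.singleton_prod_singleton]
  rw [h1]
  unfold cellLaw
  rw [Measure.prod_prod, rh_run_one, CO.dir_prob]

/-- the law of the step of a cell -/
theorem rh_fc_law (w α w' : Set.Ioo (0 : ℝ) 1) (hw : runLaw w α {l | dsp l = 0} = ENNReal.ofReal (1 - w')) :
    (cellLaw w α D).map fc = kLaw w' D := by
  have hfc : Measurable (fc (D := D)) := measurable_of_countable _
  have hD : (0 : ℝ) < D := Nat.cast_pos.2 (Nat.pos_of_ne_zero (NeZero.ne D))
  refine Measure.ext_of_singleton fun s => ?_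
  rw [Measure.map_apply hfc (measurableSet_singleton s), kLaw_one]
  cases s with
  | none =>
    have h1 : fc ⁻¹' ({none} : Set (Option (Dir D))) = ({l : Run | dsp l = 0}ᶜ : Set Run) ×ˢ (Set.univ : Set (Dir D)) := by
      ext a
      rw [Set.mem_preimage, Set.mem_singleton_iff, Set.mem_prod]
      unfold fc
      by_cases ha : dsp a.1 = 0
      · rw [if_pos ha]
        constructor
        · intro h; cases h
        · intro h; exact absurd ha h.1
      · rw [if_neg ha]
        exact ⟨fun _ => ⟨ha, Set.mem_univ _⟩, fun _ => rfl⟩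
    rw [h1]
    unfold cellLaw
    rw [Measure.prod_prod, measure_univ, mul_one, prob_compl_eq_one_sub (Set.to_countable _).measurableSet, hw]
    show _ = ENNReal.ofReal (w' : ℝ)
    rw [← ENNReal.ofReal_one, ← ENNReal.ofReal_sub _ (by linarith [w'.2.2])]
    congr 1
    ring
  | some d =>
    have h1 : fc ⁻¹' ({some d} : Set (Option (Dir D))) = ({l : Run | dsp l = 0} : Set Run) ×ˢ ({d} : Set (Dir D)) := by
      ext a
      rw [Set.mem_preimage, Set.mem_singleton_iff, Set.mem_prod, Set.mem_singleton_iff]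
      unfold fc
      by_cases ha : dsp a.1 = 0
      · rw [if_pos ha]
        exact ⟨fun h => ⟨ha, Option.some.inj h⟩, fun h => congrArg some h.2⟩
      · rw [if_neg ha]
        constructor
        · intro h; cases h
        · intro h; exact absurd h.1 ha
    rw [h1]
    unfold cellLaw
    rw [Measure.prod_prod, hw, CO.dir_prob]
    show _ = ENNReal.ofReal ((1 - (w' : ℝ)) / (2 * D))
    rw [div_eq_mul_inv, ENNReal.ofReal_mul (by linarith [w'.2.2]), ENNReal.ofReal_inv_of_pos (by positivity),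
      ENNReal.ofReal_mul (by norm_num), ENNReal.ofReal_natCast, ENNReal.ofReal_ofNat]

omit [NeZero D] in
theorem kh_measurable (h : ℤ) : Measurable fun c : Conf D => kh c h := by
  have hfc : Measurable (fc (D := D)) := measurable_of_countable _
  exact measurable_pi_lambda _ fun p => hfc.comp (measurable_pi_apply ((h, p.1), p.2))

theorem kh_law (w α w' : Set.Ioo (0 : ℝ) 1) (hw : runLaw w α {l | dsp l = 0} = ENNReal.ofReal (1 - w')) (h : ℤ) :
    MeasurePreserving (fun c : Conf D => kh c h) (Q w α D) (KQ w' D) := by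
  have hfc : Measurable (fc (D := D)) := measurable_of_countable _
  have e1 : (fun c : Conf D => kh c h) =
      (fun (x : V D × ℕ → Cell D) (p : V D × ℕ) => fc (x p)) ∘ fun (c : Conf D) (p : V D × ℕ) => c ((h, p.1), p.2) := rfl
  have m1 : Measurable fun (c : Conf D) (p : V D × ℕ) => c ((h, p.1), p.2) :=
    measurable_pi_lambda _ fun p => measurable_pi_apply _
  have m2 : Measurable fun (x : V D × ℕ → Cell D) (p : V D × ℕ) => fc (x p) :=
    measurable_pi_lambda _ fun p => hfc.comp (measurable_pi_apply p)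
  have hinj : Function.Injective fun p : V D × ℕ => (((h, p.1), p.2) : Site D × ℕ) := by
    rintro ⟨a, b⟩ ⟨a', b'⟩ he
    have h1 : ((h, a) : Site D) = (h, a') := congrArg Prod.fst he
    have h2 : b = b' := congrArg Prod.snd he
    have h3 : a = a' := congrArg Prod.snd h1
    rw [h2, h3]
  have key : ∀ (ν : Measure (Option (Dir D))) [IsProbabilityMeasure ν], (cellLaw w α D).map fc = ν →
      (Measure.infinitePi fun _ : V D × ℕ => cellLaw w α D).map
        (fun (x : V D × ℕ → Cell D) (p : V D × ℕ) => fc (x p)) = Measure.infinitePi fun _ : V D × ℕ => ν := by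
    intro ν _ e
    subst e
    exact Measure.infinitePi_map_pi (fun _ : V D × ℕ => cellLaw w α D) fun _ => hfc
  refine ⟨by rw [e1]; exact m2.comp m1, ?_⟩
  rw [e1, ← Measure.map_map m2 m1]
  unfold Q KQ
  rw [map_inj (cellLaw w α D) (fun p : V D × ℕ => (((h, p.1), p.2) : Site D × ℕ)) hinj]
  exact key (kLaw w' D) (rh_fc_law w α w' hw)

theorem cell_pos (w α : Set.Ioo (0 : ℝ) 1) (a : Cell D) : 0 < cellLaw w α D {a} := by
  rw [rh_cell_one]
  refine ENNReal.mul_pos (ENNReal.ofReal_pos.2 (runW_pos w.2 α.2 a.1)).ne' ?_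
  refine ENNReal.inv_ne_zero.2 ?_
  exact ENNReal.mul_ne_top ENNReal.ofNat_ne_top (ENNReal.natCast_ne_top D)

theorem wd_prob (w α : Set.Ioo (0 : ℝ) 1) (x : Site D) (k : ℕ) (W : List (Cell D)) :
    Q w α D {c | Wd c x k W} = (W.map fun a => cellLaw w α D {a}).prod := by
  have h1 : {c : Conf D | Wd c x k W} = {c : Conf D | ∀ m ∈ (Finset.univ : Finset (Fin W.length)), c (x, k + m) = W[m.1]} := by
    ext c
    constructor
    · intro hc m _
      exact hc m.1 m.2
    · intro hc i hi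
      exact hc ⟨i, hi⟩ (Finset.mem_univ _)
  rw [h1]
  have h2 := CO.prod_dep (cellLaw w α D) (Finset.univ : Finset (Fin W.length)) (fun m => {(x, k + m.1)})
    (fun m _ => Set.finite_singleton _) ?_ (fun (m : Fin W.length) (c : Conf D) => c (x, k + m) = W[m.1]) ?_
  · refine h2.trans ?_
    rw [← Fin.prod_univ_fun_getElem W fun a => cellLaw w α D {a}]
    refine Finset.prod_congr rfl fun m _ => ?_
    exact CO.cell_prob w α (x, k + m.1) fun a => a = W[m.1]
  · intro m _ m' _ hm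
    rw [Set.disjoint_singleton]
    intro he
    have h3 : k + m.1 = k + m'.1 := congrArg Prod.snd he
    exact hm (Fin.ext (by omega))
  · intro m _ c c' hc
    have h3 := hc (x, k + m.1) rfl
    show (c (x, k + m.1) = W[m.1]) = (c' (x, k + m.1) = W[m.1])
    rw [h3]

omit [NeZero D] in
theorem wd_dep (x : Site D) (k : ℕ) (W : List (Cell D)) :
    Dep {q : Site D × ℕ | q.1 = x ∧ k ≤ q.2 ∧ q.2 < k + W.length} fun c : Conf D => Wd c x k W := by
  intro c c' hc
  have h1 : ∀ i, i < W.length → c (x, k + i) = c' (x, k + i) := by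
    intro i hi
    exact hc (x, k + i) ⟨rfl, Nat.le_add_right _ _, Nat.add_lt_add_left hi k⟩
  refine propext ⟨fun hw i hi => ?_, fun hw i hi => ?_⟩
  · rw [← h1 i hi]
    exact hw i hi
  · rw [h1 i hi]
    exact hw i hi

omit [NeZero D] in
theorem rh_fin (x : Site D) (k n : ℕ) : {q : Site D × ℕ | q.1 = x ∧ k ≤ q.2 ∧ q.2 < k + n}.Finite := by
  refine ((Set.finite_Iio (k + n)).image fun j : ℕ => ((x, j) : Site D × ℕ)).subset ?_
  rintro ⟨y, j⟩ ⟨h1, -, h2⟩
  simp only at h1 h2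
  exact ⟨j, h2, by rw [h1]⟩

theorem wd_meas (x : Site D) (k : ℕ) (W : List (Cell D)) : MeasurableSet {c : Conf D | Wd c x k W} :=
  Dep.measurableSet (rh_fin x k W.length) (wd_dep x k W)

/-- no continuation of an exit -/
theorem rh_not (w α : Set.Ioo (0 : ℝ) 1) (x : Site D) (k : ℕ) (W : List (Cell D)) :
    Q w α D {c | ¬ Wd c x k W} = 1 - (W.map fun a => cellLaw w α D {a}).prod := by
  have h1 : {c : Conf D | ¬ Wd c x k W} = {c : Conf D | Wd c x k W}ᶜ := rfl
  rw [h1, prob_compl_eq_one_sub (wd_meas x k W), wd_prob]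

/-- the bound for one value of the exits -/
theorem rh_one (w α : Set.Ioo (0 : ℝ) 1) (h : ℤ) (B A P : Set (V D)) (W : List (Cell D)) (M : ℕ)
    (E : Finset (V D × ℕ × V D)) :
    Q w α D {c | XD (kh c h) B A = (E : Set (V D × ℕ × V D)) ∧ M ≤ Nx (kh c h) B A P ∧
      ∀ q ∈ XD (kh c h) B A, q.2.2 ∈ P → ¬ Wd c (h, q.1) q.2.1 W} ≤
      (1 - (W.map fun a => cellLaw w α D {a}).prod) ^ M *
        Q w α D {c | XD (kh c h) B A = (E : Set (V D × ℕ × V D))} := by
  classical
  obtain ⟨F, hF⟩ : ∃ F, F = E.filter fun q => q.2.2 ∈ P := ⟨_, rfl⟩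
  by_cases hE : ∃ k0 : KC D, XD k0 B A = (E : Set (V D × ℕ × V D))
  swap
  · have h1 : {c : Conf D | XD (kh c h) B A = (E : Set (V D × ℕ × V D)) ∧ M ≤ Nx (kh c h) B A P ∧
        ∀ q ∈ XD (kh c h) B A, q.2.2 ∈ P → ¬ Wd c (h, q.1) q.2.1 W} = ∅ := by
      refine Set.eq_empty_of_forall_notMem fun c hc => hE ⟨_, hc.1⟩
    rw [h1, measure_empty]
    exact zero_le
  obtain ⟨k0, hk0⟩ := hE
  have hinj : ∀ q ∈ E, ∀ q' ∈ E, q.1 = q'.1 → q = q' := by
    intro q hq q' hq' he
    refine xd_inj (k := k0) (B := B) (A := A) ?_ ?_ he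
    · rw [hk0]; exact Finset.mem_coe.2 hq
    · rw [hk0]; exact Finset.mem_coe.2 hq'
  by_cases hM : M ≤ F.card
  swap
  · have h1 : {c : Conf D | XD (kh c h) B A = (E : Set (V D × ℕ × V D)) ∧ M ≤ Nx (kh c h) B A P ∧
        ∀ q ∈ XD (kh c h) B A, q.2.2 ∈ P → ¬ Wd c (h, q.1) q.2.1 W} = ∅ := by
      refine Set.eq_empty_of_forall_notMem fun c hc => hM ?_
      obtain ⟨h2, h3, -⟩ := hc
      unfold Nx at h3
      rw [h2] at h3
      have h4 : {q : V D × ℕ × V D | q ∈ (E : Set (V D × ℕ × V D)) ∧ q.2.2 ∈ P} = (F : Set (V D × ℕ × V D)) := by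
        ext q
        rw [hF, Finset.mem_coe, Finset.mem_filter]
        rfl
      rwa [h4, Set.ncard_coe_finset] at h3
    rw [h1, measure_empty]
    exact zero_le
  have hsub : {c : Conf D | XD (kh c h) B A = (E : Set (V D × ℕ × V D)) ∧ M ≤ Nx (kh c h) B A P ∧
      ∀ q ∈ XD (kh c h) B A, q.2.2 ∈ P → ¬ Wd c (h, q.1) q.2.1 W} ⊆
      {c : Conf D | (∀ q ∈ F, ¬ Wd c (h, q.1) q.2.1 W) ∧ XD (kh c h) B A = (E : Set (V D × ℕ × V D))} := by
    rintro c ⟨h1, -, h2⟩
    refine ⟨fun q hq => ?_, h1⟩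
    rw [hF, Finset.mem_filter] at hq
    refine h2 q ?_ hq.2
    rw [h1]
    exact Finset.mem_coe.2 hq.1
  refine (measure_mono hsub).trans ?_
  let T : V D × ℕ × V D → Set (Site D × ℕ) := fun q => {p | p.1 = (h, q.1) ∧ q.2.1 ≤ p.2 ∧ p.2 < q.2.1 + W.length}
  have hTd : ∀ q ∈ F, ∀ q' ∈ F, q ≠ q' → Disjoint (T q) (T q') := by
    intro q hq q' hq' hne
    rw [Set.disjoint_left]
    rintro p ⟨h1, -⟩ ⟨h2, -⟩
    have h3 : ((h, q.1) : Site D) = (h, q'.1) := h1.symm.trans h2
    have h4 : q.1 = q'.1 := congrArg Prod.snd h3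
    rw [hF, Finset.mem_filter] at hq hq'
    exact hne (hinj q hq.1 q' hq'.1 h4)
  have hTE : ∀ q ∈ F, Dep (T q) (fun c : Conf D => ¬ Wd c (h, q.1) q.2.1 W) := fun q _ =>
    (wd_dep (h, q.1) q.2.1 W).comp Not
  have hTf : ∀ q ∈ F, (T q).Finite := fun q _ => rh_fin (h, q.1) q.2.1 W.length
  have hprod := CO.prod_dep (cellLaw w α D) F T hTf hTd (fun q c => ¬ Wd c (h, q.1) q.2.1 W) hTE
  have hdepF : Dep (⋃ q ∈ F, T q) (fun c : Conf D => ∀ q ∈ F, ¬ Wd c (h, q.1) q.2.1 W) := by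
    intro c c' hc
    refine propext (forall₂_congr fun q hq => ?_)
    have h3 : (¬ Wd c (h, q.1) q.2.1 W) = ¬ Wd c' (h, q.1) q.2.1 W :=
      hTE q hq c c' fun p hp => hc p (Set.mem_biUnion hq hp)
    rw [h3]
  have hmF : MeasurableSet {c : Conf D | ∀ q ∈ F, ¬ Wd c (h, q.1) q.2.1 W} :=
    Dep.measurableSet (F.finite_toSet.biUnion hTf) hdepF
  have hdep0 : Dep {p : Site D × ℕ | p.1.1 = h ∧ (p.1.2, p.2) ∈ Sc B (E : Set (V D × ℕ × V D))}
      (fun c : Conf D => XD (kh c h) B A = (E : Set (V D × ℕ × V D))) := by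
    intro c c' hc
    refine xd_data B A (E : Set (V D × ℕ × V D)) (kh c h) (kh c' h) fun p hp => ?_
    have h3 := hc ((h, p.1), p.2) ⟨rfl, hp⟩
    unfold kh
    rw [h3]
  have hm0 : MeasurableSet {c : Conf D | XD (kh c h) B A = (E : Set (V D × ℕ × V D))} :=
    kh_measurable h (xd_eq_meas B A (E : Set (V D × ℕ × V D)))
  have hdis : Disjoint (⋃ q ∈ F, T q) {p : Site D × ℕ | p.1.1 = h ∧ (p.1.2, p.2) ∈ Sc B (E : Set (V D × ℕ × V D))} := by
    rw [Set.disjoint_left]
    intro p hp hp'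
    obtain ⟨q, hq, h1, h2, -⟩ := Set.mem_iUnion₂.1 hp
    obtain ⟨-, -, h3⟩ := hp'
    rw [hF, Finset.mem_filter] at hq
    have h4 : q.1 = p.1.2 := by rw [h1]
    have h5 := h3 q (Finset.mem_coe.2 hq.1) h4
    have h6 : p.2 < q.2.1 := h5
    omega
  have hand := prob_and_dep (cellLaw w α D) hdis hmF hm0 hdepF hdep0
  have e1 : Q w α D {c : Conf D | (∀ q ∈ F, ¬ Wd c (h, q.1) q.2.1 W) ∧ XD (kh c h) B A = (E : Set (V D × ℕ × V D))} =
      Q w α D {c : Conf D | ∀ q ∈ F, ¬ Wd c (h, q.1) q.2.1 W} *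
        Q w α D {c : Conf D | XD (kh c h) B A = (E : Set (V D × ℕ × V D))} := hand
  have e2 : Q w α D {c : Conf D | ∀ q ∈ F, ¬ Wd c (h, q.1) q.2.1 W} =
      ∏ q ∈ F, Q w α D {c : Conf D | ¬ Wd c (h, q.1) q.2.1 W} := hprod
  rw [e1, e2, Finset.prod_congr rfl fun q _ => rh_not w α (h, q.1) q.2.1 W, Finset.prod_const]
  refine mul_le_mul' ?_ le_rfl
  exact pow_le_pow_right_of_le_one' tsub_le_self hM

theorem cont_bound (w α : Set.Ioo (0 : ℝ) 1) (h : ℤ) (B A P : Set (V D)) (hB : B.Finite) (W : List (Cell D)) (M : ℕ) :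
    Q w α D {c | M ≤ Nx (kh c h) B A P ∧ ∀ q ∈ XD (kh c h) B A, q.2.2 ∈ P → ¬ Wd c (h, q.1) q.2.1 W} ≤
      (1 - (W.map fun a => cellLaw w α D {a}).prod) ^ M := by
  classical
  have hcov : {c : Conf D | M ≤ Nx (kh c h) B A P ∧ ∀ q ∈ XD (kh c h) B A, q.2.2 ∈ P → ¬ Wd c (h, q.1) q.2.1 W} ⊆
      ⋃ E : Finset (V D × ℕ × V D), {c : Conf D | XD (kh c h) B A = (E : Set (V D × ℕ × V D)) ∧ M ≤ Nx (kh c h) B A P ∧
        ∀ q ∈ XD (kh c h) B A, q.2.2 ∈ P → ¬ Wd c (h, q.1) q.2.1 W} := by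
    rintro c ⟨h1, h2⟩
    exact Set.mem_iUnion.2 ⟨(xd_fin hB).toFinset, (Set.Finite.coe_toFinset _).symm, h1, h2⟩
  refine (measure_mono hcov).trans ((measure_iUnion_le _).trans ?_)
  refine (ENNReal.tsum_le_tsum fun E => rh_one w α h B A P W M E).trans ?_
  rw [ENNReal.tsum_mul_left]
  have hm : ∀ E : Finset (V D × ℕ × V D), MeasurableSet {c : Conf D | XD (kh c h) B A = (E : Set (V D × ℕ × V D))} :=
    fun E => kh_measurable h (xd_eq_meas B A (E : Set (V D × ℕ × V D)))
  have hd : Pairwise (Function.onFun Disjoint fun E : Finset (V D × ℕ × V D) =>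
      {c : Conf D | XD (kh c h) B A = (E : Set (V D × ℕ × V D))}) := by
    intro E E' hne
    show Disjoint _ _
    rw [Set.disjoint_left]
    intro c hc hc'
    exact hne (Finset.coe_injective ((show XD (kh c h) B A = (E : Set (V D × ℕ × V D)) from hc).symm.trans hc'))
  rw [← measure_iUnion hd hm]
  exact mul_le_of_le_one_right' prob_le_one

end FDr.HC
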