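import Pool.Agent.Lib.MP_e029a2_pr.HC.RKDef
import Pool.Agent.Lib.MP_e029a2_pr.HC.RC
import Pool.Agent.Lib.MP_e029a2_pr.HC.RE
import Pool.Agent.Lib.MP_e029a2_pr.HC.RG
import Pool.Agent.Lib.MP_e029a2_pr.HC.RH

/-!
# The ladder criterion from the survival in the hyperplanes
-/

set_option autoImplicit false

namespace FDr.HC

open MeasureTheory ProbabilityTheory
open scoped ENNReal

variable {D : ℕ}

/-- the pieces of the boundary cover the exits -/
theorem nx_le_sum (k : KC D) (n : ℕ) (b : V D) (A : Set (V D)) :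
    Nx k (Bx n b) A Set.univ ≤ ∑ p : Fin D × (Fin D → Bool), Nx k (Bx n b) A (Pc n b p.1 p.2) := by
  classical
  have hf : (XD k (Bx n b) A).Finite := xd_fin (bx_fin n b)
  have hfp : ∀ P : Set (V D), {q | q ∈ XD k (Bx n b) A ∧ q.2.2 ∈ P}.Finite := fun P => hf.subset fun q hq => hq.1
  have h1 : ∀ P : Set (V D), Nx k (Bx n b) A P = (hfp P).toFinset.card := fun P => by
    unfold Nx
    rw [Set.ncard_eq_toFinset_card _ (hfp P)]
  rw [h1, Finset.sum_congr rfl fun p _ => h1 _]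
  refine le_trans (Finset.card_le_card ?_) Finset.card_biUnion_le
  intro q hq
  rw [Set.Finite.mem_toFinset] at hq
  obtain ⟨i, σ, h2⟩ := xd_pc hq.1
  rw [Finset.mem_biUnion]
  exact ⟨(i, σ), Finset.mem_univ _, (Set.Finite.mem_toFinset _).2 ⟨hq.1, h2⟩⟩

theorem lr_xd_meas (h : ℤ) (B A : Set (V D)) (q : V D × ℕ × V D) : MeasurableSet {c : Conf D | q ∈ XD (kh c h) B A} := by
  exact kh_measurable h (xd_mem_meas B A q)

variable [NeZero D]

theorem lr_prod_pos (w α : Set.Ioo (0 : ℝ) 1) (W : List (Cell D)) : (W.map fun a => cellLaw w α D {a}).prod ≠ 0 := by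
  intro h
  rw [List.prod_eq_zero_iff, List.mem_map] at h
  obtain ⟨a, -, ha⟩ := h
  exact (cell_pos w α a).ne' ha

theorem pig (w : Set.Ioo (0 : ℝ) 1) (n r M : ℕ) (i : Fin D) (σ : Fin D → Bool) :
    KQ w D {k : KC D | D * 2 ^ D * M ≤ Nx k (Bx n 0) (Bx r 0) Set.univ} ≤
      ((D * 2 ^ D : ℕ) : ℝ≥0∞) * KQ w D {k : KC D | M ≤ Nx k (Bx n 0) (Bx r 0) (Pc n 0 i σ)} := by
  classical
  have hcard : (Finset.univ : Finset (Fin D × (Fin D → Bool))).card = D * 2 ^ D := by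
    rw [Finset.card_univ, Fintype.card_prod, Fintype.card_fin, Fintype.card_fun, Fintype.card_bool, Fintype.card_fin]
  have e1 : {k : KC D | D * 2 ^ D * M ≤ Nx k (Bx n 0) (Bx r 0) Set.univ} ⊆
      ⋃ p ∈ (Finset.univ : Finset (Fin D × (Fin D → Bool))), {k : KC D | M ≤ Nx k (Bx n 0) (Bx r 0) (Pc n 0 p.1 p.2)} := by
    intro k hk
    by_contra hn
    have h1 : ∀ p : Fin D × (Fin D → Bool), Nx k (Bx n 0) (Bx r 0) (Pc n 0 p.1 p.2) < M := by
      intro p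
      by_contra h2
      exact hn (Set.mem_biUnion (x := p) (Finset.mem_coe.2 (Finset.mem_univ p)) (not_lt.1 h2))
    have h3 : ∑ p : Fin D × (Fin D → Bool), Nx k (Bx n 0) (Bx r 0) (Pc n 0 p.1 p.2) <
        ∑ _p : Fin D × (Fin D → Bool), M :=
      Finset.sum_lt_sum_of_nonempty ⟨(i, σ), Finset.mem_univ _⟩ fun p _ => h1 p
    rw [Finset.sum_const, hcard, smul_eq_mul] at h3
    have h4 : D * 2 ^ D * M ≤ Nx k (Bx n 0) (Bx r 0) Set.univ := hk
    exact absurd (h4.trans (nx_le_sum k n 0 (Bx r 0))) (not_le.2 h3)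
  refine (measure_mono e1).trans ((measure_biUnion_finset_le _ _).trans ?_)
  have e2 : ∀ p ∈ (Finset.univ : Finset (Fin D × (Fin D → Bool))),
      KQ w D {k : KC D | M ≤ Nx k (Bx n 0) (Bx r 0) (Pc n 0 p.1 p.2)} =
        KQ w D {k : KC D | M ≤ Nx k (Bx n 0) (Bx r 0) (Pc n 0 i σ)} := fun p _ =>
    nx_pc w n r 0 p.1 i p.2 σ fun m => M ≤ m
  rw [Finset.sum_congr rfl e2, Finset.sum_const, hcard, nsmul_eq_mul]

/-- one seed: many exits in every piece of the boundary with a probability which is bounded from below -/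
theorem exits1 (w : Set.Ioo (0 : ℝ) 1) (h : 0 < ksv w D) :
    ∃ θ : ℝ, 0 < θ ∧ θ ≤ 1 ∧ ∀ M : ℕ, ∃ n : ℕ, 1 ≤ n ∧ ∀ (b : V D) (i : Fin D) (σ : Fin D → Bool),
      ENNReal.ofReal θ ≤ KQ w D {k : KC D | M ≤ Nx k (Bx n b) (Bx 0 b) (Pc n b i σ)} := by
  obtain ⟨t, ht⟩ : ∃ t : ℝ, t = (ksv w D).toReal := ⟨_, rfl⟩
  have hk1 : ksv w D ≤ 1 := prob_le_one
  have hkt : ksv w D ≠ ⊤ := ne_top_of_le_ne_top ENNReal.one_ne_top hk1
  have ht0 : 0 < t := by rw [ht]; exact ENNReal.toReal_pos h.ne' hkt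
  have ht1 : t ≤ 1 := by rw [ht]; exact ENNReal.toReal_le_of_le_ofReal (by norm_num) (by rw [ENNReal.ofReal_one]; exact hk1)
  have htk : ENNReal.ofReal t = ksv w D := by rw [ht]; exact ENNReal.ofReal_toReal hkt
  obtain ⟨C, hC⟩ : ∃ C : ℕ, C = D * 2 ^ D := ⟨_, rfl⟩
  have hC1 : 1 ≤ C := by
    rw [hC]
    exact Nat.mul_pos (Nat.pos_of_ne_zero (NeZero.ne D)) (by positivity)
  have hC1' : (1 : ℝ) ≤ C := by exact_mod_cast hC1
  refine ⟨t / 2 / C, by positivity, ?_, fun M => ?_⟩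
  · rw [div_le_one (by linarith)]
    linarith
  obtain ⟨n0, hn0⟩ := few_exits (D := D) w 0 (C * M) (t / 2) (by linarith)
  obtain ⟨n, hn⟩ : ∃ n : ℕ, n = max n0 1 := ⟨_, rfl⟩
  have hn1 : 1 ≤ n := hn ▸ le_max_right _ _
  have hn2 : n0 ≤ n := hn ▸ le_max_left _ _
  refine ⟨n, hn1, fun b i σ => ?_⟩
  rw [nx_pc w n 0 b i i σ σ fun m => M ≤ m]
  have e1 : ksv w D ≤ KQ w D {k : KC D | C * M ≤ Nx k (Bx n 0) (Bx 0 0) Set.univ} + ENNReal.ofReal (t / 2) := by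
    refine (measure_mono ?_).trans ((measure_union_le _ _).trans (add_le_add le_rfl (hn0 n hn2)))
    intro k hk
    by_cases h1 : C * M ≤ Nx k (Bx n 0) (Bx 0 0) Set.univ
    · exact Or.inl h1
    · right
      refine ⟨inf_exit (bx_fin n 0) (bx_mono (Nat.zero_le n) 0) (bx_self 0 0) hk, ?_⟩
      have h2 : {q | q ∈ XD k (Bx n 0) (Bx 0 0) ∧ q.2.2 ∈ (Set.univ : Set (V D))} = XD k (Bx n 0) (Bx 0 0) := by
        ext q
        exact ⟨fun h => h.1, fun h => ⟨h, Set.mem_univ _⟩⟩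
      have h3 : Nx k (Bx n 0) (Bx 0 0) Set.univ = (XD k (Bx n 0) (Bx 0 0)).ncard := by
        unfold Nx
        rw [h2]
      rw [← h3]
      exact not_le.1 h1
  have e2 := pig w n 0 M i σ
  rw [← hC] at e2
  rw [← htk] at e1
  have e3 : ENNReal.ofReal (t / 2) + ENNReal.ofReal (t / 2) ≤
      (C : ℝ≥0∞) * KQ w D {k : KC D | M ≤ Nx k (Bx n 0) (Bx 0 0) (Pc n 0 i σ)} + ENNReal.ofReal (t / 2) := by
    rw [← ENNReal.ofReal_add (by linarith) (by linarith), add_halves]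
    exact e1.trans (add_le_add e2 le_rfl)
  have e4 := (ENNReal.add_le_add_iff_right ENNReal.ofReal_ne_top).1 e3
  rw [ENNReal.ofReal_div_of_pos (by linarith), ENNReal.ofReal_natCast]
  refine ENNReal.div_le_of_le_mul ?_
  rwa [mul_comm]

/-- the run which covers `M` sites on both sides -/
def rlr (M : ℕ) : Run := rep (-(M : ℤ)) ++ rep (2 * (M : ℤ))

theorem vis_lr (M : ℕ) (Δ : ℤ) (h : |Δ| ≤ M) : Δ ∈ vis (rlr M) := by
  obtain ⟨h0, h1⟩ := abs_le.1 h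
  have h2 : (-(M : ℤ)).natAbs = M := by omega
  have h3 : decide (0 < -(M : ℤ)) = false := by
    rw [decide_eq_false_iff_not]
    omega
  have h4 : (2 * (M : ℤ)).natAbs = 2 * M := by omega
  obtain ⟨m, hm⟩ := Int.eq_ofNat_of_zero_le (show 0 ≤ (M : ℤ) + Δ by linarith)
  have hm2 : m ≤ 2 * M := by omega
  have hl : (rep (-(M : ℤ))).length = M := by
    unfold rep
    rw [List.length_replicate, h2]
  refine ⟨M + m, ?_, ?_⟩
  · unfold rlr
    rw [List.length_append, hl]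
    unfold rep
    rw [List.length_replicate, h4]
    omega
  · unfold rlr
    rw [List.take_append, hl, List.take_of_length_le (by rw [hl]; omega), Nat.add_sub_cancel_left]
    have h5 : dsp (rep (-(M : ℤ)) ++ (rep (2 * (M : ℤ))).take m) = dsp (rep (-(M : ℤ))) + dsp ((rep (2 * (M : ℤ))).take m) := by
      unfold dsp
      rw [List.map_append, List.sum_append]
    rw [h5, dsp_rep]
    unfold rep
    rw [h4, List.take_replicate, min_eq_left hm2]
    have h6 : dsp (List.replicate m (decide (0 < 2 * (M : ℤ)))) = m := by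
      unfold dsp
      rw [List.map_replicate, List.sum_replicate]
      rcases Nat.eq_zero_or_pos m with h7 | h7
      · rw [h7]
        simp
      · have h8 : decide (0 < 2 * (M : ℤ)) = true := by
          rw [decide_eq_true_iff]
          omega
        rw [h8]
        simp [sg]
    rw [h6]
    omega

/-- the ladder relation -/
def LR (n M : ℕ) (d : Dir D) (c : Conf D) (x : Site D) (u : V D) : Prop :=
  ∃ q ∈ XD (kh c x.1) (Bx n x.2) (Bx 0 x.2), q.2.2 = u ∧ Wd c (x.1, q.1) q.2.1 [(rlr M, d)]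

omit [NeZero D] in
theorem lr_dep_one {n M : ℕ} {d : Dir D} {c c' : Conf D} {x : Site D} {u : V D}
    (hc : ∀ q ∈ {q : Site D × ℕ | q.1.1 = x.1 ∧ q.1.2 ∈ Bx n x.2}, c q = c' q) (H : LR n M d c x u) :
    LR n M d c' x u := by
  obtain ⟨q, hq, hu, hw⟩ := H
  have h1 : XD (kh c x.1) (Bx n x.2) (Bx 0 x.2) = XD (kh c' x.1) (Bx n x.2) (Bx 0 x.2) := by
    refine xd_dep (Bx n x.2) (Bx 0 x.2) (kh c x.1) (kh c' x.1) fun p hp => ?_
    show fc (c ((x.1, p.1), p.2)) = fc (c' ((x.1, p.1), p.2))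
    rw [hc ((x.1, p.1), p.2) ⟨rfl, hp⟩]
  refine ⟨q, h1 ▸ hq, hu, fun i hi => ?_⟩
  rw [← hc ((x.1, q.1), q.2.1 + i) ⟨rfl, cb_mem hq.1⟩]
  exact hw i hi

theorem lr_meas (n M : ℕ) (d : Dir D) (x : Site D) (u : V D) : MeasurableSet {c : Conf D | LR n M d c x u} := by
  have h1 : {c : Conf D | LR n M d c x u} = ⋃ q : V D × ℕ × V D,
      ({c : Conf D | q ∈ XD (kh c x.1) (Bx n x.2) (Bx 0 x.2)} ∩
      ({_c | q.2.2 = u} ∩ {c | Wd c (x.1, q.1) q.2.1 [(rlr M, d)]})) := by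
    ext c
    rw [Set.mem_iUnion]
    constructor
    · rintro ⟨q, h2, h3, h4⟩
      exact ⟨q, h2, h3, h4⟩
    · rintro ⟨q, h2, h3, h4⟩
      exact ⟨q, h2, h3, h4⟩
  rw [h1]
  exact MeasurableSet.iUnion fun q => (lr_xd_meas _ _ _ q).inter ((MeasurableSet.const _).inter (wd_meas _ _ _))

omit [NeZero D] in
theorem bx_zero (b y : V D) (hy : y ∈ Bx 0 b) : y = b := by
  funext i
  have h1 : |y i - b i| ≤ ((0 : ℕ) : ℤ) := hy i
  rw [Nat.cast_zero] at h1
  have h2 := abs_nonpos_iff.1 h1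
  linarith

omit [NeZero D] in
theorem lr_act {n M : ℕ} {d : Dir D} {c : Conf D} {x : Site D} {u : V D} (hx : ActC c x) (H : LR n M d c x u)
    {Δ : ℤ} (h1 : |Δ| ≤ M) : ActC c (x.1 + Δ, u) := by
  obtain ⟨q, hq, hu, hw⟩ := H
  have h2 : ∀ y ∈ Bx 0 x.2, ActC c (x.1, y) := by
    intro y hy
    rw [bx_zero x.2 y hy]
    exact hx
  have h3 := cb_act c x.1 (Bx n x.2) (Bx 0 x.2) h2 hq.1
  have h4 := ent_kh c x.1 q.1 q.2.1 hq.2.1.1
  have h5 : c ((x.1, q.1), q.2.1) = (rlr M, d) := hw 0 (by simp)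
  have h6 : Δ ∈ vis (c ((x.1, q.1), q.2.1)).1 := by
    rw [h5]
    exact vis_lr M Δ h1
  have h7 := ActC.visit (x.1, q.1) q.2.1 Δ h3 h6
  rw [h4, hq.2.2, hu] at h7
  have h8 : ((x.1, u) : Site D) + (Δ, 0) = (x.1 + Δ, u) := by
    rw [Prod.mk_add_mk, add_zero]
  rwa [h8] at h7

/-- **The ladder criterion from the survival of the frog model with death in the hyperplanes.** -/
theorem critL_of_surv (w α w' : Set.Ioo (0 : ℝ) 1) (hw : runLaw w α {l | dsp l = 0} = ENNReal.ofReal (1 - w')) (D : ℕ)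
    [NeZero D] (h : 0 < ksv w' D) : CritL w α D := by
  obtain ⟨θ, hθ0, hθ1, hθ⟩ := exits1 w' h
  refine ⟨θ / 2, by linarith, by linarith, fun M => ?_⟩
  obtain ⟨d, -⟩ : ∃ d : Dir D, d = ((0 : Fin D), true) := ⟨_, rfl⟩
  obtain ⟨N, hN⟩ : ∃ N : ℕ, (1 - (([(rlr M, d)] : List (Cell D)).map fun a => cellLaw w α D {a}).prod) ^ N ≤
      ENNReal.ofReal (θ / 2) := by
    have h2 : 1 - (([(rlr M, d)] : List (Cell D)).map fun a => cellLaw w α D {a}).prod < 1 :=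
      ENNReal.sub_lt_self ENNReal.one_ne_top one_ne_zero (lr_prod_pos w α _)
    have h3 := ENNReal.tendsto_pow_atTop_nhds_zero_of_lt_one h2
    have h4 : (0 : ℝ≥0∞) < ENNReal.ofReal (θ / 2) := ENNReal.ofReal_pos.2 (by linarith)
    obtain ⟨N, hN⟩ := (h3.eventually_lt_const h4).exists
    exact ⟨N, hN.le⟩
  obtain ⟨n, hn1, hn⟩ := hθ N
  refine ⟨n, LR n M d, hn1, fun x u => lr_meas n M d x u, fun x u => ?_, fun c x u hx H Δ h1 => lr_act hx H h1,
    fun c x u H => ?_, fun x i σ => ?_⟩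
  · exact fun _ _ hc => propext ⟨lr_dep_one hc, lr_dep_one fun q hq => (hc q hq).symm⟩
  · obtain ⟨q, hq, hu, -⟩ := H
    rw [← hu]
    exact xd_near hq
  · have e0 := hn x.2 i σ
    have h1 : MeasurableSet {k : KC D | N ≤ Nx k (Bx n x.2) (Bx 0 x.2) (Pc n x.2 i σ)} :=
      xd_prop_meas (Bx n x.2) (Bx 0 x.2) (bx_fin n x.2) fun E => N ≤ {q | q ∈ E ∧ q.2.2 ∈ Pc n x.2 i σ}.ncard
    have h2 := (kh_law w α w' hw x.1).measure_preimage h1.nullMeasurableSet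
    rw [← h2, ← add_halves θ, ENNReal.ofReal_add (by linarith) (by linarith)] at e0
    have e1 : (fun c : Conf D => kh c x.1) ⁻¹' {k : KC D | N ≤ Nx k (Bx n x.2) (Bx 0 x.2) (Pc n x.2 i σ)} ⊆
        {c | ∃ u ∈ Pc n x.2 i σ, LR n M d c x u} ∪ {c | N ≤ Nx (kh c x.1) (Bx n x.2) (Bx 0 x.2) (Pc n x.2 i σ) ∧
            ∀ q ∈ XD (kh c x.1) (Bx n x.2) (Bx 0 x.2), q.2.2 ∈ Pc n x.2 i σ →
              ¬ Wd c (x.1, q.1) q.2.1 [(rlr M, d)]} := by
      intro c hc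
      by_cases h3 : ∃ u ∈ Pc n x.2 i σ, LR n M d c x u
      · exact Or.inl h3
      · right
        refine ⟨hc, fun q hq hP hW => ?_⟩
        exact h3 ⟨q.2.2, hP, q, hq, rfl, hW⟩
    have e2 := (cont_bound w α x.1 (Bx n x.2) (Bx 0 x.2) (Pc n x.2 i σ) (bx_fin n x.2) [(rlr M, d)] N).trans hN
    have e3 : ENNReal.ofReal (θ / 2) + ENNReal.ofReal (θ / 2) ≤
        Q w α D {c | ∃ u ∈ Pc n x.2 i σ, LR n M d c x u} + ENNReal.ofReal (θ / 2) :=
      e0.trans ((measure_mono e1).trans ((measure_union_le _ _).trans (add_le_add le_rfl e2)))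
    exact (ENNReal.add_le_add_iff_right ENNReal.ofReal_ne_top).1 e3

end FDr.HC
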