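import Pool.Agent.Lib.MP_e029a2_pr.HC.RDef

/-!
# Recurrence from the supercritical frog model with death in the hyperplanes: ladders

`Lad c x u`: if the frog `x` is active then the frogs `(x.1 + Δ, u)`, `|Δ| ≤ M`, are activated; `u` is at distance `n + 1` from `x.2`.
The relation depends on the frogs `(x.1, y)`, `y` in the box with the centre `x.2` and the radius `n`.
-/

set_option autoImplicit false

namespace FDr.HC

open MeasureTheory ProbabilityTheory
open scoped ENNReal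

/-- the ladder relation -/
structure LadS (w α : Set.Ioo (0 : ℝ) 1) (D : ℕ) [NeZero D] (n M : ℕ) (κ : ℝ)
    (Lad : Conf D → Site D → (Fin D → ℤ) → Prop) : Prop where
  n1 : 1 ≤ n
  meas : ∀ x u, MeasurableSet {c | Lad c x u}
  dep : ∀ x u, Dep {q : Site D × ℕ | q.1.1 = x.1 ∧ q.1.2 ∈ Bx n x.2} fun c => Lad c x u
  act : ∀ c x u, ActC c x → Lad c x u → ∀ Δ : ℤ, |Δ| ≤ M → ActC c (x.1 + Δ, u)
  near : ∀ c x u, Lad c x u → u ∈ Bx (n + 1) x.2
  piece : ∀ (x : Site D) (i : Fin D) (σ : Fin D → Bool),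
    ENNReal.ofReal κ ≤ Q w α D {c | ∃ u ∈ Pc n x.2 i σ, Lad c x u}

/-- the ladder criterion: `κ > 0` is fixed, `M` is arbitrarily large -/
def CritL (w α : Set.Ioo (0 : ℝ) 1) (D : ℕ) [NeZero D] : Prop :=
  ∃ κ : ℝ, 0 < κ ∧ κ ≤ 1 ∧ ∀ M : ℕ, ∃ n Lad, LadS w α D n M κ Lad

end FDr.HC
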