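import Pool.Agent.Lib.MP_e029a2_pr.M.UD
import Pool.Agent.Lib.MP_e029a2_pr.HC.LDef

/-!
# The steps of a macro cell before the first step `e_1`
-/

set_option autoImplicit false

namespace FDr.HC

open MeasureTheory ProbabilityTheory
open scoped ENNReal
open FDr.M
open FDr.TR (ind ind_true ind_false ind_mono ind_and ind_congr measurable_ind lintegral_ind tsum_ind_and tsum_opt
  lintegral_mul_of_disj lintegral_reindex lintegral_coord)

variable {D : ℕ}

/-- the directions before the first step `e_1` -/
def lat : MC D → LL D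
  | [] => []
  | none :: _ => []
  | some d :: a => d :: lat a

/-- a list of directions as a part of a macro cell -/
def sm (l : LL D) : MC D := l.map some

theorem sm_cons (d : Dir D) (l : LL D) : sm (d :: l) = some d :: sm l := rfl

theorem lat_sm (l : LL D) (b : MC D) : lat (sm l ++ b) = l ++ lat b := by
  induction l with
  | nil => rfl
  | cons d l ih =>
    show d :: lat (sm l ++ b) = d :: (l ++ lat b)
    rw [ih]

theorem exists_sm {a : MC D} (h : ∀ x ∈ a, x ≠ none) : ∃ l, a = sm l := by
  induction a with
  | nil => exact ⟨[], rfl⟩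
  | cons x a ih =>
    obtain ⟨l, hl⟩ := ih fun y hy => h y (List.mem_cons_of_mem _ hy)
    cases x with
    | none => exact absurd rfl (h none List.mem_cons_self)
    | some d => exact ⟨d :: l, by rw [hl]; rfl⟩

theorem lsum_nil : lsum ([] : LL D) = 0 := rfl

theorem lsum_cons (d : Dir D) (l : LL D) : lsum (d :: l) = dv d + lsum l := by
  unfold lsum
  rw [List.map_cons, List.sum_cons]

theorem lsum_append (l l' : LL D) : lsum (l ++ l') = lsum l + lsum l' := by
  unfold lsum
  rw [List.map_append, List.sum_append]

theorem mdsp_sm (l : LL D) : mdsp (sm l) = (0, lsum l) := by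
  induction l with
  | nil => rfl
  | cons d l ih =>
    rw [sm_cons, mdsp_cons, ih, lsum_cons]
    show ((0 : ℤ), dv d) + ((0 : ℤ), lsum l) = _
    rw [Prod.mk_add_mk, add_zero]

theorem lat_nil_iff (a : MC D) : lat a = [] ↔ a = [] ∨ ∃ l, a = none :: l ∧ True := by
  cases a with
  | nil => exact ⟨fun _ => Or.inl rfl, fun _ => rfl⟩
  | cons x a =>
    cases x with
    | none => exact ⟨fun _ => Or.inr ⟨a, rfl, trivial⟩, fun _ => rfl⟩
    | some d =>
      constructor
      · intro h
        exact absurd h (List.cons_ne_nil _ _)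
      · rintro (h | ⟨l, h, -⟩)
        · exact absurd h (List.cons_ne_nil _ _)
        · exact absurd (List.cons.inj h).1 (Option.some_ne_none _)

theorem lat_eq_iff (a : MC D) (l : LL D) : lat a = l ↔ ∃ b, a = sm l ++ b ∧ lat b = [] := by
  constructor
  · intro h
    induction l generalizing a with
    | nil => exact ⟨a, rfl, h⟩
    | cons d l ih =>
      cases a with
      | nil => exact absurd h.symm (List.cons_ne_nil _ _)
      | cons x a =>
        cases x with
        | none => exact absurd h.symm (List.cons_ne_nil _ _)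
        | some d' =>
          have h1 : d' :: lat a = d :: l := h
          obtain ⟨b, h2, h3⟩ := ih a (List.cons.inj h1).2
          refine ⟨b, ?_, h3⟩
          rw [(List.cons.inj h1).1, h2]
          rfl
  · rintro ⟨b, h1, h2⟩
    rw [h1, lat_sm, h2, List.append_nil]

variable (w α : Set.Ioo (0 : ℝ) 1)

/-- the probability of a further step -/
noncomputable def qw (w : Set.Ioo (0 : ℝ) 1) : Set.Ioo (0 : ℝ) 1 := ⟨1 - w, by
  have := w.2.1
  have := w.2.2
  constructor <;> linarith⟩

theorem qw_coe (w : Set.Ioo (0 : ℝ) 1) : ((qw w : Set.Ioo (0 : ℝ) 1) : ℝ) = 1 - w := rfl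

theorem pw_sm (l : LL D) : M.pw w α (sm l) = (l.map fun _ => ENNReal.ofReal ((1 - (w : ℝ)) / (2 * D))).prod := by
  unfold M.pw sm
  rw [List.map_map]
  rfl

variable [NeZero D]

theorem lat_law_one (l : LL D) : mcLaw w α D {a | lat a = l} = lwM (qw w) D {l} := by
  have h1 : {a : MC D | lat a = l} = {a | ∃ b, a = sm l ++ b ∧ lat b = []} := by
    ext a
    exact lat_eq_iff a l
  have hw := w.2.1
  have hw1 := w.2.2
  have ha := α.2.1
  have ha1 := α.2.2
  have hD : (0 : ℝ) < D := Nat.cast_pos.2 (Nat.pos_of_ne_zero (NeZero.ne D))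
  rw [h1, mc_prefix w α (sm l) fun b => lat b = [], lw_one, pw_sm]
  have h2 : {a : MC D | lat a = []} = {[]} ∪ {a | ∃ l, a = none :: l ∧ True} := by
    ext a
    exact lat_nil_iff a
  have h3 : mcLaw w α D {a : MC D | lat a = []} = ENNReal.ofReal w := by
    rw [h2, measure_union (by
      rw [Set.disjoint_left]
      rintro a h4 ⟨l, h5, -⟩
      rw [Set.mem_singleton_iff] at h4
      rw [h4] at h5
      exact absurd h5.symm (List.cons_ne_nil _ _)) MeasurableSet.of_discrete, mc_one, mc_cons w α none fun _ => True]
    have h6 : {l : MC D | True} = Set.univ := Set.eq_univ_of_forall fun _ => trivial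
    rw [h6, measure_univ, mul_one]
    have h7 : mcW w α D [] = w * (1 - α) / 2 := by
      unfold mcW
      rw [List.map_nil, List.prod_nil, mul_one]
      rfl
    have h8 : mwt w α D none = w * (1 + α) / 2 := rfl
    rw [h7, h8, ← ENNReal.ofReal_add (by
      have : 0 ≤ 1 - (α : ℝ) := by linarith
      positivity) (by positivity)]
    congr 1
    ring
  rw [h3]
  unfold lwW
  rw [qw_coe, List.map_const', List.prod_replicate]
  rw [ENNReal.ofReal_mul (by linarith), ENNReal.ofReal_pow (by
    have : 0 ≤ 1 - (w : ℝ) := by linarith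
    positivity), mul_comm]
  congr 2
  ring

theorem lat_law : Measure.map lat (mcLaw w α D) = lwM (qw w) D := by
  refine Measure.ext_of_singleton fun l => ?_
  rw [Measure.map_apply (measurable_of_countable _) (measurableSet_singleton _)]
  exact lat_law_one w α l

/-- all the lateral prefixes -/
theorem sum_pw_sm : ∑' l : LL D, M.pw w α (sm l) = (ENNReal.ofReal w)⁻¹ := by
  have hw := w.2.1
  have hw1 := w.2.2
  have hD : (0 : ℝ) < D := Nat.cast_pos.2 (Nat.pos_of_ne_zero (NeZero.ne D))
  rw [tsum_congr fun l => pw_sm w α l, tsum_list, ENNReal.tsum_geometric]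
  congr 1
  rw [Finset.sum_const, Finset.card_univ, Fintype.card_prod, Fintype.card_fin, Fintype.card_bool, nsmul_eq_mul,
    ← ENNReal.ofReal_natCast, ← ENNReal.ofReal_mul (by positivity), ← ENNReal.ofReal_one, ← ENNReal.ofReal_sub _ (by
      have : 0 ≤ 1 - (w : ℝ) := by linarith
      positivity)]
  congr 1
  push_cast
  field_simp
  ring

end FDr.HC
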