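import Pool.Agent.Lib.MP_e029a2_pr.HC.U1

/-!
# The hyperplanes of the process with macro cells: every activated frog of the hyperplane `x` belongs to the cluster of a
site which is visited after an entry
-/

set_option autoImplicit false

namespace FDr.HC

open MeasureTheory ProbabilityTheory
open scoped ENNReal
open FDr.M FDr.MT
open FDr.TR (ind ind_true ind_false ind_mono ind_and ind_congr measurable_ind lintegral_ind tsum_ind_and tsum_opt
  lintegral_mul_of_disj lintegral_reindex lintegral_coord)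

variable {D : ℕ}

theorem ovis_iff' {c : OConf D} {o : Option (Site D)} {y : Site D} :
    OVis 0 c (o, 0) y ↔ ∃ a1 a2, c (o, 0) = a1 ++ a2 ∧ o.getD 0 + mdsp a1 = y := by
  have h0 : oent 0 c o 0 = o.getD 0 := by
    unfold oent
    rw [Finset.sum_range_zero, add_zero]
  constructor
  · rintro ⟨_, ⟨i, h1, rfl⟩, h2⟩
    refine ⟨(c (o, 0)).take i, (c (o, 0)).drop i, (List.take_append_drop i _).symm, ?_⟩
    rw [← h2]
    simp only
    rw [h0]
  · rintro ⟨a1, a2, h1, h2⟩
    refine ⟨mdsp a1, ⟨a1.length, ?_, ?_⟩, ?_⟩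
    · rw [h1, List.length_append]
      exact Nat.le_add_right _ _
    · rw [h1, List.take_left' rfl]
    · simp only
      rw [h0]
      exact h2

/-- the sites on the left of the hyperplane `x` -/
def lef (x : ℤ) : Set (Site D) := {y | y.1 < x}

theorem ent_lef {c : OConf D} {x : ℤ} {n : ℕ} {e : Ix D} (h : Ent Set.univ 0 c n e) (h0 : n = 0)
    (hx : e.1 = none ∨ (e.1.getD 0).1 < x) : Ent (lef x) 0 c 0 e := by
  induction h with
  | src n => exact Ent.src _
  | cont n o j _ _ => exact absurd h0 (Nat.succ_ne_zero n)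
  | wake n e y he _ hv ih =>
    subst h0
    have h1 : e = (e.1, 0) := Prod.ext rfl (Nat.le_zero.1 he.frog.2)
    have hy : y.1 < x := by
      rcases hx with hx | hx
      · exact absurd hx (Option.some_ne_none _)
      · exact hx
    refine Ent.wake _ e y (ih rfl ?_) hy hv
    right
    rw [h1] at hv
    obtain ⟨a1, a2, -, h3⟩ := ovis_iff'.1 hv
    have h4 := mdsp_fst_nonneg a1
    have h5 : (e.1.getD 0).1 + (mdsp a1).1 = y.1 := by
      rw [← h3]
      rfl
    linarith

theorem ent_col' {F : Set (Site D)} {c : OConf D} {n : ℕ} {e : Ix D} (h : Ent F 0 c n e) (h0 : n = 0) :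
    0 ≤ (e.1.getD 0).1 := by
  induction h with
  | src n => exact le_rfl
  | cont n o j _ _ => exact absurd h0 (Nat.succ_ne_zero n)
  | wake n e y he _ hv ih =>
    subst h0
    have h1 : e = (e.1, 0) := Prod.ext rfl (Nat.le_zero.1 he.frog.2)
    rw [h1] at hv
    obtain ⟨a1, a2, -, h3⟩ := ovis_iff'.1 hv
    have h4 := mdsp_fst_nonneg a1
    have h5 : (e.1.getD 0).1 + (mdsp a1).1 = y.1 := by
      rw [← h3]
      rfl
    have h6 := ih rfl
    show 0 ≤ y.1
    linarith

theorem path_end' {y0 y : Site D} {a1 : MC D} (h : y0 + mdsp a1 = y) :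
    (y0.1 = y.1 ∧ ∀ x ∈ a1, x ≠ none) ∨ ∃ l1 l3, a1 = l1 ++ none :: l3 ∧ (∀ x ∈ l3, x ≠ none) ∧
      (y0 + mdsp (l1 ++ [none])).1 = y.1 ∧ y0.1 < y.1 ∧ y = y0 + mdsp (l1 ++ [none]) + mdsp l3 := by
  rcases split_last a1 with h1 | ⟨l1, l3, h1, h2⟩
  · left
    refine ⟨?_, h1⟩
    rw [← h, Prod.fst_add, mdsp_fst_zero a1 h1, add_zero]
  · right
    have h3 : a1 = (l1 ++ [none]) ++ l3 := by
      rw [h1, List.append_assoc]
      rfl
    have h4 : y = y0 + mdsp (l1 ++ [none]) + mdsp l3 := by
      rw [← h, h3, mdsp_append (l1 ++ [none]) l3, add_assoc]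
    have h5 : (y0 + mdsp (l1 ++ [none])).1 = y.1 := by
      rw [h4, Prod.fst_add (y0 + _), mdsp_fst_zero l3 h2, add_zero]
    refine ⟨l1, l3, h1, h2, h5, ?_, h4⟩
    rw [← h5, mdsp_append, Prod.fst_add, Prod.fst_add]
    have h6 := mdsp_fst_nonneg l1
    have h7 : (mdsp ([none] : MC D)).1 = 1 := by
      rw [mdsp_cons, vec_none, mdsp_nil]
      rfl
    rw [h7]
    omega

/-- the lateral parts of the frogs of the hyperplane `x` -/
def colc (c : OConf D) (x : ℤ) : LC D := fun v => lat (c (some (x, v), 0))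

/-- **The decomposition.** -/
theorem col_decomp {c : OConf D} {x : ℤ} {n : ℕ} {e : Ix D} (he : Ent Set.univ 0 c n e) (hn : n = 0) (v : V D)
    (hv : e.1 = some (x, v)) :
    (x = 0 ∧ ∃ l b : MC D, ∃ l', l = sm l' ∧ c (none, 0) = l ++ b ∧ LCl (colc c x) (lsum l') v) ∨
    ∃ (o : Option (Site D)) (l1 b : MC D) (l' : LL D), Ent (lef x) 0 c 0 (o, 0) ∧ c (o, 0) = (l1 ++ [none] ++ sm l') ++ b ∧
      (o.getD 0 + mdsp (l1 ++ [none])).1 = x ∧ (o = none ∨ (o.getD 0).1 < x) ∧
      LCl (colc c x) ((o.getD 0 + mdsp (l1 ++ [none])).2 + lsum l') v := by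
  induction he generalizing v with
  | src n => exact absurd hv (Option.some_ne_none _).symm
  | cont n o j _ _ => exact absurd hn (Nat.succ_ne_zero n)
  | wake n e y he _ hvis ih =>
    subst hn
    have h1 : e = (e.1, 0) := Prod.ext rfl (Nat.le_zero.1 he.frog.2)
    obtain ⟨o, ho⟩ : ∃ o, o = e.1 := ⟨_, rfl⟩
    rw [← ho] at h1
    subst h1
    have hy : y = (x, v) := Option.some_injective _ hv
    subst hy
    obtain ⟨a1, a2, h2, h3⟩ := ovis_iff'.1 hvis
    rcases path_end' h3 with ⟨h4, h5⟩ | ⟨l1, l3, h4, h5, h6, h7, h8⟩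
    · -- the same hyperplane
      obtain ⟨l, hl⟩ := exists_sm h5
      rw [hl, mdsp_sm] at h3
      cases o with
      | none =>
        left
        have h6 : (0 : ℤ) = x := h4
        refine ⟨h6.symm, sm l, a2, l, rfl, by rw [h2, hl], ?_⟩
        have h7 : lsum l = v := by
          have h8 := congrArg Prod.snd h3
          have h9 : (0 : V D) + lsum l = v := h8
          rwa [zero_add] at h9
        rw [h7]
        exact LCl.start
      | some y' =>
        obtain ⟨x', v'⟩ := y'
        have h6 : x' = x := h4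
        subst h6
        have h7 : v' + lsum l = v := congrArg Prod.snd h3
        have h8 : colc c x' v' = l ++ lat a2 := by
          unfold colc
          rw [h2, hl, lat_sm]
        have h9 : ∀ y0 : V D, LCl (colc c x') y0 v' → LCl (colc c x') y0 v := by
          intro y0 h10
          have h11 := LCl.next v' l.length h10
          rw [h8, List.take_left' rfl, h7] at h11
          exact h11
        rcases ih rfl v' rfl with ⟨i1, l0, b, l', i2, i3, i4⟩ | ⟨o', l1, b, l', i1, i2, i3, i4, i5⟩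
        · exact Or.inl ⟨i1, l0, b, l', i2, i3, h9 _ i4⟩
        · exact Or.inr ⟨o', l1, b, l', i1, i2, i3, i4, h9 _ i5⟩
    · -- an entry
      right
      obtain ⟨l, hl⟩ := exists_sm h5
      refine ⟨o, l1, a2, l, ent_lef he rfl (Or.inr h7), ?_, h6, Or.inr h7, ?_⟩
      · rw [h2, h4, hl]
        simp
      · have h9 : (o.getD 0 + mdsp (l1 ++ [none])).2 + lsum l = v := by
          have h10 := congrArg Prod.snd h8
          rw [hl, mdsp_sm] at h10
          exact h10.symm
        rw [h9]
        exact LCl.start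

end FDr.HC
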