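import Pool.Agent.Lib.MP_e029a2_pr.HC.U3

/-!
# The mean number of the activated frogs of a hyperplane: the recursion
-/

set_option autoImplicit false

namespace FDr.HC

open MeasureTheory ProbabilityTheory
open scoped ENNReal
open FDr.M FDr.MT
open FDr.TR (ind ind_true ind_false ind_mono ind_and ind_congr measurable_ind lintegral_ind tsum_ind_and tsum_opt
  lintegral_mul_of_disj lintegral_reindex lintegral_coord)

variable {D : ℕ} (w α : Set.Ioo (0 : ℝ) 1) [NeZero D]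

/-- the mean number of the activated frogs of the hyperplane `x` -/
noncomputable def ga (w α : Set.Ioo (0 : ℝ) 1) (D : ℕ) [NeZero D] (x : ℤ) : ℝ≥0∞ := ∑' v : V D, actM w α ((x, v) : Site D)

theorem actM_neg' {x : ℤ} (hx : x < 0) (v : V D) : actM w α ((x, v) : Site D) = 0 := by
  unfold actM
  have h1 : {c : OConf D | Ent Set.univ 0 c 0 (some ((x, v) : Site D), 0)} = ∅ :=
    Set.eq_empty_iff_forall_notMem.2 fun c hc => by
      have h2 : 0 ≤ x := ent_col' hc rfl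
      omega
  rw [h1, measure_empty]

theorem ga_neg {x : ℤ} (hx : x < 0) : ga w α D x = 0 := by
  unfold ga
  rw [ENNReal.tsum_eq_zero]
  exact fun v => actM_neg' w α hx v

theorem sum_ple (x : ℕ) : ∑' y : Site D, ple w α x (some y) ≤ ∑ m ∈ Finset.range x, ga w α D m := by
  have h1 : ∀ y : Site D, ple w α x (some y) ≤ TR.ind (0 ≤ y.1 ∧ y.1 < x) * actM w α y := by
    intro y
    by_cases h : 0 ≤ y.1 ∧ y.1 < x
    · rw [ind_true h, one_mul]
      exact measure_mono fun c hc => Ent.mono hc (Set.subset_univ _) le_rfl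
    · have h2 : {c : OConf D | Ent (lef x) 0 c 0 (some y, 0)} = ∅ :=
        Set.eq_empty_iff_forall_notMem.2 fun c hc => h ⟨ent_col' hc rfl, (hc.frog).1 y rfl⟩
      unfold ple
      rw [h2, measure_empty]
      exact zero_le
  refine (ENNReal.tsum_le_tsum h1).trans ?_
  rw [ENNReal.tsum_prod (f := fun (a : ℤ) (v : Fin D → ℤ) => TR.ind (0 ≤ a ∧ a < x) * actM w α ((a, v) : Site D))]
  have h3 : ∀ a : ℤ, ∑' v : Fin D → ℤ, TR.ind (0 ≤ a ∧ a < x) * actM w α ((a, v) : Site D) =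
      TR.ind (0 ≤ a ∧ a < x) * (fun m : ℕ => TR.ind (m < x) * ga w α D m) a.toNat := by
    intro a
    rw [ENNReal.tsum_mul_left]
    by_cases h : 0 ≤ a ∧ a < x
    · rw [ind_true h, one_mul, one_mul]
      show _ = TR.ind (a.toNat < x) * ga w α D ((a.toNat : ℕ) : ℤ)
      rw [ind_true (by omega), one_mul, Int.toNat_of_nonneg h.1]
      rfl
    · rw [ind_false h, zero_mul, zero_mul]
  rw [tsum_congr h3, sum_range_ind]
  exact tsum_inj_le _ _ _ fun i i' h h' he => by omega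

omit [NeZero D] in
theorem pw_append (a b : MC D) : M.pw w α (a ++ b) = M.pw w α a * M.pw w α b := by
  unfold M.pw
  rw [List.map_append, List.prod_append]

/-- the entries of one frog -/
noncomputable def entr (w α : Set.Ioo (0 : ℝ) 1) (D : ℕ) (x : ℤ) (o : Option (Site D)) : ℝ≥0∞ :=
  ∑' l1 : MC D, TR.ind ((o.getD 0 + mdsp (l1 ++ [none])).1 = x) * M.pw w α (l1 ++ [none])

theorem mdsp_none (l1 : MC D) : (mdsp (l1 ++ [none])).1 = (mdsp l1).1 + 1 := by
  rw [mdsp_append, Prod.fst_add, mdsp_cons, vec_none, mdsp_nil]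
  rfl

theorem entr_le (x : ℤ) (o : Option (Site D)) : entr w α D x o ≤ 1 := by
  refine le_trans (ENNReal.tsum_le_tsum fun l1 => ?_) (sum_pw_le w α (D := D) (x - 1 - (o.getD 0).1))
  refine mul_le_mul' (ind_mono fun h => ?_) le_rfl
  rw [Prod.fst_add, mdsp_none] at h
  linarith

theorem entr_none : entr w α D 0 none = 0 := by
  unfold entr
  rw [ENNReal.tsum_eq_zero]
  intro l1
  rw [ind_false, zero_mul]
  intro h
  rw [Prod.fst_add, mdsp_none] at h
  have h1 := mdsp_fst_nonneg l1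
  have h2 : ((none : Option (Site D)).getD 0).1 = 0 := rfl
  rw [h2] at h
  omega

/-- **The recursion.** -/
theorem ga_step (x : ℕ) : ga w α D x ≤ (ENNReal.ofReal w)⁻¹ * chi (qw w) D * (1 + ∑ m ∈ Finset.range x, ga w α D m) := by
  -- the union bound
  have h1 : ∀ v : V D, actM w α (((x : ℤ), v) : Site D) ≤
      TR.ind ((x : ℤ) = 0) * ∑' l' : LL D, OQ w α D {c | (Ent (lef (x : ℤ)) 0 c 0 (none, 0) ∧
        ∃ b, c (none, 0) = sm l' ++ b ∧ True) ∧ LCl (colc c x) (lsum l') v} +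
      ∑' (o : Option (Site D)), ∑' (l1 : MC D), ∑' (l' : LL D),
        TR.ind (((o.getD 0 + mdsp (l1 ++ [none])).1 = (x : ℤ)) ∧ (o = none ∨ (o.getD 0).1 < (x : ℤ))) *
        OQ w α D {c | (Ent (lef (x : ℤ)) 0 c 0 (o, 0) ∧ ∃ b, c (o, 0) = (l1 ++ [none] ++ sm l') ++ b ∧ True) ∧
          LCl (colc c x) ((o.getD 0 + mdsp (l1 ++ [none])).2 + lsum l') v} := by
    intro v
    obtain ⟨S1, hS1⟩ : ∃ S1 : LL D → Set (OConf D), S1 = fun l' => {c | (Ent (lef (x : ℤ)) 0 c 0 (none, 0) ∧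
        ∃ b, c (none, 0) = sm l' ++ b ∧ True) ∧ LCl (colc c x) (lsum l') v} := ⟨_, rfl⟩
    obtain ⟨S2, hS2⟩ : ∃ S2 : Option (Site D) → MC D → LL D → Set (OConf D), S2 = fun o l1 l' =>
        {c | (Ent (lef (x : ℤ)) 0 c 0 (o, 0) ∧ ∃ b, c (o, 0) = (l1 ++ [none] ++ sm l') ++ b ∧ True) ∧
          LCl (colc c x) ((o.getD 0 + mdsp (l1 ++ [none])).2 + lsum l') v} := ⟨_, rfl⟩
    have h2 : {c : OConf D | Ent Set.univ 0 c 0 (some ((x : ℤ), v), 0)} ⊆
        (⋃ l' : LL D, {c | (x : ℤ) = 0 ∧ c ∈ S1 l'}) ∪ ⋃ (o : Option (Site D)), ⋃ (l1 : MC D), ⋃ (l' : LL D),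
          {c | (((o.getD 0 + mdsp (l1 ++ [none])).1 = (x : ℤ)) ∧ (o = none ∨ (o.getD 0).1 < (x : ℤ))) ∧
            c ∈ S2 o l1 l'} := by
      intro c hc
      rcases col_decomp hc rfl v rfl with ⟨i1, l, b, l', i2, i3, i4⟩ | ⟨o, l1, b, l', i1, i2, i3, i4, i5⟩
      · left
        refine Set.mem_iUnion.2 ⟨l', i1, ?_⟩
        rw [hS1]
        exact ⟨⟨Ent.src _, b, by rw [i3, i2], trivial⟩, i4⟩
      · right
        refine Set.mem_iUnion.2 ⟨o, Set.mem_iUnion.2 ⟨l1, Set.mem_iUnion.2 ⟨l', ⟨i3, i4⟩, ?_⟩⟩⟩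
        rw [hS2]
        exact ⟨⟨i1, b, i2, trivial⟩, i5⟩
    have h3 : ∀ (p : Prop) (S : Set (OConf D)), OQ w α D {c | p ∧ c ∈ S} = TR.ind p * OQ w α D S := by
      intro p S
      by_cases hp : p
      · rw [ind_true hp, one_mul]
        congr 1
        ext c
        exact ⟨fun h => h.2, fun h => ⟨hp, h⟩⟩
      · rw [ind_false hp, zero_mul]
        have h4 : {c : OConf D | p ∧ c ∈ S} = ∅ := Set.eq_empty_iff_forall_notMem.2 fun c hc => hp hc.1
        rw [h4, measure_empty]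
    unfold actM
    refine (measure_mono h2).trans ((measure_union_le _ _).trans (add_le_add ?_ ?_))
    · refine (measure_iUnion_le _).trans ?_
      rw [← ENNReal.tsum_mul_left]
      refine ENNReal.tsum_le_tsum fun l' => ?_
      rw [h3, hS1]
    · refine (measure_iUnion_le _).trans (ENNReal.tsum_le_tsum fun o => (measure_iUnion_le _).trans
        (ENNReal.tsum_le_tsum fun l1 => (measure_iUnion_le _).trans (ENNReal.tsum_le_tsum fun l' => ?_)))
      rw [h3, hS2]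
  obtain ⟨K, hK⟩ : ∃ K, K = chi (qw w) D := ⟨_, rfl⟩
  have hp0 : ple w α (x : ℤ) (none : Option (Site D)) = 1 := by
    unfold ple
    have h9 : {c : OConf D | Ent (lef (x : ℤ)) 0 c 0 (none, 0)} = Set.univ := Set.eq_univ_of_forall fun c => Ent.src _
    rw [h9, measure_univ]
  have hA : ∑' v : V D, TR.ind ((x : ℤ) = 0) * ∑' l' : LL D, OQ w α D {c | (Ent (lef (x : ℤ)) 0 c 0 (none, 0) ∧
        ∃ b, c (none, 0) = sm l' ++ b ∧ True) ∧ LCl (colc c x) (lsum l') v} =
      TR.ind ((x : ℤ) = 0) * ((ENNReal.ofReal w)⁻¹ * K) := by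
    rw [ENNReal.tsum_mul_left, ENNReal.tsum_comm]
    congr 1
    have h4 : ∀ l' : LL D, ∑' v : V D, OQ w α D {c | (Ent (lef (x : ℤ)) 0 c 0 (none, 0) ∧
        ∃ b, c (none, 0) = sm l' ++ b ∧ True) ∧ LCl (colc c x) (lsum l') v} = M.pw w α (sm l') * K := by
      intro l'
      have h5 : ∀ v : V D, OQ w α D {c | (Ent (lef (x : ℤ)) 0 c 0 (none, 0) ∧
          ∃ b, c (none, 0) = sm l' ++ b ∧ True) ∧ LCl (colc c x) (lsum l') v} =
          M.pw w α (sm l') * LQ (qw w) D {c | LCl c (lsum l') v} := by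
        intro v
        rw [term_prob w α (x : ℤ) none (Or.inl rfl) (sm l') (lsum l') v, hp0, one_mul]
      rw [tsum_congr h5, ENNReal.tsum_mul_left, chi_shift, hK]
    rw [tsum_congr h4, ENNReal.tsum_mul_right, sum_pw_sm]
  have hB : ∑' v : V D, ∑' (o : Option (Site D)), ∑' (l1 : MC D), ∑' (l' : LL D),
        TR.ind (((o.getD 0 + mdsp (l1 ++ [none])).1 = (x : ℤ)) ∧ (o = none ∨ (o.getD 0).1 < (x : ℤ))) *
        OQ w α D {c | (Ent (lef (x : ℤ)) 0 c 0 (o, 0) ∧ ∃ b, c (o, 0) = (l1 ++ [none] ++ sm l') ++ b ∧ True) ∧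
          LCl (colc c x) ((o.getD 0 + mdsp (l1 ++ [none])).2 + lsum l') v} ≤
      ∑' o : Option (Site D), ple w α (x : ℤ) o * entr w α D (x : ℤ) o * ((ENNReal.ofReal w)⁻¹ * K) := by
    rw [ENNReal.tsum_comm]
    refine ENNReal.tsum_le_tsum fun o => ?_
    rw [ENNReal.tsum_comm]
    unfold entr
    rw [mul_assoc, ← ENNReal.tsum_mul_right, ← ENNReal.tsum_mul_left]
    refine ENNReal.tsum_le_tsum fun l1 => ?_
    rw [ENNReal.tsum_comm]
    by_cases h6 : ((o.getD 0 + mdsp (l1 ++ [none])).1 = (x : ℤ)) ∧ (o = none ∨ (o.getD 0).1 < (x : ℤ))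
    · rw [ind_true h6, ind_true h6.1]
      have h4 : ∀ l' : LL D, ∑' v : V D, 1 * OQ w α D {c | (Ent (lef (x : ℤ)) 0 c 0 (o, 0) ∧
          ∃ b, c (o, 0) = (l1 ++ [none] ++ sm l') ++ b ∧ True) ∧
          LCl (colc c x) ((o.getD 0 + mdsp (l1 ++ [none])).2 + lsum l') v} =
          ple w α (x : ℤ) o * (M.pw w α (l1 ++ [none]) * (M.pw w α (sm l') * K)) := by
        intro l'
        have h5 : ∀ v : V D, 1 * OQ w α D {c | (Ent (lef (x : ℤ)) 0 c 0 (o, 0) ∧
            ∃ b, c (o, 0) = (l1 ++ [none] ++ sm l') ++ b ∧ True) ∧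
            LCl (colc c x) ((o.getD 0 + mdsp (l1 ++ [none])).2 + lsum l') v} =
            ple w α (x : ℤ) o * (M.pw w α (l1 ++ [none]) * M.pw w α (sm l')) *
              LQ (qw w) D {c | LCl c ((o.getD 0 + mdsp (l1 ++ [none])).2 + lsum l') v} := by
          intro v
          rw [one_mul, term_prob w α (x : ℤ) o h6.2 (l1 ++ [none] ++ sm l') _ v, pw_append w α (l1 ++ [none])]
        rw [tsum_congr h5, ENNReal.tsum_mul_left, chi_shift, hK]
        ring
      rw [tsum_congr h4, ENNReal.tsum_mul_left, ENNReal.tsum_mul_left, ENNReal.tsum_mul_right, sum_pw_sm, one_mul]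
    · rw [ind_false h6]
      have h7 : ∑' (l' : LL D), ∑' (v : V D), 0 * OQ w α D {c | (Ent (lef (x : ℤ)) 0 c 0 (o, 0) ∧
          ∃ b, c (o, 0) = (l1 ++ [none] ++ sm l') ++ b ∧ True) ∧
          LCl (colc c x) ((o.getD 0 + mdsp (l1 ++ [none])).2 + lsum l') v} = 0 := by
        simp only [zero_mul, tsum_zero]
      rw [h7]
      exact zero_le
  have hC : ga w α D x ≤ TR.ind ((x : ℤ) = 0) * ((ENNReal.ofReal w)⁻¹ * K) +
      ∑' o : Option (Site D), ple w α (x : ℤ) o * entr w α D (x : ℤ) o * ((ENNReal.ofReal w)⁻¹ * K) := by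
    unfold ga
    refine (ENNReal.tsum_le_tsum h1).trans ?_
    rw [ENNReal.tsum_add]
    exact add_le_add hA.le hB
  refine hC.trans ?_
  rw [← hK, ENNReal.tsum_mul_right, ← add_mul, mul_comm]
  refine mul_le_mul' le_rfl ?_
  rw [tsum_opt, hp0, one_mul, ← add_assoc]
  refine add_le_add ?_ ?_
  · by_cases hx : (x : ℤ) = 0
    · rw [ind_true hx, hx, entr_none, add_zero]
    · rw [ind_false hx, zero_add]
      exact entr_le w α _ _
  · refine le_trans (ENNReal.tsum_le_tsum fun y => ?_) (sum_ple w α x)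
    calc ple w α (x : ℤ) (some y) * entr w α D (x : ℤ) (some y) ≤ ple w α (x : ℤ) (some y) * 1 :=
          mul_le_mul' le_rfl (entr_le w α _ _)
      _ = _ := mul_one _

end FDr.HC
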