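import Pool.Agent.Lib.MP_e029a2_pr.HC.U4
import Pool.Agent.Lib.MP_e029a2_pr.M.UE
import Pool.Agent.Lib.MP_e029a2_pr.M.TG

/-!
# Transience for `α` close to one from the mean number `chi` of the activated sites of the model with death
-/

set_option autoImplicit false

namespace FDr.HC

open MeasureTheory ProbabilityTheory
open scoped ENNReal
open FDr.M FDr.MT
open FDr.TR (ind ind_true ind_false ind_mono ind_and ind_congr measurable_ind lintegral_ind tsum_ind_and tsum_opt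
  lintegral_mul_of_disj lintegral_reindex lintegral_coord)

variable {D : ℕ} (w α : Set.Ioo (0 : ℝ) 1) [NeZero D]

theorem ga_sum {k : ℝ} (hk : 0 ≤ k) (h : (ENNReal.ofReal w)⁻¹ * chi (qw w) D ≤ ENNReal.ofReal k) (x : ℕ) :
    1 + ∑ m ∈ Finset.range x, ga w α D m ≤ ENNReal.ofReal ((1 + k) ^ x) := by
  induction x with
  | zero => simp
  | succ x ih =>
    rw [Finset.sum_range_succ, ← add_assoc]
    calc 1 + ∑ m ∈ Finset.range x, ga w α D m + ga w α D x
        ≤ ENNReal.ofReal ((1 + k) ^ x) + ENNReal.ofReal k * ENNReal.ofReal ((1 + k) ^ x) := by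
          refine add_le_add ih ((ga_step w α x).trans (mul_le_mul' h ih))
      _ = ENNReal.ofReal ((1 + k) ^ (x + 1)) := by
          rw [← ENNReal.ofReal_mul hk, ← ENNReal.ofReal_add (by positivity) (by positivity)]
          congr 1
          ring

theorem ga_le {k : ℝ} (hk : 0 ≤ k) (h : (ENNReal.ofReal w)⁻¹ * chi (qw w) D ≤ ENNReal.ofReal k) (x : ℕ) :
    ga w α D x ≤ ENNReal.ofReal (k * (1 + k) ^ x) := by
  refine (ga_step w α x).trans ?_
  rw [ENNReal.ofReal_mul hk]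
  exact mul_le_mul' h (ga_sum w α hk h x)

/-- **The mean number of the visited sites.** -/
theorem Ug_le' {k : ℝ} (hk : 0 ≤ k) (h : (ENNReal.ofReal w)⁻¹ * chi (qw w) D ≤ ENNReal.ofReal k) :
    UgM w α D (1 / (2 * (1 + k))) ≤ ENNReal.ofReal (2 * k) := by
  have hx := ga_le w α hk h
  have h0 : 0 < 1 + k := by linarith
  unfold UgM
  rw [ENNReal.tsum_prod (f := fun (a : ℤ) (v : Fin D → ℤ) => actM w α ((a, v) : Site D) *
    ENNReal.ofReal ((1 / (2 * (1 + k)) : ℝ) ^ a))]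
  have h1 : ∀ a : ℤ, ∑' v : Fin D → ℤ, actM w α ((a, v) : Site D) * ENNReal.ofReal ((1 / (2 * (1 + k)) : ℝ) ^ a) ≤
      TR.ind (0 ≤ a) * (fun m : ℕ => ENNReal.ofReal (k * (1 / 2) ^ m)) a.toNat := by
    intro a
    rw [ENNReal.tsum_mul_right]
    change ga w α D a * _ ≤ _
    by_cases h : 0 ≤ a
    · obtain ⟨m, rfl⟩ : ∃ m : ℕ, (m : ℤ) = a := ⟨a.toNat, Int.toNat_of_nonneg h⟩
      rw [ind_true h, one_mul]
      show _ ≤ ENNReal.ofReal (k * (1 / 2) ^ ((m : ℤ).toNat))
      rw [Int.toNat_natCast, zpow_natCast]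
      refine (mul_le_mul' (hx m) le_rfl).trans ?_
      rw [← ENNReal.ofReal_mul (by positivity)]
      refine ENNReal.ofReal_le_ofReal (le_of_eq ?_)
      rw [mul_assoc, ← mul_pow]
      congr 2
      field_simp
    · rw [ga_neg w α (not_le.1 h), zero_mul]
      exact zero_le
  refine (ENNReal.tsum_le_tsum h1).trans ((tsum_inj_le (fun m : ℕ => ENNReal.ofReal (k * (1 / 2) ^ m))
    (fun a : ℤ => 0 ≤ a) (fun a => a.toNat) fun i i' h h' he => by omega).trans ?_)
  have hs : Summable fun m : ℕ => k * (1 / 2 : ℝ) ^ m := (summable_geometric_of_lt_one (by norm_num) (by norm_num)).mul_left _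
  rw [← ENNReal.ofReal_tsum_of_nonneg (fun m => by positivity) hs, tsum_mul_left,
    tsum_geometric_of_lt_one (by norm_num) (by norm_num)]
  refine ENNReal.ofReal_le_ofReal (le_of_eq ?_)
  norm_num
  ring

/-- the factor of a step -/
theorem vec_pow' {s : ℝ} (hs : 0 < s) (a : MC D) :
    ENNReal.ofReal (s ^ (mvec a).1) = ENNReal.ofReal s⁻¹ * (a.map fun x => ENNReal.ofReal (s ^ (vec (mw x)).1)).prod := by
  have h1 : (mvec a).1 = -1 + (mdsp a).1 := by
    unfold mvec
    rw [Prod.fst_add]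
    ring
  rw [h1, ofReal_zpow_add hs, zpow_neg_one]
  congr 1
  induction a with
  | nil =>
    rw [mdsp_nil, List.map_nil, List.prod_nil]
    simp
  | cons x a ih =>
    have h2 : (mvec a).1 = -1 + (mdsp a).1 := by
      unfold mvec
      rw [Prod.fst_add]
      ring
    rw [mdsp_cons, Prod.fst_add, ofReal_zpow_add hs, List.map_cons, List.prod_cons, ih h2]

theorem map_mul_prod' (f g : MS D → ℝ≥0∞) (a : MC D) :
    (a.map f).prod * (a.map g).prod = (a.map fun x => f x * g x).prod := by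
  induction a with
  | nil => simp
  | cons x a ih =>
    rw [List.map_cons, List.prod_cons, List.map_cons, List.prod_cons, List.map_cons, List.prod_cons, ← ih]
    ring

theorem kap_le' {s : ℝ} (hs : 0 < s) (hs2 : s ≤ 1 / 2) : kapM w α D s ≤ ENNReal.ofReal ((1 - α) / s) := by
  have hw := w.2.1
  have hw1 := w.2.2
  have ha := α.2.1
  have ha1 := α.2.2
  have hD : (0 : ℝ) < D := Nat.cast_pos.2 (Nat.pos_of_ne_zero (NeZero.ne D))
  unfold kapM
  have h1 : ∀ g : MC D → ℝ≥0∞, ∫⁻ a, g a ∂mcLaw w α D = ∑' a, ENNReal.ofReal (mcW w α D a) * g a := by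
    intro g
    unfold mcLaw
    rw [lintegral_sum_measure]
    refine tsum_congr fun a => ?_
    rw [lintegral_smul_measure, lintegral_dirac, smul_eq_mul]
  rw [h1]
  have h2 : ∀ a : MC D, ENNReal.ofReal (mcW w α D a) * ENNReal.ofReal (s ^ (mvec a).1) =
      ENNReal.ofReal (wt w α D (Sum.inl false)) * ENNReal.ofReal s⁻¹ *
        (a.map fun x => ENNReal.ofReal (mwt w α D x) * ENNReal.ofReal (s ^ (vec (mw x)).1)).prod := by
    intro a
    rw [mcW_ofReal, vec_pow' hs, ← map_mul_prod']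
    ring
  rw [tsum_congr h2, ENNReal.tsum_mul_left, tsum_list, ENNReal.tsum_geometric]
  have h3 : ∑ x : MS D, ENNReal.ofReal (mwt w α D x) * ENNReal.ofReal (s ^ (vec (mw x)).1) =
      ENNReal.ofReal (w * (1 + α) / 2 * s + (1 - w)) := by
    rw [Fintype.sum_option]
    have h4 : ∀ d : Dir D, ENNReal.ofReal (mwt w α D (some d)) *
        ENNReal.ofReal (s ^ (vec (mw (some d : MS D))).1) = ENNReal.ofReal ((1 - w) / (2 * D)) := by
      intro d
      have h5 : (vec (mw (some d : MS D))).1 = 0 := rfl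
      rw [h5, zpow_zero, ENNReal.ofReal_one, mul_one]
      rfl
    rw [Finset.sum_congr rfl fun d _ => h4 d, Finset.sum_const, Finset.card_univ, Fintype.card_prod,
      Fintype.card_fin, Fintype.card_bool, vec_none]
    have h5 : mwt (w : ℝ) α D none = w * (1 + α) / 2 := rfl
    have h6 : 0 ≤ 1 - (w : ℝ) := by linarith
    rw [h5, nsmul_eq_mul, ← ENNReal.ofReal_natCast, ← ENNReal.ofReal_mul (by positivity),
      ← ENNReal.ofReal_mul (by positivity), zpow_one,
      ← ENNReal.ofReal_add (by positivity) (by positivity)]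
    congr 1
    push_cast
    field_simp
  rw [h3]
  have h5 : (1 + (α : ℝ)) / 2 * s ≤ 1 / 2 := by nlinarith
  have h6 : 0 < (w : ℝ) - w * (1 + α) / 2 * s := by nlinarith
  have h7 : (1 : ℝ≥0∞) - ENNReal.ofReal (w * (1 + α) / 2 * s + (1 - w)) = ENNReal.ofReal (w - w * (1 + α) / 2 * s) := by
    rw [← ENNReal.ofReal_one, ← ENNReal.ofReal_sub _ (by
      have : 0 ≤ (w : ℝ) * (1 + α) / 2 * s := by positivity
      linarith)]
    congr 1
    ring
  rw [h7, ← ENNReal.ofReal_mul (wt_pos w.2 α.2 D _).le, ← ENNReal.ofReal_inv_of_pos h6, ← ENNReal.ofReal_mul (by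
    have := (wt_pos w.2 α.2 D (Sum.inl false)).le
    positivity)]
  refine ENNReal.ofReal_le_ofReal ?_
  have h8 : wt (w : ℝ) α D (Sum.inl false) = w * (1 - α) / 2 := rfl
  rw [h8, ← div_eq_mul_inv, div_le_div_iff₀ h6 hs]
  have h9 : 0 ≤ 1 - (α : ℝ) := by linarith
  have h10 : (w : ℝ) / 2 ≤ w - w * (1 + α) / 2 * s := by nlinarith
  have h11 := mul_le_mul_of_nonneg_left h10 h9
  have h12 : w * (1 - (α : ℝ)) / 2 * s⁻¹ * s = (1 - (α : ℝ)) * (w / 2) := by
    field_simp
  rw [h12]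
  exact h11

/-- **The mean is small.** -/
theorem mfun_lt' {k : ℝ} (hk : 0 ≤ k) (h : (ENNReal.ofReal w)⁻¹ * chi (qw w) D ≤ ENNReal.ofReal k)
    (h8 : (1 - (α : ℝ)) * (2 * (1 + k)) * (1 + 2 * k) < 1) : mfunM w α D (1 / (2 * (1 + k))) < 1 := by
  have ha1 := α.2.2
  unfold mfunM
  have h0 : 0 < 1 + k := by linarith
  have h1 := kap_le' w α (D := D) (s := 1 / (2 * (1 + k))) (by positivity) (by
    rw [div_le_div_iff₀ (by positivity) (by norm_num)]
    linarith)
  have h2 := Ug_le' w α hk h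
  calc kapM w α D (1 / (2 * (1 + k))) * (1 + UgM w α D (1 / (2 * (1 + k))))
      ≤ ENNReal.ofReal ((1 - α) / (1 / (2 * (1 + k)))) * (ENNReal.ofReal 1 + ENNReal.ofReal (2 * k)) := by
        rw [ENNReal.ofReal_one]
        gcongr
    _ = ENNReal.ofReal ((1 - (α : ℝ)) * (2 * (1 + k)) * (1 + 2 * k)) := by
        rw [← ENNReal.ofReal_add (by norm_num) (by positivity), ← ENNReal.ofReal_mul (by
          have : 0 ≤ 1 - (α : ℝ) := by linarith
          positivity)]
        congr 1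
        field_simp
    _ < 1 := by
        rw [← ENNReal.ofReal_one, ENNReal.ofReal_lt_ofReal_iff (by norm_num)]
        exact h8

/-- **Transience for `α` close to one**, uniformly in the `w` with a bounded mean `chi`. -/
theorem chi_transient (D : ℕ) [NeZero D] {w₀ C : ℝ} (hw₀ : 0 < w₀) (hC : 0 ≤ C) : ∃ α₀ : ℝ, 0 < α₀ ∧ α₀ < 1 ∧
    ∀ w α : Set.Ioo (0 : ℝ) 1, α₀ < (α : ℝ) → w₀ ≤ (w : ℝ) → chi (qw w) D ≤ ENNReal.ofReal C →
      ∀ {Ω : Type*} [MeasurableSpace Ω] (μ : Measure Ω) (ξ : Site D → ℕ → Ω → Stp D), IsFrog D w α μ ξ →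
        ∀ᵐ ω ∂μ, (visits fun x n => ξ x n ω).Finite := by
  obtain ⟨k, hk⟩ : ∃ k, k = C / w₀ := ⟨_, rfl⟩
  have hk0 : 0 ≤ k := by
    rw [hk]
    positivity
  have h2k : 0 < 2 * (1 + k) * (1 + 2 * k) := by positivity
  have h2k1 : 1 < 2 * (1 + k) * (1 + 2 * k) := by nlinarith
  refine ⟨1 - 1 / (2 * (1 + k) * (1 + 2 * k)), ?_, ?_, fun w α hα hw hc Ω _ μ ξ hF => ?_⟩
  · have h1 : 1 / (2 * (1 + k) * (1 + 2 * k)) < 1 := by
      rw [div_lt_one h2k]
      exact h2k1
    linarith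
  · have : 0 < 1 / (2 * (1 + k) * (1 + 2 * k)) := by positivity
    linarith
  · have h1 : (ENNReal.ofReal w)⁻¹ * chi (qw w) D ≤ ENNReal.ofReal k := by
      have h2 : (ENNReal.ofReal (w : ℝ))⁻¹ ≤ ENNReal.ofReal w₀⁻¹ := by
        rw [ENNReal.ofReal_inv_of_pos hw₀]
        exact ENNReal.inv_le_inv.2 (ENNReal.ofReal_le_ofReal hw)
      refine (mul_le_mul' h2 hc).trans ?_
      rw [← ENNReal.ofReal_mul (by positivity), hk]
      refine ENNReal.ofReal_le_ofReal (le_of_eq ?_)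
      rw [div_eq_mul_inv, mul_comm]
    have h3 : (1 - (α : ℝ)) * (2 * (1 + k)) * (1 + 2 * k) < 1 := by
      have h4 : 1 - (α : ℝ) < 1 / (2 * (1 + k) * (1 + 2 * k)) := by linarith
      have h5 := mul_lt_mul_of_pos_right h4 h2k
      rw [one_div, inv_mul_cancel₀ h2k.ne'] at h5
      linarith
    have h4 : 0 < 1 / (2 * (1 + k)) := by positivity
    exact M.transfer_finM w α D μ ξ hF (MT.trans w α D h4 (mfun_lt' w α hk0 h1 h3))

end FDr.HC
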